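import Pool.Agent.Helper49.GL.S1

namespace GLR

/-- GI-Q5. Schwarz lemma with nodes in the disc of radius `ρ` (as `schwarz_zero` of GI-S1, via
`entire_factor` and the maximum modulus principle). -/
theorem schwarz_zero' (f : ℂ → ℂ) (hf : Differentiable ℂ f) (S : Finset ℂ)
    (hS : ∀ x ∈ S, f x = 0) (ρ r R M : ℝ) (hρ : 0 ≤ ρ) (hS1 : ∀ x ∈ S, ‖x‖ ≤ ρ) (hr : 0 ≤ r)
    (hrR : r ≤ R) (hR : ρ < R) (hM : ∀ z, ‖z‖ ≤ R → ‖f z‖ ≤ M) (z : ℂ) (hz : ‖z‖ ≤ r) :
    ‖f z‖ ≤ ((r + ρ) / (R - ρ)) ^ S.card * M := by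
  obtain ⟨h, hh, hfh⟩ := entire_factor f hf S hS
  have hR0 : 0 < R - ρ := by linarith
  have hM0 : 0 ≤ M := le_trans (norm_nonneg _) (hM 0 (by rw [norm_zero]; linarith))
  have hpow : 0 < (R - ρ) ^ S.card := pow_pos hR0 _
  -- the bound on the circle
  have hcirc : ∀ w ∈ frontier (Metric.ball (0 : ℂ) R), ‖h w‖ ≤ M / (R - ρ) ^ S.card := by
    intro w hw
    rw [frontier_ball (0 : ℂ) (by linarith), mem_sphere_zero_iff_norm] at hw
    have h1 : (R - ρ) ^ S.card ≤ ‖∏ x ∈ S, (w - x)‖ := by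
      rw [norm_prod]
      calc (R - ρ) ^ S.card = ∏ _x ∈ S, (R - ρ) := by rw [Finset.prod_const]
        _ ≤ ∏ x ∈ S, ‖w - x‖ := Finset.prod_le_prod (fun _ _ => hR0.le) (fun x hx => by
            have h2 := norm_sub_norm_le w x
            have h3 := hS1 x hx
            linarith)
    have h2 : ‖∏ x ∈ S, (w - x)‖ * ‖h w‖ ≤ M := by
      rw [← norm_mul, ← hfh w]
      exact hM w hw.le
    rw [le_div_iff₀ hpow]
    calc ‖h w‖ * (R - ρ) ^ S.card ≤ ‖h w‖ * ‖∏ x ∈ S, (w - x)‖ :=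
          mul_le_mul_of_nonneg_left h1 (norm_nonneg _)
      _ = ‖∏ x ∈ S, (w - x)‖ * ‖h w‖ := mul_comm _ _
      _ ≤ M := h2
  have hball : ‖h z‖ ≤ M / (R - ρ) ^ S.card := by
    refine Complex.norm_le_of_forall_mem_frontier_norm_le Metric.isBounded_ball
      hh.diffContOnCl hcirc ?_
    rw [closure_ball (0 : ℂ) (by linarith), mem_closedBall_zero_iff]
    linarith
  have hprod : ‖∏ x ∈ S, (z - x)‖ ≤ (r + ρ) ^ S.card := by
    rw [norm_prod]
    calc ∏ x ∈ S, ‖z - x‖ ≤ ∏ _x ∈ S, (r + ρ) :=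
          Finset.prod_le_prod (fun _ _ => norm_nonneg _) (fun x hx => by
            have h2 := norm_sub_le z x
            have h3 := hS1 x hx
            linarith)
      _ = (r + ρ) ^ S.card := by rw [Finset.prod_const]
  rw [hfh z, norm_mul, div_pow]
  calc ‖∏ x ∈ S, (z - x)‖ * ‖h z‖ ≤ (r + ρ) ^ S.card * (M / (R - ρ) ^ S.card) :=
        mul_le_mul hprod hball (norm_nonneg _) (by positivity)
    _ = (r + ρ) ^ S.card / (R - ρ) ^ S.card * M := by ring

private theorem q5_ne {ι : Type} [Fintype ι] [DecidableEq ι] {y : ι → ℂ} {μ : ℝ}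
    (hμ : 0 < μ) (hsep : ∀ i, μ ≤ ∏ j ∈ Finset.univ.erase i, ‖y i - y j‖) {i j : ι}
    (hij : i ≠ j) : y i - y j ≠ 0 := by
  intro h0
  have h1 := hsep i
  rw [Finset.prod_eq_zero (Finset.mem_erase.mpr ⟨hij.symm, Finset.mem_univ j⟩)
    (by rw [h0, norm_zero])] at h1
  linarith

/-- GI-Q5. Lagrange interpolation with general nodes. -/
theorem lagrange_gen (f : ℂ → ℂ) {ι : Type} [Fintype ι] [DecidableEq ι] (y : ι → ℂ) (ρ μ ε : ℝ)
    (hρ : ∀ i, ‖y i‖ ≤ ρ) (hμ : 0 < μ) (hsep : ∀ i, μ ≤ ∏ j ∈ Finset.univ.erase i, ‖y i - y j‖)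
    (hε : ∀ i, ‖f (y i)‖ ≤ ε) :
    ∃ L : ℂ → ℂ, Differentiable ℂ L ∧ (∀ i, L (y i) = f (y i)) ∧
      ∀ z, ‖L z‖ ≤ Fintype.card ι * ε * (‖z‖ + ρ) ^ (Fintype.card ι - 1) / μ := by
  have hne : ∀ i j, i ≠ j → y i - y j ≠ 0 := fun i j hij => q5_ne hμ hsep hij
  refine ⟨fun z => ∑ i, f (y i) * ∏ j ∈ Finset.univ.erase i,
    ((z - y j) / (y i - y j)), ?_, ?_, ?_⟩
  · intro z
    fun_prop
  · intro i
    have h1 : ∀ k ∈ (Finset.univ : Finset ι), k ≠ i → f (y k) * ∏ j ∈ Finset.univ.erase k,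
        ((y i - y j) / (y k - y j)) = 0 := by
      intro k _ hk
      rw [Finset.prod_eq_zero (Finset.mem_erase.mpr ⟨fun e => hk e.symm, Finset.mem_univ i⟩),
        mul_zero]
      rw [sub_self, zero_div]
    have h2 : (∏ j ∈ Finset.univ.erase i, ((y i - y j) / (y i - y j))) = 1 := by
      refine Finset.prod_eq_one fun j hj => ?_
      exact div_self (hne i j (Finset.ne_of_mem_erase hj).symm)
    change (∑ k, f (y k) * ∏ j ∈ Finset.univ.erase k, ((y i - y j) / (y k - y j))) = f (y i)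
    rw [Finset.sum_eq_single i h1 (fun h => absurd (Finset.mem_univ i) h), h2, mul_one]
  · intro z
    have hterm : ∀ i ∈ (Finset.univ : Finset ι), ‖f (y i) * ∏ j ∈ Finset.univ.erase i,
        ((z - y j) / (y i - y j))‖ ≤ ε * (‖z‖ + ρ) ^ (Fintype.card ι - 1) / μ := by
      intro i _
      have hρ0 : 0 ≤ ρ := (norm_nonneg _).trans (hρ i)
      have hε0 : 0 ≤ ε := (norm_nonneg _).trans (hε i)
      have hp : ‖∏ j ∈ Finset.univ.erase i, ((z - y j) / (y i - y j))‖ ≤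
          (‖z‖ + ρ) ^ (Fintype.card ι - 1) / μ := by
        rw [Finset.prod_div_distrib, norm_div, norm_prod, norm_prod]
        have h1 : ∏ j ∈ Finset.univ.erase i, ‖z - y j‖ ≤
            (‖z‖ + ρ) ^ (Fintype.card ι - 1) := by
          calc ∏ j ∈ Finset.univ.erase i, ‖z - y j‖
              ≤ ∏ _j ∈ Finset.univ.erase i, (‖z‖ + ρ) :=
                Finset.prod_le_prod (fun j _ => norm_nonneg _) fun j _ =>
                  (norm_sub_le _ _).trans (by linarith [hρ j])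
            _ = (‖z‖ + ρ) ^ (Fintype.card ι - 1) := by
                rw [Finset.prod_const, Finset.card_erase_of_mem (Finset.mem_univ i),
                  Finset.card_univ]
        exact div_le_div₀ (by positivity) h1 hμ (hsep i)
      rw [norm_mul, mul_div_assoc]
      exact mul_le_mul (hε i) hp (norm_nonneg _) hε0
    calc ‖∑ i, f (y i) * ∏ j ∈ Finset.univ.erase i, ((z - y j) / (y i - y j))‖
        ≤ ∑ _i : ι, ε * (‖z‖ + ρ) ^ (Fintype.card ι - 1) / μ := norm_sum_le_of_le _ hterm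
      _ = Fintype.card ι * ε * (‖z‖ + ρ) ^ (Fintype.card ι - 1) / μ := by
          rw [Finset.sum_const, Finset.card_univ, nsmul_eq_mul]
          ring

/-- GI-Q5. Schwarz lemma with small values at general nodes, `R = 8 r`, nodes in the disc of radius
`r ≥ 1`: `(r + r) / (8 r - r) = 2/7`; `(8 r + r)^(T-1) ≤ (9 r)^T`. The nodes are distinct because
`μ > 0` (if `y i = y j` the product is `0`). -/
theorem schwarz_gen (f : ℂ → ℂ) (hf : Differentiable ℂ f) {ι : Type} [Fintype ι] [DecidableEq ι]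
    (y : ι → ℂ) (r μ ε M : ℝ) (hr : 1 ≤ r) (hρ : ∀ i, ‖y i‖ ≤ r) (hμ : 0 < μ) (hε0 : 0 ≤ ε)
    (hsep : ∀ i, μ ≤ ∏ j ∈ Finset.univ.erase i, ‖y i - y j‖)
    (hε : ∀ i, ‖f (y i)‖ ≤ ε) (hM : ∀ z, ‖z‖ ≤ 8 * r → ‖f z‖ ≤ M) (z : ℂ) (hz : ‖z‖ ≤ r) :
    ‖f z‖ ≤ (2 / 7 : ℝ) ^ (Fintype.card ι) * M
      + 2 * (Fintype.card ι * ε * (9 * r) ^ (Fintype.card ι) / μ) := by
  obtain ⟨L, hL, hLx, hLb⟩ := lagrange_gen f y r μ ε hρ hμ hsep hε
  have hinj : Function.Injective y := by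
    intro i j hij
    by_contra hne
    exact q5_ne hμ hsep hne (sub_eq_zero.mpr hij)
  have hcard : (Finset.univ.image y).card = Fintype.card ι := by
    rw [Finset.card_image_of_injective _ hinj, Finset.card_univ]
  obtain ⟨B, hB⟩ : ∃ B, B = Fintype.card ι * ε * (9 * r) ^ (Fintype.card ι) / μ := ⟨_, rfl⟩
  have hB0 : 0 ≤ B := by
    rw [hB]
    have : 0 ≤ 9 * r := by linarith
    positivity
  have hLR : ∀ w : ℂ, ‖w‖ ≤ 8 * r → ‖L w‖ ≤ B := by
    intro w hw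
    refine (hLb w).trans ?_
    rw [hB]
    refine div_le_div_of_nonneg_right ?_ hμ.le
    refine mul_le_mul_of_nonneg_left ?_ (by positivity)
    have h0 := norm_nonneg w
    calc (‖w‖ + r) ^ (Fintype.card ι - 1) ≤ (9 * r) ^ (Fintype.card ι - 1) :=
          pow_le_pow_left₀ (by linarith) (by linarith) _
      _ ≤ (9 * r) ^ (Fintype.card ι) := pow_le_pow_right₀ (by linarith) (Nat.sub_le _ _)
  have key := schwarz_zero' (fun w => f w - L w) (hf.sub hL)
    (Finset.univ.image y) ?_ r r (8 * r) (M + B) (by linarith) ?_ (by linarith) (by linarith)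
    (by linarith) ?_ z hz
  · rw [hcard] at key
    have h27 : (r + r) / (8 * r - r) = 2 / 7 := by
      have : r ≠ 0 := by linarith
      rw [show 8 * r - r = 7 * r by ring, show r + r = 2 * r by ring]
      field_simp
    rw [h27] at key
    have h1 : (2 / 7 : ℝ) ^ (Fintype.card ι) ≤ 1 := pow_le_one₀ (by norm_num) (by norm_num)
    have h2 : (2 / 7 : ℝ) ^ (Fintype.card ι) * B ≤ B := by nlinarith
    have h3 := hLR z (by linarith)
    rw [← hB]
    calc ‖f z‖ = ‖(f z - L z) + L z‖ := by rw [sub_add_cancel]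
      _ ≤ ‖f z - L z‖ + ‖L z‖ := norm_add_le _ _
      _ ≤ (2 / 7 : ℝ) ^ (Fintype.card ι) * (M + B) + B := add_le_add key h3
      _ ≤ (2 / 7 : ℝ) ^ (Fintype.card ι) * M + 2 * B := by linarith
  · intro w hw
    obtain ⟨i, _, rfl⟩ := Finset.mem_image.mp hw
    rw [hLx i, sub_self]
  · intro w hw
    obtain ⟨i, _, rfl⟩ := Finset.mem_image.mp hw
    exact hρ i
  · intro w hw
    exact (norm_sub_le _ _).trans (add_le_add (hM w hw) (hLR w hw))

end GLR
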