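import Pool.Agent.Helper49.GL.Q4
import Pool.Agent.Helper49.GL.Q5

namespace GLR

private theorem q6_pt_norm (k : ℕ) : ‖pt k‖ = 2 * Real.pi * k := by
  unfold pt
  rw [norm_mul, Complex.norm_I, mul_one, Complex.norm_real, Real.norm_eq_abs,
    abs_of_nonneg (by positivity)]

private theorem q6_im (k k' : ℕ) (a b : ℝ) :
    (pt k + (a : ℂ) - (pt k' + (b : ℂ))).im = 2 * Real.pi * ((k : ℝ) - k') := by
  unfold pt
  simp
  ring

private theorem q6_far {k k' : ℕ} (h : k ≠ k') (a b : ℝ) :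
    1 ≤ ‖pt k + (a : ℂ) - (pt k' + (b : ℂ))‖ := by
  refine le_trans ?_ (Complex.abs_im_le_norm _)
  rw [q6_im, abs_mul, abs_of_nonneg (by positivity : (0 : ℝ) ≤ 2 * Real.pi)]
  have h1 : (1 : ℝ) ≤ |(k : ℝ) - k'| := by
    have h2 : (1 : ℤ) ≤ |(k : ℤ) - k'| := Int.one_le_abs (by omega)
    have h3 : ((1 : ℤ) : ℝ) ≤ ((|(k : ℤ) - k'| : ℤ) : ℝ) := by exact_mod_cast h2
    push_cast at h3
    exact h3
  have h2 : (1 : ℝ) ≤ 2 * Real.pi := by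
    have := Real.pi_gt_three
    linarith
  nlinarith

private theorem q6_near {j j' : ℕ} (h : j ≠ j') (k : ℕ) {δ : ℝ} (hδ : 0 < δ) :
    δ ≤ ‖pt k + ((δ * j : ℝ) : ℂ) - (pt k + ((δ * j' : ℝ) : ℂ))‖ := by
  have e : pt k + ((δ * j : ℝ) : ℂ) - (pt k + ((δ * j' : ℝ) : ℂ)) =
      ((δ * ((j : ℝ) - j') : ℝ) : ℂ) := by
    push_cast
    ring
  rw [e, Complex.norm_real, Real.norm_eq_abs, abs_mul, abs_of_pos hδ]
  have h1 : (1 : ℝ) ≤ |(j : ℝ) - j'| := by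
    have h2 : (1 : ℤ) ≤ |(j : ℤ) - j'| := Int.one_le_abs (by omega)
    have h3 : ((1 : ℤ) : ℝ) ≤ ((|(j : ℤ) - j'| : ℤ) : ℝ) := by exact_mod_cast h2
    push_cast at h3
    exact h3
  nlinarith

private theorem q6_sep {K S : ℕ} {δ : ℝ} (hδ0 : 0 < δ) (hδ1 : δ ≤ 1) (i : Fin K × Fin S) :
    δ ^ (S - 1) ≤ ∏ i' ∈ Finset.univ.erase i,
      ‖pt (i.1 : ℕ) + ((δ * (i.2 : ℕ) : ℝ) : ℂ) - (pt (i'.1 : ℕ) + ((δ * (i'.2 : ℕ) : ℝ) : ℂ))‖ := by
  classical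
  obtain ⟨k, j⟩ := i
  have h1 : ∏ i' ∈ Finset.univ.erase ((k, j) : Fin K × Fin S), (if i'.1 = k then δ else 1) ≤
      ∏ i' ∈ Finset.univ.erase ((k, j) : Fin K × Fin S),
      ‖pt (k : ℕ) + ((δ * (j : ℕ) : ℝ) : ℂ) - (pt (i'.1 : ℕ) + ((δ * (i'.2 : ℕ) : ℝ) : ℂ))‖ := by
    refine Finset.prod_le_prod (fun i' _ => ?_) (fun i' hi' => ?_)
    · split_ifs
      · exact hδ0.le
      · exact zero_le_one
    · obtain ⟨k', j'⟩ := i'
      have hne := (Finset.mem_erase.mp hi').1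
      simp only
      split_ifs with hk
      · subst hk
        refine q6_near (fun h => hne ?_) _ hδ0
        rw [Fin.ext h]
      · exact q6_far (fun h => hk (Fin.ext h.symm)) _ _
  refine le_trans ?_ h1
  rw [Finset.prod_ite, Finset.prod_const_one, mul_one, Finset.prod_const]
  refine pow_le_pow_of_le_one hδ0.le hδ1 ?_
  have h2 : (Finset.univ.erase ((k, j) : Fin K × Fin S)).filter (fun i' => i'.1 = k) ⊆
      (Finset.univ.erase j).image (fun j' => (k, j')) := by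
    rintro ⟨k', j'⟩ h
    rw [Finset.mem_filter, Finset.mem_erase] at h
    obtain ⟨⟨h3, -⟩, h4⟩ := h
    simp only at h4
    subst h4
    rw [Finset.mem_image]
    refine ⟨j', Finset.mem_erase.mpr ⟨fun h => h3 (by rw [h]), Finset.mem_univ _⟩, rfl⟩
  have h3 := Finset.card_le_card h2
  have h4 := h3.trans Finset.card_image_le
  rw [Finset.card_erase_of_mem (Finset.mem_univ j), Finset.card_univ, Fintype.card_fin] at h4
  exact h4

/-- GI-Q6. SCHWARZ LEMMA WITH MULTIPLICITIES. Nodes `y (k, j) = 2 π i k + δ j`, `k < K`, `j < S`,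
`δ = exp (-G/(2S))`, `S δ ≤ 1/2`. By `near_small` the values at the nodes are at most
`3 exp (-G) + 2 M (S δ)^S`. Separation: nodes with different `k` have distance `≥ 2 π ≥ 1`, nodes
with the same `k` distance `≥ δ`, so the products are `≥ μ := δ^(S-1)`. Then
`(3 exp (-G) + 2 M S^S δ^S) / δ^(S-1) ≤ (3 + 2 M S^S) δ` (`exp (-G) ≤ δ^S δ^S`), and
`schwarz_gen` with index type `Fin K × Fin S`. (`M ≥ 0` follows from `hM`.) -/
theorem multi_schwarz (f : ℂ → ℂ) (hf : Differentiable ℂ f) {K S : ℕ} (hK : 1 ≤ K) (hS : 1 ≤ S)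
    (G : ℝ) (hG : 0 ≤ G) (hsm : ∀ k < K, ∀ s < S, ‖iteratedDeriv s f (pt k)‖ ≤ Real.exp (-G))
    (hδ : S * Real.exp (-(G / (2 * S))) ≤ 1 / 2) (r M : ℝ) (hr : 7 * (K : ℝ) + 1 ≤ r)
    (hM : ∀ z, ‖z‖ ≤ 8 * r → ‖f z‖ ≤ M) (z : ℂ) (hz : ‖z‖ ≤ r) :
    ‖f z‖ ≤ (2 / 7 : ℝ) ^ (K * S) * M
      + 2 * ((K * S : ℕ) * ((3 + 2 * M * (S : ℝ) ^ S) * Real.exp (-(G / (2 * S))))
        * (9 * r) ^ (K * S)) := by
  classical
  have hK' : (1 : ℝ) ≤ K := by exact_mod_cast hK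
  have hS' : (1 : ℝ) ≤ S := by exact_mod_cast hS
  have hr1 : 1 ≤ r := by linarith
  have hM0 : 0 ≤ M := le_trans (norm_nonneg _) (hM 0 (by rw [norm_zero]; linarith))
  set δ : ℝ := Real.exp (-(G / (2 * S))) with hδdef
  have hδ0 : 0 < δ := Real.exp_pos _
  have hδ1 : δ ≤ 1 := by nlinarith
  have hexp : Real.exp (-G) = δ ^ S * δ ^ S := by
    rw [hδdef, ← pow_add, ← Real.exp_nat_mul]
    congr 1
    push_cast
    field_simp
    ring
  have hδS : δ ^ S ≤ 1 := pow_le_one₀ hδ0.le hδ1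
  have hδS0 : 0 < δ ^ S := pow_pos hδ0 S
  have hptK : ∀ k : Fin K, ‖pt (k : ℕ)‖ ≤ 7 * K - 6 := by
    intro k
    rw [q6_pt_norm]
    have h1 : ((k : ℕ) : ℝ) + 1 ≤ K := by exact_mod_cast k.isLt
    have h2 := Real.pi_lt_d2
    have h3 := Real.pi_pos
    have h4 : (0 : ℝ) ≤ ((k : ℕ) : ℝ) := Nat.cast_nonneg _
    nlinarith
  have hu : ∀ j : Fin S, ‖((δ * (j : ℕ) : ℝ) : ℂ)‖ ≤ S * δ := by
    intro j
    have h1 : ((j : ℕ) : ℝ) ≤ S := by exact_mod_cast j.isLt.le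
    rw [Complex.norm_real, Real.norm_eq_abs, abs_of_nonneg (by positivity)]
    nlinarith
  set ε₁ : ℝ := (3 + 2 * M * (S : ℝ) ^ S) * δ ^ S with hε₁
  have hε0 : 0 ≤ ε₁ := by positivity
  have hval : ∀ i : Fin K × Fin S,
      ‖f (pt (i.1 : ℕ) + ((δ * (i.2 : ℕ) : ℝ) : ℂ))‖ ≤ ε₁ := by
    rintro ⟨k, j⟩
    have h1 := near_small f hf (pt (k : ℕ)) S (Real.exp (-G)) M (Real.exp_pos _).le
      (fun s hs => hsm k k.isLt s hs)
      (fun z hz => hM z (by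
        have h2 : ‖z‖ ≤ ‖z - pt (k : ℕ)‖ + ‖pt (k : ℕ)‖ := by
          have h3 := norm_add_le (z - pt (k : ℕ)) (pt (k : ℕ))
          rwa [sub_add_cancel] at h3
        have h3 := hptK k
        linarith)) ((δ * (j : ℕ) : ℝ) : ℂ) ((hu j).trans hδ)
    refine h1.trans ?_
    have h2 : ‖((δ * (j : ℕ) : ℝ) : ℂ)‖ ^ S ≤ (S : ℝ) ^ S * δ ^ S := by
      rw [← mul_pow]
      exact pow_le_pow_left₀ (norm_nonneg _) (hu j) S
    have h3 : Real.exp (-G) ≤ δ ^ S := by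
      rw [hexp]
      nlinarith
    rw [hε₁]
    nlinarith [mul_le_mul_of_nonneg_left h2 (mul_nonneg zero_le_two hM0)]
  have hrad : ∀ i : Fin K × Fin S, ‖pt (i.1 : ℕ) + ((δ * (i.2 : ℕ) : ℝ) : ℂ)‖ ≤ r := by
    rintro ⟨k, j⟩
    have h1 := norm_add_le (pt (k : ℕ)) ((δ * (j : ℕ) : ℝ) : ℂ)
    have h2 := hptK k
    have h3 := hu j
    simp only
    linarith
  have key := schwarz_gen f hf (fun i : Fin K × Fin S => pt (i.1 : ℕ) + ((δ * (i.2 : ℕ) : ℝ) : ℂ))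
    r (δ ^ (S - 1)) ε₁ M hr1 hrad (pow_pos hδ0 _) hε0 (fun i => q6_sep hδ0 hδ1 i) hval hM z hz
  have hcard : Fintype.card (Fin K × Fin S) = K * S := by
    rw [Fintype.card_prod, Fintype.card_fin, Fintype.card_fin]
  rw [hcard] at key
  refine key.trans (le_of_eq ?_)
  have hpow : δ ^ S = δ ^ (S - 1) * δ := by
    rw [← pow_succ]
    congr 1
    omega
  have hne : δ ^ (S - 1) ≠ 0 := (pow_pos hδ0 _).ne'
  congr 2
  rw [hε₁, hpow, div_eq_iff hne]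
  ring

end GLR
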