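import Pool.Agent.Helper49.GL.Q1

namespace GLR

private lemma Q2_rc_zero {n : ℕ} (p : Fin (n + 1) × Fin (n + 1) → ℤ) (s m : ℕ) (h : n < m) :
    rc p s m = 0 := by
  unfold rc
  apply Finset.sum_eq_zero
  intro x _
  have h1 : ¬ m ≤ (x.1 : ℕ) := by
    have := x.1.2
    omega
  rw [dc, if_neg h1]
  simp

private lemma Q2_sum {n' : ℕ} (f : ℕ → ℝ) :
    ∑ α : Fin 1 → Fin (n' + 1), f (α 0) = ∑ m ∈ Finset.range (n' + 1), f m := by
  rw [← Fin.sum_univ_eq_sum_range]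
  exact Fintype.sum_equiv (Equiv.funUnique (Fin 1) (Fin (n' + 1))) _ _ (fun α => rfl)

private lemma Q2_cut {n n' : ℕ} (hn : n ≤ n') (f : ℕ → ℝ) (hf : ∀ m, n < m → f m = 0) :
    ∑ m ∈ Finset.range (n' + 1), f m = ∑ m ∈ Finset.range (n + 1), f m := by
  symm
  apply Finset.sum_subset
  · intro m hm
    rw [Finset.mem_range] at hm ⊢
    omega
  · intro m _ hm
    rw [Finset.mem_range] at hm
    exact hf m (by omega)

private lemma Q2_I (m : ℕ) :
    Complex.I ^ m = ((reI m : ℝ) : ℂ) + ((imI m : ℝ) : ℂ) * Complex.I := by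
  rw [Complex.I_pow_eq_pow_mod]
  unfold reI imI
  have h : m % 4 < 4 := Nat.mod_lt _ (by norm_num)
  generalize m % 4 = r at h
  interval_cases r <;> simp [pow_succ]

private lemma Q2_pt (k m : ℕ) :
    (pt k) ^ m = (((2 * Real.pi * k) ^ m : ℝ) : ℂ) * Complex.I ^ m := by
  unfold pt
  rw [mul_pow, Complex.ofReal_pow]

private lemma Q2_Qv {n n' : ℕ} (hn : n ≤ n') (p : Fin (n + 1) × Fin (n + 1) → ℤ) (s k : ℕ)
    (c : ℕ → ℤ) :
    Qv (n := n') (J := 1) (fun α => rc p s (α 0) * (2 * k) ^ (α 0 : ℕ) * c (α 0))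
        (fun _ => Real.pi) =
      ∑ m ∈ Finset.range (n + 1), (rc p s m : ℝ) * ((2 * Real.pi * k) ^ m * (c m : ℝ)) := by
  unfold Qv
  rw [← Q2_cut hn (fun m => (rc p s m : ℝ) * ((2 * Real.pi * k) ^ m * (c m : ℝ))) (by
    intro m hm
    rw [Q2_rc_zero p s m hm]
    simp), ← Q2_sum]
  apply Finset.sum_congr rfl
  intro α _
  rw [Fin.prod_univ_one]
  push_cast
  rw [mul_pow, mul_pow, mul_pow]
  ring

/-- GI-Q2. Real and imaginary part: `(2 π i k)^m = π^m (2 k)^m i^m`; `rc p s m = 0` for `m > n`. -/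
theorem Qv_reA {n n' : ℕ} (hn : n ≤ n') (p : Fin (n + 1) × Fin (n + 1) → ℤ) (s k : ℕ) :
    Qv (reA n' p s k) (fun _ => Real.pi) = (iteratedDeriv s (Fe p) (pt k)).re := by
  have h1 := Q2_Qv hn p s k reI
  have h2 : Qv (reA n' p s k) (fun _ => Real.pi) =
      ∑ m ∈ Finset.range (n + 1), (rc p s m : ℝ) * ((2 * Real.pi * k) ^ m * (reI m : ℝ)) := h1
  rw [h2, iteratedDeriv_Fe_pt, Complex.re_sum]
  apply Finset.sum_congr rfl
  intro m _
  rw [Q2_pt, Q2_I]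
  have e : ((rc p s m : ℤ) : ℂ) = (((rc p s m : ℤ) : ℝ) : ℂ) := by push_cast; rfl
  rw [e, Complex.re_ofReal_mul, Complex.re_ofReal_mul]
  simp

theorem Qv_imA {n n' : ℕ} (hn : n ≤ n') (p : Fin (n + 1) × Fin (n + 1) → ℤ) (s k : ℕ) :
    Qv (imA n' p s k) (fun _ => Real.pi) = (iteratedDeriv s (Fe p) (pt k)).im := by
  have h1 := Q2_Qv hn p s k imI
  have h2 : Qv (imA n' p s k) (fun _ => Real.pi) =
      ∑ m ∈ Finset.range (n + 1), (rc p s m : ℝ) * ((2 * Real.pi * k) ^ m * (imI m : ℝ)) := h1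
  rw [h2, iteratedDeriv_Fe_pt, Complex.im_sum]
  apply Finset.sum_congr rfl
  intro m _
  rw [Q2_pt, Q2_I]
  have e : ((rc p s m : ℤ) : ℂ) = (((rc p s m : ℤ) : ℝ) : ℂ) := by push_cast; rfl
  rw [e, Complex.im_ofReal_mul, Complex.im_ofReal_mul]
  simp

private lemma Q2_choose (i s n : ℕ) (hi : i ≤ n) :
    ∑ m ∈ Finset.range (n + 1), (if m ≤ i then s.choose (i - m) else 0) ≤ 2 ^ s := by
  have h1 : ∑ m ∈ Finset.range (n + 1), (if m ≤ i then s.choose (i - m) else 0) =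
      ∑ m ∈ Finset.range (i + 1), s.choose (i - m) := by
    symm
    rw [← Finset.sum_subset (s₁ := Finset.range (i + 1)) (s₂ := Finset.range (n + 1))
      (f := fun m => if m ≤ i then s.choose (i - m) else 0)]
    · apply Finset.sum_congr rfl
      intro m hm
      rw [Finset.mem_range] at hm
      rw [if_pos (by omega)]
    · intro m hm
      rw [Finset.mem_range] at hm ⊢
      omega
    · intro m _ hm
      rw [Finset.mem_range] at hm
      rw [if_neg (by omega)]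
  rw [h1]
  have h2 : ∑ m ∈ Finset.range (i + 1), s.choose (i - m) =
      ∑ m ∈ Finset.range (i + 1), s.choose m := by
    rw [← Finset.sum_range_reflect]
    apply Finset.sum_congr rfl
    intro m hm
    rw [Finset.mem_range] at hm
    congr 1
    omega
  rw [h2, ← Nat.sum_range_choose]
  apply Finset.sum_le_sum_of_ne_zero
  intro m _ hm
  rw [Finset.mem_range]
  by_contra h3
  exact hm (Nat.choose_eq_zero_of_lt (by omega))

private lemma Q2_dc {n i j s : ℕ} (hi : i ≤ n) (hj : j ≤ n) (m : ℕ) :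
    dc i j s m ≤ (if m ≤ i then s.choose (i - m) else 0) * n ^ s := by
  unfold dc
  split_ifs with h
  · by_cases h1 : i - m ≤ s
    · have h2 : i.descFactorial (i - m) ≤ n ^ (i - m) :=
        (Nat.descFactorial_le_pow i (i - m)).trans (Nat.pow_le_pow_left hi _)
      have h3 : j ^ (s - (i - m)) ≤ n ^ (s - (i - m)) := Nat.pow_le_pow_left hj _
      have h4 : n ^ (i - m) * n ^ (s - (i - m)) = n ^ s := by
        rw [← pow_add]
        congr 1
        omega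
      calc s.choose (i - m) * i.descFactorial (i - m) * j ^ (s - (i - m))
          ≤ s.choose (i - m) * n ^ (i - m) * n ^ (s - (i - m)) :=
            Nat.mul_le_mul (Nat.mul_le_mul_left _ h2) h3
        _ = _ := by rw [mul_assoc, h4]
    · rw [Nat.choose_eq_zero_of_lt (by omega)]
      simp
  · simp

/-- GI-Q2. For `i, j ≤ n`: `∑_m dc i j s m * x^m ≤ (2 n)^s * x^n` for `x ≥ 1`, `n ≥ 1`: the
coefficients are `C(s,σ) (i)_σ j^(s-σ) ≤ C(s,σ) n^σ n^(s-σ)` and `∑ C(s,σ) ≤ 2^s`. -/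
theorem sum_dc_le {n i j s : ℕ} (hn : 1 ≤ n) (hi : i ≤ n) (hj : j ≤ n) (x : ℝ) (hx : 1 ≤ x) :
    ∑ m ∈ Finset.range (n + 1), (dc i j s m : ℝ) * x ^ m ≤ (2 * n : ℝ) ^ s * x ^ n := by
  have hx0 : 0 ≤ x := le_trans zero_le_one hx
  have h1 : ∀ m ∈ Finset.range (n + 1), (dc i j s m : ℝ) * x ^ m ≤
      ((((if m ≤ i then s.choose (i - m) else 0) * n ^ s : ℕ)) : ℝ) * x ^ n := by
    intro m hm
    rw [Finset.mem_range] at hm
    apply mul_le_mul
    · exact_mod_cast Q2_dc hi hj m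
    · exact pow_le_pow_right₀ hx (by omega)
    · exact pow_nonneg hx0 _
    · exact Nat.cast_nonneg _
  refine (Finset.sum_le_sum h1).trans ?_
  rw [← Finset.sum_mul, ← Nat.cast_sum, ← Finset.sum_mul]
  apply mul_le_mul_of_nonneg_right _ (pow_nonneg hx0 _)
  rw [mul_pow]
  have h2 : (∑ m ∈ Finset.range (n + 1), (if m ≤ i then s.choose (i - m) else 0)) * n ^ s ≤
      2 ^ s * n ^ s := Nat.mul_le_mul_right _ (Q2_choose i s n hi)
  exact_mod_cast h2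

private lemma Q2_Ql {n n' : ℕ} (hn : n ≤ n') (hn1 : 1 ≤ n) (p : Fin (n + 1) × Fin (n + 1) → ℤ)
    (hp : ∀ x, |p x| ≤ ((2 ^ n : ℕ) : ℤ)) (s k K : ℕ) (hK : 1 ≤ K) (hk : k ≤ K) (c : ℕ → ℤ)
    (hc : ∀ m, |c m| ≤ 1) :
    Ql (n := n') (J := 1) (fun α => rc p s (α 0) * (2 * k) ^ (α 0 : ℕ) * c (α 0)) ≤
      ((n : ℝ) + 1) ^ 2 * 2 ^ n * (2 * n : ℝ) ^ s * (2 * K : ℝ) ^ n := by
  have hK' : (1 : ℝ) ≤ K := by exact_mod_cast hK
  have hk' : (k : ℝ) ≤ K := by exact_mod_cast hk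
  have hk0 : (0 : ℝ) ≤ k := Nat.cast_nonneg _
  have h1 : Ql (n := n') (J := 1) (fun α => rc p s (α 0) * (2 * k) ^ (α 0 : ℕ) * c (α 0)) ≤
      ∑ m ∈ Finset.range (n + 1), |(rc p s m : ℝ)| * (2 * K : ℝ) ^ m := by
    unfold Ql
    rw [← Q2_cut hn (fun m => |(rc p s m : ℝ)| * (2 * K : ℝ) ^ m) (by
      intro m hm
      rw [Q2_rc_zero p s m hm]
      simp), ← Q2_sum]
    apply Finset.sum_le_sum
    intro α _
    push_cast
    rw [abs_mul, abs_mul]
    have h2 : |((c (α 0) : ℤ) : ℝ)| ≤ 1 := by exact_mod_cast hc (α 0)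
    have h3 : |(2 * (k : ℝ)) ^ ((α 0 : Fin (n' + 1)) : ℕ)| ≤
        (2 * K : ℝ) ^ ((α 0 : Fin (n' + 1)) : ℕ) := by
      rw [abs_of_nonneg (by positivity)]
      exact pow_le_pow_left₀ (by positivity) (by linarith) _
    calc _ ≤ |((rc p s (α 0) : ℤ) : ℝ)| * (2 * K : ℝ) ^ ((α 0 : Fin (n' + 1)) : ℕ) * 1 := by
          apply mul_le_mul _ h2 (abs_nonneg _) (by positivity)
          exact mul_le_mul_of_nonneg_left h3 (abs_nonneg _)
      _ = _ := mul_one _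
  refine h1.trans ?_
  have h4 : ∀ m ∈ Finset.range (n + 1), |(rc p s m : ℝ)| * (2 * K : ℝ) ^ m ≤
      ∑ x : Fin (n + 1) × Fin (n + 1), 2 ^ n * ((dc x.1 x.2 s m : ℝ) * (2 * K : ℝ) ^ m) := by
    intro m _
    have h5 : |(rc p s m : ℝ)| ≤ ∑ x : Fin (n + 1) × Fin (n + 1), 2 ^ n * (dc x.1 x.2 s m : ℝ) := by
      unfold rc
      push_cast
      refine (Finset.abs_sum_le_sum_abs _ _).trans ?_
      apply Finset.sum_le_sum
      intro x _
      rw [abs_mul, Nat.abs_cast]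
      apply mul_le_mul_of_nonneg_right _ (Nat.cast_nonneg _)
      have h6 := hp x
      have h7 : ((|p x| : ℤ) : ℝ) ≤ (((2 ^ n : ℕ) : ℤ) : ℝ) := by exact_mod_cast h6
      push_cast at h7
      exact h7
    calc _ ≤ (∑ x : Fin (n + 1) × Fin (n + 1), 2 ^ n * (dc x.1 x.2 s m : ℝ)) *
          (2 * K : ℝ) ^ m := mul_le_mul_of_nonneg_right h5 (by positivity)
      _ = _ := by
        rw [Finset.sum_mul]
        apply Finset.sum_congr rfl
        intro x _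
        ring
  refine (Finset.sum_le_sum h4).trans ?_
  rw [Finset.sum_comm]
  have h8 : ∀ x ∈ (Finset.univ : Finset (Fin (n + 1) × Fin (n + 1))),
      ∑ m ∈ Finset.range (n + 1), 2 ^ n * ((dc x.1 x.2 s m : ℝ) * (2 * K : ℝ) ^ m) ≤
      2 ^ n * ((2 * n : ℝ) ^ s * (2 * K : ℝ) ^ n) := by
    intro x _
    rw [← Finset.mul_sum]
    apply mul_le_mul_of_nonneg_left _ (by positivity)
    exact sum_dc_le hn1 (Nat.lt_succ_iff.1 x.1.2) (Nat.lt_succ_iff.1 x.2.2) _ (by linarith)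
  refine (Finset.sum_le_sum h8).trans ?_
  rw [Finset.sum_const, Finset.card_univ, Fintype.card_prod, Fintype.card_fin, nsmul_eq_mul]
  push_cast
  apply le_of_eq
  ring

theorem Ql_reA {n n' : ℕ} (hn : n ≤ n') (hn1 : 1 ≤ n) (p : Fin (n + 1) × Fin (n + 1) → ℤ)
    (hp : ∀ x, |p x| ≤ ((2 ^ n : ℕ) : ℤ)) (s k K : ℕ) (hK : 1 ≤ K) (hk : k ≤ K) :
    Ql (reA n' p s k) ≤ ((n : ℝ) + 1) ^ 2 * 2 ^ n * (2 * n : ℝ) ^ s * (2 * K : ℝ) ^ n :=
  Q2_Ql hn hn1 p hp s k K hK hk reI (fun m => by unfold reI; split_ifs <;> simp)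

theorem Ql_imA {n n' : ℕ} (hn : n ≤ n') (hn1 : 1 ≤ n) (p : Fin (n + 1) × Fin (n + 1) → ℤ)
    (hp : ∀ x, |p x| ≤ ((2 ^ n : ℕ) : ℤ)) (s k K : ℕ) (hK : 1 ≤ K) (hk : k ≤ K) :
    Ql (imA n' p s k) ≤ ((n : ℝ) + 1) ^ 2 * 2 ^ n * (2 * n : ℝ) ^ s * (2 * K : ℝ) ^ n :=
  Q2_Ql hn hn1 p hp s k K hK hk imI (fun m => by unfold imI; split_ifs <;> simp)

end GLR
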