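import Pool.Agent.Helper49.GL.B1
import Pool.Agent.Helper49.GL.Q2

namespace GLR

/-- GI-Q7. Growth of the exponential polynomial. -/
theorem norm_Fe_le {n : ℕ} (p : Fin (n + 1) × Fin (n + 1) → ℤ)
    (hp : ∀ x, |p x| ≤ ((2 ^ n : ℕ) : ℤ)) (R : ℝ) (hR : 1 ≤ R) (z : ℂ) (hz : ‖z‖ ≤ R) :
    ‖Fe p z‖ ≤ ((n : ℝ) + 1) ^ 2 * 2 ^ n * R ^ n * Real.exp (n * R) := by
  unfold Fe
  refine (norm_sum_le _ _).trans ?_
  have h1 : ∀ x ∈ (Finset.univ : Finset (Fin (n + 1) × Fin (n + 1))),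
      ‖(p x : ℂ) * z ^ (x.1 : ℕ) * Complex.exp (((x.2 : ℕ) : ℂ) * z)‖ ≤
        2 ^ n * R ^ n * Real.exp (n * R) := by
    intro x _
    rw [norm_mul, norm_mul, norm_pow, Complex.norm_exp]
    have a1 : ‖(p x : ℂ)‖ ≤ 2 ^ n := by
      rw [Complex.norm_intCast]
      have := hp x
      exact_mod_cast this
    have a2 : ‖z‖ ^ (x.1 : ℕ) ≤ R ^ n :=
      (pow_le_pow_left₀ (norm_nonneg _) hz _).trans
        (pow_le_pow_right₀ hR (by have := x.1.2; omega))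
    have a3 : Real.exp ((((x.2 : ℕ) : ℂ) * z).re) ≤ Real.exp (n * R) := by
      apply Real.exp_le_exp.2
      calc (((x.2 : ℕ) : ℂ) * z).re ≤ ‖((x.2 : ℕ) : ℂ) * z‖ := Complex.re_le_norm _
        _ = (x.2 : ℕ) * ‖z‖ := by rw [norm_mul, Complex.norm_natCast]
        _ ≤ n * R := by
          refine mul_le_mul ?_ hz (norm_nonneg _) (Nat.cast_nonneg _)
          have h2 : (x.2 : ℕ) ≤ n := by have := x.2.2; omega
          exact_mod_cast h2
    exact mul_le_mul (mul_le_mul a1 a2 (by positivity) (by positivity)) a3 (Real.exp_nonneg _)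
      (by positivity)
  refine (Finset.sum_le_card_nsmul _ _ _ h1).trans (le_of_eq ?_)
  rw [nsmul_eq_mul, Finset.card_univ]
  simp only [Fintype.card_prod, Fintype.card_fin]
  push_cast
  ring

/-- the coefficient of `p (i,j)` in the derivative at `pt k` -/
private noncomputable def cf (n s k : ℕ) (x : Fin (n + 1) × Fin (n + 1)) : ℂ :=
  ∑ m ∈ Finset.range (n + 1), (dc x.1 x.2 s m : ℂ) * (pt k) ^ m

private lemma norm_pt_le {k K : ℕ} (hk : k < K) : ‖pt k‖ ≤ 7 * K := by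
  unfold pt
  rw [norm_mul, Complex.norm_I, mul_one, Complex.norm_real, Real.norm_eq_abs,
    abs_of_nonneg (by positivity)]
  have h1 : (k : ℝ) ≤ K := by exact_mod_cast hk.le
  have h2 := Real.pi_lt_d2
  have h3 := Real.pi_pos
  have h4 : (0 : ℝ) ≤ k := Nat.cast_nonneg _
  nlinarith

private lemma norm_cf_le {n s S k K : ℕ} (hn : 1 ≤ n) (hs : s < S) (hk : k < K)
    (x : Fin (n + 1) × Fin (n + 1)) :
    ‖cf n s k x‖ ≤ (2 * n : ℝ) ^ S * (7 * K : ℝ) ^ n := by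
  have hK1 : (1 : ℝ) ≤ K := by exact_mod_cast (by omega : 1 ≤ K)
  have hn1 : (1 : ℝ) ≤ n := by exact_mod_cast hn
  unfold cf
  refine (norm_sum_le _ _).trans ?_
  have h1 : ∑ m ∈ Finset.range (n + 1), ‖(dc x.1 x.2 s m : ℂ) * (pt k) ^ m‖ ≤
      ∑ m ∈ Finset.range (n + 1), (dc x.1 x.2 s m : ℝ) * (7 * K : ℝ) ^ m := by
    refine Finset.sum_le_sum fun m _ => ?_
    rw [norm_mul, Complex.norm_natCast, norm_pow]
    exact mul_le_mul_of_nonneg_left (pow_le_pow_left₀ (norm_nonneg _) (norm_pt_le hk) _)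
      (Nat.cast_nonneg _)
  refine h1.trans ?_
  refine (sum_dc_le hn (by have := x.1.2; omega) (by have := x.2.2; omega) (7 * K : ℝ)
    (by linarith)).trans ?_
  refine mul_le_mul_of_nonneg_right ?_ (by positivity)
  exact pow_le_pow_right₀ (by linarith) hs.le

private lemma iter_pt {n : ℕ} (p : Fin (n + 1) × Fin (n + 1) → ℤ) (s k : ℕ) :
    iteratedDeriv s (Fe p) (pt k) = ∑ x, (p x : ℂ) * cf n s k x := by
  rw [iteratedDeriv_Fe]
  refine Finset.sum_congr rfl fun x _ => ?_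
  have h1 : Complex.exp (((x.2 : ℕ) : ℂ) * pt k) = 1 := by
    rw [Complex.exp_eq_one_iff]
    refine ⟨((x.2 : ℕ) * k : ℕ), ?_⟩
    unfold pt
    push_cast
    ring
  rw [h1, mul_one]
  rfl

private lemma norm_iter_le {n : ℕ} (p : Fin (n + 1) × Fin (n + 1) → ℤ) (s k : ℕ) (B : ℝ)
    (h1 : |∑ x, (p x : ℝ) * (cf n s k x).re| ≤ B) (h2 : |∑ x, (p x : ℝ) * (cf n s k x).im| ≤ B) :
    ‖iteratedDeriv s (Fe p) (pt k)‖ ≤ 2 * B := by
  have e1 : (iteratedDeriv s (Fe p) (pt k)).re = ∑ x, (p x : ℝ) * (cf n s k x).re := by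
    rw [iter_pt, Complex.re_sum]
    refine Finset.sum_congr rfl fun x _ => ?_
    rw [← Complex.ofReal_intCast, Complex.re_ofReal_mul]
  have e2 : (iteratedDeriv s (Fe p) (pt k)).im = ∑ x, (p x : ℝ) * (cf n s k x).im := by
    rw [iter_pt, Complex.im_sum]
    refine Finset.sum_congr rfl fun x _ => ?_
    rw [← Complex.ofReal_intCast, Complex.im_ofReal_mul]
  have h3 := Complex.norm_le_abs_re_add_abs_im (iteratedDeriv s (Fe p) (pt k))
  rw [e1, e2] at h3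
  linarith

private lemma size_bound {n N K S : ℕ} (hN : 40 ≤ N) (hn : N ≤ n) (hK : 1 ≤ K) (hS : 1 ≤ S)
    (hlog : 200 * ((n : ℝ) + 1) * (K + 1) * (S + 1) ≤ Real.exp N) :
    2 * (2 * (((n : ℝ) + 1) * (n + 1)) * ((2 * n : ℝ) ^ S * (7 * K : ℝ) ^ n) * (2 : ℝ) ^ n
      / (2 : ℝ) ^ (14 * (n + S) * N ^ 3)) ≤ Real.exp (-(7 * (((n + S : ℕ) : ℝ) * N ^ 3))) := by
  have hNr : (40 : ℝ) ≤ N := by exact_mod_cast hN
  have hnr : (N : ℝ) ≤ n := by exact_mod_cast hn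
  have hKr : (1 : ℝ) ≤ K := by exact_mod_cast hK
  have hSr : (1 : ℝ) ≤ S := by exact_mod_cast hS
  have b0 : (n : ℝ) + 1 ≤ Real.exp N / 200 := by nlinarith [mul_nonneg (sub_nonneg.2 hKr) (sub_nonneg.2 hSr), mul_nonneg (by linarith : (0:ℝ) ≤ n + 1) (mul_nonneg (by linarith : (0:ℝ) ≤ K) (by linarith : (0:ℝ) ≤ S)), mul_nonneg (by linarith : (0:ℝ) ≤ n + 1) (by linarith : (0:ℝ) ≤ K), mul_nonneg (by linarith : (0:ℝ) ≤ n + 1) (by linarith : (0:ℝ) ≤ S)]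
  have b1 : (K : ℝ) + 1 ≤ Real.exp N / 200 := by nlinarith [mul_nonneg (by linarith : (0:ℝ) ≤ n) (mul_nonneg (by linarith : (0:ℝ) ≤ K) (by linarith : (0:ℝ) ≤ S)), mul_nonneg (by linarith : (0:ℝ) ≤ n) (by linarith : (0:ℝ) ≤ K), mul_nonneg (by linarith : (0:ℝ) ≤ n) (by linarith : (0:ℝ) ≤ S), mul_nonneg (by linarith : (0:ℝ) ≤ K) (by linarith : (0:ℝ) ≤ S)]
  have hE : (0 : ℝ) < Real.exp N := Real.exp_pos _
  have c1 : (n : ℝ) + 1 ≤ Real.exp N := by linarith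
  have c2 : 2 * (n : ℝ) ≤ Real.exp N := by linarith
  have c3 : 7 * (K : ℝ) ≤ Real.exp N := by linarith
  have c4 : (4 : ℝ) ≤ Real.exp N := by linarith
  have c5 : (2 : ℝ) ≤ Real.exp N := by linarith
  have hlog2 : (0.6931 : ℝ) < Real.log 2 := by
    have := Real.log_two_gt_d9
    linarith
  have e1 : (2 : ℝ) ^ (14 * (n + S) * N ^ 3) =
      Real.exp (14 * (n + S) * N ^ 3 * Real.log 2) := by
    rw [← Real.exp_log (show (0 : ℝ) < 2 by norm_num), ← Real.exp_nat_mul,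
      Real.exp_log (show (0 : ℝ) < 2 by norm_num)]
    congr 1
    push_cast
    ring
  have e2 : 2 * (2 * (((n : ℝ) + 1) * (n + 1)) * ((2 * n : ℝ) ^ S * (7 * K : ℝ) ^ n) * (2 : ℝ) ^ n)
      ≤ Real.exp (N * (3 + S + 2 * n)) := by
    have d1 : (2 * n : ℝ) ^ S ≤ Real.exp N ^ S := pow_le_pow_left₀ (by positivity) c2 _
    have d2 : (7 * K : ℝ) ^ n ≤ Real.exp N ^ n := pow_le_pow_left₀ (by positivity) c3 _
    have d3 : (2 : ℝ) ^ n ≤ Real.exp N ^ n := pow_le_pow_left₀ (by positivity) c5 _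
    have d4 : (4 : ℝ) * (((n : ℝ) + 1) * (n + 1)) ≤ Real.exp N * (Real.exp N * Real.exp N) :=
      mul_le_mul c4 (mul_le_mul c1 c1 (by positivity) hE.le) (by positivity) hE.le
    calc 2 * (2 * (((n : ℝ) + 1) * (n + 1)) * ((2 * n : ℝ) ^ S * (7 * K : ℝ) ^ n) * (2 : ℝ) ^ n)
        = (4 * (((n : ℝ) + 1) * (n + 1))) * ((2 * n : ℝ) ^ S * (7 * K : ℝ) ^ n) * (2 : ℝ) ^ n := by
          ring
      _ ≤ (Real.exp N * (Real.exp N * Real.exp N)) * (Real.exp N ^ S * Real.exp N ^ n) *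
          Real.exp N ^ n := by gcongr
      _ = Real.exp N ^ (3 + S + 2 * n) := by ring
      _ = Real.exp (N * (3 + S + 2 * n)) := by
        rw [← Real.exp_nat_mul]
        congr 1
        push_cast
        ring
  have e3 : 2 * (2 * (((n : ℝ) + 1) * (n + 1)) * ((2 * n : ℝ) ^ S * (7 * K : ℝ) ^ n) * (2 : ℝ) ^ n
      / (2 : ℝ) ^ (14 * (n + S) * N ^ 3)) =
      (2 * (2 * (((n : ℝ) + 1) * (n + 1)) * ((2 * n : ℝ) ^ S * (7 * K : ℝ) ^ n) * (2 : ℝ) ^ n))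
      / (2 : ℝ) ^ (14 * (n + S) * N ^ 3) := by ring
  rw [e3, e1, div_le_iff₀ (Real.exp_pos _), ← Real.exp_add]
  refine e2.trans (Real.exp_le_exp.2 ?_)
  push_cast
  set a : ℝ := (n : ℝ) + S with ha
  have ha1 : (41 : ℝ) ≤ a := by linarith
  have g1 : (N : ℝ) * (3 + S + 2 * n) ≤ N * (3 * a) := by
    refine mul_le_mul_of_nonneg_left ?_ (by linarith)
    linarith
  have g2 : (3 : ℝ) ≤ 2 * (N : ℝ) ^ 2 := by nlinarith
  have g3 : (N : ℝ) * (3 * a) ≤ 2 * (a * N ^ 3) := by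
    have : (N : ℝ) * (3 * a) = (a * N) * 3 := by ring
    rw [this, show 2 * (a * (N : ℝ) ^ 3) = (a * N) * (2 * (N : ℝ) ^ 2) by ring]
    exact mul_le_mul_of_nonneg_left g2 (by positivity)
  have g4 : (0 : ℝ) ≤ a * N ^ 3 := by positivity
  nlinarith

/-- GI-Q7. THE AUXILIARY FUNCTION for `π`. `box` with `I = Fin (n+1) × Fin (n+1)` (cardinality
`(n+1)^2`), `T = 2 K S` real conditions: real and imaginary part of the coefficient
`∑_m dc i j s m (2 π i k)^m` of `p (i,j)` in `iteratedDeriv s (Fe p) (pt k)`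
(`iteratedDeriv_Fe`, exponentials `= 1`), all bounded by `V = (2n)^S (7K)^n` (`sum_dc_le`,
`2 π k ≤ 7 K`); `H = 2^n - 1`, `ℓ = 2^(14 (n+S) N^3)`. The bound
`2 (n+1)^2 V 2^n / ℓ ≤ exp (-7 (n+S) N^3) / 2` because
`4 (n+1)^2 (2n)^S (7K)^n 2^n ≤ exp (2N + 2 + S N + n N + n) ≤ exp (2 (n+S) N^3)` and
`14 log 2 ≥ 9.7`. -/
theorem first_step {n N K S : ℕ} (hN : 40 ≤ N) (hn : N ≤ n) (hK : 1 ≤ K) (hS : 1 ≤ S)
    (hlog : 200 * ((n : ℝ) + 1) * (K + 1) * (S + 1) ≤ Real.exp N)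
    (hbox : 28 * (n + S) * N ^ 3 * (K * S) < n * (n + 1) ^ 2) :
    ∃ p : Fin (n + 1) × Fin (n + 1) → ℤ, p ≠ 0 ∧ (∀ x, |p x| ≤ ((2 ^ n : ℕ) : ℤ)) ∧
      HH p K S (7 * ((n + S : ℕ) * N ^ 3)) := by
  have hn1 : 1 ≤ n := by omega
  let e := Fintype.equivFin (Bool × Fin K × Fin S)
  let w : (Bool × Fin K × Fin S) → (Fin (n + 1) × Fin (n + 1)) → ℝ := fun t x =>
    if t.1 = true then (cf n (t.2.2 : ℕ) (t.2.1 : ℕ) x).re else (cf n (t.2.2 : ℕ) (t.2.1 : ℕ) x).im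
  have hw : ∀ t x, |w t x| ≤ (2 * n : ℝ) ^ S * (7 * K : ℝ) ^ n := by
    intro t x
    have h0 := norm_cf_le hn1 t.2.2.2 t.2.1.2 x
    simp only [w]
    split_ifs
    · exact (Complex.abs_re_le_norm _).trans h0
    · exact (Complex.abs_im_le_norm _).trans h0
  have hcT : Fintype.card (Bool × Fin K × Fin S) = 2 * (K * S) := by
    simp
  have hcI : Fintype.card (Fin (n + 1) × Fin (n + 1)) = (n + 1) * (n + 1) := by
    simp
  have hH : 2 ^ n - 1 + 1 = 2 ^ n := by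
    have := Nat.one_le_two_pow (n := n)
    omega
  have hcard : (2 ^ (14 * (n + S) * N ^ 3)) ^ Fintype.card (Bool × Fin K × Fin S) <
      (2 ^ n - 1 + 1) ^ Fintype.card (Fin (n + 1) × Fin (n + 1)) := by
    rw [hH, hcT, hcI, ← pow_mul, ← pow_mul]
    refine Nat.pow_lt_pow_right (by norm_num) ?_
    calc 14 * (n + S) * N ^ 3 * (2 * (K * S)) = 28 * (n + S) * N ^ 3 * (K * S) := by ring
      _ < n * (n + 1) ^ 2 := hbox
      _ = n * ((n + 1) * (n + 1)) := by ring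
  obtain ⟨p, hp0, hp1, hp2⟩ := box (fun t x => w (e.symm t) x) _ (fun t x => hw (e.symm t) x)
    (2 ^ n - 1) (2 ^ (14 * (n + S) * N ^ 3)) Nat.one_le_two_pow hcard
  refine ⟨p, hp0, fun x => (hp1 x).trans ?_, ?_⟩
  · exact_mod_cast Nat.sub_le _ _
  · intro k hk s hs
    have hB := size_bound hN hn hK hS hlog
    set B : ℝ := 2 * (((n : ℝ) + 1) * (n + 1)) * ((2 * n : ℝ) ^ S * (7 * K : ℝ) ^ n) * (2 : ℝ) ^ n
      / (2 : ℝ) ^ (14 * (n + S) * N ^ 3) with hBd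
    have hp3 : ∀ t, |∑ x, (p x : ℝ) * w t x| ≤ B := by
      intro t
      have h1 := hp2 (e t)
      simp only [Equiv.symm_apply_apply] at h1
      refine h1.trans ?_
      rw [hBd, hcI]
      have h2 : ((2 ^ n - 1 : ℕ) : ℝ) ≤ (2 : ℝ) ^ n := by
        have h3 : ((2 ^ n - 1 : ℕ) : ℝ) ≤ ((2 ^ n : ℕ) : ℝ) := by
          exact_mod_cast Nat.sub_le _ _
        refine h3.trans (le_of_eq ?_)
        push_cast
        rfl
      push_cast
      gcongr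
    have h4 := hp3 (true, ⟨k, hk⟩, ⟨s, hs⟩)
    have h5 := hp3 (false, ⟨k, hk⟩, ⟨s, hs⟩)
    simp only [w, if_true] at h4
    simp only [w, Bool.false_eq_true, if_false] at h5
    refine (norm_iter_le p s k B h4 h5).trans ?_
    exact hB

end GLR
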