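import Pool.Agent.Helper49.GL.Q3
import Pool.Agent.Helper49.GL.Q6
import Pool.Agent.Helper49.GL.Q7

namespace GLR

theorem sizes {n K S K' E : ℝ} (n0 : 0 ≤ n) (cK : 1 ≤ K) (cS : 1 ≤ S) (cK' : 1 ≤ K')
    (hlog : 200 * (n + 1) * (K + 1) * (K' + 1) * (S + 1) ≤ E) :
    200 * (K + K') ≤ E ∧ 200 * (n + 1) ≤ E ∧ 200 * (K * S) ≤ E ∧ S ≤ E := by
  have a1 : 1 ≤ n + 1 := by linarith
  have a2 : 1 ≤ S + 1 := by linarith
  have a3 : 1 ≤ (K + 1) * (K' + 1) :=
    one_le_mul_of_one_le_of_one_le (by linarith) (by linarith)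
  have a4 : 1 ≤ (n + 1) * (S + 1) := one_le_mul_of_one_le_of_one_le a1 a2
  have p1 : 0 ≤ K * K' := by positivity
  have a5 : K + K' ≤ (K + 1) * (K' + 1) := by linarith
  have hlog' : 200 * (((n + 1) * (S + 1)) * ((K + 1) * (K' + 1))) ≤ E := by
    calc 200 * (((n + 1) * (S + 1)) * ((K + 1) * (K' + 1)))
        = 200 * (n + 1) * (K + 1) * (K' + 1) * (S + 1) := by ring
      _ ≤ E := hlog
  have h1 : (K + 1) * (K' + 1) ≤ ((n + 1) * (S + 1)) * ((K + 1) * (K' + 1)) :=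
    le_mul_of_one_le_left (by linarith) a4
  have h2 : (n + 1) * (S + 1) ≤ ((n + 1) * (S + 1)) * ((K + 1) * (K' + 1)) :=
    le_mul_of_one_le_right (by linarith) a3
  have h3 : n + 1 ≤ (n + 1) * (S + 1) := le_mul_of_one_le_right (by linarith) a2
  have h4 : S + 1 ≤ (n + 1) * (S + 1) := le_mul_of_one_le_left (by linarith) a1
  have h5 : K * S ≤ ((n + 1) * (S + 1)) * ((K + 1) * (K' + 1)) := by
    calc K * S ≤ ((K + 1) * (K' + 1)) * ((n + 1) * (S + 1)) := by
          refine mul_le_mul ?_ (by linarith) (by linarith) (by linarith)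
          linarith
      _ = _ := by ring
  exact ⟨by linarith, by linarith, by linarith, by linarith⟩

/-- GI-Q8. Sup bound after the Schwarz lemma. `r = 7 (K + K') + 2`, `M` from `norm_Fe_le` with
`R = 8 r`, `log M ≤ 2 N + n + n N + 72 n (K + K')`; the first term of `multi_schwarz` is
`≤ exp (-K S + log M)` (`2/7 ≤ exp (-1)`), the second is
`≤ exp (K S + N K S + 3 + log M + S N - (G1-1)/(2S))` with `(G1-1)/(2S) ≥ (2N+5) K S`. -/
theorem sup_small {n N K S K' B : ℕ} {G : ℝ} (hN : 100 ≤ N) (hn : N ≤ n) (hK : 1 ≤ K)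
    (hS : 1 ≤ S) (hK' : 1 ≤ K')
    (hlog : 200 * ((n : ℝ) + 1) * (K + 1) * (K' + 1) * (S + 1) ≤ Real.exp N)
    (hT : 100 * n * (K + K') + 4 * n * N + B ≤ K * S)
    (hG : 2 * (S : ℝ) * ((2 * N + 5) * (K * S)) ≤ G)
    (p : Fin (n + 1) × Fin (n + 1) → ℤ) (hp : ∀ x, |p x| ≤ ((2 ^ n : ℕ) : ℤ))
    (H : HH p K S G) (z : ℂ) (hz : ‖z‖ ≤ 7 * ((K : ℝ) + K') + 2) :
    ‖Fe p z‖ ≤ Real.exp (-B) := by
  have cN : (100 : ℝ) ≤ N := by exact_mod_cast hN
  have cn : (N : ℝ) ≤ n := by exact_mod_cast hn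
  have cK : (1 : ℝ) ≤ K := by exact_mod_cast hK
  have cS : (1 : ℝ) ≤ S := by exact_mod_cast hS
  have cK' : (1 : ℝ) ≤ K' := by exact_mod_cast hK'
  have cT : 100 * (n : ℝ) * (K + K') + 4 * n * N + B ≤ K * S := by exact_mod_cast hT
  have cB : (0 : ℝ) ≤ B := Nat.cast_nonneg B
  have n0 : (0 : ℝ) ≤ n := by linarith
  set r : ℝ := 7 * ((K : ℝ) + K') + 2 with hr
  set E : ℝ := Real.exp N with hE
  have hE0 : 0 < E := Real.exp_pos _
  -- comparison of the sizes with `exp N`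
  obtain ⟨b1, b2, b3, b4⟩ := sizes (n := (n : ℝ)) n0 cK cS cK' hlog
  have r8 : 8 * r ≤ E := by rw [hr]; linarith
  have r9 : 9 * r ≤ E := by rw [hr]; linarith
  have r1 : 1 ≤ r := by rw [hr]; linarith
  set T : ℕ := K * S with hTd
  have cTd : (T : ℝ) = K * S := by rw [hTd]; push_cast; ring
  have T1 : (S : ℝ) ≤ T := by rw [cTd]; exact le_mul_of_one_le_left (by linarith) cK
  have T0 : (1 : ℝ) ≤ T := by linarith
  -- the bound `M`
  set M : ℝ := ((n : ℝ) + 1) ^ 2 * 2 ^ n * (8 * r) ^ n * Real.exp (n * (8 * r)) with hM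
  have hM1 : 1 ≤ M := by
    have h1 : (1 : ℝ) ≤ ((n : ℝ) + 1) ^ 2 := one_le_pow₀ (by linarith)
    have h2 : (1 : ℝ) ≤ 2 ^ n := one_le_pow₀ (by norm_num)
    have h3 : (1 : ℝ) ≤ (8 * r) ^ n := one_le_pow₀ (by linarith)
    have h4 : (1 : ℝ) ≤ Real.exp (n * (8 * r)) := Real.one_le_exp (by positivity)
    have h5 := one_le_mul_of_one_le_of_one_le h1 h2
    have h6 := one_le_mul_of_one_le_of_one_le h5 h3
    exact one_le_mul_of_one_le_of_one_le h6 h4
  set L : ℝ := 2 * N + n + n * N + 64 * n * (K + K') with hL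
  have hML : M ≤ Real.exp L := by
    have h1 : ((n : ℝ) + 1) ^ 2 ≤ Real.exp (2 * N) := by
      calc ((n : ℝ) + 1) ^ 2 ≤ E ^ 2 := by
            gcongr
            linarith
        _ = Real.exp (2 * N) := by rw [hE, ← Real.exp_nat_mul]; norm_num
    have h2 : (2 : ℝ) ^ n ≤ Real.exp n := by
      calc (2 : ℝ) ^ n ≤ (Real.exp 1) ^ n := by
            gcongr
            linarith [Real.add_one_le_exp (1 : ℝ)]
        _ = Real.exp n := by rw [← Real.exp_nat_mul, mul_one]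
    have h3 : (8 * r) ^ n ≤ Real.exp (n * N) := by
      calc (8 * r) ^ n ≤ E ^ n := by gcongr
        _ = Real.exp (n * N) := by rw [hE, ← Real.exp_nat_mul]
    have h4 : Real.exp (n * (8 * r)) ≤ Real.exp (64 * n * (K + K')) := by
      apply Real.exp_le_exp.mpr
      have h5 : 8 * r ≤ 64 * ((K : ℝ) + K') := by rw [hr]; linarith
      calc (n : ℝ) * (8 * r) ≤ n * (64 * ((K : ℝ) + K')) := by gcongr
        _ = 64 * n * (K + K') := by ring
    calc M ≤ Real.exp (2 * N) * Real.exp n * Real.exp (n * N) * Real.exp (64 * n * (K + K')) := by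
          rw [hM]
          gcongr
      _ = Real.exp L := by rw [← Real.exp_add, ← Real.exp_add, ← Real.exp_add]
  have hG0 : 0 ≤ G := le_trans (by positivity) hG
  have S0 : (0 : ℝ) < 2 * S := by linarith
  have hGS : (2 * (N : ℝ) + 5) * T ≤ G / (2 * S) := by
    rw [le_div_iff₀ S0, cTd]
    linarith
  have hδ : S * Real.exp (-(G / (2 * S))) ≤ 1 / 2 := by
    have h1 : Real.exp (-(G / (2 * S))) ≤ Real.exp (-((N : ℝ) + 1)) := by
      apply Real.exp_le_exp.mpr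
      have h5 : 2 * (N : ℝ) + 5 ≤ (2 * (N : ℝ) + 5) * T :=
        le_mul_of_one_le_right (by linarith) T0
      linarith
    have h2 : Real.exp (-((N : ℝ) + 1)) = (E * Real.exp 1)⁻¹ := by
      rw [hE, ← Real.exp_add, Real.exp_neg]
    have h3 : (2 : ℝ) ≤ Real.exp 1 := by linarith [Real.add_one_le_exp (1 : ℝ)]
    calc S * Real.exp (-(G / (2 * S))) ≤ E * (E * Real.exp 1)⁻¹ := by
          rw [← h2]
          gcongr
      _ = (Real.exp 1)⁻¹ := by field_simp
      _ ≤ 1 / 2 := by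
          rw [one_div]
          exact inv_anti₀ (by norm_num) h3
  have key := multi_schwarz (Fe p) (differentiable_Fe p) hK hS G hG0 H hδ r M
    (by rw [hr]; linarith) (fun w hw => norm_Fe_le p hp (8 * r) (by linarith) w hw) z hz
  have two_e : (2 : ℝ) * Real.exp (-(B : ℝ) - 1) ≤ Real.exp (-B) := by
    have h1 : Real.exp (-(B : ℝ)) = Real.exp 1 * Real.exp (-(B : ℝ) - 1) := by
      rw [← Real.exp_add]; ring_nf
    rw [h1]
    have h3 : (2 : ℝ) ≤ Real.exp 1 := by linarith [Real.add_one_le_exp (1 : ℝ)]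
    gcongr
  have nn : (100 : ℝ) * n ≤ n * N := by
    rw [mul_comm]
    gcongr
  have nK : 2 * (n : ℝ) ≤ n * (K + K') := by
    rw [mul_comm]
    gcongr
    linarith
  have cT2 : 100 * ((n : ℝ) * (K + K')) + 4 * (n * N) + B ≤ T := by
    rw [cTd]
    calc 100 * ((n : ℝ) * (K + K')) + 4 * (n * N) + B
        = 100 * (n : ℝ) * (K + K') + 4 * n * N + B := by ring
      _ ≤ _ := cT
  have hL2 : L = 2 * N + n + n * N + 64 * ((n : ℝ) * (K + K')) := by rw [hL]; ring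
  -- first term
  have t1 : (2 / 7 : ℝ) ^ (K * S) * M ≤ Real.exp (-(B : ℝ) - 1) := by
    have h1 : (2 / 7 : ℝ) ≤ Real.exp (-1) := by
      rw [Real.exp_neg, le_inv_comm₀ (by norm_num) (Real.exp_pos 1)]
      linarith [Real.exp_one_lt_d9]
    calc (2 / 7 : ℝ) ^ (K * S) * M ≤ (Real.exp (-1)) ^ (K * S) * Real.exp L := by gcongr
      _ = Real.exp (-(T : ℝ) + L) := by
          rw [← Real.exp_nat_mul, ← Real.exp_add, ← hTd]
          ring_nf
      _ ≤ Real.exp (-(B : ℝ) - 1) := by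
          apply Real.exp_le_exp.mpr
          rw [hL2]
          linarith
  -- second term
  have t2 : 2 * ((K * S : ℕ) * ((3 + 2 * M * (S : ℝ) ^ S) * Real.exp (-(G / (2 * S))))
        * (9 * r) ^ (K * S)) ≤ Real.exp (-(B : ℝ) - 1) := by
    have h1 : 2 * (T : ℝ) ≤ Real.exp N := by rw [cTd]; linarith
    have hSS1 : (1 : ℝ) ≤ (S : ℝ) ^ S := one_le_pow₀ cS
    have h2 : 3 + 2 * M * (S : ℝ) ^ S ≤ 5 * (M * (S : ℝ) ^ S) := by
      have := one_le_mul_of_one_le_of_one_le hM1 hSS1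
      linarith
    have h3 : (S : ℝ) ^ S ≤ Real.exp (N * T) := by
      calc (S : ℝ) ^ S ≤ E ^ S := by gcongr
        _ = Real.exp (S * N) := by rw [hE, ← Real.exp_nat_mul]
        _ ≤ Real.exp (N * T) := by
            apply Real.exp_le_exp.mpr
            rw [mul_comm]
            gcongr
    have h4 : (9 * r) ^ T ≤ Real.exp (N * T) := by
      calc (9 * r) ^ T ≤ E ^ T := by gcongr
        _ = Real.exp (N * T) := by rw [hE, ← Real.exp_nat_mul, mul_comm]
    have h5 : Real.exp (-(G / (2 * S))) ≤ Real.exp (-((2 * (N : ℝ) + 5) * T)) := by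
      apply Real.exp_le_exp.mpr
      linarith
    have h6 : (5 : ℝ) ≤ Real.exp 2 := by
      have e1 := Real.exp_one_gt_d9
      have e2 : Real.exp 2 = Real.exp 1 * Real.exp 1 := by rw [← Real.exp_add]; norm_num
      rw [e2]
      have e3 := mul_le_mul e1.le e1.le (by norm_num) (Real.exp_pos 1).le
      norm_num at e3
      linarith
    calc 2 * ((K * S : ℕ) * ((3 + 2 * M * (S : ℝ) ^ S) * Real.exp (-(G / (2 * S))))
        * (9 * r) ^ (K * S))
        = (2 * (T : ℝ)) * ((3 + 2 * M * (S : ℝ) ^ S) * Real.exp (-(G / (2 * S))))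
        * (9 * r) ^ T := by rw [← hTd]; ring
      _ ≤ Real.exp N * ((Real.exp 2 * (Real.exp L * Real.exp (N * T)))
          * Real.exp (-((2 * (N : ℝ) + 5) * T))) * Real.exp (N * T) := by
          have q1 : 3 + 2 * M * (S : ℝ) ^ S
              ≤ Real.exp 2 * (Real.exp L * Real.exp (N * T)) := by
            calc 3 + 2 * M * (S : ℝ) ^ S ≤ 5 * (M * (S : ℝ) ^ S) := h2
              _ ≤ Real.exp 2 * (Real.exp L * Real.exp (N * T)) := by gcongr
          gcongr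
      _ = Real.exp (N + 2 + L - 5 * T) := by
          rw [← Real.exp_add, ← Real.exp_add, ← Real.exp_add, ← Real.exp_add, ← Real.exp_add]
          ring_nf
      _ ≤ Real.exp (-(B : ℝ) - 1) := by
          apply Real.exp_le_exp.mpr
          rw [hL2]
          linarith
  calc ‖Fe p z‖ ≤ _ := key
    _ ≤ Real.exp (-(B : ℝ) - 1) + Real.exp (-(B : ℝ) - 1) := add_le_add t1 t2
    _ = 2 * Real.exp (-(B : ℝ) - 1) := by ring
    _ ≤ Real.exp (-B) := two_e

/-- GI-Q8. EXTRAPOLATION STEP. `sup_small` with `B = 7 (n+S') N^3 + S' N`, Cauchy estimate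
(`s! ≤ exp (S' N)`, since `S' ≤ exp N`) at `2 π i k`, `k < K'`, then `gap_deriv`. -/
theorem step {n N K S K' S' : ℕ} {W' G1 : ℝ} (hN : 100 ≤ N) (hn : N ≤ n) (hK : 1 ≤ K)
    (hS : 1 ≤ S) (hK' : 1 ≤ K') (hS' : 1 ≤ S') (hG1 : 1 ≤ G1)
    (hlog : 200 * ((n : ℝ) + 1) * (K + 1) * (K' + 1) * (S + 1) * (S' + 1) ≤ Real.exp N)
    (hT : 200 * n * (K + K') + 40 * (n + S') * N ^ 3 ≤ K * S)
    (hG : 2 * (S : ℝ) * ((2 * N + 5) * (K * S)) ≤ G1 - 1)
    (hW' : (N : ℝ) * (G1 + (n + S' : ℕ) * ((n + S' : ℕ) * N ^ 3)) + 5 * ((n + S' : ℕ) * N ^ 3) + 1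
      ≤ W')
    (hbad : ¬ Meas (fun _ : Fin 1 => Real.pi) N W')
    (p : Fin (n + 1) × Fin (n + 1) → ℤ) (hp : ∀ x, |p x| ≤ ((2 ^ n : ℕ) : ℤ))
    (H : HH p K S (G1 - 1)) : HH p K' S' (G1 - 1) := by
  intro k hk s hs
  have cN : (100 : ℝ) ≤ N := by exact_mod_cast hN
  have cn : (N : ℝ) ≤ n := by exact_mod_cast hn
  have cK : (1 : ℝ) ≤ K := by exact_mod_cast hK
  have cS : (1 : ℝ) ≤ S := by exact_mod_cast hS
  have cK' : (1 : ℝ) ≤ K' := by exact_mod_cast hK'
  have cS' : (1 : ℝ) ≤ S' := by exact_mod_cast hS'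
  have n0 : (0 : ℝ) ≤ n := by linarith
  have hX : 0 < 200 * ((n : ℝ) + 1) * (K + 1) * (K' + 1) * (S + 1) := by positivity
  have hlog1 : 200 * ((n : ℝ) + 1) * (K + 1) * (K' + 1) * (S + 1) ≤ Real.exp N := by
    refine le_trans ?_ hlog
    exact le_mul_of_one_le_right hX.le (by linarith)
  have hlog2 : 200 * ((n : ℝ) + 1) * (K' + 1) * (S' + 1) ≤ Real.exp N := by
    refine le_trans ?_ hlog
    have h1 : 200 * ((n : ℝ) + 1) * (K + 1) * (K' + 1) * (S + 1) * (S' + 1)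
        = (200 * ((n : ℝ) + 1) * (K' + 1) * (S' + 1)) * ((K + 1) * (S + 1)) := by ring
    rw [h1]
    exact le_mul_of_one_le_right (by positivity) (by nlinarith)
  have hS'E : (S' : ℝ) ≤ Real.exp N := by
    refine le_trans ?_ hlog2
    have h1 : (1 : ℝ) ≤ 200 * ((n : ℝ) + 1) * (K' + 1) := by nlinarith
    nlinarith
  set B : ℕ := 7 * ((n + S') * N ^ 3) + S' * N with hB
  have hTB : 100 * n * (K + K') + 4 * n * N + B ≤ K * S := by
    refine le_trans ?_ hT
    have h1 : n * N ≤ n * N ^ 3 := Nat.mul_le_mul_left _ (Nat.le_self_pow (by norm_num) N)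
    have h2 : S' * N ≤ S' * N ^ 3 := Nat.mul_le_mul_left _ (Nat.le_self_pow (by norm_num) N)
    have h3 : (n + S') * N ^ 3 = n * N ^ 3 + S' * N ^ 3 := by ring
    have h4 : 100 * n * (K + K') ≤ 200 * n * (K + K') := by gcongr; norm_num
    have h5 : 40 * (n + S') * N ^ 3 = 40 * (n * N ^ 3 + S' * N ^ 3) := by ring
    have h6 : 4 * n * N = 4 * (n * N) := by ring
    rw [hB, h3, h5, h6]
    omega
  refine gap_deriv (K := K') (by omega) hn hK' hG1 hlog2 hW' hbad p hp k s hk hs ?_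
  have hsup : ∀ z, ‖z - pt k‖ ≤ 1 → ‖Fe p z‖ ≤ Real.exp (-B) := by
    intro z hz
    refine sup_small hN hn hK hS hK' hlog1 hTB hG p hp H z ?_
    have h1 : ‖pt k‖ ≤ 7 * K' := by
      unfold pt
      rw [norm_mul, Complex.norm_I, mul_one, Complex.norm_real, Real.norm_of_nonneg (by positivity)]
      have h2 : (k : ℝ) ≤ K' := by exact_mod_cast hk.le
      have h3 : 2 * Real.pi ≤ 7 := by linarith [Real.pi_lt_d2]
      exact mul_le_mul h3 h2 (by positivity) (by norm_num)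
    calc ‖z‖ = ‖(z - pt k) + pt k‖ := by rw [sub_add_cancel]
      _ ≤ ‖z - pt k‖ + ‖pt k‖ := norm_add_le _ _
      _ ≤ 1 + 7 * K' := add_le_add hz h1
      _ ≤ 7 * ((K : ℝ) + K') + 2 := by linarith
  refine (cauchy_est (Fe p) (differentiable_Fe p) (pt k) _ hsup s).trans ?_
  have hfac : (s.factorial : ℝ) ≤ Real.exp (S' * N) := by
    have h1 : s.factorial ≤ s ^ s := Nat.factorial_le_pow s
    have h2 : s ^ s ≤ S' ^ S' :=
      (Nat.pow_le_pow_left hs.le s).trans (Nat.pow_le_pow_right hS' hs.le)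
    calc (s.factorial : ℝ) ≤ (S' : ℝ) ^ S' := by exact_mod_cast h1.trans h2
      _ ≤ (Real.exp N) ^ S' := by gcongr
      _ = Real.exp (S' * N) := by rw [← Real.exp_nat_mul]
  calc (s.factorial : ℝ) * Real.exp (-B) ≤ Real.exp (S' * N) * Real.exp (-B) := by gcongr
    _ = Real.exp (-(7 * ((n + S' : ℕ) * (N : ℝ) ^ 3))) := by
        rw [← Real.exp_add, hB]
        push_cast
        ring_nf

end GLR
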