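import Pool.Agent.Helper49.GL.Q1

namespace GLR

open Polynomial

/-- GI-Q9. For an integer polynomial `Q`: `∑_t q_t F^(t)(0) = ∑ p_{ij} (derivative^[i] Q).eval j`.
Both sides are linear in `Q`; for `Q = X^t`: `iteratedDeriv_Fe` at `z = 0` (only `m = 0`):
`dc i j t 0 = t.choose i * i! * j^(t-i) = t.descFactorial i * j^(t-i)`, and
`derivative^[i] (X^t) = t.descFactorial i * X^(t-i)`. -/
theorem functional {n : ℕ} (p : Fin (n + 1) × Fin (n + 1) → ℤ) (Q : ℤ[X]) :
    ∑ t ∈ Finset.range (Q.natDegree + 1), (Q.coeff t : ℂ) * iteratedDeriv t (Fe p) 0 =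
      ((∑ x, p x * ((derivative^[(x.1 : ℕ)] Q).eval ((x.2 : ℕ) : ℤ)) : ℤ) : ℂ) := by
  have h1 : ∀ t : ℕ, iteratedDeriv t (Fe p) 0 = ∑ x, (p x : ℂ) *
      ((t.descFactorial x.1 * (x.2 : ℕ) ^ (t - (x.1 : ℕ)) : ℕ) : ℂ) := by
    intro t
    rw [iteratedDeriv_Fe]
    refine Finset.sum_congr rfl fun x _ => ?_
    congr 1
    rw [mul_zero, Complex.exp_zero, mul_one, Finset.sum_eq_single 0]
    · rw [pow_zero, mul_one]
      congr 1
      unfold dc
      rw [if_pos (Nat.zero_le _), Nat.sub_zero, Nat.descFactorial_self,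
        Nat.descFactorial_eq_factorial_mul_choose t, mul_comm (t.choose _)]
    · intro m _ hm
      rw [zero_pow hm, mul_zero]
    · intro h
      exact absurd (Finset.mem_range.2 (Nat.succ_pos n)) h
  have h2 : ∀ i j : ℕ, (derivative^[i] Q).eval (j : ℤ) =
      ∑ t ∈ Finset.range (Q.natDegree + 1), Q.coeff t * ((t.descFactorial i * j ^ (t - i) : ℕ) : ℤ) := by
    intro i j
    conv_lhs => rw [Q.as_sum_range_C_mul_X_pow]
    rw [iterate_derivative_sum, eval_finsetSum]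
    refine Finset.sum_congr rfl fun t _ => ?_
    rw [iterate_derivative_C_mul, iterate_derivative_X_pow_eq_natCast_mul, eval_mul, eval_C, eval_mul,
      eval_natCast, eval_pow, eval_X, Nat.cast_mul, Nat.cast_pow]
  simp_rw [h1, h2]
  push_cast
  simp_rw [Finset.mul_sum]
  rw [Finset.sum_comm]
  refine Finset.sum_congr rfl fun x _ => Finset.sum_congr rfl fun t _ => ?_
  ring

private def maj (Q Q' : ℤ[X]) : Prop := ∀ t, |Q.coeff t| ≤ Q'.coeff t

private lemma maj_one : maj 1 1 := by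
  intro t
  rw [coeff_one]
  split_ifs <;> simp

private lemma maj_mul {P P' Q Q' : ℤ[X]} (h : maj P P') (h' : maj Q Q') : maj (P * Q) (P' * Q') := by
  intro t
  rw [coeff_mul, coeff_mul]
  refine (Finset.abs_sum_le_sum_abs _ _).trans (Finset.sum_le_sum fun x _ => ?_)
  rw [abs_mul]
  exact mul_le_mul (h _) (h' _) (abs_nonneg _) ((abs_nonneg _).trans (h _))

private lemma maj_pow {P P' : ℤ[X]} (h : maj P P') (n : ℕ) : maj (P ^ n) (P' ^ n) := by
  induction n with
  | zero => rw [pow_zero, pow_zero]; exact maj_one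
  | succ n ih => rw [pow_succ, pow_succ]; exact maj_mul ih h

private lemma maj_lin (a : ℕ) : maj (X - C (a : ℤ)) (X + C (a : ℤ)) := by
  intro t
  rw [coeff_sub, coeff_add, coeff_X, coeff_C]
  split_ifs <;> first | omega | simp

private lemma maj_sum {Q Q' : ℤ[X]} (h : maj Q Q') :
    ∑ t ∈ Finset.range (Q.natDegree + 1), |Q.coeff t| ≤ Q'.eval 1 := by
  have hd : Q.natDegree ≤ Q'.natDegree := by
    rw [natDegree_le_iff_coeff_eq_zero]
    intro N hN
    have := h N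
    rw [coeff_eq_zero_of_natDegree_lt hN] at this
    exact abs_nonpos_iff.1 this
  rw [eval_eq_sum_range]
  calc ∑ t ∈ Finset.range (Q.natDegree + 1), |Q.coeff t|
      ≤ ∑ t ∈ Finset.range (Q'.natDegree + 1), |Q.coeff t| :=
        Finset.sum_le_sum_of_subset_of_nonneg (Finset.range_mono (by omega)) fun _ _ _ => abs_nonneg _
    _ ≤ _ := Finset.sum_le_sum fun t _ => by rw [one_pow, mul_one]; exact h t

/-- GI-Q9. ZERO ESTIMATE for exponential polynomials. Choose `j₀` with some `p (i, j₀) ≠ 0` and `i₀`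
maximal with `p (i₀, j₀) ≠ 0`; `Q = (X - j₀)^i₀ ∏_{j ≠ j₀} (X - j)^(n+1)`. In `functional` all terms
with `j ≠ j₀` vanish (a root of multiplicity `> n ≥ i`), as do those with `j = j₀`, `i < i₀`
(multiplicity `i₀ > i`) or `i > i₀` (`p = 0`); the remaining term is
`p (i₀, j₀) * i₀! * ∏ (j₀ - j)^(n+1)`, a nonzero integer. The degree of `Q` is
`≤ n (n+1) + n ≤ (n+1)^2` and the sum of the absolute values of its coefficients is
`≤ ∏ (1 + j)^(n+1) (1 + j₀)^i₀ ≤ (n+1)^((n+1)^2)`... (a crude bound by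
`(n+2)^(2 (n+1)^2)` is enough). -/
theorem zero_exp {n : ℕ} (p : Fin (n + 1) × Fin (n + 1) → ℤ) (hp : p ≠ 0) :
    ∃ t ≤ (n + 1) ^ 2,
      (((n : ℝ) + 2) ^ (2 * (n + 1) ^ 2))⁻¹ ≤ ‖iteratedDeriv t (Fe p) 0‖ := by
  obtain ⟨x₀, hx₀⟩ : ∃ x, p x ≠ 0 := by
    by_contra h
    push Not at h
    exact hp (funext h)
  set j₀ : Fin (n + 1) := x₀.2 with hj₀
  obtain ⟨i₀, hi₀, hmax⟩ := Finset.exists_max_image
    (Finset.univ.filter fun i : Fin (n + 1) => p (i, j₀) ≠ 0) id
    ⟨x₀.1, by simpa [hj₀] using hx₀⟩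
  rw [Finset.mem_filter] at hi₀
  have hmax' : ∀ i : Fin (n + 1), i₀ < i → p (i, j₀) = 0 := by
    intro i hi
    by_contra h
    exact absurd (hmax i (Finset.mem_filter.2 ⟨Finset.mem_univ _, h⟩)) (not_le.2 hi)
  -- the polynomial
  set R : ℤ[X] := ∏ j ∈ Finset.univ.erase j₀, (X - C (((j : Fin (n + 1)) : ℕ) : ℤ)) ^ (n + 1) with hR
  set Q : ℤ[X] := (X - C ((j₀ : ℕ) : ℤ)) ^ (i₀ : ℕ) * R with hQ
  have hRm : R.Monic := monic_prod_of_monic _ _ fun j _ => (monic_X_sub_C _).pow _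
  have hQm : Q.Monic := ((monic_X_sub_C _).pow _).mul hRm
  have hR0 : R.eval ((j₀ : ℕ) : ℤ) ≠ 0 := by
    rw [hR, eval_prod, Finset.prod_ne_zero_iff]
    intro j hj
    rw [eval_pow, eval_sub, eval_X, eval_C]
    refine pow_ne_zero _ (sub_ne_zero.2 fun h => ?_)
    have h' : (j₀ : ℕ) = (j : ℕ) := by exact_mod_cast h
    exact (Finset.ne_of_mem_erase hj) (Fin.ext h'.symm)
  have hlow : ∀ i, i < (i₀ : ℕ) → (derivative^[i] Q).eval ((j₀ : ℕ) : ℤ) = 0 := by
    intro i hi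
    have h : (X - C ((j₀ : ℕ) : ℤ)) ^ ((i₀ : ℕ) - i) ∣ derivative^[i] Q :=
      pow_sub_dvd_iterate_derivative_of_pow_dvd i (Dvd.intro _ rfl)
    exact dvd_iff_isRoot.1 ((dvd_pow_self _ (by omega)).trans h)
  have htop : (derivative^[(i₀ : ℕ)] Q).eval ((j₀ : ℕ) : ℤ) ≠ 0 := by
    intro h
    have h1 : (i₀ : ℕ) < rootMultiplicity ((j₀ : ℕ) : ℤ) Q := by
      rw [lt_rootMultiplicity_iff_isRoot_iterate_derivative hQm.ne_zero]
      intro m hm
      rcases Nat.lt_or_ge m i₀ with h' | h'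
      · exact hlow m h'
      · rw [le_antisymm hm h']; exact h
    rw [hQ, rootMultiplicity_mul hQm.ne_zero, rootMultiplicity_X_sub_C_pow,
      rootMultiplicity_eq_zero hR0] at h1
    omega
  have hoff : ∀ i j : Fin (n + 1), j ≠ j₀ → (derivative^[(i : ℕ)] Q).eval ((j : ℕ) : ℤ) = 0 := by
    intro i j hj
    have h0 : (X - C ((j : ℕ) : ℤ)) ^ (n + 1) ∣ Q :=
      (Finset.dvd_prod_of_mem (fun j : Fin (n + 1) => (X - C ((j : ℕ) : ℤ)) ^ (n + 1))
        (Finset.mem_erase.2 ⟨hj, Finset.mem_univ _⟩)).trans (Dvd.intro_left _ rfl)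
    have h : (X - C ((j : ℕ) : ℤ)) ^ (n + 1 - (i : ℕ)) ∣ derivative^[(i : ℕ)] Q :=
      pow_sub_dvd_iterate_derivative_of_pow_dvd _ h0
    exact dvd_iff_isRoot.1 ((dvd_pow_self _ (by have := i.2; omega)).trans h)
  -- the value
  have hval : ∑ x, p x * ((derivative^[(x.1 : ℕ)] Q).eval ((x.2 : ℕ) : ℤ)) =
      p (i₀, j₀) * (derivative^[(i₀ : ℕ)] Q).eval ((j₀ : ℕ) : ℤ) := by
    rw [Finset.sum_eq_single (i₀, j₀)]
    · rintro ⟨i, j⟩ _ hne
      rcases eq_or_ne j j₀ with h | h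
      · subst h
        rcases lt_trichotomy i i₀ with h' | h' | h'
        · rw [hlow i h', mul_zero]
        · subst h'; exact absurd rfl hne
        · rw [hmax' i h', zero_mul]
      · rw [hoff i j h, mul_zero]
    · intro h; exact absurd (Finset.mem_univ _) h
  have hone : (1 : ℝ) ≤ ‖∑ t ∈ Finset.range (Q.natDegree + 1),
      (Q.coeff t : ℂ) * iteratedDeriv t (Fe p) 0‖ := by
    rw [functional, hval, Complex.norm_intCast]
    exact_mod_cast Int.one_le_abs (mul_ne_zero hi₀.2 htop)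
  -- the degree
  have hcard : (Finset.univ.erase j₀).card = n := by
    rw [Finset.card_erase_of_mem (Finset.mem_univ _), Finset.card_univ, Fintype.card_fin]
    rfl
  have hi₀n : (i₀ : ℕ) ≤ n := by have := i₀.2; omega
  have hdeg : Q.natDegree ≤ (n + 1) ^ 2 := by
    have h1 : R.natDegree ≤ n * (n + 1) := by
      refine (natDegree_prod_le _ _).trans ?_
      refine le_of_eq ?_
      rw [Finset.sum_congr rfl (g := fun _ => n + 1) (fun j _ => by
        rw [natDegree_pow, natDegree_X_sub_C, mul_one]), Finset.sum_const, hcard, smul_eq_mul]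
    have h2 : Q.natDegree ≤ (i₀ : ℕ) + R.natDegree := by
      refine natDegree_mul_le.trans ?_
      rw [natDegree_pow, natDegree_X_sub_C, mul_one]
    nlinarith
  -- the sum of the coefficients
  have hmaj : maj Q ((X + C ((j₀ : ℕ) : ℤ)) ^ (i₀ : ℕ) *
      ∏ j ∈ Finset.univ.erase j₀, (X + C (((j : Fin (n + 1)) : ℕ) : ℤ)) ^ (n + 1)) := by
    refine maj_mul (maj_pow (maj_lin _) _) ?_
    rw [hR]
    induction Finset.univ.erase j₀ using Finset.induction_on with
    | empty => rw [Finset.prod_empty, Finset.prod_empty]; exact maj_one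
    | insert a s ha ih =>
      rw [Finset.prod_insert ha, Finset.prod_insert ha]
      exact maj_mul (maj_pow (maj_lin _) _) ih
  have hsumZ : ∑ t ∈ Finset.range (Q.natDegree + 1), |Q.coeff t| ≤ ((n : ℤ) + 2) ^ (2 * (n + 1) ^ 2) := by
    refine (maj_sum hmaj).trans ?_
    rw [eval_mul, eval_pow, eval_add, eval_X, eval_C, eval_prod]
    have e1 : ∀ j : Fin (n + 1), (1 : ℤ) + ((j : ℕ) : ℤ) ≤ (n : ℤ) + 2 := fun j => by
      have := j.2; omega
    calc (1 + ((j₀ : ℕ) : ℤ)) ^ (i₀ : ℕ) *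
          ∏ j ∈ Finset.univ.erase j₀, eval 1 ((X + C (((j : Fin (n + 1)) : ℕ) : ℤ)) ^ (n + 1))
        ≤ ((n : ℤ) + 2) ^ (i₀ : ℕ) * ∏ j ∈ Finset.univ.erase j₀, ((n : ℤ) + 2) ^ (n + 1) := by
          refine mul_le_mul (pow_le_pow_left₀ (by positivity) (e1 _) _)
            (Finset.prod_le_prod (fun j _ => ?_) fun j _ => ?_) ?_ (by positivity)
          · rw [eval_pow, eval_add, eval_X, eval_C]; positivity
          · rw [eval_pow, eval_add, eval_X, eval_C]
            exact pow_le_pow_left₀ (by positivity) (e1 _) _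
          · refine Finset.prod_nonneg fun j _ => ?_
            rw [eval_pow, eval_add, eval_X, eval_C]; positivity
      _ = ((n : ℤ) + 2) ^ ((i₀ : ℕ) + (n + 1) * n) := by
          rw [Finset.prod_const, hcard, ← pow_mul, ← pow_add]
      _ ≤ ((n : ℤ) + 2) ^ (2 * (n + 1) ^ 2) :=
          pow_le_pow_right₀ (by omega) (by nlinarith)
  have hsum : ∑ t ∈ Finset.range (Q.natDegree + 1), |(Q.coeff t : ℝ)| ≤
      ((n : ℝ) + 2) ^ (2 * (n + 1) ^ 2) := by
    exact_mod_cast hsumZ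
  set B : ℝ := ((n : ℝ) + 2) ^ (2 * (n + 1) ^ 2) with hB
  have hBpos : 0 < B := by positivity
  by_contra hcon
  push Not at hcon
  have hlt : ∀ t ∈ Finset.range (Q.natDegree + 1), ‖iteratedDeriv t (Fe p) 0‖ < B⁻¹ := by
    intro t ht
    rw [Finset.mem_range] at ht
    exact hcon t (by omega)
  have hfin : (1 : ℝ) < 1 := by
    calc (1 : ℝ) ≤ ‖∑ t ∈ Finset.range (Q.natDegree + 1),
          (Q.coeff t : ℂ) * iteratedDeriv t (Fe p) 0‖ := hone
      _ ≤ ∑ t ∈ Finset.range (Q.natDegree + 1), |(Q.coeff t : ℝ)| * ‖iteratedDeriv t (Fe p) 0‖ := by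
          refine (norm_sum_le _ _).trans (le_of_eq (Finset.sum_congr rfl fun t _ => ?_))
          rw [norm_mul, Complex.norm_intCast]
      _ < ∑ t ∈ Finset.range (Q.natDegree + 1), |(Q.coeff t : ℝ)| * B⁻¹ := by
          refine Finset.sum_lt_sum
            (fun t ht => mul_le_mul_of_nonneg_left (hlt t ht).le (abs_nonneg _))
            ⟨Q.natDegree, Finset.mem_range.2 (Nat.lt_succ_self _), ?_⟩
          refine mul_lt_mul_of_pos_left (hlt _ (Finset.mem_range.2 (Nat.lt_succ_self _))) ?_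
          rw [coeff_natDegree, hQm.leadingCoeff]
          simp
      _ = (∑ t ∈ Finset.range (Q.natDegree + 1), |(Q.coeff t : ℝ)|) * B⁻¹ := by
          rw [Finset.sum_mul]
      _ ≤ B * B⁻¹ := mul_le_mul_of_nonneg_right hsum (by positivity)
      _ = 1 := mul_inv_cancel₀ hBpos.ne'
  exact lt_irrefl _ hfin

end GLR
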