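import Pool.Agent.Helper49.GL.P8
import Pool.Agent.Helper49.GL.Q8
import Pool.Agent.Helper49.GL.Q9

namespace GLR

/-- GI-Q10. The final contradiction: if `HH p K S (G1 - 1)` with
`K S ≥ 200 n (K+1) + 10 (n+1)^2 N` then `‖Fe p z‖ ≤ exp (-B)` for `‖z‖ ≤ 1`,
`B = 6 (n+1)^2 N` (`sup_small` with `K' = 1`), so by the Cauchy estimate
`‖F^(t)(0)‖ ≤ t! exp (-B) < (n+2)^(-2 (n+1)^2)` for `t ≤ (n+1)^2`
(`t! ≤ ((n+1)^2)^((n+1)^2) ≤ exp (2 N (n+1)^2)`, `n + 2 ≤ exp N`). -/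
theorem final_pi_contra {n N K S : ℕ} {G1 : ℝ} (hN : 100 ≤ N) (hn : N ≤ n) (hK : 1 ≤ K)
    (hS : 1 ≤ S) (hlog : 200 * ((n : ℝ) + 1) * (K + 1) * (1 + 1) * (S + 1) ≤ Real.exp N)
    (hT : 200 * n * (K + 1) + 10 * (n + 1) ^ 2 * N ≤ K * S)
    (hG : 2 * (S : ℝ) * ((2 * N + 5) * (K * S)) ≤ G1 - 1)
    (p : Fin (n + 1) × Fin (n + 1) → ℤ) (hp : ∀ x, |p x| ≤ ((2 ^ n : ℕ) : ℤ)) (hp0 : p ≠ 0)
    (H : HH p K S (G1 - 1)) : False := by
  obtain ⟨t, ht, hlow⟩ := zero_exp p hp0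
  set m : ℕ := (n + 1) ^ 2 with hm
  have hm1 : 1 ≤ m := Nat.one_le_pow _ _ (by omega)
  have hnm : n ≤ m := by rw [hm]; nlinarith
  set B : ℕ := 6 * m * N with hB
  have hsup : ∀ z : ℂ, ‖z‖ ≤ 7 * ((K : ℝ) + ((1 : ℕ) : ℝ)) + 2 → ‖Fe p z‖ ≤ Real.exp (-(B : ℝ)) := by
    intro z hz
    refine sup_small (K' := 1) (B := B) hN hn hK hS le_rfl ?_ ?_ hG p hp H z hz
    · push_cast
      exact hlog
    · have h1 : 4 * n * N ≤ 4 * m * N := Nat.mul_le_mul_right _ (Nat.mul_le_mul_left _ hnm)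
      have h2 : 100 * n * (K + 1) ≤ 200 * n * (K + 1) :=
        Nat.mul_le_mul_right _ (Nat.mul_le_mul_right _ (by norm_num))
      have h3 : 10 * m * N = 4 * m * N + 6 * m * N := by ring
      omega
  have hsph : ∀ z ∈ Metric.sphere (0 : ℂ) 1, ‖Fe p z‖ ≤ Real.exp (-(B : ℝ)) := by
    intro z hz
    rw [mem_sphere_zero_iff_norm] at hz
    apply hsup
    rw [hz]
    have : (0 : ℝ) ≤ K := Nat.cast_nonneg K
    push_cast
    linarith
  have hcau := Complex.norm_iteratedDeriv_le_of_forall_mem_sphere_norm_le t one_pos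
    (differentiable_Fe p).diffContOnCl hsph
  rw [one_pow, div_one] at hcau
  -- bounds for the logarithms
  have hn2 : (n : ℝ) + 2 ≤ Real.exp N := by
    refine le_trans ?_ hlog
    have h0 : (0 : ℝ) ≤ n := Nat.cast_nonneg n
    have hK0 : (1 : ℝ) ≤ (K : ℝ) + 1 := by
      have : (0 : ℝ) ≤ K := Nat.cast_nonneg K
      linarith
    have hS0 : (1 : ℝ) ≤ (S : ℝ) + 1 := by
      have : (0 : ℝ) ≤ S := Nat.cast_nonneg S
      linarith
    calc (n : ℝ) + 2 ≤ 200 * ((n : ℝ) + 1) * 1 * (1 + 1) * 1 := by linarith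
      _ ≤ 200 * ((n : ℝ) + 1) * (K + 1) * (1 + 1) * (S + 1) := by gcongr
  have hfac : (t.factorial : ℝ) ≤ Real.exp N ^ (2 * m) := by
    have h1 : t.factorial ≤ m ^ m := by
      calc t.factorial ≤ t ^ t := Nat.factorial_le_pow t
        _ ≤ m ^ t := Nat.pow_le_pow_left ht t
        _ ≤ m ^ m := Nat.pow_le_pow_right (by omega) ht
    have h2 : ((m : ℕ) : ℝ) ≤ Real.exp N ^ 2 := by
      rw [hm]
      push_cast
      have : (n : ℝ) + 1 ≤ Real.exp N := by linarith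
      exact pow_le_pow_left₀ (by positivity) this 2
    calc (t.factorial : ℝ) ≤ ((m ^ m : ℕ) : ℝ) := by exact_mod_cast h1
      _ = (m : ℝ) ^ m := by push_cast; rfl
      _ ≤ (Real.exp N ^ 2) ^ m := pow_le_pow_left₀ (by positivity) h2 m
      _ = Real.exp N ^ (2 * m) := by rw [← pow_mul]
  have hden : ((n : ℝ) + 2) ^ (2 * m) ≤ Real.exp N ^ (2 * m) :=
    pow_le_pow_left₀ (by positivity) hn2 _
  have hBexp : Real.exp (-(B : ℝ)) = (Real.exp N ^ (6 * m))⁻¹ := by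
    rw [Real.exp_neg, ← Real.exp_nat_mul, hB]
    congr 2
    push_cast
    ring
  have hE : (1 : ℝ) < Real.exp N := by
    rw [Real.one_lt_exp_iff]
    exact_mod_cast (by omega : 0 < N)
  have hE0 : (0 : ℝ) < Real.exp N := Real.exp_pos _
  have hnpos : (0 : ℝ) < ((n : ℝ) + 2) ^ (2 * m) := by positivity
  have h1 : (1 : ℝ) ≤ (t.factorial * Real.exp (-(B : ℝ))) * ((n : ℝ) + 2) ^ (2 * m) := by
    have h := hlow.trans hcau
    rwa [inv_le_iff_one_le_mul₀ hnpos] at h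
  have h2 : (t.factorial * Real.exp (-(B : ℝ))) * ((n : ℝ) + 2) ^ (2 * m) ≤
      Real.exp N ^ (2 * m) * (Real.exp N ^ (6 * m))⁻¹ * Real.exp N ^ (2 * m) := by
    rw [hBexp]
    gcongr
  have h3 : Real.exp N ^ (2 * m) * (Real.exp N ^ (6 * m))⁻¹ * Real.exp N ^ (2 * m) < 1 := by
    have e1 : Real.exp N ^ (2 * m) * (Real.exp N ^ (6 * m))⁻¹ * Real.exp N ^ (2 * m) =
        (Real.exp N ^ (2 * m))⁻¹ := by
      have : Real.exp N ^ (6 * m) = Real.exp N ^ (2 * m) * Real.exp N ^ (2 * m) *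
          Real.exp N ^ (2 * m) := by
        rw [← pow_add, ← pow_add]
        congr 1
        ring
      rw [this]
      have h0 : Real.exp N ^ (2 * m) ≠ 0 := by positivity
      field_simp
    rw [e1]
    apply inv_lt_one_of_one_lt₀
    exact one_lt_pow₀ hE (by omega)
  linarith

/-- `N^100 ≤ exp N` for large `N`. -/
private theorem ev_pow_le_exp : ∃ N0 : ℕ, ∀ N : ℕ, N0 ≤ N → (N : ℝ) ^ 100 ≤ Real.exp N := by
  have h : ∀ᶠ x : ℝ in Filter.atTop, x ^ 100 ≤ Real.exp x := by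
    have h1 := (Real.isLittleO_pow_exp_atTop (n := 100)).bound (c := 1) one_pos
    filter_upwards [h1, Filter.eventually_ge_atTop (0 : ℝ)] with x hx hx0
    rw [one_mul, Real.norm_of_nonneg (by positivity), Real.norm_of_nonneg (Real.exp_pos x).le] at hx
    exact hx
  obtain ⟨a, ha⟩ := Filter.eventually_atTop.mp h
  refine ⟨⌈a⌉₊, fun N hN => ha N ?_⟩
  exact (Nat.le_ceil a).trans (by exact_mod_cast hN)

/-- Powers plus one. -/
private theorem pow_succ_le {x : ℝ} (hx : 1 ≤ x) (a : ℕ) : x ^ a + 1 ≤ 2 * x ^ a := by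
  have := one_le_pow₀ hx (n := a)
  linarith

private theorem hlog5 {x E : ℝ} (hx : 500 ≤ x) (hE : x ^ 100 ≤ E) (a b c d e : ℕ)
    (h : a + b + c + d + e ≤ 90) :
    200 * (x ^ a + 1) * (x ^ b + 1) * (x ^ c + 1) * (x ^ d + 1) * (x ^ e + 1) ≤ E := by
  have h1 : (1 : ℝ) ≤ x := by linarith
  have h0 : (0 : ℝ) ≤ x := by linarith
  calc 200 * (x ^ a + 1) * (x ^ b + 1) * (x ^ c + 1) * (x ^ d + 1) * (x ^ e + 1)
      ≤ 200 * (2 * x ^ a) * (2 * x ^ b) * (2 * x ^ c) * (2 * x ^ d) * (2 * x ^ e) := by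
        have ha := pow_succ_le h1 a
        have hb := pow_succ_le h1 b
        have hc := pow_succ_le h1 c
        have hd := pow_succ_le h1 d
        have he := pow_succ_le h1 e
        gcongr
    _ = 6400 * x ^ (a + b + c + d + e) := by ring
    _ ≤ x ^ 2 * x ^ (a + b + c + d + e) := by
        gcongr
        nlinarith
    _ = x ^ (2 + (a + b + c + d + e)) := by rw [← pow_add]
    _ ≤ x ^ 100 := pow_le_pow_right₀ h1 (by omega)
    _ ≤ E := hE

/-- The condition `hW'`. -/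
private theorem hW5 {x : ℝ} (hx : 500 ≤ x) (s : ℕ) (hs : s ≤ 20) :
    x * (x ^ 60 + (x ^ 11 + x ^ s) * ((x ^ 11 + x ^ s) * x ^ 3)) + 5 * ((x ^ 11 + x ^ s) * x ^ 3) + 1
      ≤ x ^ 62 := by
  have h1 : (1 : ℝ) ≤ x := by linarith
  have h0 : (0 : ℝ) ≤ x := by linarith
  have ha : x ^ 11 + x ^ s ≤ 2 * x ^ 20 := by
    have e1 : x ^ 11 ≤ x ^ 20 := pow_le_pow_right₀ h1 (by norm_num)
    have e2 : x ^ s ≤ x ^ 20 := pow_le_pow_right₀ h1 hs
    linarith
  have hb : (0 : ℝ) ≤ x ^ 11 + x ^ s := by positivity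
  calc x * (x ^ 60 + (x ^ 11 + x ^ s) * ((x ^ 11 + x ^ s) * x ^ 3)) +
        5 * ((x ^ 11 + x ^ s) * x ^ 3) + 1
      ≤ x * (x ^ 60 + (2 * x ^ 20) * ((2 * x ^ 20) * x ^ 3)) + 5 * ((2 * x ^ 20) * x ^ 3) + 1 := by
        gcongr
    _ = x ^ 61 + 4 * x ^ 44 + 10 * x ^ 23 + 1 := by ring
    _ ≤ x ^ 61 + 4 * x ^ 61 + 10 * x ^ 61 + x ^ 61 := by
        have e1 : x ^ 44 ≤ x ^ 61 := pow_le_pow_right₀ h1 (by norm_num)
        have e2 : x ^ 23 ≤ x ^ 61 := pow_le_pow_right₀ h1 (by norm_num)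
        have e3 : 1 ≤ x ^ 61 := one_le_pow₀ h1
        linarith
    _ = 16 * x ^ 61 := by ring
    _ ≤ x * x ^ 61 := by
        gcongr
        linarith
    _ = x ^ 62 := by ring

/-- The condition `hG`. -/
private theorem hG5 {x : ℝ} (hx : 500 ≤ x) (k s : ℕ) (h : k + 2 * s ≤ 50) :
    2 * x ^ s * ((2 * x + 5) * (x ^ k * x ^ s)) ≤ x ^ 60 - 1 := by
  have h1 : (1 : ℝ) ≤ x := by linarith
  have h0 : (0 : ℝ) ≤ x := by linarith
  calc 2 * x ^ s * ((2 * x + 5) * (x ^ k * x ^ s))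
      ≤ 2 * x ^ s * ((7 * x) * (x ^ k * x ^ s)) := by
        gcongr
        linarith
    _ = 14 * x ^ (k + 2 * s + 1) := by ring
    _ ≤ 14 * x ^ 59 :=
        mul_le_mul_of_nonneg_left (pow_le_pow_right₀ h1 (by omega)) (by norm_num)
    _ ≤ x ^ 60 - 1 := by
        have e1 : 1 ≤ x ^ 59 := one_le_pow₀ h1
        have e2 : x ^ 60 = x * x ^ 59 := by ring
        nlinarith

/-- The condition `hT`. -/
private theorem hT5 {N : ℕ} (hN : 500 ≤ N) (k k' s' t : ℕ) (h1 : k + 11 + 1 ≤ t)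
    (h2 : k' + 11 + 1 ≤ t) (h3 : s' + 3 + 1 ≤ t) (h4 : 15 ≤ t) :
    200 * N ^ 11 * (N ^ k + N ^ k') + 40 * (N ^ 11 + N ^ s') * N ^ 3 ≤ N ^ t := by
  have hN1 : 1 ≤ N := by omega
  have e1 : N ^ (k + 11) ≤ N ^ (t - 1) := Nat.pow_le_pow_right hN1 (by omega)
  have e2 : N ^ (k' + 11) ≤ N ^ (t - 1) := Nat.pow_le_pow_right hN1 (by omega)
  have e3 : N ^ (s' + 3) ≤ N ^ (t - 1) := Nat.pow_le_pow_right hN1 (by omega)
  have e4 : N ^ 14 ≤ N ^ (t - 1) := Nat.pow_le_pow_right hN1 (by omega)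
  have e5 : N ^ t = N * N ^ (t - 1) := by
    rw [← pow_succ']
    congr 1
    omega
  calc 200 * N ^ 11 * (N ^ k + N ^ k') + 40 * (N ^ 11 + N ^ s') * N ^ 3
      = 200 * N ^ (k + 11) + 200 * N ^ (k' + 11) + 40 * N ^ 14 + 40 * N ^ (s' + 3) := by ring
    _ ≤ 480 * N ^ (t - 1) := by omega
    _ ≤ N * N ^ (t - 1) := Nat.mul_le_mul_right _ (by omega)
    _ = N ^ t := e5.symm

/-- GI-Q10. TRANSCENDENCE MEASURE OF `π`. `κ = 62`, `n = N^11`, `G1 = N^60`, `W' = N^62`, `N` large.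
Suppose `¬ Meas π N (N^62)`. `first_step` with `(K, S) = (N^5, N^12)`
(`28 (n + S) N^3 K S ≤ 56 N^32 < n^3`); `gap_deriv` gives `HH p (N^5) (N^12) (G1 - 1)`. Then `step`
three times: `(N^5, N^12) → (N^5, N^13) → (N^6, N^14) → (N^8, N^16)` (at each step
`200 n (K + K') + 40 (n + S') N^3 ≤ K S`: `K S = N^17, N^18, N^20` and
`n K_max = N^16, N^17, N^19`, `S' N^3 = N^16, N^17, N^19`). Finally `final_pi_contra` with
`K S = N^24 ≥ 200 N^11 (N^8 + 1) + 10 (N^11 + 1)^2 N`. All logarithms are `≤ N`: `N^100 ≤ exp N` for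
large `N`. -/
theorem polyMeas_pi : PolyMeas (fun _ : Fin 1 => Real.pi) := by
  obtain ⟨N0, hN0⟩ := ev_pow_le_exp
  refine ⟨62, N0 + 500, ?_⟩
  intro N hNX
  by_contra hbad
  have hN5 : 500 ≤ N := by omega
  have hN1 : 1 ≤ N := by omega
  have hN40 : 40 ≤ N := by omega
  have hN100 : 100 ≤ N := by omega
  have hx : (500 : ℝ) ≤ N := by exact_mod_cast hN5
  have hx1 : (1 : ℝ) ≤ N := by linarith
  have hE : (N : ℝ) ^ 100 ≤ Real.exp N := hN0 N (by omega)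
  have hn : N ≤ N ^ 11 := by
    calc N = N ^ 1 := (pow_one N).symm
      _ ≤ N ^ 11 := Nat.pow_le_pow_right hN1 (by norm_num)
  have hpos : ∀ a : ℕ, 1 ≤ N ^ a := fun a => Nat.one_le_pow _ _ hN1
  have hG1 : (1 : ℝ) ≤ (N : ℝ) ^ 60 := one_le_pow₀ hx1
  -- first step
  obtain ⟨p, hp0, hp, H0⟩ := first_step (n := N ^ 11) (N := N) (K := N ^ 5) (S := N ^ 12)
    hN40 hn (hpos 5) (hpos 12) (by
      have h := hlog5 hx hE 11 5 12 0 0 (by norm_num)
      refine le_trans ?_ h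
      push_cast
      have e : (0 : ℝ) ≤ 200 * ((N : ℝ) ^ 11 + 1) * ((N : ℝ) ^ 5 + 1) * ((N : ℝ) ^ 12 + 1) := by
        positivity
      norm_num
      linarith) (by
      have e1 : N ^ 31 ≤ N ^ 32 := Nat.pow_le_pow_right hN1 (by norm_num)
      have e2 : N ^ 33 = N * N ^ 32 := by ring
      have e3 : 0 < N ^ 32 := hpos 32
      calc 28 * (N ^ 11 + N ^ 12) * N ^ 3 * (N ^ 5 * N ^ 12) = 28 * N ^ 31 + 28 * N ^ 32 := by ring
        _ ≤ 56 * N ^ 32 := by omega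
        _ < N * N ^ 32 := Nat.mul_lt_mul_of_pos_right (by omega) e3
        _ = N ^ 11 * (N ^ 11) ^ 2 := by ring
        _ ≤ N ^ 11 * (N ^ 11 + 1) ^ 2 :=
          Nat.mul_le_mul_left _ (Nat.pow_le_pow_left (by omega) 2))
  have H1 : HH p (N ^ 5) (N ^ 12) ((N : ℝ) ^ 60 - 1) := by
    intro k hk s hs
    refine gap_deriv (n := N ^ 11) (N := N) (S := N ^ 12) (K := N ^ 5) (W' := (N : ℝ) ^ 62)
      (G1 := (N : ℝ) ^ 60) hN40 hn (hpos 5) hG1 ?_ ?_ hbad p hp k s hk hs (H0 k hk s hs)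
    · have h := hlog5 hx hE 11 5 12 0 0 (by norm_num)
      refine le_trans ?_ h
      push_cast
      have e : (0 : ℝ) ≤ 200 * ((N : ℝ) ^ 11 + 1) * ((N : ℝ) ^ 5 + 1) * ((N : ℝ) ^ 12 + 1) := by
        positivity
      norm_num
      linarith
    · have h := hW5 hx 12 (by norm_num)
      push_cast
      exact h
  -- the three steps
  have H2 : HH p (N ^ 5) (N ^ 13) ((N : ℝ) ^ 60 - 1) := by
    refine step (n := N ^ 11) (N := N) (K := N ^ 5) (S := N ^ 12) (K' := N ^ 5) (S' := N ^ 13)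
      (W' := (N : ℝ) ^ 62) hN100 hn (hpos _) (hpos _) (hpos _) (hpos _) hG1 ?_ ?_ ?_ ?_ hbad p hp H1
    · have h := hlog5 hx hE 11 5 5 12 13 (by norm_num)
      push_cast
      exact h
    · have h := hT5 hN5 5 5 13 17 (by norm_num) (by norm_num) (by norm_num) (by norm_num)
      rw [← pow_add]
      exact h
    · have h := hG5 hx 5 12 (by norm_num)
      push_cast
      exact h
    · have h := hW5 hx 13 (by norm_num)
      push_cast
      exact h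
  have H3 : HH p (N ^ 6) (N ^ 14) ((N : ℝ) ^ 60 - 1) := by
    refine step (n := N ^ 11) (N := N) (K := N ^ 5) (S := N ^ 13) (K' := N ^ 6) (S' := N ^ 14)
      (W' := (N : ℝ) ^ 62) hN100 hn (hpos _) (hpos _) (hpos _) (hpos _) hG1 ?_ ?_ ?_ ?_ hbad p hp H2
    · have h := hlog5 hx hE 11 5 6 13 14 (by norm_num)
      push_cast
      exact h
    · have h := hT5 hN5 5 6 14 18 (by norm_num) (by norm_num) (by norm_num) (by norm_num)
      rw [← pow_add]
      exact h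
    · have h := hG5 hx 5 13 (by norm_num)
      push_cast
      exact h
    · have h := hW5 hx 14 (by norm_num)
      push_cast
      exact h
  have H4 : HH p (N ^ 8) (N ^ 16) ((N : ℝ) ^ 60 - 1) := by
    refine step (n := N ^ 11) (N := N) (K := N ^ 6) (S := N ^ 14) (K' := N ^ 8) (S' := N ^ 16)
      (W' := (N : ℝ) ^ 62) hN100 hn (hpos _) (hpos _) (hpos _) (hpos _) hG1 ?_ ?_ ?_ ?_ hbad p hp H3
    · have h := hlog5 hx hE 11 6 8 14 16 (by norm_num)
      push_cast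
      exact h
    · have h := hT5 hN5 6 8 16 20 (by norm_num) (by norm_num) (by norm_num) (by norm_num)
      rw [← pow_add]
      exact h
    · have h := hG5 hx 6 14 (by norm_num)
      push_cast
      exact h
    · have h := hW5 hx 16 (by norm_num)
      push_cast
      exact h
  -- the contradiction
  refine final_pi_contra (n := N ^ 11) (N := N) (K := N ^ 8) (S := N ^ 16) (G1 := (N : ℝ) ^ 60)
    hN100 hn (hpos _) (hpos _) ?_ ?_ ?_ p hp hp0 H4
  · have h := hlog5 hx hE 11 8 0 16 0 (by norm_num)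
    refine le_trans ?_ h
    push_cast
    have e : (0 : ℝ) ≤ 200 * ((N : ℝ) ^ 11 + 1) * ((N : ℝ) ^ 8 + 1) * ((N : ℝ) ^ 16 + 1) := by
      positivity
    norm_num
    nlinarith
  · have e1 : N ^ 11 ≤ N ^ 23 := Nat.pow_le_pow_right hN1 (by norm_num)
    have e2 : N ^ 19 ≤ N ^ 23 := Nat.pow_le_pow_right hN1 (by norm_num)
    have e3 : N ^ 12 ≤ N ^ 23 := Nat.pow_le_pow_right hN1 (by norm_num)
    have e4 : N ≤ N ^ 23 := by
      calc N = N ^ 1 := (pow_one N).symm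
        _ ≤ N ^ 23 := Nat.pow_le_pow_right hN1 (by norm_num)
    calc 200 * N ^ 11 * (N ^ 8 + 1) + 10 * (N ^ 11 + 1) ^ 2 * N
        = 200 * N ^ 19 + 200 * N ^ 11 + 10 * N ^ 23 + 20 * N ^ 12 + 10 * N := by ring
      _ ≤ 440 * N ^ 23 := by omega
      _ ≤ N * N ^ 23 := Nat.mul_le_mul_right _ (by omega)
      _ = N ^ 8 * N ^ 16 := by ring
  · have h := hG5 hx 8 16 (by norm_num)
    push_cast
    exact h

end GLR
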