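import Pool.Agent.Helper49.GL.Def

namespace GLR

open MvPolynomial

private lemma wl_eq_sum {m : ℕ} {t : ℝ} (P : MvPolynomial (Fin m) ℤ) (S : Finset (Fin m →₀ ℕ))
    (hS : P.support ⊆ S) : wl t P = ∑ s ∈ S, |((P.coeff s : ℤ) : ℝ)| * t ^ (∑ i, s i) := by
  unfold wl
  refine Finset.sum_subset hS fun s _ hs => ?_
  rw [MvPolynomial.notMem_support_iff.mp hs]
  simp

private lemma wl_nonneg {m : ℕ} {t : ℝ} (ht : 1 ≤ t) (P : MvPolynomial (Fin m) ℤ) :
    0 ≤ wl t P := by
  unfold wl
  exact Finset.sum_nonneg fun s _ => mul_nonneg (abs_nonneg _) (pow_nonneg (by linarith) _)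

private lemma wl_zero {m : ℕ} {t : ℝ} : wl t (0 : MvPolynomial (Fin m) ℤ) = 0 := by
  simp [wl]

private lemma wl_add {m : ℕ} {t : ℝ} (ht : 1 ≤ t) (P Q : MvPolynomial (Fin m) ℤ) :
    wl t (P + Q) ≤ wl t P + wl t Q := by
  classical
  rw [wl_eq_sum (P + Q) (P.support ∪ Q.support) MvPolynomial.support_add,
    wl_eq_sum P (P.support ∪ Q.support) Finset.subset_union_left,
    wl_eq_sum Q (P.support ∪ Q.support) Finset.subset_union_right, ← Finset.sum_add_distrib]
  refine Finset.sum_le_sum fun s _ => ?_
  rw [← add_mul]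
  refine mul_le_mul_of_nonneg_right ?_ (pow_nonneg (by linarith) _)
  rw [MvPolynomial.coeff_add, Int.cast_add]
  exact abs_add_le _ _

private lemma wl_sum {m : ℕ} {t : ℝ} (ht : 1 ≤ t) {ι : Type*} (S : Finset ι)
    (f : ι → MvPolynomial (Fin m) ℤ) : wl t (∑ i ∈ S, f i) ≤ ∑ i ∈ S, wl t (f i) := by
  classical
  induction S using Finset.induction_on with
  | empty => simp [wl_zero]
  | insert a S ha ih =>
    rw [Finset.sum_insert ha, Finset.sum_insert ha]
    exact (wl_add ht _ _).trans (by linarith)

private lemma wl_monomial_mul {m : ℕ} {t : ℝ} (u : Fin m →₀ ℕ) (c : ℤ)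
    (Q : MvPolynomial (Fin m) ℤ) :
    wl t (monomial u c * Q) = |(c : ℝ)| * t ^ (∑ i, u i) * wl t Q := by
  classical
  have hS : (monomial u c * Q).support ⊆ Q.support.image (fun r => u + r) := by
    intro s hs
    rw [MvPolynomial.mem_support_iff, MvPolynomial.coeff_monomial_mul'] at hs
    rw [Finset.mem_image]
    by_cases hle : u ≤ s
    · rw [if_pos hle] at hs
      refine ⟨s - u, MvPolynomial.mem_support_iff.mpr (right_ne_zero_of_mul hs), ?_⟩
      exact add_tsub_cancel_of_le hle
    · rw [if_neg hle] at hs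
      exact absurd rfl hs
  rw [wl_eq_sum _ _ hS, Finset.sum_image (fun a _ b _ h => add_left_cancel h)]
  unfold wl
  rw [Finset.mul_sum]
  refine Finset.sum_congr rfl fun r _ => ?_
  rw [MvPolynomial.coeff_monomial_mul, Int.cast_mul, abs_mul]
  have : (∑ i, (u + r) i) = (∑ i, u i) + ∑ i, r i := by
    simp [Finset.sum_add_distrib]
  rw [this, pow_add]
  ring

/-- GI-A1. The weighted length is a submultiplicative length.
nonneg, zero, one, neg: direct (for `one`: the support of `1` is contained in `{0}`, the coefficient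
is `1`). add: extend both sums to the union of the supports. mul: write
`P = ∑ u ∈ P.support, monomial u (coeff u P)` (`MvPolynomial.support_sum_monomial_coeff`), use
subadditivity, and `wl t (monomial u c * Q) ≤ |c| t^|u| wl t Q` (the support of `monomial u c * Q` is
contained in the image of `Q.support` under `s ↦ u + s`, `coeff_monomial_mul`, degrees add). -/
theorem isLen_wl {m : ℕ} {t : ℝ} (ht : 1 ≤ t) : IsLen (wl (m := m) t) where
  nonneg := wl_nonneg ht
  zero := wl_zero
  one := by
    have h : (1 : MvPolynomial (Fin m) ℤ) = monomial 0 1 := rfl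
    rw [wl_eq_sum (1 : MvPolynomial (Fin m) ℤ) {0} (by rw [h]; exact support_monomial_subset)]
    simp
  neg := fun P => by
    unfold wl
    rw [MvPolynomial.support_neg]
    refine Finset.sum_congr rfl fun s _ => ?_
    rw [MvPolynomial.coeff_neg, Int.cast_neg, abs_neg]
  add := wl_add ht
  mul := fun P Q => by
    conv_lhs => rw [← MvPolynomial.support_sum_monomial_coeff P, Finset.sum_mul]
    refine (wl_sum ht _ _).trans ?_
    conv_rhs => rw [wl, Finset.sum_mul]
    refine Finset.sum_le_sum fun u _ => ?_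
    rw [wl_monomial_mul]

end GLR
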