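import Pool.Agent.Helper49.GL.Def

namespace GLR

open MvPolynomial

/-- GI-A2. `|P(θ)| ≤ wl t P` if `|θ i| ≤ t`. Expand `ev θ P` as the sum over the support of
`coeff s * ∏ θ i ^ s i` (`MvPolynomial.eval₂_eq'`), and `|∏ θ i ^ s i| ≤ ∏ t ^ s i = t ^ (∑ s i)`. -/
theorem abs_ev_le {m : ℕ} {t : ℝ} (ht : 1 ≤ t) {θ : Fin m → ℝ} (hθ : ∀ i, |θ i| ≤ t)
    (P : MvPolynomial (Fin m) ℤ) : |ev θ P| ≤ wl t P := by
  have h1 : ev θ P = ∑ s ∈ P.support, ((P.coeff s : ℤ) : ℝ) * ∏ i, θ i ^ s i := by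
    unfold ev
    rw [coe_eval₂Hom, eval₂_eq']
    simp
  rw [h1]
  refine (Finset.abs_sum_le_sum_abs _ _).trans (Finset.sum_le_sum fun s _ => ?_)
  rw [abs_mul, Finset.abs_prod, ← Finset.prod_pow_eq_pow_sum]
  refine mul_le_mul_of_nonneg_left ?_ (abs_nonneg _)
  refine Finset.prod_le_prod (fun i _ => abs_nonneg _) fun i _ => ?_
  rw [abs_pow]
  exact pow_le_pow_left₀ (abs_nonneg _) (hθ i) _

/-- GI-A2. Consequence for polynomials of bounded complexity, for `|θ i| ≤ 4` (use `4 ≤ exp 2`). -/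
theorem abs_ev_le_exp {m : ℕ} {θ : Fin m → ℝ} (hθ : ∀ i, |θ i| ≤ 4)
    (P : MvPolynomial (Fin m) ℤ) (X : ℕ) (hP : Cx P X X) : |ev θ P| ≤ Real.exp (3 * X) := by
  have h1 := abs_ev_le (t := 4) (by norm_num) hθ P
  have h2 := hP 4 (by norm_num)
  have h3 : (4 : ℝ) ≤ Real.exp 2 := by
    have h4 := Real.exp_one_gt_d9
    have h5 : Real.exp 2 = Real.exp 1 * Real.exp 1 := by
      rw [← Real.exp_add]
      norm_num
    rw [h5]
    nlinarith
  have h6 : (4 : ℝ) ^ X ≤ Real.exp (2 * X) := by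
    have h7 : Real.exp (2 * X) = Real.exp 2 ^ X := by
      rw [← Real.exp_nat_mul]
      congr 1
      ring
    rw [h7]
    exact pow_le_pow_left₀ (by norm_num) h3 X
  calc |ev θ P| ≤ wl 4 P := h1
    _ ≤ Real.exp X * 4 ^ X := h2
    _ ≤ Real.exp X * Real.exp (2 * X) := by gcongr
    _ = Real.exp (3 * X) := by
      rw [← Real.exp_add]
      congr 1
      ring

end GLR
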