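import Pool.Agent.Helper49.GL.Def

namespace GLR

open MvPolynomial

private theorem a3_deg_le {m : ℕ} (P : MvPolynomial (Fin m) ℤ) {s : Fin m →₀ ℕ}
    (hs : s ∈ P.support) : ∑ i, s i ≤ P.totalDegree := by
  have h := le_totalDegree hs
  rwa [Finsupp.sum_fintype _ _ (fun _ => rfl)] at h

/-- GI-A3. `Cx` encodes total degree and length. (←) `t ^ |s| ≤ t ^ D` for `s` in the support.
(→) `t = 1` gives the length; if `P` has a monomial `s` of degree `d > D` then
`t ^ d ≤ wl t P ≤ exp L * t ^ D` (a nonzero integer has absolute value `≥ 1`), so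
`t ≤ t ^ (d - D) ≤ exp L` for all `t ≥ 1`, absurd for `t = exp L + 1`. -/
theorem cx_iff {m : ℕ} (P : MvPolynomial (Fin m) ℤ) (D : ℕ) (L : ℝ) :
    Cx P D L ↔ P.totalDegree ≤ D ∧ wl 1 P ≤ Real.exp L := by
  constructor
  · intro h
    refine ⟨?_, ?_⟩
    · unfold MvPolynomial.totalDegree
      refine Finset.sup_le fun s hs => ?_
      rw [Finsupp.sum_fintype _ _ (fun _ => rfl)]
      by_contra hd
      have hd' : D + 1 ≤ ∑ i, s i := by omega
      set t : ℝ := Real.exp L + 1 with ht
      have hL : 0 < Real.exp L := Real.exp_pos L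
      have ht1 : 1 ≤ t := by linarith
      have ht0 : 0 < t := by linarith
      have h1 := h t ht1
      have h2 : |((P.coeff s : ℤ) : ℝ)| * t ^ (∑ i, s i) ≤ wl t P := by
        unfold wl
        exact Finset.single_le_sum (f := fun s => |((P.coeff s : ℤ) : ℝ)| * t ^ (∑ i, s i))
          (fun s _ => by positivity) hs
      have h3 : (1 : ℝ) ≤ |((P.coeff s : ℤ) : ℝ)| := by
        have h4 : P.coeff s ≠ 0 := mem_support_iff.1 hs
        exact_mod_cast Int.one_le_abs h4
      have h5 : t ^ (D + 1) ≤ t ^ (∑ i, s i) := pow_le_pow_right₀ ht1 hd'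
      have h6 : t ^ (∑ i, s i) ≤ |((P.coeff s : ℤ) : ℝ)| * t ^ (∑ i, s i) :=
        le_mul_of_one_le_left (by positivity) h3
      have h7 : t ^ (D + 1) ≤ Real.exp L * t ^ D := by linarith
      rw [pow_succ, mul_comm (t ^ D)] at h7
      have h8 : t ≤ Real.exp L := le_of_mul_le_mul_right h7 (by positivity)
      linarith
    · have h1 := h 1 le_rfl
      rwa [one_pow, mul_one] at h1
  · rintro ⟨h1, h2⟩ t ht
    have ht0 : 0 < t := by linarith
    calc wl t P ≤ wl 1 P * t ^ D := by
          unfold wl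
          rw [Finset.sum_mul]
          refine Finset.sum_le_sum fun s hs => ?_
          rw [one_pow, mul_one]
          exact mul_le_mul_of_nonneg_left
            (pow_le_pow_right₀ ht ((a3_deg_le P hs).trans h1)) (abs_nonneg _)
      _ ≤ Real.exp L * t ^ D := mul_le_mul_of_nonneg_right h2 (by positivity)

theorem Cx.mono {m : ℕ} {P : MvPolynomial (Fin m) ℤ} {D D' : ℕ} {L L' : ℝ} (h : Cx P D L)
    (hD : D ≤ D') (hL : L ≤ L') : Cx P D' L' := by
  intro t ht
  have ht0 : 0 < t := by linarith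
  refine (h t ht).trans ?_
  exact mul_le_mul (Real.exp_le_exp.2 hL) (pow_le_pow_right₀ ht hD) (by positivity)
    (Real.exp_pos _).le

/-- GI-A3. The measure property is monotone: smaller complexity, larger `W`. -/
theorem Meas.mono {m : ℕ} {θ : Fin m → ℝ} {X X' : ℕ} {W W' : ℝ} (h : Meas θ X W)
    (hX : X' ≤ X) (hW : W ≤ W') : Meas θ X' W' := by
  intro P hP hc
  refine le_trans (Real.exp_le_exp.2 (by linarith)) (h P hP (hc.mono hX ?_))
  exact_mod_cast hX

end GLR
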