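import Pool.Agent.Helper49.GL.Def

namespace GLR

theorem IsLen.sum_le {A : Type} [CommRing A] {ℓ : A → ℝ} (h : IsLen ℓ) {ι : Type} (s : Finset ι)
    (f : ι → A) : ℓ (∑ i ∈ s, f i) ≤ ∑ i ∈ s, ℓ (f i) := by
  classical
  induction s using Finset.induction_on with
  | empty => simp [h.zero]
  | insert a s ha ih =>
    rw [Finset.sum_insert ha, Finset.sum_insert ha]
    exact (h.add _ _).trans (add_le_add le_rfl ih)

theorem IsLen.prod_le {A : Type} [CommRing A] {ℓ : A → ℝ} (h : IsLen ℓ) {ι : Type} (s : Finset ι)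
    (f : ι → A) : ℓ (∏ i ∈ s, f i) ≤ ∏ i ∈ s, ℓ (f i) := by
  classical
  induction s using Finset.induction_on with
  | empty => simpa using h.one
  | insert a s ha ih =>
    rw [Finset.prod_insert ha, Finset.prod_insert ha]
    exact (h.mul _ _).trans (mul_le_mul_of_nonneg_left ih (h.nonneg _))

theorem IsLen.pow_le {A : Type} [CommRing A] {ℓ : A → ℝ} (h : IsLen ℓ) (x : A) (k : ℕ) :
    ℓ (x ^ k) ≤ ℓ x ^ k := by
  induction k with
  | zero => simpa using h.one
  | succ k ih =>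
    rw [pow_succ, pow_succ]
    exact (h.mul _ _).trans (mul_le_mul_of_nonneg_right ih (h.nonneg _))

theorem IsLen.intCast_le {A : Type} [CommRing A] {ℓ : A → ℝ} (h : IsLen ℓ) (c : ℤ) :
    ℓ (c : A) ≤ |(c : ℝ)| := by
  have hn : ∀ n : ℕ, ℓ (n : A) ≤ (n : ℝ) := by
    intro n
    induction n with
    | zero => simp [h.zero]
    | succ n ih =>
      rw [Nat.cast_succ, Nat.cast_succ]
      exact (h.add _ _).trans (add_le_add ih h.one)
  obtain ⟨n, rfl | rfl⟩ := Int.eq_nat_or_neg c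
  · simpa using hn n
  · rw [Int.cast_neg, h.neg]
    simpa using hn n

/-- GI-A4. Leibniz formula: the length of a determinant. -/
theorem IsLen.det_le {A : Type} [CommRing A] {ℓ : A → ℝ} (h : IsLen ℓ) {I : Type} [Fintype I]
    [DecidableEq I] (M : Matrix I I A) {b : ℝ} (hM : ∀ i j, ℓ (M i j) ≤ b) :
    ℓ M.det ≤ (Fintype.card I).factorial * b ^ (Fintype.card I) := by
  rw [Matrix.det_apply]
  refine (h.sum_le _ _).trans ?_
  have h1 : ∀ σ : Equiv.Perm I, ℓ (Equiv.Perm.sign σ • ∏ i, M (σ i) i) ≤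
      b ^ (Fintype.card I) := by
    intro σ
    have h2 : ℓ (Equiv.Perm.sign σ • ∏ i, M (σ i) i) = ℓ (∏ i, M (σ i) i) := by
      rcases Int.units_eq_one_or (Equiv.Perm.sign σ) with h3 | h3
      · rw [h3, one_smul]
      · rw [h3, Units.neg_smul, one_smul, h.neg]
    rw [h2]
    refine (h.prod_le _ _).trans ?_
    calc ∏ i, ℓ (M (σ i) i) ≤ ∏ _i : I, b :=
          Finset.prod_le_prod (fun i _ => h.nonneg _) fun i _ => hM _ _
      _ = b ^ (Fintype.card I) := by
          rw [Finset.prod_const, Finset.card_univ]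
  refine (Finset.sum_le_sum fun σ _ => h1 σ).trans (le_of_eq ?_)
  rw [Finset.sum_const, Finset.card_univ, Fintype.card_perm, nsmul_eq_mul]

end GLR
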