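import Pool.Agent.Helper49.GL.A4

namespace GLR

open Polynomial

/-- the sum over a larger set of exponents -/
private lemma poly_aux_sup {A : Type} [CommRing A] {ℓ : A → ℝ} (h : IsLen ℓ) (f : Polynomial A)
    {s : Finset ℕ} (hs : f.support ⊆ s) :
    ∑ i ∈ f.support, ℓ (f.coeff i) = ∑ i ∈ s, ℓ (f.coeff i) := by
  apply Finset.sum_subset hs
  intro i _ hi
  rw [Polynomial.notMem_support_iff.mp hi, h.zero]

private lemma poly_aux_monomial {A : Type} [CommRing A] {ℓ : A → ℝ} (h : IsLen ℓ) (n : ℕ) (a : A) :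
    ∑ i ∈ (monomial n a).support, ℓ ((monomial n a).coeff i) = ℓ a := by
  rw [poly_aux_sup h (monomial n a) (s := {n}) (Polynomial.support_monomial_subset n a)]
  simp

/-- GI-A5. A length on `A` extends to `A[X]` (sum of the lengths of the coefficients). For `mul`:
`coeff_mul` is a sum over the antidiagonal, or use `f = ∑ monomial` and subadditivity. -/
theorem IsLen.poly {A : Type} [CommRing A] {ℓ : A → ℝ} (h : IsLen ℓ) :
    IsLen (fun f : Polynomial A => ∑ i ∈ f.support, ℓ (f.coeff i)) := by
  have hadd : ∀ f g : Polynomial A, ∑ i ∈ (f + g).support, ℓ ((f + g).coeff i) ≤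
      ∑ i ∈ f.support, ℓ (f.coeff i) + ∑ i ∈ g.support, ℓ (g.coeff i) := by
    intro f g
    rw [poly_aux_sup h (f + g) (s := f.support ∪ g.support) Polynomial.support_add,
      poly_aux_sup h f (s := f.support ∪ g.support) Finset.subset_union_left,
      poly_aux_sup h g (s := f.support ∪ g.support) Finset.subset_union_right,
      ← Finset.sum_add_distrib]
    apply Finset.sum_le_sum
    intro i _
    rw [Polynomial.coeff_add]
    exact h.add _ _
  have hzero : ∑ i ∈ (0 : Polynomial A).support, ℓ ((0 : Polynomial A).coeff i) = 0 := by simp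
  refine ⟨fun f => Finset.sum_nonneg fun i _ => h.nonneg _, hzero, ?_, ?_, hadd, ?_⟩
  · show ∑ i ∈ (1 : Polynomial A).support, ℓ ((1 : Polynomial A).coeff i) ≤ 1
    have h1 := poly_aux_monomial h 0 (1 : A)
    rw [Polynomial.monomial_zero_one] at h1
    rw [h1]
    exact h.one
  · intro f
    show ∑ i ∈ (-f).support, ℓ ((-f).coeff i) = ∑ i ∈ f.support, ℓ (f.coeff i)
    rw [Polynomial.support_neg]
    apply Finset.sum_congr rfl
    intro i _
    rw [Polynomial.coeff_neg, h.neg]
  · intro f g
    show ∑ i ∈ (f * g).support, ℓ ((f * g).coeff i) ≤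
      (∑ i ∈ f.support, ℓ (f.coeff i)) * ∑ i ∈ g.support, ℓ (g.coeff i)
    have hfg : f * g = ∑ i ∈ f.support, ∑ j ∈ g.support,
        monomial (i + j) (f.coeff i * g.coeff j) := by
      rw [Polynomial.mul_eq_sum_sum]
      rfl
    rw [hfg]
    refine le_trans (Finset.le_sum_of_subadditive
      (fun f : Polynomial A => ∑ i ∈ f.support, ℓ (f.coeff i)) hzero.le hadd _ _) ?_
    rw [Finset.sum_mul_sum]
    apply Finset.sum_le_sum
    intro i _
    refine le_trans (Finset.le_sum_of_subadditive
      (fun f : Polynomial A => ∑ i ∈ f.support, ℓ (f.coeff i)) hzero.le hadd _ _) ?_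
    apply Finset.sum_le_sum
    intro j _
    show ∑ k ∈ (monomial (i + j) (f.coeff i * g.coeff j)).support,
      ℓ ((monomial (i + j) (f.coeff i * g.coeff j)).coeff k) ≤ _
    rw [poly_aux_monomial h]
    exact h.mul _ _

end GLR
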