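import Pool.Agent.Helper49.GL.A5

namespace GLR

open Polynomial

private theorem A6_mono {A : Type} [CommRing A] {ℓ : A → ℝ} (h : IsLen ℓ) (n : ℕ) (m : A) :
    ∑ i ∈ (monomial n m).support, ℓ ((monomial n m).coeff i) ≤ ℓ m := by
  refine (Finset.sum_le_sum_of_subset_of_nonneg (support_monomial_subset n m)
    (fun i _ _ => h.nonneg _)).trans ?_
  rw [Finset.sum_singleton, coeff_monomial, if_pos rfl]

private theorem A6_coeff {A : Type} [CommRing A] {ℓ : A → ℝ} (h : IsLen ℓ) (f : Polynomial A)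
    (k : ℕ) : ℓ (f.coeff k) ≤ ∑ i ∈ f.support, ℓ (f.coeff i) := by
  by_cases hk : k ∈ f.support
  · exact Finset.single_le_sum (f := fun i => ℓ (f.coeff i)) (fun i _ => h.nonneg _) hk
  · rw [notMem_support_iff.mp hk, h.zero]
    exact Finset.sum_nonneg fun i _ => h.nonneg _

private theorem A6_entry {A : Type} [CommRing A] {ℓ : A → ℝ} (h : IsLen ℓ) {I : Type} [Fintype I]
    [DecidableEq I] (M : Matrix I I A) {b : ℝ} (hb : 0 ≤ b) (hM : ∀ i j, ℓ (M i j) ≤ b) (i j : I) :
    (fun f : Polynomial A => ∑ i ∈ f.support, ℓ (f.coeff i)) (Matrix.charmatrix M i j) ≤ 1 + b := by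
  have hp := h.poly
  have hC : ∀ m : A, (fun f : Polynomial A => ∑ i ∈ f.support, ℓ (f.coeff i)) (C m) ≤ ℓ m := by
    intro m
    exact A6_mono h 0 m
  have hX : (fun f : Polynomial A => ∑ i ∈ f.support, ℓ (f.coeff i)) X ≤ 1 := by
    have h1 := A6_mono h 1 (1 : A)
    exact h1.trans h.one
  by_cases hij : i = j
  · subst hij
    rw [Matrix.charmatrix_apply_eq, sub_eq_add_neg]
    refine (hp.add _ _).trans (add_le_add hX ?_)
    rw [hp.neg]
    exact (hC _).trans (hM i i)
  · rw [Matrix.charmatrix_apply_ne _ _ _ hij]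
    refine (hp.neg (C (M i j))).le.trans ?_
    exact ((hC _).trans (hM i j)).trans (by linarith)

/-- GI-A6. Length of the coefficients of a characteristic polynomial: `charpoly = det (charmatrix)`,
the entries of the charmatrix (`X - C (M i i)` and `- C (M i j)`) have `A[X]`-length `≤ 1 + b`
(`IsLen.poly`), use `IsLen.det_le` for `A[X]`, and one coefficient is bounded by the sum. -/
theorem IsLen.charpoly_le {A : Type} [CommRing A] {ℓ : A → ℝ} (h : IsLen ℓ) {I : Type} [Fintype I]
    [DecidableEq I] (M : Matrix I I A) {b : ℝ} (hb : 0 ≤ b) (hM : ∀ i j, ℓ (M i j) ≤ b) (k : ℕ) :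
    ℓ (M.charpoly.coeff k) ≤ (Fintype.card I).factorial * (1 + b) ^ (Fintype.card I) := by
  refine (A6_coeff h M.charpoly k).trans ?_
  exact (h.poly).det_le (Matrix.charmatrix M) (A6_entry h M hb hM)

end GLR
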