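import Pool.Agent.Helper49.GL.A4

namespace GLR

/-- GI-A7. Entries of matrix powers. Induction on `a`: `a = 0`: entries of `1` have length `≤ 1`;
step: `ℓ ((M^(a+1)) i j) ≤ ∑ k, ℓ ((M^a) i k) ℓ (M k j) ≤ ∑ k, B^a ℓ (M k j)` and
`∑ k, ℓ (M k j) ≤ B` since each `d * ℓ (M k j) ≤ B`. -/
theorem IsLen.matpow_le {A : Type} [CommRing A] {ℓ : A → ℝ} (h : IsLen ℓ) {d : ℕ}
    (M : Matrix (Fin d) (Fin d) A) {B : ℝ} (hB : 1 ≤ B) (hM : ∀ i j, (d : ℝ) * ℓ (M i j) ≤ B)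
    (a : ℕ) (i j : Fin d) : ℓ ((M ^ a) i j) ≤ B ^ a := by
  have hd : 0 < d := Fin.pos i
  have hdR : (0 : ℝ) < d := by exact_mod_cast hd
  have hB0 : 0 ≤ B := zero_le_one.trans hB
  induction a generalizing i j with
  | zero =>
    rw [pow_zero, pow_zero]
    by_cases hij : i = j
    · rw [hij, Matrix.one_apply_eq]
      exact h.one
    · rw [Matrix.one_apply_ne hij, h.zero]
      exact zero_le_one
  | succ a ih =>
    have hs : ∑ k, ℓ (M k j) ≤ B := by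
      have h1 : ∀ k ∈ Finset.univ, ℓ (M k j) ≤ B / d := fun k _ => by
        rw [le_div_iff₀ hdR, mul_comm]
        exact hM k j
      refine (Finset.sum_le_card_nsmul _ _ _ h1).trans ?_
      rw [Finset.card_univ, Fintype.card_fin, nsmul_eq_mul, mul_div_cancel₀ _ hdR.ne']
    rw [pow_succ, pow_succ, Matrix.mul_apply]
    calc ℓ (∑ k, (M ^ a) i k * M k j) ≤ ∑ k, ℓ ((M ^ a) i k * M k j) := h.sum_le _ _
      _ ≤ ∑ k, B ^ a * ℓ (M k j) := Finset.sum_le_sum fun k _ =>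
          (h.mul _ _).trans (mul_le_mul_of_nonneg_right (ih i k) (h.nonneg _))
      _ = B ^ a * ∑ k, ℓ (M k j) := by rw [Finset.mul_sum]
      _ ≤ B ^ a * B := mul_le_mul_of_nonneg_left hs (pow_nonneg hB0 a)

end GLR
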