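import Pool.Agent.Helper49.GL.Def

namespace GLR

/-- GI-A8. Entries of the adjugate (`Matrix.adjugate_apply`, `Matrix.det_le` with
`AbsoluteValue.abs`). -/
theorem abs_adjugate_le {I : Type} [Fintype I] [DecidableEq I] (M : Matrix I I ℝ) {b : ℝ}
    (hb : 1 ≤ b) (hM : ∀ i j, |M i j| ≤ b) (i j : I) :
    |M.adjugate i j| ≤ (Fintype.card I).factorial * b ^ (Fintype.card I) := by
  rw [Matrix.adjugate_apply]
  have h := Matrix.det_le (A := M.updateRow j (Pi.single i 1)) (abv := AbsoluteValue.abs) (x := b)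
    (fun k l => by
      show |M.updateRow j (Pi.single i 1) k l| ≤ b
      by_cases hk : k = j
      · subst hk
        rw [Matrix.updateRow_self]
        by_cases hl : l = i
        · subst hl
          rw [Pi.single_eq_same, abs_one]
          exact hb
        · rw [Pi.single_eq_of_ne hl, abs_zero]
          linarith
      · rw [Matrix.updateRow_ne hk]
        exact hM k l)
  rw [nsmul_eq_mul] at h
  exact h

/-- GI-A8. If `w M` is small and some coordinate of `w` is `1` then `det M` is small: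
`w * det M = (w M) adj M`. -/
theorem det_of_approx {I : Type} [Fintype I] [DecidableEq I] (M : Matrix I I ℝ) {b ε : ℝ}
    (hb : 1 ≤ b) (hM : ∀ i j, |M i j| ≤ b) (w : I → ℝ) (i₀ : I) (hw : w i₀ = 1)
    (hε : ∀ j, |Matrix.vecMul w M j| ≤ ε) :
    |M.det| ≤ (Fintype.card I : ℝ) * ε * ((Fintype.card I).factorial * b ^ (Fintype.card I)) := by
  have h1 : Matrix.vecMul (Matrix.vecMul w M) M.adjugate i₀ = M.det := by
    rw [Matrix.vecMul_vecMul, Matrix.mul_adjugate, Matrix.vecMul_smul, Matrix.vecMul_one,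
      Pi.smul_apply, hw, smul_eq_mul, mul_one]
  have hε0 : 0 ≤ ε := (abs_nonneg _).trans (hε i₀)
  rw [← h1]
  calc |Matrix.vecMul (Matrix.vecMul w M) M.adjugate i₀|
      = |∑ j, Matrix.vecMul w M j * M.adjugate j i₀| := rfl
    _ ≤ ∑ j, |Matrix.vecMul w M j * M.adjugate j i₀| := Finset.abs_sum_le_sum_abs _ _
    _ ≤ ∑ _j : I, ε * ((Fintype.card I).factorial * b ^ (Fintype.card I)) := by
        refine Finset.sum_le_sum fun j _ => ?_
        rw [abs_mul]
        exact mul_le_mul (hε j) (abs_adjugate_le M hb hM j i₀) (abs_nonneg _) hε0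
    _ = _ := by
        rw [Finset.sum_const, Finset.card_univ, nsmul_eq_mul]
        ring

/-- GI-A8. Cramer estimate: if some coordinate of `x` has absolute value `≥ μ` and the
coordinates of `M x` are `≤ ε` then `μ |det M| ≤ card * ε * card! * b ^ card`
(`adj M * M = det M`). -/
theorem cramer_est {I : Type} [Fintype I] [DecidableEq I] (M : Matrix I I ℝ) {b ε μ : ℝ}
    (hb : 1 ≤ b) (hM : ∀ i j, |M i j| ≤ b) (x : I → ℝ) (i₀ : I) (hx : μ ≤ |x i₀|)
    (hε : ∀ j, |Matrix.mulVec M x j| ≤ ε) :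
    μ * |M.det| ≤ (Fintype.card I : ℝ) * ε * ((Fintype.card I).factorial * b ^ (Fintype.card I)) := by
  have h1 : Matrix.mulVec M.adjugate (Matrix.mulVec M x) i₀ = M.det * x i₀ := by
    rw [Matrix.mulVec_mulVec, Matrix.adjugate_mul, Matrix.smul_mulVec, Matrix.one_mulVec,
      Pi.smul_apply, smul_eq_mul]
  have hε0 : 0 ≤ ε := (abs_nonneg _).trans (hε i₀)
  calc μ * |M.det| ≤ |x i₀| * |M.det| := mul_le_mul_of_nonneg_right hx (abs_nonneg _)
    _ = |Matrix.mulVec M.adjugate (Matrix.mulVec M x) i₀| := by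
        rw [h1, abs_mul, mul_comm]
    _ = |∑ j, M.adjugate i₀ j * Matrix.mulVec M x j| := rfl
    _ ≤ ∑ j, |M.adjugate i₀ j * Matrix.mulVec M x j| := Finset.abs_sum_le_sum_abs _ _
    _ ≤ ∑ _j : I, ((Fintype.card I).factorial * b ^ (Fintype.card I)) * ε := by
        refine Finset.sum_le_sum fun j _ => ?_
        rw [abs_mul]
        exact mul_le_mul (abs_adjugate_le M hb hM i₀ j) (hε j) (abs_nonneg _) (by positivity)
    _ = _ := by
        rw [Finset.sum_const, Finset.card_univ, nsmul_eq_mul]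
        ring

end GLR
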