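import Pool.Agent.Helper49.GL.Def

namespace GLR

open MvPolynomial

private lemma fse_wl_nonneg {m : ℕ} {t : ℝ} (ht : 0 ≤ t) (P : MvPolynomial (Fin m) ℤ) :
    0 ≤ wl t P := by
  unfold wl
  exact Finset.sum_nonneg fun s _ => by positivity

private lemma fse_one_le_wl {m : ℕ} {t : ℝ} (ht : 1 ≤ t) {P : MvPolynomial (Fin m) ℤ}
    (hP : P ≠ 0) : 1 ≤ wl t P := by
  obtain ⟨s, hs⟩ : P.support.Nonempty := by
    rwa [Finset.nonempty_iff_ne_empty, ne_eq, MvPolynomial.support_eq_empty]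
  unfold wl
  have h1 : (1 : ℝ) ≤ |((P.coeff s : ℤ) : ℝ)| * t ^ (∑ i, s i) := by
    have h2 : (1 : ℝ) ≤ |((P.coeff s : ℤ) : ℝ)| := by
      rw [← Int.cast_abs]
      have h3 : (1 : ℤ) ≤ |P.coeff s| := Int.one_le_abs (MvPolynomial.mem_support_iff.1 hs)
      exact_mod_cast h3
    have h4 : (1 : ℝ) ≤ t ^ (∑ i, s i) := one_le_pow₀ ht
    nlinarith
  refine h1.trans ?_
  exact Finset.single_le_sum (f := fun s => |((P.coeff s : ℤ) : ℝ)| * t ^ (∑ i, s i))
    (fun s _ => by positivity) hs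

private lemma fse_coeff_wl {m : ℕ} {t : ℝ} (ht : 0 ≤ t) (P : MvPolynomial (Fin (m + 1)) ℤ)
    (i : ℕ) : wl t ((finSuccEquiv ℤ m P).coeff i) * t ^ i ≤ wl t P := by
  classical
  unfold wl
  rw [Finset.sum_mul]
  have hinj : Function.Injective (fun s : Fin m →₀ ℕ => Finsupp.cons i s) := by
    intro s s' h
    ext j
    have h1 := DFunLike.congr_fun h j.succ
    simpa using h1
  have e : ∑ s ∈ ((finSuccEquiv ℤ m P).coeff i).support,
      |((((finSuccEquiv ℤ m P).coeff i).coeff s : ℤ) : ℝ)| * t ^ (∑ j, s j) * t ^ i =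
      ∑ s ∈ (((finSuccEquiv ℤ m P).coeff i).support.image
        (fun s : Fin m →₀ ℕ => Finsupp.cons i s)), |((P.coeff s : ℤ) : ℝ)| * t ^ (∑ j, s j) := by
    rw [Finset.sum_image (fun a _ b _ h => hinj h)]
    refine Finset.sum_congr rfl fun s _ => ?_
    rw [finSuccEquiv_coeff_coeff, Fin.sum_univ_succ]
    simp only [Finsupp.cons_zero, Finsupp.cons_succ]
    rw [pow_add]
    ring
  rw [e]
  refine Finset.sum_le_sum_of_subset_of_nonneg ?_ fun s _ _ => by positivity
  intro s hs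
  obtain ⟨s', hs', rfl⟩ := Finset.mem_image.1 hs
  rw [MvPolynomial.mem_support_iff, finSuccEquiv_coeff_coeff] at hs'
  rw [MvPolynomial.mem_support_iff]
  exact hs'

/-- GI-A9. Splitting off the variable `0`: `f = finSuccEquiv ℤ m P`. The degree bound:
`natDegree_finSuccEquiv` and `degreeOf_le_totalDegree` together with `Cx → totalDegree ≤ N`
(prove it here or import GI-A3 `cx_iff`); or argue directly with lengths: for each `i` and `t ≥ 1`
one has `wl t (f.coeff i) * t ^ i ≤ wl t P` (`finSuccEquiv_coeff_coeff`: coefficient of `s` in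
`f.coeff i` is the coefficient of `s.cons i` in `P`).
Evaluation: `eval_eq_eval_mv_eval'` or induction / ring hom extensionality. -/
theorem fse {m : ℕ} (P : MvPolynomial (Fin (m + 1)) ℤ) (N : ℕ) (hP : P ≠ 0) (hcx : Cx P N N) :
    finSuccEquiv ℤ m P ≠ 0 ∧ (finSuccEquiv ℤ m P).natDegree ≤ N ∧
    (∀ i, Cx ((finSuccEquiv ℤ m P).coeff i) N N) ∧
    ∀ (θ : Fin m → ℝ) (η : ℝ),
      (finSuccEquiv ℤ m P).eval₂ (ev θ) η = ev (Fin.cons η θ : Fin (m + 1) → ℝ) P := by
  have h0 : finSuccEquiv ℤ m P ≠ 0 := by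
    intro h
    apply hP
    apply (finSuccEquiv ℤ m).injective
    rw [h, map_zero]
  refine ⟨h0, ?_, ?_, ?_⟩
  · by_contra hc
    push Not at hc
    have h1 : (finSuccEquiv ℤ m P).coeff (finSuccEquiv ℤ m P).natDegree ≠ 0 := by
      rw [Polynomial.coeff_natDegree]
      exact Polynomial.leadingCoeff_ne_zero.2 h0
    have hE : (0 : ℝ) < Real.exp N := Real.exp_pos _
    have ht : (1 : ℝ) ≤ Real.exp N + 1 := by linarith
    have h2 := fse_coeff_wl (t := Real.exp N + 1) (by linarith) P (finSuccEquiv ℤ m P).natDegree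
    have h3 := hcx (Real.exp N + 1) ht
    have h4 := fse_one_le_wl ht h1
    have h5 : (Real.exp N + 1) ^ (N + 1) ≤ (Real.exp N + 1) ^ (finSuccEquiv ℤ m P).natDegree :=
      pow_le_pow_right₀ ht hc
    have h6 : (0 : ℝ) < (Real.exp N + 1) ^ N := by positivity
    have h7 : (0 : ℝ) < (Real.exp N + 1) ^ (finSuccEquiv ℤ m P).natDegree := by positivity
    rw [pow_succ] at h5
    nlinarith
  · intro i t ht
    have h1 := fse_coeff_wl (t := t) (by linarith) P i
    have h2 := fse_wl_nonneg (t := t) (by linarith) ((finSuccEquiv ℤ m P).coeff i)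
    have h3 : (1 : ℝ) ≤ t ^ i := one_le_pow₀ ht
    have h4 := hcx t ht
    nlinarith
  · intro θ η
    have e : (Polynomial.eval₂RingHom (ev θ) η).comp
        ((finSuccEquiv ℤ m : MvPolynomial (Fin (m + 1)) ℤ ≃ₐ[ℤ] _) :
          MvPolynomial (Fin (m + 1)) ℤ →+* Polynomial (MvPolynomial (Fin m) ℤ)) =
        ev (Fin.cons η θ : Fin (m + 1) → ℝ) := by
      apply MvPolynomial.ringHom_ext
      · intro r
        simp
      · intro j
        refine Fin.cases ?_ ?_ j
        · simp [ev, finSuccEquiv_X_zero]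
        · intro j
          simp [ev, finSuccEquiv_X_succ]
    exact congrArg (fun φ : MvPolynomial (Fin (m + 1)) ℤ →+* ℝ => φ P) e

end GLR
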