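import Pool.Agent.Helper49.GL.Def

namespace GLR

private lemma cell_bound {ℓ : ℕ} (hℓ : 1 ≤ ℓ) {u : ℝ} (h0 : 0 ≤ u) (h1 : u ≤ ℓ) :
    ((min ⌊u⌋₊ (ℓ - 1) : ℕ) : ℝ) ≤ u ∧ u ≤ ((min ⌊u⌋₊ (ℓ - 1) : ℕ) : ℝ) + 1 := by
  constructor
  · exact (Nat.cast_le.mpr (min_le_left _ _)).trans (Nat.floor_le h0)
  · rcases le_total ⌊u⌋₊ (ℓ - 1) with h | h
    · rw [min_eq_left h]
      exact (Nat.lt_floor_add_one u).le
    · rw [min_eq_right h]
      have : ((ℓ - 1 : ℕ) : ℝ) + 1 = (ℓ : ℝ) := by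
        rw [Nat.cast_sub hℓ]
        simp
      rw [this]
      exact h1

/-- GI-B1. Box principle (Siegel lemma for small values of real linear forms). The vectors
`x ∈ {0, ..., H}^I` give values `∑ x_i v_{t,i} ∈ [-S, S]`, `S = card I * V * H`; divide the interval
into `ℓ` cells of length `2 S / ℓ` (the map `y ↦ min (⌊(y + S) ℓ / (2 S)⌋) (ℓ - 1)`; if `S = 0` all
values are `0`). By pigeonhole two vectors lie in the same cell for all `t`; take the difference. -/
theorem box {I : Type} [Fintype I] [DecidableEq I] {T : ℕ} (v : Fin T → I → ℝ) (V : ℝ)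
    (hV : ∀ t i, |v t i| ≤ V) (H ℓ : ℕ) (hℓ : 1 ≤ ℓ) (hcard : ℓ ^ T < (H + 1) ^ Fintype.card I) :
    ∃ p : I → ℤ, p ≠ 0 ∧ (∀ i, |p i| ≤ H) ∧
      ∀ t, |∑ i, (p i : ℝ) * v t i| ≤ 2 * (Fintype.card I) * V * H / ℓ := by
  have hne : Nonempty I := by
    by_contra h
    rw [not_nonempty_iff] at h
    rw [Fintype.card_eq_zero, pow_zero] at hcard
    have := Nat.one_le_pow T ℓ hℓ
    omega
  have hl0 : (0 : ℝ) < ℓ := by exact_mod_cast hℓ
  set S : ℝ := (Fintype.card I) * V * H with hS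
  let y : (I → Fin (H + 1)) → Fin T → ℝ := fun x t => ∑ i, ((x i : ℕ) : ℝ) * v t i
  have hy : ∀ x t, |y x t| ≤ S := by
    intro x t
    refine (Finset.abs_sum_le_sum_abs _ _).trans ?_
    have h1 : ∀ i ∈ (Finset.univ : Finset I), |((x i : ℕ) : ℝ) * v t i| ≤ (H : ℝ) * V := by
      intro i _
      rw [abs_mul, Nat.abs_cast]
      have h2 : ((x i : ℕ) : ℝ) ≤ H := by
        have := (x i).2
        exact_mod_cast Nat.lt_succ_iff.mp this
      exact mul_le_mul h2 (hV t i) (abs_nonneg _) (Nat.cast_nonneg _)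
    refine (Finset.sum_le_card_nsmul _ _ _ h1).trans (le_of_eq ?_)
    rw [nsmul_eq_mul, Finset.card_univ, hS]
    ring
  let c : (I → Fin (H + 1)) → Fin T → Fin ℓ := fun x t =>
    ⟨min ⌊(y x t + S) * ℓ / (2 * S)⌋₊ (ℓ - 1), lt_of_le_of_lt (min_le_right _ _) (by omega)⟩
  have hc : Fintype.card (Fin T → Fin ℓ) < Fintype.card (I → Fin (H + 1)) := by
    simpa using hcard
  obtain ⟨x, x', hxx, hcc⟩ := Fintype.exists_ne_map_eq_of_card_lt c hc
  refine ⟨fun i => ((x i : ℕ) : ℤ) - ((x' i : ℕ) : ℤ), ?_, ?_, ?_⟩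
  · intro h
    apply hxx
    funext i
    have h1 := congrFun h i
    simp only [Pi.zero_apply, sub_eq_zero, Nat.cast_inj] at h1
    exact Fin.ext h1
  · intro i
    have h1 := (x i).2
    have h2 := (x' i).2
    show |((x i : ℕ) : ℤ) - ((x' i : ℕ) : ℤ)| ≤ (H : ℤ)
    rw [abs_le]
    constructor <;> omega
  · intro t
    have he : ∑ i, ((((x i : ℕ) : ℤ) - ((x' i : ℕ) : ℤ) : ℤ) : ℝ) * v t i = y x t - y x' t := by
      simp only [y, ← Finset.sum_sub_distrib]
      refine Finset.sum_congr rfl fun i _ => ?_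
      push_cast
      ring
    rw [he]
    have hgoal : 2 * (Fintype.card I) * V * H / ℓ = 2 * S / ℓ := by
      rw [hS]
      ring
    rw [hgoal]
    have a1 := hy x t
    have a2 := hy x' t
    have hS0 : 0 ≤ S := (abs_nonneg _).trans a1
    rcases hS0.eq_or_lt with h0 | hpos
    · rw [← h0] at a1 a2 ⊢
      have b1 : y x t = 0 := abs_nonpos_iff.mp a1
      have b2 : y x' t = 0 := abs_nonpos_iff.mp a2
      simp [b1, b2]
    · have hu : ∀ z : I → Fin (H + 1), 0 ≤ (y z t + S) * ℓ / (2 * S) ∧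
          (y z t + S) * ℓ / (2 * S) ≤ ℓ := by
        intro z
        have b := abs_le.mp (hy z t)
        constructor
        · apply div_nonneg (mul_nonneg (by linarith [b.1]) hl0.le) (by linarith)
        · rw [div_le_iff₀ (by linarith)]
          nlinarith [b.2]
      have h1 := cell_bound hℓ (hu x).1 (hu x).2
      have h2 := cell_bound hℓ (hu x').1 (hu x').2
      have h3 : (min ⌊(y x t + S) * ℓ / (2 * S)⌋₊ (ℓ - 1) : ℕ) =
          min ⌊(y x' t + S) * ℓ / (2 * S)⌋₊ (ℓ - 1) := by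
        have := congrArg Fin.val (congrFun hcc t)
        exact this
      rw [h3] at h1
      have h4 : |(y x t + S) * ℓ / (2 * S) - (y x' t + S) * ℓ / (2 * S)| ≤ 1 := by
        rw [abs_le]
        constructor <;> linarith [h1.1, h1.2, h2.1, h2.2]
      have h5 : y x t - y x' t = ((y x t + S) * ℓ / (2 * S) - (y x' t + S) * ℓ / (2 * S)) *
          (2 * S / ℓ) := by
        field_simp
        ring
      rw [h5, abs_mul, abs_of_nonneg (by positivity : (0 : ℝ) ≤ 2 * S / ℓ)]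
      calc _ ≤ 1 * (2 * S / ℓ) := mul_le_mul_of_nonneg_right h4 (by positivity)
        _ = 2 * S / ℓ := one_mul _

end GLR
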