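import Pool.Agent.Helper49.GL.Def

namespace GLR

/-- GI-C1. SHIFTS. Count pairs `(a, β)` with `a < q` and `β : Fin J ↪ Bad`: there are
`q * Bad.card.descFactorial J` of them; the vector `b = β - a` lies in
`{-(q-1), ..., q-1}^J`, a set with at most `(2 q)^J` elements. By pigeonhole some `b` is hit by at
least `T` pairs; `a` is determined as one coordinate of the pair once `b` is fixed (`β = a + b`),
so there are at least `T` values of `a`. The `b_l` are pairwise incongruent modulo `q` because the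
`β_l` are distinct elements of `{0, ..., q-1}` (there is at least one pair as `1 ≤ T`). Useful:
`Finset.exists_le_card_fiber_of_mul_le_card_of_maps_to`, `Fintype.card_embedding_eq`. -/
theorem shifts (q J T : ℕ) (hq : 1 ≤ q) (hT : 1 ≤ T) (Bad : Finset ℕ) (hBad : ∀ x ∈ Bad, x < q)
    (hcard : T * (2 * q) ^ J ≤ q * Bad.card.descFactorial J) :
    ∃ (b : Fin J → ℤ) (A : Finset ℕ), (∀ l, |b l| < q) ∧
      (∀ l l', l ≠ l' → ¬ ((q : ℤ) ∣ b l - b l')) ∧ T ≤ A.card ∧
      ∀ a ∈ A, a < q ∧ ∀ l, ∃ β ∈ Bad, (a : ℤ) + b l = β := by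
  classical
  have hB : ∀ x : Bad, (x : ℕ) < q := fun x => hBad x x.2
  have hlt : ∀ (x : Fin q × (Fin J ↪ Bad)) (l : Fin J), (x.2 l : ℕ) + q - (x.1 : ℕ) < 2 * q := by
    intro x l
    have h1 := hB (x.2 l)
    omega
  set f : Fin q × (Fin J ↪ Bad) → (Fin J → Fin (2 * q)) :=
    fun x l => ⟨(x.2 l : ℕ) + q - (x.1 : ℕ), hlt x l⟩ with hf
  have h2q : NeZero (2 * q) := ⟨by omega⟩
  have hc : Fintype.card (Fin J → Fin (2 * q)) * T ≤ Fintype.card (Fin q × (Fin J ↪ Bad)) := by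
    rw [Fintype.card_fun, Fintype.card_fin, Fintype.card_fin, Fintype.card_prod, Fintype.card_fin,
      Fintype.card_embedding_eq, Fintype.card_fin, Fintype.card_coe, mul_comm]
    exact hcard
  obtain ⟨y, hy⟩ := Fintype.exists_le_card_fiber_of_mul_le_card f hc
  have hval : ∀ x : Fin q × (Fin J ↪ Bad), f x = y → ∀ l, ((x.1 : ℕ) : ℤ) + (((y l : ℕ) : ℤ) - q) =
      ((x.2 l : ℕ) : ℤ) := by
    intro x hx l
    have h1 : (y l : ℕ) = (x.2 l : ℕ) + q - (x.1 : ℕ) := by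
      rw [← hx]
    have h2 := x.1.2
    rw [h1]
    omega
  have hne : (Finset.univ.filter fun x => f x = y).Nonempty := by
    rw [← Finset.card_pos]
    omega
  obtain ⟨x0, hx0⟩ := hne
  rw [Finset.mem_filter] at hx0
  have hx0 := hval x0 hx0.2
  refine ⟨fun l => ((y l : ℕ) : ℤ) - q, (Finset.univ.filter fun x => f x = y).image
    fun x => (x.1 : ℕ), ?_, ?_, ?_, ?_⟩
  · intro l
    have h1 := hx0 l
    have h2 := hB (x0.2 l)
    have h3 := x0.1.2
    show |((y l : ℕ) : ℤ) - q| < q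
    rw [abs_lt]
    constructor <;> omega
  · intro l l' hl h
    have h1 := hx0 l
    have h2 := hx0 l'
    have h3 := hB (x0.2 l)
    have h4 := hB (x0.2 l')
    have h5 : ((y l : ℕ) : ℤ) - q - (((y l' : ℕ) : ℤ) - q) = 0 := by
      refine Int.eq_zero_of_abs_lt_dvd h ?_
      rw [abs_lt]
      constructor <;> omega
    have h6 : (x0.2 l : ℕ) = (x0.2 l' : ℕ) := by omega
    exact hl (x0.2.injective (Subtype.ext h6))
  · rw [Finset.card_image_of_injOn]
    · exact hy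
    · intro x hx x' hx' h
      rw [Finset.mem_coe, Finset.mem_filter] at hx hx'
      have h1 := hval x hx.2
      have h2 := hval x' hx'.2
      simp only at h
      refine Prod.ext (Fin.ext h) (DFunLike.ext _ _ fun l => Subtype.ext ?_)
      have h3 := h1 l
      have h4 := h2 l
      omega
  · intro a ha
    rw [Finset.mem_image] at ha
    obtain ⟨x, hx, rfl⟩ := ha
    rw [Finset.mem_filter] at hx
    exact ⟨x.1.2, fun l => ⟨(x.2 l : ℕ), (x.2 l).2, hval x hx.2 l⟩⟩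

/-- GI-C1. If the counting hypothesis of `shifts` fails then `Bad` is small. If `card < 2 J`
fine. Otherwise `descFactorial ≥ (card - J + 1)^J ≥ (card / 2)^J`, so
`card^J < T 4^J q^(J-1)`; take `J`-th roots (`Real.rpow`). -/
theorem card_of_not (q J T B : ℕ) (hq : 1 ≤ q) (hT : 1 ≤ T) (hJ : 1 ≤ J)
    (hcard : q * B.descFactorial J < T * (2 * q) ^ J) :
    (B : ℝ) ≤ 4 * J * T * (q : ℝ) ^ (1 - 1 / (J : ℝ)) := by
  have hq0 : (0 : ℝ) < q := by exact_mod_cast hq
  have hq1 : (1 : ℝ) ≤ q := by exact_mod_cast hq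
  have hT1 : (1 : ℝ) ≤ T := by exact_mod_cast hT
  have hJ1 : (1 : ℝ) ≤ J := by exact_mod_cast hJ
  have hJ0 : (0 : ℝ) < J := by linarith
  have hexp : 0 ≤ 1 - 1 / (J : ℝ) := by
    have : 1 / (J : ℝ) ≤ 1 := by
      rw [div_le_one hJ0]
      exact hJ1
    linarith
  set R : ℝ := (q : ℝ) ^ (1 - 1 / (J : ℝ)) with hR
  have hR1 : 1 ≤ R := Real.one_le_rpow hq1 hexp
  have hRJ : R ^ J * q = (q : ℝ) ^ J := by
    rw [hR, ← Real.rpow_natCast, ← Real.rpow_mul hq0.le]
    have e : (1 - 1 / (J : ℝ)) * J = J - 1 := by field_simp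
    rw [e, Real.rpow_sub hq0, Real.rpow_one, Real.rpow_natCast, div_mul_cancel₀ _ hq0.ne']
  rcases lt_or_ge B (2 * J) with hB | hB
  · have h1 : (B : ℝ) ≤ 2 * J := by exact_mod_cast hB.le
    have h2 : (1 : ℝ) ≤ T * R := by nlinarith
    have h3 : 4 * J * T * R = 4 * J * (T * R) := by ring
    rw [h3]
    nlinarith
  · have h1 : (B + 1 - J) ^ J ≤ B.descFactorial J := Nat.pow_sub_le_descFactorial B J
    have h2 : (B : ℝ) / 2 ≤ ((B + 1 - J : ℕ) : ℝ) := by
      rw [Nat.cast_sub (by omega)]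
      push_cast
      have : (2 : ℝ) * J ≤ B := by exact_mod_cast hB
      linarith
    have h3 : ((B : ℝ) / 2) ^ J ≤ (B.descFactorial J : ℝ) := by
      refine (pow_le_pow_left₀ (by positivity) h2 J).trans ?_
      exact_mod_cast h1
    have h4 : (q : ℝ) * (B.descFactorial J : ℝ) < T * (2 * q) ^ J := by exact_mod_cast hcard
    have h5 : (q : ℝ) * (B : ℝ) ^ J ≤ T * 4 ^ J * (q : ℝ) ^ J := by
      have h6 : (q : ℝ) * ((B : ℝ) / 2) ^ J ≤ T * (2 * q) ^ J :=
        (mul_le_mul_of_nonneg_left h3 hq0.le).trans h4.le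
      have h7 : (q : ℝ) * (B : ℝ) ^ J = ((q : ℝ) * ((B : ℝ) / 2) ^ J) * 2 ^ J := by
        rw [div_pow, mul_assoc, div_mul_cancel₀ _ (by positivity)]
      have h8 : (T : ℝ) * 4 ^ J * (q : ℝ) ^ J = T * (2 * q) ^ J * 2 ^ J := by
        rw [mul_pow, show (4 : ℝ) = 2 * 2 by norm_num, mul_pow]
        ring
      rw [h7, h8]
      exact mul_le_mul_of_nonneg_right h6 (by positivity)
    have h9 : (B : ℝ) ^ J ≤ (4 * J * T * R) ^ J := by
      have e1 : (q : ℝ) * (4 * J * T * R) ^ J = (J : ℝ) ^ J * ((T : ℝ) ^ J * 4 ^ J * (q : ℝ) ^ J) := by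
        rw [← hRJ, mul_pow, mul_pow, mul_pow]
        ring
      have h10 : (T : ℝ) * 4 ^ J * (q : ℝ) ^ J ≤ (T : ℝ) ^ J * 4 ^ J * (q : ℝ) ^ J := by
        have : (T : ℝ) ≤ (T : ℝ) ^ J := le_self_pow₀ hT1 (by omega)
        gcongr
      have h11 : (1 : ℝ) ≤ (J : ℝ) ^ J := one_le_pow₀ hJ1
      have h12 : (0 : ℝ) ≤ (T : ℝ) ^ J * 4 ^ J * (q : ℝ) ^ J := by positivity
      have h13 : (q : ℝ) * (B : ℝ) ^ J ≤ (q : ℝ) * (4 * J * T * R) ^ J := by
        rw [e1]
        refine (h5.trans h10).trans ?_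
        exact le_mul_of_one_le_left h12 h11
      exact le_of_mul_le_mul_left h13 hq0
    exact (pow_le_pow_iff_left₀ (by positivity) (by positivity) (by omega)).1 h9

end GLR
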