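import Mathlib

/-!
# Project GI: definitions

`wl t P` is the weighted length `∑ |coef| t ^ (degree of the monomial)` of a polynomial over `ℤ`.
`Cx P D L` says that `P` has total degree `≤ D` and length `≤ exp L` (see `cx_iff`).
`Meas θ X W`: every nonzero polynomial of degree `≤ X` and length `≤ exp X` has absolute value
`≥ exp (-W)` at `θ`.
-/

namespace GLR

open MvPolynomial

/-- Weighted length of a polynomial with integer coefficients. -/
noncomputable def wl {m : ℕ} (t : ℝ) (P : MvPolynomial (Fin m) ℤ) : ℝ :=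
  ∑ s ∈ P.support, |((P.coeff s : ℤ) : ℝ)| * t ^ (∑ i, s i)

/-- Total degree `≤ D` and length `≤ exp L`, encoded by all weighted lengths. -/
def Cx {m : ℕ} (P : MvPolynomial (Fin m) ℤ) (D : ℕ) (L : ℝ) : Prop :=
  ∀ t : ℝ, 1 ≤ t → wl t P ≤ Real.exp L * t ^ D

/-- Evaluation at a real point. -/
noncomputable def ev {m : ℕ} (θ : Fin m → ℝ) : MvPolynomial (Fin m) ℤ →+* ℝ :=
  eval₂Hom (Int.castRingHom ℝ) θ

/-- Algebraic independence measure at complexity `X`. -/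
def Meas {m : ℕ} (θ : Fin m → ℝ) (X : ℕ) (W : ℝ) : Prop :=
  ∀ P : MvPolynomial (Fin m) ℤ, P ≠ 0 → Cx P X X → Real.exp (-W) ≤ |ev θ P|

/-- A submultiplicative length function on a commutative ring. -/
structure IsLen {A : Type} [CommRing A] (ℓ : A → ℝ) : Prop where
  nonneg : ∀ x, 0 ≤ ℓ x
  zero : ℓ 0 = 0
  one : ℓ 1 ≤ 1
  neg : ∀ x, ℓ (-x) = ℓ x
  add : ∀ x y, ℓ (x + y) ≤ ℓ x + ℓ y
  mul : ∀ x y, ℓ (x * y) ≤ ℓ x * ℓ y

/-- The entire function `1 / Γ(1 + z)`. -/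
noncomputable def g (z : ℂ) : ℂ := (Complex.Gamma (1 + z))⁻¹

/-- The real function `1 / Γ(1 + x)`. -/
noncomputable def gr (x : ℝ) : ℝ := (Real.Gamma (1 + x))⁻¹

/-- Exponents `(i, α)` of the monomials `z ^ i * ∏ Z_l ^ (α l)`, all exponents `≤ n`. -/
abbrev Ix (n J : ℕ) : Type := Fin (n + 1) × (Fin J → Fin (n + 1))

/-- The auxiliary function with coefficient array `p` and shifts `c`. -/
noncomputable def F {n J : ℕ} (p : Ix n J → ℤ) (c : Fin J → ℝ) (z : ℂ) : ℂ :=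
  ∑ x : Ix n J, (p x : ℂ) * z ^ (x.1 : ℕ) * ∏ l, g (z + (c l : ℂ)) ^ (x.2 l : ℕ)

/-- Value of the polynomial with coefficient array `Q` at `η`. -/
noncomputable def Qv {n J : ℕ} (Q : (Fin J → Fin (n + 1)) → ℤ) (η : Fin J → ℝ) : ℝ :=
  ∑ α : Fin J → Fin (n + 1), (Q α : ℝ) * ∏ l, η l ^ (α l : ℕ)

/-- Length of a coefficient array. -/
noncomputable def Ql {n J : ℕ} (Q : (Fin J → Fin (n + 1)) → ℤ) : ℝ :=
  ∑ α : Fin J → Fin (n + 1), |(Q α : ℝ)|

/-- The companion matrix of `f`, scaled by the leading coefficient. -/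
noncomputable def cmat {A : Type} [CommRing A] (f : Polynomial A) :
    Matrix (Fin f.natDegree) (Fin f.natDegree) A :=
  Matrix.of fun i j =>
    if (j : ℕ) + 1 = f.natDegree then - f.coeff i
    else if (i : ℕ) = (j : ℕ) + 1 then f.leadingCoeff else 0

/-- The matrix of `Q` in the tensor product of the companion matrices, cleared of
denominators. -/
noncomputable def qmat {A : Type} [CommRing A] {n J : ℕ} (f : Fin J → Polynomial A)
    (Q : (Fin J → Fin (n + 1)) → ℤ) :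
    Matrix ((l : Fin J) → Fin (f l).natDegree) ((l : Fin J) → Fin (f l).natDegree) A :=
  Matrix.of fun i j => ∑ α : Fin J → Fin (n + 1), (Q α : A) *
    ∏ l, ((f l).leadingCoeff ^ (n - (α l : ℕ)) * ((cmat (f l)) ^ (α l : ℕ)) (i l) (j l))

/-- The vector `(1, η, η^2, ...)`. -/
def vand (η : ℝ) (δ : ℕ) : Fin δ → ℝ := fun i => η ^ (i : ℕ)

/-- The tensor product of the vectors `(1, η_l, η_l^2, ...)`. -/
noncomputable def wvec {J : ℕ} (δ : Fin J → ℕ) (η : Fin J → ℝ) (i : (l : Fin J) → Fin (δ l)) : ℝ :=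
  ∏ l, η l ^ (i l : ℕ)

/-- Number of columns of the Casorati matrix. -/
def Nc (n J : ℕ) : ℕ := (n + 1) ^ (J + 1)

/-- The vector `(η_{a 0}, ..., η_{a (k-1)}, ϑ)` where `η_a = 1 / Γ(1 + a/q)`. -/
noncomputable def vec {m : ℕ} (q : ℕ) (ϑ : Fin m → ℝ) : (k : ℕ) → (Fin k → ℕ) → (Fin (m + k) → ℝ)
  | 0, _ => ϑ
  | (k + 1), a => Fin.cons (gr ((a 0 : ℝ) / q)) (vec q ϑ k (Fin.tail a))

end GLR
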