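import Pool.Agent.Helper49.GL.Def

namespace GLR

/-- GI-E1. One factor: `‖1 + w‖ ≤ exp (w.re + ‖w‖^2)`. Indeed
`‖1 + w‖^2 = 1 + 2 w.re + ‖w‖^2 ≤ exp (2 w.re + ‖w‖^2)`. -/
theorem norm_one_add_le (w : ℂ) : ‖1 + w‖ ≤ Real.exp (w.re + ‖w‖ ^ 2) := by
  have h1 : ‖1 + w‖ ^ 2 = 1 + 2 * w.re + ‖w‖ ^ 2 := by
    rw [← Complex.normSq_eq_norm_sq, ← Complex.normSq_eq_norm_sq, Complex.normSq_apply,
      Complex.normSq_apply]
    simp only [Complex.add_re, Complex.one_re, Complex.add_im, Complex.one_im]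
    ring
  have h2 : ‖1 + w‖ ^ 2 ≤ Real.exp (w.re + ‖w‖ ^ 2) ^ 2 := by
    rw [h1, ← Real.exp_nat_mul]
    have h3 := Real.add_one_le_exp (2 * w.re + ‖w‖ ^ 2)
    have h4 : Real.exp (2 * w.re + ‖w‖ ^ 2) ≤ Real.exp (((2 : ℕ) : ℝ) * (w.re + ‖w‖ ^ 2)) := by
      apply Real.exp_le_exp.2
      push_cast
      nlinarith [sq_nonneg ‖w‖]
    linarith
  exact (pow_le_pow_iff_left₀ (norm_nonneg _) (Real.exp_pos _).le two_ne_zero).1 h2

private lemma E1_sum_sq (n : ℕ) : ∑ j ∈ Finset.range n, (1 / ((j : ℝ) + 1) ^ 2) ≤ 2 := by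
  have h : ∀ n : ℕ, ∑ j ∈ Finset.range (n + 1), (1 / ((j : ℝ) + 1) ^ 2) ≤
      2 - 1 / ((n : ℝ) + 1) := by
    intro n
    induction n with
    | zero => norm_num
    | succ n ih =>
      rw [Finset.sum_range_succ]
      push_cast
      have key : ∀ a : ℝ, 0 < a → 1 / (a + 1) ^ 2 ≤ 1 / a - 1 / (a + 1) := by
        intro a ha
        rw [div_sub_div _ _ ha.ne' (by positivity), div_le_div_iff₀ (by positivity) (by positivity)]
        nlinarith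
      have h1 := key ((n : ℝ) + 1) (by positivity)
      linarith
  rcases n with _ | n
  · norm_num
  · have hn : (0 : ℝ) ≤ 1 / ((n : ℝ) + 1) := by positivity
    linarith [h n]

private lemma E1_seq (s : ℂ) {n : ℕ} (hn : 0 < n) : ‖(Complex.GammaSeq s n)⁻¹‖ =
    ‖s‖ * (∏ j ∈ Finset.range n, ‖1 + s / ((j : ℂ) + 1)‖) * (n : ℝ) ^ (-s.re) := by
  have hn' : (0 : ℝ) < n := by exact_mod_cast hn
  have e1 : ∏ j ∈ Finset.range (n + 1), (s + (j : ℂ)) =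
      s * (((n.factorial : ℕ) : ℂ) * ∏ j ∈ Finset.range n, (1 + s / ((j : ℂ) + 1))) := by
    rw [Finset.prod_range_succ', ← Finset.prod_range_add_one_eq_factorial]
    push_cast
    rw [← Finset.prod_mul_distrib, add_zero, mul_comm]
    congr 1
    refine Finset.prod_congr rfl fun j _ => ?_
    have : (j : ℂ) + 1 ≠ 0 := by exact_mod_cast Nat.succ_ne_zero j
    field_simp
    ring
  have hf : (0 : ℝ) < (n.factorial : ℝ) := by exact_mod_cast n.factorial_pos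
  rw [Complex.GammaSeq, e1, norm_inv, norm_div, norm_mul, norm_mul, norm_mul, norm_prod,
    Complex.norm_natCast_cpow_of_pos hn, Complex.norm_natCast, Real.rpow_neg hn'.le]
  have hr : (0 : ℝ) < (n : ℝ) ^ s.re := Real.rpow_pos_of_pos hn' _
  rw [inv_div, div_eq_mul_inv, mul_inv]
  field_simp

private lemma E1_bound (s : ℂ) {n : ℕ} (hn : 0 < n) : ‖(Complex.GammaSeq s n)⁻¹‖ ≤
    ‖s‖ * Real.exp (‖s‖ + 2 * ‖s‖ ^ 2) := by
  have hn' : (0 : ℝ) < n := by exact_mod_cast hn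
  rw [E1_seq s hn, mul_assoc]
  refine mul_le_mul_of_nonneg_left ?_ (norm_nonneg _)
  have h1 : ∏ j ∈ Finset.range n, ‖1 + s / ((j : ℂ) + 1)‖ ≤
      ∏ j ∈ Finset.range n, Real.exp (s.re * ((j : ℝ) + 1)⁻¹ + ‖s‖ ^ 2 * (1 / ((j : ℝ) + 1) ^ 2)) := by
    refine Finset.prod_le_prod (fun j _ => norm_nonneg _) fun j _ => ?_
    have hj : (0 : ℝ) < (j : ℝ) + 1 := by positivity
    have h2 := norm_one_add_le (s / ((j : ℂ) + 1))
    have e1 : (s / ((j : ℂ) + 1)).re = s.re * ((j : ℝ) + 1)⁻¹ := by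
      have : ((j : ℂ) + 1) = (((j : ℝ) + 1 : ℝ) : ℂ) := by push_cast; rfl
      rw [this, Complex.div_ofReal_re, div_eq_mul_inv]
    have e2 : ‖s / ((j : ℂ) + 1)‖ ^ 2 = ‖s‖ ^ 2 * (1 / ((j : ℝ) + 1) ^ 2) := by
      have : ((j : ℂ) + 1) = (((j : ℝ) + 1 : ℝ) : ℂ) := by push_cast; rfl
      rw [this, norm_div, Complex.norm_real, Real.norm_eq_abs, abs_of_pos hj, div_pow]
      ring
    rw [e1, e2] at h2
    exact h2
  have h3 : (n : ℝ) ^ (-s.re) = Real.exp (-(s.re * Real.log n)) := by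
    rw [Real.rpow_def_of_pos hn']
    congr 1
    ring
  have hH1 : Real.log n ≤ (harmonic n : ℝ) := by
    have h4 := log_add_one_le_harmonic n
    have h5 : Real.log n ≤ Real.log (n + 1) := Real.log_le_log hn' (by linarith)
    exact h5.trans (by exact_mod_cast h4)
  have hH2 : (harmonic n : ℝ) ≤ 1 + Real.log n := harmonic_le_one_add_log n
  have hHe : ((harmonic n : ℚ) : ℝ) = ∑ j ∈ Finset.range n, ((j : ℝ) + 1)⁻¹ := by
    unfold harmonic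
    push_cast
    rfl
  rw [← Real.exp_sum] at h1
  have h6 : 0 ≤ (n : ℝ) ^ (-s.re) := (Real.rpow_pos_of_pos hn' _).le
  refine (mul_le_mul_of_nonneg_right h1 h6).trans ?_
  rw [h3, ← Real.exp_add]
  apply Real.exp_le_exp.2
  rw [Finset.sum_add_distrib, ← Finset.mul_sum, ← Finset.mul_sum, ← hHe]
  have h7 := E1_sum_sq n
  have h8 : |s.re| ≤ ‖s‖ := Complex.abs_re_le_norm s
  have h9 : s.re * ((harmonic n : ℚ) : ℝ) - s.re * Real.log n ≤ ‖s‖ := by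
    rw [← mul_sub]
    calc s.re * (((harmonic n : ℚ) : ℝ) - Real.log n) ≤
          |s.re| * (((harmonic n : ℚ) : ℝ) - Real.log n) :=
          mul_le_mul_of_nonneg_right (le_abs_self _) (by linarith)
      _ ≤ |s.re| * 1 := mul_le_mul_of_nonneg_left (by linarith) (abs_nonneg _)
      _ ≤ ‖s‖ := by rw [mul_one]; exact h8
  have h10 : ‖s‖ ^ 2 * ∑ j ∈ Finset.range n, (1 / ((j : ℝ) + 1) ^ 2) ≤ 2 * ‖s‖ ^ 2 := by
    have := mul_le_mul_of_nonneg_left h7 (sq_nonneg ‖s‖)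
    linarith
  linarith

/-- GI-E1. Growth of `1 / Γ`. Euler: `Γ(s) = lim GammaSeq s n`,
`GammaSeq s n = n^s n! / ∏_{j ≤ n} (s + j)` (`Complex.GammaSeq_tendsto_Gamma`), so for
`s ∉ {0, -1, ...}`: `1 / |Γ(s)| = lim |s| ∏_{j=1}^n |1 + s/j| n^(- s.re)`
`≤ |s| exp (s.re (H_n - log n) + |s|^2 ∑ 1/j^2) ≤ |s| exp (|s| + 2 |s|^2)`
(`0 ≤ H_n - log n ≤ 1`, `∑ 1/j^2 ≤ 2`). At the poles Mathlib has `Γ(s) = 0` and `0⁻¹ = 0`. -/
theorem norm_inv_Gamma_le (s : ℂ) :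
    ‖(Complex.Gamma s)⁻¹‖ ≤ ‖s‖ * Real.exp (‖s‖ + 2 * ‖s‖ ^ 2) := by
  by_cases h0 : Complex.Gamma s = 0
  · rw [h0, inv_zero, norm_zero]
    positivity
  · have ht := (Filter.Tendsto.inv₀ (Complex.GammaSeq_tendsto_Gamma s) h0).norm
    refine le_of_tendsto ht ?_
    filter_upwards [Filter.eventually_gt_atTop 0] with n hn
    exact E1_bound s hn

/-- GI-E1. Growth of `g`: `‖g z‖ ≤ exp (3 (R + 1)^2)` for `‖z‖ ≤ R`; use `x ≤ exp (x)`, hence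
`|s| exp (|s| + 2|s|^2) ≤ exp (2 |s| + 2 |s|^2)` with `|s| ≤ R + 1`. -/
theorem norm_g_le (z : ℂ) (R : ℝ) (hz : ‖z‖ ≤ R) : ‖g z‖ ≤ Real.exp (4 * (R + 1) ^ 2) := by
  unfold g
  have h1 := norm_inv_Gamma_le (1 + z)
  have hR : 0 ≤ R := (norm_nonneg z).trans hz
  have h2 : ‖1 + z‖ ≤ R + 1 := by
    have := norm_add_le (1 : ℂ) z
    rw [norm_one] at this
    linarith
  have h0 := norm_nonneg (1 + z)
  have h3 : ‖1 + z‖ ≤ Real.exp ‖1 + z‖ := by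
    have := Real.add_one_le_exp ‖1 + z‖
    linarith
  refine h1.trans ?_
  calc ‖1 + z‖ * Real.exp (‖1 + z‖ + 2 * ‖1 + z‖ ^ 2)
      ≤ Real.exp ‖1 + z‖ * Real.exp (‖1 + z‖ + 2 * ‖1 + z‖ ^ 2) :=
        mul_le_mul_of_nonneg_right h3 (Real.exp_pos _).le
    _ = Real.exp (‖1 + z‖ + (‖1 + z‖ + 2 * ‖1 + z‖ ^ 2)) := (Real.exp_add _ _).symm
    _ ≤ Real.exp (4 * (R + 1) ^ 2) := by
        apply Real.exp_le_exp.2
        nlinarith

end GLR
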