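import Pool.Agent.Helper49.GL.Def

namespace GLR

/-- GI-E2. `g` is entire (`Complex.differentiable_one_div_Gamma`). -/
theorem differentiable_g : Differentiable ℂ g := by
  have h : g = (fun s : ℂ => (Complex.Gamma s)⁻¹) ∘ fun z => 1 + z := rfl
  rw [h]
  exact Complex.differentiable_one_div_Gamma.comp (differentiable_id.const_add 1)

/-- GI-E2. Real points (`Complex.Gamma_ofReal`). -/
theorem g_ofReal (x : ℝ) : g (x : ℂ) = ((gr x : ℝ) : ℂ) := by
  unfold g gr
  rw [Complex.ofReal_inv, ← Complex.Gamma_ofReal]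
  push_cast
  rfl

/-- GI-E2. Difference equation: `1/Γ(z) = z / Γ(1 + z)` (`Complex.Gamma_add_one`; at `z = 0` both
sides are `0`). -/
theorem g_sub_one (z : ℂ) : g (z - 1) = z * g z := by
  unfold g
  have h := Complex.one_div_Gamma_eq_self_mul_one_div_Gamma_add_one z
  rw [add_comm 1 z, ← h]
  congr 2
  ring

theorem gr_sub_one (x : ℝ) : gr (x - 1) = x * gr x := by
  have h := g_sub_one (x : ℂ)
  have h1 : ((x : ℂ) - 1) = ((x - 1 : ℝ) : ℂ) := by push_cast; ring
  rw [h1, g_ofReal, g_ofReal] at h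
  exact_mod_cast h

/-- GI-E2. Iterated: `g (w - s) = g w * ∏_{s' < s} (w - s')`. -/
theorem g_sub_nat (w : ℂ) (s : ℕ) : g (w - s) = g w * ∏ s' ∈ Finset.range s, (w - s') := by
  induction s with
  | zero => simp
  | succ s ih =>
    rw [Finset.prod_range_succ, ← mul_assoc, ← ih]
    have h := g_sub_one (w - s)
    rw [mul_comm (g (w - s)), ← h]
    congr 1
    push_cast
    ring

/-- GI-E2. Bounds on `[0, 1]`: `Γ(1) = Γ(2) = 1` and convexity give `Γ(1 + x) ≤ 1`
(`Real.convexOn_Gamma`); `Γ(1 + x) = Γ(2 + x) / (1 + x) ≥ 1/2` since `Γ ≥ 1` on `[2, 3]`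
(`Real.Gamma_strictMonoOn_Ici`). -/
theorem gr_bounds {x : ℝ} (h0 : 0 ≤ x) (h1 : x ≤ 1) : 1 ≤ gr x ∧ gr x ≤ 2 := by
  have hpos : 0 < Real.Gamma (1 + x) := Real.Gamma_pos_of_pos (by linarith)
  have hle : Real.Gamma (1 + x) ≤ 1 := by
    have h := Real.convexOn_Gamma.2 (show (1 : ℝ) ∈ Set.Ioi 0 by norm_num)
      (show (2 : ℝ) ∈ Set.Ioi 0 by norm_num) (show 0 ≤ 1 - x by linarith) h0 (by ring)
    rw [smul_eq_mul, smul_eq_mul, smul_eq_mul, smul_eq_mul, Real.Gamma_one, Real.Gamma_two] at h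
    have e : (1 - x) * 1 + x * 2 = 1 + x := by ring
    rw [e] at h
    linarith
  have hge : 1 / 2 ≤ Real.Gamma (1 + x) := by
    have h2 : Real.Gamma (1 + x + 1) = (1 + x) * Real.Gamma (1 + x) :=
      Real.Gamma_add_one (by linarith)
    have h3 : 1 ≤ Real.Gamma (1 + x + 1) := by
      have h4 := Real.Gamma_strictMonoOn_Ici.monotoneOn (Set.mem_Ici.2 (le_refl (2 : ℝ)))
        (Set.mem_Ici.2 (by linarith : (2 : ℝ) ≤ 1 + x + 1)) (by linarith)
      rwa [Real.Gamma_two] at h4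
    rw [h2] at h3
    nlinarith
  unfold gr
  constructor
  · exact (one_le_inv₀ hpos).2 hle
  · rw [inv_le_comm₀ hpos (by norm_num)]
    linarith

/-- GI-E2. Lower bound on `(-1, 2)`: for `x ∈ (-1, 0)`, `gr x = (x + 1) gr (x + 1) ≥ x + 1`; for
`x ∈ [0, 1]`, `gr x ≥ 1`; for `x ∈ (1, 2)`, `gr x = gr (x - 1) / x ≥ 1/2`. -/
theorem gr_lower {x d : ℝ} (hx : -1 < x) (hx2 : x < 2) (hd1 : d ≤ 1) (hd : d ≤ x + 1) :
    d / 2 ≤ gr x := by
  rcases lt_or_ge x 0 with h0 | h0
  · have h1 := gr_sub_one (x + 1)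
    rw [add_sub_cancel_right] at h1
    have h2 := (gr_bounds (x := x + 1) (by linarith) (by linarith)).1
    rw [h1]
    nlinarith
  · rcases le_or_gt x 1 with h1 | h1
    · have h2 := (gr_bounds h0 h1).1
      linarith
    · have h2 := gr_sub_one x
      have h3 := (gr_bounds (x := x - 1) (by linarith) (by linarith)).1
      rw [h2] at h3
      by_contra hc
      push Not at hc
      have h4 : gr x < 1 / 2 := by linarith
      have h5 : 0 < gr x := by
        by_contra h6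
        push Not at h6
        nlinarith
      nlinarith

end GLR
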