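import Pool.Agent.Helper49.GL.E1
import Pool.Agent.Helper49.GL.E2

namespace GLR

theorem differentiable_F {n J : ℕ} (p : Ix n J → ℤ) (c : Fin J → ℝ) :
    Differentiable ℂ (F p c) := by
  have h : ∀ (l : Fin J) (k : ℕ), Differentiable ℂ (fun z : ℂ => g (z + (c l : ℂ)) ^ k) :=
    fun l k => (differentiable_g.comp (differentiable_id.add_const _)).pow k
  unfold F
  refine Differentiable.fun_sum fun x _ => ?_
  refine Differentiable.mul ((differentiable_const _).mul (differentiable_id.pow _)) ?_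
  exact Differentiable.fun_finsetProd fun l _ => h l _

/-- GI-F1. Growth of the auxiliary function: `‖z + c_l‖ ≤ R + 1`, so `‖g (z + c_l)‖ ≤ G` with
`G = exp (4 (R + 2)^2) ≥ 1`. -/
theorem norm_F_le {n J : ℕ} (p : Ix n J → ℤ) (c : Fin J → ℝ) (hc : ∀ l, |c l| ≤ 1) (R S : ℝ)
    (hR : 1 ≤ R) (hS : ∑ x, |(p x : ℝ)| ≤ S) (z : ℂ) (hz : ‖z‖ ≤ R) :
    ‖F p c z‖ ≤ S * R ^ n * Real.exp (4 * (R + 2) ^ 2) ^ (n * J) := by
  set G := Real.exp (4 * (R + 2) ^ 2) with hG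
  have hG1 : 1 ≤ G := Real.one_le_exp (by positivity)
  have hg : ∀ l, ‖g (z + (c l : ℂ))‖ ≤ G := by
    intro l
    have h1 : ‖z + (c l : ℂ)‖ ≤ R + 1 := by
      calc ‖z + (c l : ℂ)‖ ≤ ‖z‖ + ‖(c l : ℂ)‖ := norm_add_le _ _
        _ ≤ R + 1 := by
            rw [Complex.norm_real, Real.norm_eq_abs]
            exact add_le_add hz (hc l)
    have h2 := norm_g_le _ _ h1
    rwa [show R + 1 + 1 = R + 2 by ring] at h2
  have hterm : ∀ x : Ix n J, ‖(p x : ℂ) * z ^ (x.1 : ℕ) * ∏ l, g (z + (c l : ℂ)) ^ (x.2 l : ℕ)‖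
      ≤ |(p x : ℝ)| * (R ^ n * G ^ (n * J)) := by
    intro x
    rw [norm_mul, norm_mul, norm_pow, norm_prod, Complex.norm_intCast, mul_assoc]
    refine mul_le_mul_of_nonneg_left ?_ (abs_nonneg _)
    have e1 : ‖z‖ ^ (x.1 : ℕ) ≤ R ^ n := by
      calc ‖z‖ ^ (x.1 : ℕ) ≤ R ^ (x.1 : ℕ) := by gcongr
        _ ≤ R ^ n := pow_le_pow_right₀ hR (by omega)
    have e2 : ∏ l, ‖g (z + (c l : ℂ)) ^ (x.2 l : ℕ)‖ ≤ G ^ (n * J) := by
      calc ∏ l, ‖g (z + (c l : ℂ)) ^ (x.2 l : ℕ)‖ ≤ ∏ _l : Fin J, G ^ n := by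
            refine Finset.prod_le_prod (fun l _ => norm_nonneg _) fun l _ => ?_
            rw [norm_pow]
            calc ‖g (z + (c l : ℂ))‖ ^ (x.2 l : ℕ) ≤ G ^ (x.2 l : ℕ) := by
                  gcongr
                  exact hg l
              _ ≤ G ^ n := pow_le_pow_right₀ hG1 (by omega)
        _ = G ^ (n * J) := by
            rw [Finset.prod_const, Finset.card_univ, Fintype.card_fin, ← pow_mul]
    exact mul_le_mul e1 e2 (Finset.prod_nonneg fun _ _ => norm_nonneg _) (by positivity)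
  unfold F
  calc ‖∑ x : Ix n J, (p x : ℂ) * z ^ (x.1 : ℕ) * ∏ l, g (z + (c l : ℂ)) ^ (x.2 l : ℕ)‖
      ≤ ∑ x : Ix n J, ‖(p x : ℂ) * z ^ (x.1 : ℕ) * ∏ l, g (z + (c l : ℂ)) ^ (x.2 l : ℕ)‖ :=
        norm_sum_le _ _
    _ ≤ ∑ x : Ix n J, |(p x : ℝ)| * (R ^ n * G ^ (n * J)) :=
        Finset.sum_le_sum fun x _ => hterm x
    _ = (∑ x, |(p x : ℝ)|) * (R ^ n * G ^ (n * J)) := by rw [Finset.sum_mul]
    _ ≤ S * (R ^ n * G ^ (n * J)) := by gcongr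
    _ = S * R ^ n * G ^ (n * J) := by ring

/-- GI-F1. The real coefficient of `p x` in the value of `F` at a real point. -/
noncomputable def mon {n J : ℕ} (c : Fin J → ℝ) (y : ℝ) (x : Ix n J) : ℝ :=
  y ^ (x.1 : ℕ) * ∏ l, gr (y + c l) ^ (x.2 l : ℕ)

theorem F_ofReal {n J : ℕ} (p : Ix n J → ℤ) (c : Fin J → ℝ) (y : ℝ) :
    F p c (y : ℂ) = ((∑ x, (p x : ℝ) * mon c y x : ℝ) : ℂ) := by
  unfold F mon
  rw [Complex.ofReal_sum]
  refine Finset.sum_congr rfl fun x _ => ?_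
  have h : ∀ l, g ((y : ℂ) + (c l : ℂ)) = ((gr (y + c l) : ℝ) : ℂ) := by
    intro l
    rw [← g_ofReal, Complex.ofReal_add]
  simp only [h]
  push_cast
  ring

/-- GI-F1. Bound for the monomials at a point where all `y + c_l ∈ [0, 1]`. -/
theorem abs_mon_le {n J : ℕ} (c : Fin J → ℝ) (y : ℝ) (hy0 : 0 ≤ y) (hy1 : y ≤ 1)
    (h0 : ∀ l, 0 ≤ y + c l) (h1 : ∀ l, y + c l ≤ 1) (x : Ix n J) :
    |mon c y x| ≤ 2 ^ (n * J) := by
  unfold mon
  rw [abs_mul, Finset.abs_prod, abs_pow, abs_of_nonneg hy0]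
  have e1 : y ^ (x.1 : ℕ) ≤ 1 := pow_le_one₀ hy0 hy1
  have e2 : ∏ l, |gr (y + c l) ^ (x.2 l : ℕ)| ≤ 2 ^ (n * J) := by
    calc ∏ l, |gr (y + c l) ^ (x.2 l : ℕ)| ≤ ∏ _l : Fin J, (2 : ℝ) ^ n := by
          refine Finset.prod_le_prod (fun l _ => abs_nonneg _) fun l _ => ?_
          obtain ⟨b1, b2⟩ := gr_bounds (h0 l) (h1 l)
          rw [abs_pow, abs_of_nonneg (by linarith)]
          calc gr (y + c l) ^ (x.2 l : ℕ) ≤ 2 ^ (x.2 l : ℕ) := by gcongr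
            _ ≤ 2 ^ n := pow_le_pow_right₀ (by norm_num) (by omega)
      _ = 2 ^ (n * J) := by
          rw [Finset.prod_const, Finset.card_univ, Fintype.card_fin, ← pow_mul]
  calc y ^ (x.1 : ℕ) * ∏ l, |gr (y + c l) ^ (x.2 l : ℕ)| ≤ 1 * 2 ^ (n * J) :=
        mul_le_mul e1 e2 (Finset.prod_nonneg fun _ _ => abs_nonneg _) zero_le_one
    _ = 2 ^ (n * J) := one_mul _

end GLR
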