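import Pool.Agent.Helper49.GL.F1

namespace GLR

/-- The integer coefficient array of `q^n P(a/q; Z_1, ..., Z_J)`. -/
def Qarr {n J : ℕ} (p : Ix n J → ℤ) (a q : ℕ) : (Fin J → Fin (n + 1)) → ℤ :=
  fun α => ∑ i : Fin (n + 1), p (i, α) * (a : ℤ) ^ (i : ℕ) * (q : ℤ) ^ (n - (i : ℕ))

/-- GI-F2. Value of the array. -/
theorem Qv_Qarr {n J : ℕ} (p : Ix n J → ℤ) (a q : ℕ) (hq : 1 ≤ q) (c : Fin J → ℝ) :
    Qv (Qarr p a q) (fun l => gr ((a : ℝ) / q + c l))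
      = (q : ℝ) ^ n * ∑ x, (p x : ℝ) * mon c ((a : ℝ) / q) x := by
  have hq0 : (q : ℝ) ≠ 0 := by
    have : (0 : ℝ) < q := by exact_mod_cast hq
    exact this.ne'
  unfold Qv Qarr
  rw [Fintype.sum_prod_type, Finset.sum_comm, Finset.mul_sum]
  refine Finset.sum_congr rfl fun α _ => ?_
  push_cast
  rw [Finset.sum_mul, Finset.mul_sum]
  refine Finset.sum_congr rfl fun i _ => ?_
  unfold mon
  have hi : (i : ℕ) ≤ n := Nat.lt_succ_iff.mp i.2
  have h1 : (q : ℝ) ^ n = (q : ℝ) ^ (i : ℕ) * (q : ℝ) ^ (n - (i : ℕ)) := by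
    rw [← pow_add]
    congr 1
    omega
  rw [h1, div_pow]
  field_simp

/-- GI-F2. Length of the array (`a ≤ q`). -/
theorem Ql_Qarr {n J : ℕ} (p : Ix n J → ℤ) (a q : ℕ) (ha : a ≤ q) (S : ℝ)
    (hS : ∑ x, |(p x : ℝ)| ≤ S) : Ql (Qarr p a q) ≤ S * (q : ℝ) ^ n := by
  have haq : (a : ℝ) ≤ q := by exact_mod_cast ha
  have ha0 : (0 : ℝ) ≤ a := Nat.cast_nonneg a
  have hq0 : (0 : ℝ) ≤ q := Nat.cast_nonneg q
  refine le_trans ?_ (mul_le_mul_of_nonneg_right hS (pow_nonneg hq0 n))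
  unfold Ql Qarr
  rw [Fintype.sum_prod_type, Finset.sum_comm, Finset.sum_mul]
  refine Finset.sum_le_sum fun α _ => ?_
  rw [Finset.sum_mul]
  push_cast
  refine (Finset.abs_sum_le_sum_abs _ _).trans (Finset.sum_le_sum fun i _ => ?_)
  have hi : (i : ℕ) ≤ n := Nat.lt_succ_iff.mp i.2
  have h1 : (q : ℝ) ^ n = (q : ℝ) ^ (i : ℕ) * (q : ℝ) ^ (n - (i : ℕ)) := by
    rw [← pow_add]
    congr 1
    omega
  rw [abs_mul, abs_mul, abs_of_nonneg (pow_nonneg ha0 _), abs_of_nonneg (pow_nonneg hq0 _), h1,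
    mul_assoc]
  exact mul_le_mul_of_nonneg_left
    (mul_le_mul_of_nonneg_right (pow_le_pow_left₀ ha0 haq _) (pow_nonneg hq0 _)) (abs_nonneg _)

/-- GI-F2. Total length of a polynomial with `(n+1)^(J+1)` coefficients bounded by `2^n`. -/
theorem sum_abs_le {n J : ℕ} (p : Ix n J → ℤ) (H : ℕ) (hp : ∀ x, |p x| ≤ H) :
    ∑ x, |(p x : ℝ)| ≤ (Nc n J : ℝ) * H := by
  have h1 : ∀ x ∈ (Finset.univ : Finset (Ix n J)), |(p x : ℝ)| ≤ H := by
    intro x _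
    have := hp x
    exact_mod_cast this
  have h2 := Finset.sum_le_card_nsmul _ _ _ h1
  have h3 : (Finset.univ : Finset (Ix n J)).card = Nc n J := by
    rw [Finset.card_univ, Fintype.card_prod, Fintype.card_fun, Fintype.card_fin, Fintype.card_fin,
      Nc, pow_succ, mul_comm]
  rw [h3, nsmul_eq_mul] at h2
  exact h2

end GLR
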