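import Pool.Agent.Helper49.GL.Def

namespace GLR

open Polynomial

/-- GI-G1. The row vector `v = (1, η, ..., η^(δ-1))` is an approximate left eigenvector of the
scaled companion matrix with eigenvalue `λ η` (`λ` the leading coefficient). Column `j` with
`j + 1 < δ` has the single nonzero entry `λ` in row `j + 1`, giving `λ η^(j+1)`; the last column
gives `- ∑_{i < δ} f_i η^i = λ η^δ - f(η)` (`Polynomial.eval₂_eq_sum_range`,
`Finset.sum_range_succ`). -/
theorem vand_cmat {A : Type} [CommRing A] (φ : A →+* ℝ) (f : Polynomial A) (η : ℝ)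
    (j : Fin f.natDegree) :
    Matrix.vecMul (vand η f.natDegree) ((cmat f).map φ) j =
      φ f.leadingCoeff * η * η ^ (j : ℕ)
        - (if (j : ℕ) + 1 = f.natDegree then f.eval₂ φ η else 0) := by
  have h0 : Matrix.vecMul (vand η f.natDegree) ((cmat f).map φ) j =
      ∑ i : Fin f.natDegree, η ^ (i : ℕ) * φ (cmat f i j) := rfl
  rw [h0]
  by_cases hj : (j : ℕ) + 1 = f.natDegree
  · rw [if_pos hj]
    have h1 : ∀ i : Fin f.natDegree, η ^ (i : ℕ) * φ (cmat f i j) =
        - (φ (f.coeff (i : ℕ)) * η ^ (i : ℕ)) := by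
      intro i
      have h2 : cmat f i j = - f.coeff (i : ℕ) := by
        simp only [cmat, Matrix.of_apply, if_pos hj]
      rw [h2, map_neg]
      ring
    rw [Finset.sum_congr rfl fun i _ => h1 i, Finset.sum_neg_distrib,
      Fin.sum_univ_eq_sum_range (fun i => φ (f.coeff i) * η ^ i) f.natDegree,
      Polynomial.eval₂_eq_sum_range, Finset.sum_range_succ, Polynomial.coeff_natDegree]
    have h3 : η * η ^ (j : ℕ) = η ^ f.natDegree := by
      rw [← pow_succ', hj]
    rw [mul_assoc, h3]
    ring
  · rw [if_neg hj, sub_zero]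
    have hlt : (j : ℕ) + 1 < f.natDegree := by
      have := j.isLt
      omega
    have h1 : ∀ i : Fin f.natDegree, i ≠ ⟨(j : ℕ) + 1, hlt⟩ →
        η ^ (i : ℕ) * φ (cmat f i j) = 0 := by
      intro i hi
      have h2 : cmat f i j = 0 := by
        simp only [cmat, Matrix.of_apply, if_neg hj]
        rw [if_neg]
        intro h
        exact hi (Fin.ext h)
      rw [h2, map_zero, mul_zero]
    rw [Finset.sum_eq_single (⟨(j : ℕ) + 1, hlt⟩ : Fin f.natDegree) (fun i _ hi => h1 i hi)
      (fun h => absurd (Finset.mem_univ _) h)]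
    have h2 : cmat f (⟨(j : ℕ) + 1, hlt⟩ : Fin f.natDegree) j = f.leadingCoeff := by
      simp only [cmat, Matrix.of_apply, if_neg hj]
      simp
    rw [h2]
    simp only []
    rw [pow_succ]
    ring

end GLR
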