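import Pool.Agent.Helper49.GL.G1

namespace GLR

open Polynomial

/-- GI-G2. Iteration of GI-G1. With `v_a = v C^a = x^a v + e_a`, `x = φ λ * η`, one has
`e_(a+1) = - x^a f(η) (last unit vector) + e_a C`, so by induction
`|e_a| ≤ a |f(η)| B^a` (each column sum of `|C|` is `≤ δ * max entry ≤ B`; entries of `C` are `0`,
`φ λ` or `- φ (f.coeff i)`; `|x|^a ≤ B^a ≤ B^(a+1)`). -/
theorem vand_cmat_pow {A : Type} [CommRing A] (φ : A →+* ℝ) (f : Polynomial A) (η B : ℝ)
    (hB : 1 ≤ B) (hx : |φ f.leadingCoeff * η| ≤ B)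
    (hc : ∀ i, (f.natDegree : ℝ) * |φ (f.coeff i)| ≤ B) (a : ℕ) (j : Fin f.natDegree) :
    |Matrix.vecMul (vand η f.natDegree) (((cmat f).map φ) ^ a) j
        - (φ f.leadingCoeff * η) ^ a * η ^ (j : ℕ)| ≤ a * |f.eval₂ φ η| * B ^ a := by
  have hB0 : 0 ≤ B := by linarith
  have hcol : ∀ j : Fin f.natDegree, ∑ i, |((cmat f).map φ) i j| ≤ B := by
    intro j
    have hδ : (1 : ℝ) ≤ f.natDegree := by
      have := j.isLt
      exact_mod_cast (by omega : 1 ≤ f.natDegree)
    have hδ0 : (0 : ℝ) < f.natDegree := by linarith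
    have hle : ∀ i, |φ (f.coeff i)| ≤ B / f.natDegree := by
      intro i
      rw [le_div_iff₀ hδ0, mul_comm]
      exact hc i
    by_cases hj : (j : ℕ) + 1 = f.natDegree
    · calc ∑ i, |((cmat f).map φ) i j| ≤ ∑ _i : Fin f.natDegree, B / f.natDegree := by
            refine Finset.sum_le_sum fun i _ => ?_
            rw [Matrix.map_apply, cmat, Matrix.of_apply, if_pos hj, map_neg, abs_neg]
            exact hle i
        _ = B := by
            rw [Finset.sum_const, Finset.card_univ, Fintype.card_fin, nsmul_eq_mul,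
              mul_div_cancel₀ _ hδ0.ne']
    · have hj' : (j : ℕ) + 1 < f.natDegree := by
        have := j.isLt
        omega
      rw [Finset.sum_eq_single (⟨(j : ℕ) + 1, hj'⟩ : Fin f.natDegree)]
      · rw [Matrix.map_apply, cmat, Matrix.of_apply, if_neg hj, if_pos rfl]
        refine (hle f.natDegree).trans ?_
        rw [div_le_iff₀ hδ0]
        nlinarith
      · intro i _ hi
        rw [Matrix.map_apply, cmat, Matrix.of_apply, if_neg hj, if_neg, map_zero, abs_zero]
        intro h
        exact hi (Fin.ext h)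
      · intro h
        exact absurd (Finset.mem_univ _) h
  induction a generalizing j with
  | zero =>
    simp [vand]
  | succ a ih =>
    have h1 : Matrix.vecMul (vand η f.natDegree) (((cmat f).map φ) ^ (a + 1)) j =
        ∑ i, Matrix.vecMul (vand η f.natDegree) (((cmat f).map φ) ^ a) i *
          ((cmat f).map φ) i j := by
      rw [pow_succ, ← Matrix.vecMul_vecMul]
      rfl
    have h2 : ∑ i : Fin f.natDegree, η ^ (i : ℕ) * ((cmat f).map φ) i j =
        φ f.leadingCoeff * η * η ^ (j : ℕ)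
          - (if (j : ℕ) + 1 = f.natDegree then f.eval₂ φ η else 0) := vand_cmat φ f η j
    have h3 : Matrix.vecMul (vand η f.natDegree) (((cmat f).map φ) ^ (a + 1)) j
        - (φ f.leadingCoeff * η) ^ (a + 1) * η ^ (j : ℕ) =
        (∑ i, (Matrix.vecMul (vand η f.natDegree) (((cmat f).map φ) ^ a) i -
          (φ f.leadingCoeff * η) ^ a * η ^ (i : ℕ)) * ((cmat f).map φ) i j) -
        (φ f.leadingCoeff * η) ^ a *
          (if (j : ℕ) + 1 = f.natDegree then f.eval₂ φ η else 0) := by
      have h4 : (φ f.leadingCoeff * η) ^ (a + 1) * η ^ (j : ℕ) = (φ f.leadingCoeff * η) ^ a *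
          (∑ i : Fin f.natDegree, η ^ (i : ℕ) * ((cmat f).map φ) i j) + (φ f.leadingCoeff * η) ^ a *
          (if (j : ℕ) + 1 = f.natDegree then f.eval₂ φ η else 0) := by
        rw [h2, pow_succ]
        ring
      rw [h4, h1, Finset.mul_sum]
      simp_rw [sub_mul]
      rw [Finset.sum_sub_distrib]
      simp_rw [mul_assoc]
      ring
    rw [h3]
    have h5 : |∑ i, (Matrix.vecMul (vand η f.natDegree) (((cmat f).map φ) ^ a) i -
          (φ f.leadingCoeff * η) ^ a * η ^ (i : ℕ)) * ((cmat f).map φ) i j| ≤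
        a * |f.eval₂ φ η| * B ^ a * B := by
      refine (Finset.abs_sum_le_sum_abs _ _).trans ?_
      calc ∑ i, |(Matrix.vecMul (vand η f.natDegree) (((cmat f).map φ) ^ a) i -
          (φ f.leadingCoeff * η) ^ a * η ^ (i : ℕ)) * ((cmat f).map φ) i j| ≤
          ∑ i, a * |f.eval₂ φ η| * B ^ a * |((cmat f).map φ) i j| := by
            refine Finset.sum_le_sum fun i _ => ?_
            rw [abs_mul]
            exact mul_le_mul_of_nonneg_right (ih i) (abs_nonneg _)
        _ = a * |f.eval₂ φ η| * B ^ a * ∑ i, |((cmat f).map φ) i j| := by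
            rw [Finset.mul_sum]
        _ ≤ _ := mul_le_mul_of_nonneg_left (hcol j) (by positivity)
    have h6 : |(φ f.leadingCoeff * η) ^ a *
          (if (j : ℕ) + 1 = f.natDegree then f.eval₂ φ η else 0)| ≤ B ^ a * |f.eval₂ φ η| := by
      rw [abs_mul, abs_pow]
      refine mul_le_mul (pow_le_pow_left₀ (abs_nonneg _) hx a) ?_ (abs_nonneg _)
        (by positivity)
      split_ifs
      · exact le_rfl
      · rw [abs_zero]
        exact abs_nonneg _
    have h7 : B ^ a ≤ B ^ a * B := by
      have : 0 ≤ B ^ a := by positivity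
      nlinarith
    calc _ ≤ a * |f.eval₂ φ η| * B ^ a * B + B ^ a * |f.eval₂ φ η| :=
          (abs_sub _ _).trans (add_le_add h5 h6)
      _ ≤ a * |f.eval₂ φ η| * B ^ a * B + B ^ a * B * |f.eval₂ φ η| := by
          have := mul_le_mul_of_nonneg_right h7 (abs_nonneg (f.eval₂ φ η))
          linarith
      _ = ((a + 1 : ℕ) : ℝ) * |f.eval₂ φ η| * B ^ (a + 1) := by
          push_cast
          ring

end GLR
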