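import Pool.Agent.Helper49.GL.G2

namespace GLR

open Polynomial

/-- GI-G3. Telescoping a product. -/
theorem prod_diff {ι : Type} [DecidableEq ι] (s : Finset ι) (x y : ι → ℝ) (B ε : ℝ) (hB : 1 ≤ B)
    (hε : 0 ≤ ε) (hx : ∀ i ∈ s, |x i| ≤ B) (hy : ∀ i ∈ s, |y i| ≤ B)
    (hxy : ∀ i ∈ s, |y i - x i| ≤ ε * B) :
    |∏ i ∈ s, y i - ∏ i ∈ s, x i| ≤ s.card * ε * B ^ s.card := by
  have hB0 : 0 ≤ B := le_trans zero_le_one hB
  induction s using Finset.induction_on with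
  | empty => simp
  | insert a s ha ih =>
    have h1 := ih (fun i hi => hx i (Finset.mem_insert_of_mem hi))
      (fun i hi => hy i (Finset.mem_insert_of_mem hi))
      (fun i hi => hxy i (Finset.mem_insert_of_mem hi))
    have h2 : |∏ i ∈ s, y i| ≤ B ^ s.card := by
      rw [Finset.abs_prod, ← Finset.prod_const]
      exact Finset.prod_le_prod (fun i _ => abs_nonneg _)
        (fun i hi => hy i (Finset.mem_insert_of_mem hi))
    have h3 := hxy a (Finset.mem_insert_self a s)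
    have h4 := hx a (Finset.mem_insert_self a s)
    rw [Finset.prod_insert ha, Finset.prod_insert ha, Finset.card_insert_of_notMem ha]
    have e : y a * ∏ i ∈ s, y i - x a * ∏ i ∈ s, x i =
        (y a - x a) * ∏ i ∈ s, y i + x a * (∏ i ∈ s, y i - ∏ i ∈ s, x i) := by ring
    rw [e]
    refine (abs_add_le _ _).trans ?_
    rw [abs_mul, abs_mul]
    have h5 : |y a - x a| * |∏ i ∈ s, y i| ≤ (ε * B) * B ^ s.card :=
      mul_le_mul h3 h2 (abs_nonneg _) (mul_nonneg hε hB0)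
    have h6 : |x a| * |∏ i ∈ s, y i - ∏ i ∈ s, x i| ≤ B * (s.card * ε * B ^ s.card) :=
      mul_le_mul h4 h1 (abs_nonneg _) hB0
    calc _ ≤ (ε * B) * B ^ s.card + B * (s.card * ε * B ^ s.card) := add_le_add h5 h6
      _ = _ := by push_cast; ring

private lemma G3_expand {A : Type} [CommRing A] (φ : A →+* ℝ) {n J : ℕ}
    (f : Fin J → Polynomial A) (Q : (Fin J → Fin (n + 1)) → ℤ) (η : Fin J → ℝ)
    (j : (l : Fin J) → Fin (f l).natDegree) :
    Matrix.vecMul (wvec (fun l => (f l).natDegree) η) ((qmat f Q).map φ) j =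
      ∑ α : Fin J → Fin (n + 1), (Q α : ℝ) * ∏ l, (φ (f l).leadingCoeff ^ (n - (α l : ℕ)) *
        Matrix.vecMul (vand (η l) (f l).natDegree) (((cmat (f l)).map φ) ^ (α l : ℕ)) (j l)) := by
  have hpow : ∀ (l : Fin J) (a : ℕ) (i k : Fin (f l).natDegree),
      φ (((cmat (f l)) ^ a) i k) = (((cmat (f l)).map φ) ^ a) i k := by
    intro l a i k
    have h1 := congrFun (congrFun (Matrix.map_pow (M := cmat (f l)) φ a) i) k
    simpa using h1
  have h1 : ∀ i : (l : Fin J) → Fin (f l).natDegree,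
      wvec (fun l => (f l).natDegree) η i * ((qmat f Q).map φ) i j =
      ∑ α : Fin J → Fin (n + 1), (Q α : ℝ) * ∏ l, (φ (f l).leadingCoeff ^ (n - (α l : ℕ)) *
        (vand (η l) (f l).natDegree (i l) * (((cmat (f l)).map φ) ^ (α l : ℕ)) (i l) (j l))) := by
    intro i
    have h2 : ((qmat f Q).map φ) i j = ∑ α : Fin J → Fin (n + 1), (Q α : ℝ) *
        ∏ l, (φ (f l).leadingCoeff ^ (n - (α l : ℕ)) *
          (((cmat (f l)).map φ) ^ (α l : ℕ)) (i l) (j l)) := by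
      rw [Matrix.map_apply, qmat, Matrix.of_apply, map_sum]
      apply Finset.sum_congr rfl
      intro α _
      rw [map_mul, map_intCast, map_prod]
      congr 1
      apply Finset.prod_congr rfl
      intro l _
      rw [map_mul, map_pow, hpow]
    rw [h2, Finset.mul_sum]
    apply Finset.sum_congr rfl
    intro α _
    have h3 : ∏ l, (φ (f l).leadingCoeff ^ (n - (α l : ℕ)) *
        (vand (η l) (f l).natDegree (i l) * (((cmat (f l)).map φ) ^ (α l : ℕ)) (i l) (j l))) =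
        (∏ l, vand (η l) (f l).natDegree (i l)) * ∏ l, (φ (f l).leadingCoeff ^ (n - (α l : ℕ)) *
          (((cmat (f l)).map φ) ^ (α l : ℕ)) (i l) (j l)) := by
      rw [← Finset.prod_mul_distrib]
      apply Finset.prod_congr rfl
      intro l _
      ring
    rw [h3]
    unfold wvec vand
    ring
  have h4 : Matrix.vecMul (wvec (fun l => (f l).natDegree) η) ((qmat f Q).map φ) j =
      ∑ i, wvec (fun l => (f l).natDegree) η i * ((qmat f Q).map φ) i j := rfl
  rw [h4]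
  simp_rw [h1]
  rw [Finset.sum_comm]
  apply Finset.sum_congr rfl
  intro α _
  rw [← Finset.mul_sum]
  congr 1
  have h5 : ∀ l : Fin J, φ (f l).leadingCoeff ^ (n - (α l : ℕ)) *
        Matrix.vecMul (vand (η l) (f l).natDegree) (((cmat (f l)).map φ) ^ (α l : ℕ)) (j l) =
      ∑ i : Fin (f l).natDegree, φ (f l).leadingCoeff ^ (n - (α l : ℕ)) *
        (vand (η l) (f l).natDegree i * (((cmat (f l)).map φ) ^ (α l : ℕ)) i (j l)) := by
    intro l
    rw [← Finset.mul_sum]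
    rfl
  simp_rw [h5]
  rw [Finset.prod_univ_sum, Fintype.piFinset_univ]

/-- GI-G3. `w` is an approximate left eigenvector of the matrix `qmat f Q` with eigenvalue
`(∏ λ_l ^ n) Q(η)`. By `Finset.prod_univ_sum` (or `Fintype.piFinset`/`Finset.prod_sum`) the `j`-th
coordinate of `w * qmat` is
`∑ α, Q α * ∏ l, (λ_l ^ (n - α l) * (v_l C_l ^ (α l))_(j l))`
(with `λ_l = φ (f l).leadingCoeff`, `v_l = vand (η l)`, `C_l = (cmat (f l)).map φ`; note
`(M ^ a).map φ = (M.map φ) ^ a`, `Matrix.map_pow`/`RingHom.mapMatrix`), while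
`(∏ λ_l ^ n) Q(η) w_j = ∑ α, Q α * ∏ l, (λ_l ^ (n - α l) * ((λ_l η_l) ^ (α l) * η_l ^ (j l)))`.
By GI-G2 with `B' = 4 N b` the `l`-th factors differ by at most
`b ^ (n - α l) * (α l) * ε * B' ^ (α l) ≤ n ε B' ^ n ≤ ε B` and are `≤ B`, where
`B = (n+1) 4^N (4 N b)^n`. Conclude with `prod_diff`. -/
theorem qmat_vec {A : Type} [CommRing A] (φ : A →+* ℝ) {n J N : ℕ} (f : Fin J → Polynomial A)
    (Q : (Fin J → Fin (n + 1)) → ℤ) (η : Fin J → ℝ) (b ε : ℝ) (hN : 1 ≤ N) (hb : 1 ≤ b)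
    (hε0 : 0 ≤ ε) (hε1 : ε ≤ 1) (hη : ∀ l, |η l| ≤ 4) (hdeg : ∀ l, (f l).natDegree ≤ N)
    (hc : ∀ l i, |φ ((f l).coeff i)| ≤ b) (hsm : ∀ l, |(f l).eval₂ φ (η l)| ≤ ε)
    (j : (l : Fin J) → Fin (f l).natDegree) :
    |Matrix.vecMul (wvec (fun l => (f l).natDegree) η) ((qmat f Q).map φ) j
        - (∏ l, φ (f l).leadingCoeff ^ n) * Qv Q η * wvec (fun l => (f l).natDegree) η j|
      ≤ Ql Q * (J * ε * (((n + 1 : ℕ) : ℝ) * 4 ^ N * (4 * N * b) ^ n) ^ J) := by
  have hN' : (1 : ℝ) ≤ N := by exact_mod_cast hN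
  have hb0 : 0 ≤ b := le_trans zero_le_one hb
  obtain ⟨B', hB'⟩ : ∃ B' : ℝ, B' = 4 * N * b := ⟨_, rfl⟩
  have hNb : b ≤ N * b := le_mul_of_one_le_left hb0 hN'
  have hbB : b ≤ B' := by rw [hB']; nlinarith
  have hB1 : 1 ≤ B' := hb.trans hbB
  have hB0 : 0 ≤ B' := le_trans zero_le_one hB1
  obtain ⟨B, hBd⟩ : ∃ B : ℝ, B = ((n + 1 : ℕ) : ℝ) * 4 ^ N * B' ^ n := ⟨_, rfl⟩
  rw [← hB', ← hBd]
  have hBn : 1 ≤ B' ^ n := one_le_pow₀ hB1
  have h4N : (1 : ℝ) ≤ 4 ^ N := one_le_pow₀ (by norm_num)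
  have hn1 : (1 : ℝ) ≤ ((n + 1 : ℕ) : ℝ) := by push_cast; linarith [Nat.cast_nonneg (α := ℝ) n]
  have hBB : 1 ≤ B := by
    rw [hBd]
    exact one_le_mul_of_one_le_of_one_le (one_le_mul_of_one_le_of_one_le hn1 h4N) hBn
  have hlam : ∀ l, |φ (f l).leadingCoeff| ≤ b := fun l => hc l _
  -- the factors
  have hfac : ∀ (α : Fin J → Fin (n + 1)) (l : Fin J),
      |φ (f l).leadingCoeff ^ (n - (α l : ℕ)) *
        ((φ (f l).leadingCoeff * η l) ^ (α l : ℕ) * η l ^ (j l : ℕ))| ≤ B' ^ n * 4 ^ N ∧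
      |φ (f l).leadingCoeff ^ (n - (α l : ℕ)) *
        Matrix.vecMul (vand (η l) (f l).natDegree) (((cmat (f l)).map φ) ^ (α l : ℕ)) (j l) -
        φ (f l).leadingCoeff ^ (n - (α l : ℕ)) *
        ((φ (f l).leadingCoeff * η l) ^ (α l : ℕ) * η l ^ (j l : ℕ))| ≤ n * ε * B' ^ n := by
    intro α l
    have hα : (α l : ℕ) ≤ n := Nat.lt_succ_iff.1 (α l).2
    have hx : |φ (f l).leadingCoeff * η l| ≤ B' := by
      rw [abs_mul, hB']
      have h1 := mul_le_mul (hlam l) (hη l) (abs_nonneg _) hb0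
      nlinarith
    have hcc : ∀ i, ((f l).natDegree : ℝ) * |φ ((f l).coeff i)| ≤ B' := by
      intro i
      have h1 : ((f l).natDegree : ℝ) ≤ N := by exact_mod_cast hdeg l
      have h2 := mul_le_mul h1 (hc l i) (abs_nonneg _) (by linarith)
      rw [hB']
      nlinarith
    have hp1 : |φ (f l).leadingCoeff ^ (n - (α l : ℕ))| ≤ B' ^ (n - (α l : ℕ)) := by
      rw [abs_pow]
      exact pow_le_pow_left₀ (abs_nonneg _) ((hlam l).trans hbB) _
    have hp2 : |(φ (f l).leadingCoeff * η l) ^ (α l : ℕ)| ≤ B' ^ (α l : ℕ) := by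
      rw [abs_pow]
      exact pow_le_pow_left₀ (abs_nonneg _) hx _
    have hp3 : |η l ^ (j l : ℕ)| ≤ 4 ^ N := by
      rw [abs_pow]
      refine (pow_le_pow_left₀ (abs_nonneg _) (hη l) _).trans ?_
      exact pow_le_pow_right₀ (by norm_num) (((j l).2.le).trans (hdeg l))
    have hsplit : B' ^ (n - (α l : ℕ)) * B' ^ (α l : ℕ) = B' ^ n := by
      rw [← pow_add, Nat.sub_add_cancel hα]
    constructor
    · rw [abs_mul, abs_mul]
      calc _ ≤ B' ^ (n - (α l : ℕ)) * (B' ^ (α l : ℕ) * 4 ^ N) :=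
            mul_le_mul hp1 (mul_le_mul hp2 hp3 (abs_nonneg _) (pow_nonneg hB0 _))
              (mul_nonneg (abs_nonneg _) (abs_nonneg _)) (pow_nonneg hB0 _)
        _ = _ := by rw [← mul_assoc, hsplit]
    · rw [← mul_sub, abs_mul]
      have h1 := vand_cmat_pow φ (f l) (η l) B' hB1 hx hcc (α l : ℕ) (j l)
      have h2 : ((α l : ℕ) : ℝ) * |(f l).eval₂ φ (η l)| * B' ^ (α l : ℕ) ≤
          n * ε * B' ^ (α l : ℕ) := by
        apply mul_le_mul_of_nonneg_right _ (pow_nonneg hB0 _)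
        exact mul_le_mul (by exact_mod_cast hα) (hsm l) (abs_nonneg _) (Nat.cast_nonneg _)
      calc _ ≤ B' ^ (n - (α l : ℕ)) * (n * ε * B' ^ (α l : ℕ)) :=
            mul_le_mul hp1 (h1.trans h2) (abs_nonneg _) (pow_nonneg hB0 _)
        _ = n * ε * (B' ^ (n - (α l : ℕ)) * B' ^ (α l : ℕ)) := by ring
        _ = _ := by rw [hsplit]
  -- the products
  have hprod : ∀ α : Fin J → Fin (n + 1),
      |∏ l, (φ (f l).leadingCoeff ^ (n - (α l : ℕ)) *
        Matrix.vecMul (vand (η l) (f l).natDegree) (((cmat (f l)).map φ) ^ (α l : ℕ)) (j l)) -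
        ∏ l, (φ (f l).leadingCoeff ^ (n - (α l : ℕ)) *
        ((φ (f l).leadingCoeff * η l) ^ (α l : ℕ) * η l ^ (j l : ℕ)))| ≤ J * ε * B ^ J := by
    intro α
    have hbig : B' ^ n * 4 ^ N ≤ B := by
      rw [hBd]
      have h1 : 0 ≤ 4 ^ N * B' ^ n := by positivity
      nlinarith
    have hsm2 : n * ε * B' ^ n ≤ ε * B := by
      rw [hBd]
      have h1 : (n : ℝ) ≤ ((n + 1 : ℕ) : ℝ) := by push_cast; linarith
      have h2 : (n : ℝ) * B' ^ n ≤ ((n + 1 : ℕ) : ℝ) * 4 ^ N * B' ^ n := by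
        apply mul_le_mul_of_nonneg_right _ (by positivity)
        calc (n : ℝ) ≤ ((n + 1 : ℕ) : ℝ) * 1 := by rw [mul_one]; exact h1
          _ ≤ _ := mul_le_mul_of_nonneg_left h4N (by positivity)
      calc n * ε * B' ^ n = ε * (n * B' ^ n) := by ring
        _ ≤ _ := mul_le_mul_of_nonneg_left h2 hε0
    have hy : B' ^ n * 4 ^ N + n * ε * B' ^ n ≤ B := by
      rw [hBd]
      have h2 : (n : ℝ) * ε * B' ^ n ≤ n * 4 ^ N * B' ^ n := by
        apply mul_le_mul_of_nonneg_right _ (by positivity)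
        exact mul_le_mul_of_nonneg_left (hε1.trans h4N) (Nat.cast_nonneg _)
      push_cast
      linarith
    have h := prod_diff Finset.univ (fun l => φ (f l).leadingCoeff ^ (n - (α l : ℕ)) *
        ((φ (f l).leadingCoeff * η l) ^ (α l : ℕ) * η l ^ (j l : ℕ)))
      (fun l => φ (f l).leadingCoeff ^ (n - (α l : ℕ)) *
        Matrix.vecMul (vand (η l) (f l).natDegree) (((cmat (f l)).map φ) ^ (α l : ℕ)) (j l))
      B ε hBB hε0 (fun l _ => (hfac α l).1.trans hbig)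
      (fun l _ => by
        have h1 := hfac α l
        have h2 := abs_add_le
          (φ (f l).leadingCoeff ^ (n - (α l : ℕ)) *
            ((φ (f l).leadingCoeff * η l) ^ (α l : ℕ) * η l ^ (j l : ℕ)))
          (φ (f l).leadingCoeff ^ (n - (α l : ℕ)) *
            Matrix.vecMul (vand (η l) (f l).natDegree) (((cmat (f l)).map φ) ^ (α l : ℕ)) (j l) -
          φ (f l).leadingCoeff ^ (n - (α l : ℕ)) *
            ((φ (f l).leadingCoeff * η l) ^ (α l : ℕ) * η l ^ (j l : ℕ)))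
        rw [add_sub_cancel] at h2
        exact h2.trans ((add_le_add h1.1 h1.2).trans hy))
      (fun l _ => (hfac α l).2.trans hsm2)
    simpa using h
  -- the sum
  have hR : (∏ l, φ (f l).leadingCoeff ^ n) * Qv Q η * wvec (fun l => (f l).natDegree) η j =
      ∑ α : Fin J → Fin (n + 1), (Q α : ℝ) * ∏ l, (φ (f l).leadingCoeff ^ (n - (α l : ℕ)) *
        ((φ (f l).leadingCoeff * η l) ^ (α l : ℕ) * η l ^ (j l : ℕ))) := by
    unfold Qv wvec
    rw [Finset.mul_sum, Finset.sum_mul]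
    apply Finset.sum_congr rfl
    intro α _
    have h1 : ∏ l, (φ (f l).leadingCoeff ^ (n - (α l : ℕ)) *
        ((φ (f l).leadingCoeff * η l) ^ (α l : ℕ) * η l ^ (j l : ℕ))) =
        (∏ l, φ (f l).leadingCoeff ^ n) * (∏ l, η l ^ (α l : ℕ)) * ∏ l, η l ^ (j l : ℕ) := by
      rw [← Finset.prod_mul_distrib, ← Finset.prod_mul_distrib]
      apply Finset.prod_congr rfl
      intro l _
      have hα : (α l : ℕ) ≤ n := Nat.lt_succ_iff.1 (α l).2
      have h2 : φ (f l).leadingCoeff ^ n =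
          φ (f l).leadingCoeff ^ (n - (α l : ℕ)) * φ (f l).leadingCoeff ^ (α l : ℕ) := by
        rw [← pow_add, Nat.sub_add_cancel hα]
      rw [h2, mul_pow]
      ring
    rw [h1]
    ring
  rw [G3_expand, hR, ← Finset.sum_sub_distrib]
  refine (Finset.abs_sum_le_sum_abs _ _).trans ?_
  unfold Ql
  rw [Finset.sum_mul]
  apply Finset.sum_le_sum
  intro α _
  rw [← mul_sub, abs_mul]
  exact mul_le_mul_of_nonneg_left (hprod α) (abs_nonneg _)

end GLR
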