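import Pool.Agent.Helper49.GL.A7

namespace GLR

open Polynomial

private theorem g4_entry {A : Type} [CommRing A] {ℓ : A → ℝ} (h : IsLen ℓ) (f : Polynomial A)
    {b : ℝ} (hb : 1 ≤ b) (hc : ∀ i, ℓ (f.coeff i) ≤ b) (i j : Fin f.natDegree) :
    ℓ (cmat f i j) ≤ b := by
  unfold cmat
  rw [Matrix.of_apply]
  split_ifs
  · rw [h.neg]
    exact hc _
  · exact hc _
  · rw [h.zero]
    linarith

private theorem g4_factor {A : Type} [CommRing A] {ℓ : A → ℝ} (h : IsLen ℓ) {n N : ℕ}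
    (f : Polynomial A) {b : ℝ} (hN : 1 ≤ N) (hb : 1 ≤ b) (hdeg : f.natDegree ≤ N)
    (hc : ∀ i, ℓ (f.coeff i) ≤ b) (a : ℕ) (ha : a ≤ n) (i j : Fin f.natDegree) :
    ℓ (f.leadingCoeff ^ (n - a) * ((cmat f) ^ a) i j) ≤ ((N : ℝ) * b) ^ n := by
  have hN' : (1 : ℝ) ≤ N := by exact_mod_cast hN
  have hNb : b ≤ (N : ℝ) * b := by nlinarith
  have hNb1 : 1 ≤ (N : ℝ) * b := hb.trans hNb
  have h1 : ℓ (((cmat f) ^ a) i j) ≤ ((N : ℝ) * b) ^ a := by
    refine h.matpow_le (cmat f) hNb1 (fun i j => ?_) a i j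
    have h2 := g4_entry h f hb hc i j
    have h3 : (f.natDegree : ℝ) ≤ N := by exact_mod_cast hdeg
    exact mul_le_mul h3 h2 (h.nonneg _) (by linarith)
  have h2 : ℓ (f.leadingCoeff ^ (n - a)) ≤ ((N : ℝ) * b) ^ (n - a) := by
    refine (h.pow_le _ _).trans ?_
    exact pow_le_pow_left₀ (h.nonneg _) ((hc _).trans hNb) _
  calc ℓ (f.leadingCoeff ^ (n - a) * ((cmat f) ^ a) i j)
      ≤ ℓ (f.leadingCoeff ^ (n - a)) * ℓ (((cmat f) ^ a) i j) := h.mul _ _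
    _ ≤ ((N : ℝ) * b) ^ (n - a) * ((N : ℝ) * b) ^ a :=
        mul_le_mul h2 h1 (h.nonneg _) (by positivity)
    _ = ((N : ℝ) * b) ^ n := by
        rw [← pow_add, Nat.sub_add_cancel ha]

/-- GI-G4. Length of the entries of `qmat f Q`: by `IsLen.matpow_le` with `B = N b` the entries of
`cmat (f l) ^ a` have length `≤ (N b)^a` (entries of `cmat` have length `≤ b`, size `≤ N`), so each
factor has length `≤ b^(n-a) (N b)^a ≤ (N b)^n`. Use `IsLen.sum_le`, `prod_le`, `intCast_le`. -/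
theorem IsLen.qmat_le {A : Type} [CommRing A] {ℓ : A → ℝ} (h : IsLen ℓ) {n J N : ℕ}
    (f : Fin J → Polynomial A) (Q : (Fin J → Fin (n + 1)) → ℤ) {b : ℝ} (hN : 1 ≤ N) (hb : 1 ≤ b)
    (hdeg : ∀ l, (f l).natDegree ≤ N) (hc : ∀ l i, ℓ ((f l).coeff i) ≤ b)
    (i j : (l : Fin J) → Fin (f l).natDegree) :
    ℓ (qmat f Q i j) ≤ Ql Q * (((N : ℝ) * b) ^ n) ^ J := by
  unfold qmat Ql
  rw [Matrix.of_apply, Finset.sum_mul]
  refine (h.sum_le _ _).trans (Finset.sum_le_sum fun α _ => ?_)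
  refine (h.mul _ _).trans ?_
  refine mul_le_mul (h.intCast_le _) ?_ (h.nonneg _) (abs_nonneg _)
  refine (h.prod_le _ _).trans ?_
  have h1 : ∏ l : Fin J, ℓ ((f l).leadingCoeff ^ (n - (α l : ℕ)) *
      ((cmat (f l)) ^ (α l : ℕ)) (i l) (j l)) ≤ ∏ _l : Fin J, ((N : ℝ) * b) ^ n := by
    refine Finset.prod_le_prod (fun l _ => h.nonneg _) fun l _ => ?_
    exact g4_factor h (f l) hN hb (hdeg l) (hc l) _ (Nat.lt_succ_iff.mp (α l).2) _ _
  refine h1.trans_eq ?_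
  rw [Finset.prod_const, Finset.card_univ, Fintype.card_fin]

end GLR
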