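import Pool.Agent.Helper49.GL.G4
import Pool.Agent.Helper49.GL.A1
import Pool.Agent.Helper49.GL.A6

namespace GLR

open Polynomial

/-- GI-G5. Size of the index set. -/
theorem card_idx_le {A : Type} [CommRing A] {J N : ℕ} (f : Fin J → Polynomial A)
    (hdeg : ∀ l, (f l).natDegree ≤ N) :
    Fintype.card ((l : Fin J) → Fin (f l).natDegree) ≤ N ^ J := by
  rw [Fintype.card_pi]
  have h := Finset.prod_le_pow_card (Finset.univ : Finset (Fin J))
    (fun l => Fintype.card (Fin (f l).natDegree)) N (fun l _ => by simpa using hdeg l)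
  simpa using h

/-- GI-G5. An elementary estimate used twice (with `K = 1` and `K = 3`): for `D ≤ N^J`,
`D! * (1 + exp (4 n N) * ((N * exp (K N))^n)^J)^D ≤ exp (n N^(J+1) (5 J + 5))`. Proof: `D! ≤ D^D`,
`log D ≤ J log N ≤ J N`, `1 + x ≤ exp 1 * x` for `x ≥ 1`, `log N ≤ N`; the exponent is at most
`N^J (J N + 1 + 4 n N + n J N + K n J N) ≤ n N^(J+1) (J + 1 + 4 + J + 3 J)`. -/
theorem size_est {n J N D K : ℕ} (hJ : 1 ≤ J) (hN : 20 * J + 20 ≤ N) (hn : N ≤ n) (hK : K ≤ 3)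
    (hD : D ≤ N ^ J) :
    (D.factorial : ℝ) *
      (1 + Real.exp (4 * n * N) * (((N : ℝ) * Real.exp (K * N)) ^ n) ^ J) ^ D
      ≤ Real.exp (n * N ^ (J + 1) * (5 * J + 5)) := by
  have hN1 : (1 : ℝ) ≤ N := by exact_mod_cast (show 1 ≤ N by omega)
  have hn1 : (1 : ℝ) ≤ n := by exact_mod_cast (show 1 ≤ n by omega)
  have hJ1 : (1 : ℝ) ≤ J := by exact_mod_cast hJ
  have hK3 : (K : ℝ) ≤ 3 := by exact_mod_cast hK
  have hNe : (N : ℝ) ≤ Real.exp N := by
    have := Real.add_one_le_exp (N : ℝ)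
    linarith
  -- the base
  have hB1 : (1 : ℝ) ≤ Real.exp (4 * n * N) * (((N : ℝ) * Real.exp (K * N)) ^ n) ^ J := by
    have h1 : (1 : ℝ) ≤ Real.exp (4 * n * N) := Real.one_le_exp (by positivity)
    have h2 : (1 : ℝ) ≤ (N : ℝ) * Real.exp (K * N) :=
      one_le_mul_of_one_le_of_one_le hN1 (Real.one_le_exp (by positivity))
    exact one_le_mul_of_one_le_of_one_le h1 (one_le_pow₀ (one_le_pow₀ h2))
  have hB2 : Real.exp (4 * n * N) * (((N : ℝ) * Real.exp (K * N)) ^ n) ^ J ≤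
      Real.exp (4 * n * N + 4 * n * J * N) := by
    rw [Real.exp_add]
    apply mul_le_mul_of_nonneg_left _ (Real.exp_pos _).le
    have h2 : (N : ℝ) * Real.exp (K * N) ≤ Real.exp (4 * N) := by
      calc (N : ℝ) * Real.exp (K * N) ≤ Real.exp N * Real.exp (3 * N) := by
            apply mul_le_mul hNe _ (Real.exp_pos _).le (Real.exp_pos _).le
            apply Real.exp_le_exp.mpr
            nlinarith
        _ = Real.exp (4 * N) := by rw [← Real.exp_add]; ring_nf
    have h3 : (0 : ℝ) ≤ (N : ℝ) * Real.exp (K * N) := by positivity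
    calc (((N : ℝ) * Real.exp (K * N)) ^ n) ^ J ≤ ((Real.exp (4 * N)) ^ n) ^ J :=
          pow_le_pow_left₀ (by positivity) (pow_le_pow_left₀ h3 h2 n) J
      _ = Real.exp (4 * n * J * N) := by
          rw [← Real.exp_nat_mul, ← Real.exp_nat_mul]
          ring_nf
  have hB3 : 1 + Real.exp (4 * n * N) * (((N : ℝ) * Real.exp (K * N)) ^ n) ^ J ≤
      Real.exp (1 + (4 * n * N + 4 * n * J * N)) := by
    have h2 : (2 : ℝ) ≤ Real.exp 1 := by
      have := Real.add_one_le_exp (1 : ℝ)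
      linarith
    calc 1 + Real.exp (4 * n * N) * (((N : ℝ) * Real.exp (K * N)) ^ n) ^ J
        ≤ 2 * (Real.exp (4 * n * N) * (((N : ℝ) * Real.exp (K * N)) ^ n) ^ J) := by linarith
      _ ≤ Real.exp 1 * Real.exp (4 * n * N + 4 * n * J * N) := by
          apply mul_le_mul h2 hB2 (by positivity) (Real.exp_pos _).le
      _ = _ := by rw [← Real.exp_add]
  -- the factorial
  have hF : (D.factorial : ℝ) ≤ (Real.exp (J * N)) ^ D := by
    have h1 : (D.factorial : ℝ) ≤ (D : ℝ) ^ D := by exact_mod_cast Nat.factorial_le_pow D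
    have h2 : (D : ℝ) ≤ Real.exp (J * N) := by
      calc (D : ℝ) ≤ (N : ℝ) ^ J := by exact_mod_cast hD
        _ ≤ (Real.exp N) ^ J := pow_le_pow_left₀ (by positivity) hNe J
        _ = _ := by rw [← Real.exp_nat_mul]
    exact h1.trans (pow_le_pow_left₀ (by positivity) h2 D)
  have h4 : (D.factorial : ℝ) *
      (1 + Real.exp (4 * n * N) * (((N : ℝ) * Real.exp (K * N)) ^ n) ^ J) ^ D ≤
      (Real.exp (J * N)) ^ D * (Real.exp (1 + (4 * n * N + 4 * n * J * N))) ^ D := by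
    apply mul_le_mul hF (pow_le_pow_left₀ (by positivity) hB3 D) (by positivity) (by positivity)
  refine h4.trans ?_
  rw [← mul_pow, ← Real.exp_add, ← Real.exp_nat_mul]
  apply Real.exp_le_exp.mpr
  have h5 : (D : ℝ) ≤ (N : ℝ) ^ J := by exact_mod_cast hD
  have h6 : (J : ℝ) * N + (1 + (4 * n * N + 4 * n * J * N)) ≤ n * N * (5 * J + 5) := by
    have h7 : (J : ℝ) * N ≤ n * N * J := by
      have : (0 : ℝ) ≤ (J : ℝ) * N := by positivity
      nlinarith
    have h8 : (1 : ℝ) ≤ n * N := one_le_mul_of_one_le_of_one_le hn1 hN1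
    nlinarith
  calc (D : ℝ) * ((J : ℝ) * N + (1 + (4 * n * N + 4 * n * J * N)))
      ≤ (N : ℝ) ^ J * (n * N * (5 * J + 5)) := by
        apply mul_le_mul h5 h6 (by positivity) (by positivity)
    _ = n * N ^ (J + 1) * (5 * J + 5) := by ring

/-- GI-G5. Complexity of the coefficients of the characteristic polynomial of `qmat f Q` over
`ℤ[Y_1, ..., Y_m]`: for every `t ≥ 1` apply `IsLen.charpoly_le`, `IsLen.qmat_le` to the length
`wl t` with `b = exp N * t ^ N` (`isLen_wl`), pull out the powers of `t`: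
`1 + s * ((N b)^n)^J ≤ (1 + s * ((N exp N)^n)^J) * t ^ (N n J)`, and use `size_est` (`K = 1`),
`(5 J + 5) ≤ N`, `D * N * n * J ≤ n N^(J+2)`. -/
theorem cx_charpoly {m n J N X : ℕ} (f : Fin J → Polynomial (MvPolynomial (Fin m) ℤ))
    (Q : (Fin J → Fin (n + 1)) → ℤ) (hJ : 1 ≤ J) (hN : 20 * J + 20 ≤ N) (hn : N ≤ n)
    (hX : X = n * N ^ (J + 2)) (hdeg : ∀ l, (f l).natDegree ≤ N)
    (hcx : ∀ l i, Cx ((f l).coeff i) N N) (hQ : Ql Q ≤ Real.exp (4 * n * N)) (k : ℕ) :
    Cx ((qmat f Q).charpoly.coeff k) X X := by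
  intro t ht
  have h := isLen_wl (m := m) ht
  have hN1 : (1 : ℝ) ≤ N := by exact_mod_cast (show 1 ≤ N by omega)
  set b : ℝ := Real.exp N * t ^ N with hb
  have hb1 : 1 ≤ b := one_le_mul_of_one_le_of_one_le (Real.one_le_exp (by positivity))
    (one_le_pow₀ ht)
  have hQ0 : 0 ≤ Ql Q := Finset.sum_nonneg (fun _ _ => abs_nonneg _)
  have h1 := h.charpoly_le (qmat f Q) (b := Ql Q * (((N : ℝ) * b) ^ n) ^ J) (by positivity)
    (fun i j => h.qmat_le f Q (by omega) hb1 hdeg (fun l i => hcx l i t ht) i j) k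
  set D := Fintype.card ((l : Fin J) → Fin (f l).natDegree) with hDdef
  have hD : D ≤ N ^ J := card_idx_le f hdeg
  have h2 : 1 + Ql Q * (((N : ℝ) * b) ^ n) ^ J ≤
      (1 + Real.exp (4 * n * N) * (((N : ℝ) * Real.exp ((1 : ℕ) * N)) ^ n) ^ J) *
        t ^ (N * n * J) := by
    have e1 : (((N : ℝ) * b) ^ n) ^ J =
        (((N : ℝ) * Real.exp ((1 : ℕ) * N)) ^ n) ^ J * t ^ (N * n * J) := by
      rw [hb, Nat.cast_one, one_mul, ← mul_assoc, mul_pow, mul_pow, ← pow_mul, ← pow_mul,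
        ← pow_mul t, mul_assoc N n J]
    have ht1 : (1 : ℝ) ≤ t ^ (N * n * J) := one_le_pow₀ ht
    have e2 : Ql Q * (((N : ℝ) * b) ^ n) ^ J ≤ Real.exp (4 * n * N) *
        (((N : ℝ) * b) ^ n) ^ J := mul_le_mul_of_nonneg_right hQ (by positivity)
    rw [e1] at e2 ⊢
    calc 1 + Ql Q * ((((N : ℝ) * Real.exp ((1 : ℕ) * N)) ^ n) ^ J * t ^ (N * n * J))
        ≤ t ^ (N * n * J) + Real.exp (4 * n * N) *
          ((((N : ℝ) * Real.exp ((1 : ℕ) * N)) ^ n) ^ J * t ^ (N * n * J)) :=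
          add_le_add ht1 e2
      _ = _ := by ring
  have h3 := size_est (K := 1) hJ hN hn (by norm_num) hD
  calc wl t ((qmat f Q).charpoly.coeff k)
      ≤ (D.factorial : ℝ) * (1 + Ql Q * (((N : ℝ) * b) ^ n) ^ J) ^ D := h1
    _ ≤ (D.factorial : ℝ) * ((1 + Real.exp (4 * n * N) *
          (((N : ℝ) * Real.exp ((1 : ℕ) * N)) ^ n) ^ J) * t ^ (N * n * J)) ^ D := by
        apply mul_le_mul_of_nonneg_left _ (by positivity)
        exact pow_le_pow_left₀ (by positivity) h2 D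
    _ = ((D.factorial : ℝ) * (1 + Real.exp (4 * n * N) *
          (((N : ℝ) * Real.exp ((1 : ℕ) * N)) ^ n) ^ J) ^ D) * t ^ (N * n * J * D) := by
        rw [mul_pow (1 + _) (t ^ (N * n * J)) D, ← pow_mul t, ← mul_assoc]
    _ ≤ Real.exp (n * N ^ (J + 1) * (5 * J + 5)) * t ^ (N * n * J * D) :=
        mul_le_mul_of_nonneg_right h3 (by positivity)
    _ ≤ Real.exp X * t ^ X := by
        apply mul_le_mul _ _ (by positivity) (Real.exp_pos _).le
        · apply Real.exp_le_exp.mpr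
          have e3 : n * N ^ (J + 1) * (5 * J + 5) ≤ X := by
            rw [hX, pow_succ N (J + 1), ← mul_assoc]
            exact Nat.mul_le_mul_left _ (by omega)
          exact_mod_cast e3
        · apply pow_le_pow_right₀ ht
          rw [hX]
          calc N * n * J * D ≤ N * n * N * N ^ J := by
                apply Nat.mul_le_mul (Nat.mul_le_mul_left _ (by omega)) hD
            _ = n * N ^ (J + 2) := by ring

end GLR
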