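import Pool.Agent.Helper49.GL.Def

namespace GLR

/-- GI-G6. A monic polynomial `∑_{i ≤ d} c_i u^i` with all coefficients `≤ C` whose lowest nonzero
coefficient is not small cannot be very small at `u` unless `|u|` is very small. Here
`e ≤ d` is minimal with `c_e ≠ 0`. Since `|u| ≤ 1`,
`|χ(u)| ≥ |u|^e (|c_e| - d C |u|) ≥ |u|^e κ / 2`. -/
theorem low_coeff (d : ℕ) (c : ℕ → ℝ) (C κ u : ℝ) (hu : |u| ≤ 1)
    (hC : ∀ i ≤ d, |c i| ≤ C) (hκ : 0 < κ) (hlow : ∀ i ≤ d, c i ≠ 0 → κ ≤ |c i|)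
    (hd : c d ≠ 0) (hs : d * C * |u| ≤ κ / 2) :
    ∃ e ≤ d, |u| ^ e * (κ / 2) ≤ |∑ i ∈ Finset.range (d + 1), c i * u ^ i| := by
  classical
  have hex : ∃ i, c i ≠ 0 := ⟨d, hd⟩
  obtain ⟨e, he, hmin⟩ : ∃ e, c e ≠ 0 ∧ ∀ i < e, c i = 0 :=
    ⟨Nat.find hex, Nat.find_spec hex, fun i hi => not_not.mp (Nat.find_min hex hi)⟩
  have hed : e ≤ d := by
    by_contra h
    exact hd (hmin d (not_le.mp h))
  refine ⟨e, hed, ?_⟩
  have hC0 : 0 ≤ C := (abs_nonneg _).trans (hC 0 (Nat.zero_le d))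
  have hue : 0 ≤ |u| ^ e := pow_nonneg (abs_nonneg u) e
  have hmem : e ∈ Finset.range (d + 1) := Finset.mem_range.mpr (by omega)
  rw [← Finset.add_sum_erase _ _ hmem]
  have hrest : |∑ i ∈ (Finset.range (d + 1)).erase e, c i * u ^ i| ≤ |u| ^ e * (κ / 2) := by
    calc |∑ i ∈ (Finset.range (d + 1)).erase e, c i * u ^ i|
        ≤ ∑ i ∈ (Finset.range (d + 1)).erase e, |c i * u ^ i| := Finset.abs_sum_le_sum_abs _ _
      _ ≤ ∑ _i ∈ (Finset.range (d + 1)).erase e, C * |u| * |u| ^ e := by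
          refine Finset.sum_le_sum fun i hi => ?_
          rw [Finset.mem_erase, Finset.mem_range] at hi
          rcases lt_or_gt_of_ne hi.1 with h | h
          · rw [hmin i h, zero_mul, abs_zero]
            positivity
          · rw [abs_mul, abs_pow]
            have h1 : |u| ^ i ≤ |u| ^ (e + 1) :=
              pow_le_pow_of_le_one (abs_nonneg u) hu (by omega)
            calc |c i| * |u| ^ i ≤ C * |u| ^ (e + 1) :=
                  mul_le_mul (hC i (by omega)) h1 (pow_nonneg (abs_nonneg u) i) hC0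
              _ = C * |u| * |u| ^ e := by ring
      _ = |u| ^ e * (d * C * |u|) := by
          rw [Finset.sum_const, Finset.card_erase_of_mem hmem, Finset.card_range]
          simp only [Nat.add_sub_cancel, nsmul_eq_mul]
          ring
      _ ≤ |u| ^ e * (κ / 2) := mul_le_mul_of_nonneg_left hs hue
  have hmain : |u| ^ e * κ ≤ |c e * u ^ e| := by
    rw [abs_mul, abs_pow, mul_comm]
    exact mul_le_mul_of_nonneg_right (hlow e hed he) hue
  have habs := abs_sub_abs_le_abs_add (c e * u ^ e)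
    (∑ i ∈ (Finset.range (d + 1)).erase e, c i * u ^ i)
  linarith

end GLR
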