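import Pool.Agent.Helper49.GL.A2
import Pool.Agent.Helper49.GL.A3
import Pool.Agent.Helper49.GL.A8
import Pool.Agent.Helper49.GL.G3
import Pool.Agent.Helper49.GL.G5
import Pool.Agent.Helper49.GL.G6

namespace GLR

open Polynomial

/-- GI-G7. The leading coefficients and degrees: since `W < W'` and `Meas θ X W`, the polynomial
`f` cannot be constant in its variable; its leading coefficient is not small. -/
theorem lead_ok {m N X : ℕ} {θ : Fin m → ℝ} {W W' : ℝ} (hM : Meas θ X W) (hNX : N ≤ X)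
    (f : Polynomial (MvPolynomial (Fin m) ℤ)) (hf : f ≠ 0) (hcx : ∀ i, Cx (f.coeff i) N N)
    (η : ℝ) (hsm : |f.eval₂ (ev θ) η| ≤ Real.exp (-W')) (hW : W < W') :
    1 ≤ f.natDegree ∧ Real.exp (-W) ≤ |ev θ f.leadingCoeff| := by
  have key : ∀ i, f.coeff i ≠ 0 → Real.exp (-W) ≤ |ev θ (f.coeff i)| := fun i hi =>
    hM _ hi ((hcx i).mono hNX (by exact_mod_cast hNX))
  refine ⟨?_, key _ (leadingCoeff_ne_zero.2 hf)⟩
  by_contra hlt
  have h0 : f.natDegree = 0 := by omega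
  have h1 := eq_C_of_natDegree_eq_zero h0
  have h2 : f.coeff 0 ≠ 0 := by
    intro h
    apply hf
    rw [h1, h, C_0]
  have h3 := key 0 h2
  have h4 : f.eval₂ (ev θ) η = ev θ (f.coeff 0) := by
    conv_lhs => rw [h1]
    rw [eval₂_C]
  rw [h4] at hsm
  have h5 : Real.exp (-W') < Real.exp (-W) := Real.exp_lt_exp.2 (by linarith)
  linarith

private lemma g7_len {m : ℕ} (θ : Fin m → ℝ) : IsLen (fun x => |ev θ x|) where
  nonneg := fun x => abs_nonneg _
  zero := by simp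
  one := by simp
  neg := fun x => by simp
  add := fun x y => by
    simp only [map_add]
    exact abs_add_le _ _
  mul := fun x y => by
    simp only [map_mul, abs_mul]
    exact le_rfl

private lemma g7_le_exp (k : ℕ) : (k : ℝ) ≤ Real.exp k := by
  have := Real.add_one_le_exp (k : ℝ)
  linarith

private lemma g7_num {n J N X : ℕ} {W' q : ℝ} (hJ : 1 ≤ J) (hN : 20 * J + 20 ≤ N) (hn : N ≤ n)
    (hX : X = n * N ^ (J + 2)) (hq0 : 0 ≤ q) (hq : q ≤ Real.exp (4 * n * N)) :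
    ((N : ℝ) ^ J) * (q * (J * Real.exp (-W') *
      ((((n + 1 : ℕ) : ℝ)) * 4 ^ N * (4 * N * Real.exp (3 * N)) ^ n) ^ J)) *
      Real.exp (n * N ^ (J + 1) * (5 * J + 5)) ≤ Real.exp (3 * X - W') := by
  have hNR : (1 : ℝ) ≤ N := by exact_mod_cast (show 1 ≤ N by omega)
  have hnR : (1 : ℝ) ≤ n := by exact_mod_cast (show 1 ≤ n by omega)
  have hJR : (1 : ℝ) ≤ J := by exact_mod_cast hJ
  have hNn : (N : ℝ) ≤ n := by exact_mod_cast hn
  have h20 : 20 * (J : ℝ) + 20 ≤ N := by exact_mod_cast hN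
  have h4 : (4 : ℝ) ≤ Real.exp 2 := by
    have h5 := Real.exp_one_gt_d9
    have h6 : Real.exp 2 = Real.exp 1 * Real.exp 1 := by
      rw [← Real.exp_add]
      norm_num
    rw [h6]
    nlinarith
  have e1 : (N : ℝ) ^ J ≤ Real.exp (J * N) := by
    rw [Real.exp_nat_mul]
    exact pow_le_pow_left₀ (by linarith) (g7_le_exp N) J
  have e2 : (((n + 1 : ℕ) : ℝ)) ≤ Real.exp n := by
    push_cast
    exact Real.add_one_le_exp _
  have e3 : (4 : ℝ) ^ N ≤ Real.exp (N * 2) := by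
    rw [Real.exp_nat_mul]
    exact pow_le_pow_left₀ (by norm_num) h4 N
  have e4 : (4 * (N : ℝ) * Real.exp (3 * N)) ^ n ≤ Real.exp (n * (2 + N + 3 * N)) := by
    rw [Real.exp_nat_mul, Real.exp_add, Real.exp_add]
    refine pow_le_pow_left₀ (by positivity) ?_ n
    refine mul_le_mul_of_nonneg_right ?_ (Real.exp_pos _).le
    exact mul_le_mul h4 (g7_le_exp N) (by linarith) (Real.exp_pos _).le
  have e5 : ((((n + 1 : ℕ) : ℝ)) * 4 ^ N * (4 * N * Real.exp (3 * N)) ^ n) ^ J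
      ≤ Real.exp (J * (n + N * 2 + n * (2 + N + 3 * N))) := by
    rw [Real.exp_nat_mul, Real.exp_add, Real.exp_add]
    refine pow_le_pow_left₀ (by positivity) ?_ J
    refine mul_le_mul ?_ e4 (by positivity) (by positivity)
    exact mul_le_mul e2 e3 (by positivity) (Real.exp_pos _).le
  have e6 : (J : ℝ) ≤ Real.exp J := g7_le_exp J
  have hA : ((N : ℝ) ^ J) * (q * (J * Real.exp (-W') *
      ((((n + 1 : ℕ) : ℝ)) * 4 ^ N * (4 * N * Real.exp (3 * N)) ^ n) ^ J)) *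
      Real.exp (n * N ^ (J + 1) * (5 * J + 5)) ≤
      Real.exp (J * N) * (Real.exp (4 * n * N) * (Real.exp J * Real.exp (-W') *
        Real.exp (J * (n + N * 2 + n * (2 + N + 3 * N))))) *
        Real.exp (n * N ^ (J + 1) * (5 * J + 5)) := by
    gcongr
  refine hA.trans ?_
  rw [← Real.exp_add, ← Real.exp_add, ← Real.exp_add, ← Real.exp_add, ← Real.exp_add]
  apply Real.exp_le_exp.2
  have hXR : (X : ℝ) = n * (N : ℝ) ^ (J + 2) := by rw [hX]; push_cast; ring
  have p1 : n * (N : ℝ) ^ (J + 1) * (5 * J + 5) ≤ X := by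
    rw [hXR, show J + 2 = (J + 1) + 1 from rfl, pow_succ (N : ℝ) (J + 1), ← mul_assoc]
    exact mul_le_mul_of_nonneg_left (by linarith) (by positivity)
  have p2 : (n : ℝ) * N ^ 2 ≤ X := by
    rw [hXR]
    refine mul_le_mul_of_nonneg_left ?_ (by linarith)
    exact pow_le_pow_right₀ hNR (by omega)
  have p3 : (J : ℝ) * N + (4 * n * N + (J + J * (n + N * 2 + n * (2 + N + 3 * N)))) ≤ n * N ^ 2 := by
    have hnN : (1 : ℝ) ≤ n * N := by nlinarith
    have q1 : (J : ℝ) * N ≤ J * (n * N) := by nlinarith [mul_nonneg (by linarith : (0:ℝ) ≤ J) (by linarith : (0:ℝ) ≤ N)]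
    have q2 : (J : ℝ) ≤ J * (n * N) := by nlinarith
    have q3 : (n : ℝ) + N * 2 + n * (2 + N + 3 * N) ≤ 9 * (n * N) := by nlinarith
    have q4 : (J : ℝ) * (n + N * 2 + n * (2 + N + 3 * N)) ≤ J * (9 * (n * N)) :=
      mul_le_mul_of_nonneg_left q3 (by linarith)
    have q5 : (11 * (J : ℝ) + 4) * (n * N) ≤ N * (n * N) :=
      mul_le_mul_of_nonneg_right (by linarith) (by linarith)
    nlinarith
  have p4 : (0 : ℝ) ≤ X := Nat.cast_nonneg _
  linarith

/-- GI-G7. The determinant is small: with `u = (∏ λ_l ^ n) Q(η)`, `|u| ≤ 1`, and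
`M = scalar u - (qmat f Q).map (ev θ)` one has `w M = - error` (GI-G3 with
`b = exp (3 N)`: `abs_ev_le_exp`), `w_0 = 1` at the index `i₀ = 0` (all degrees are `≥ 1`), the
entries of `M` are `≤ 1 + exp (4 n N) ((N exp (3N))^n)^J` (`IsLen.qmat_le` for the length
`x ↦ |ev θ x|`), so `det_of_approx` and `size_est` (`K = 3`) give
`|det M| ≤ N^J * error * exp (n N^(J+1) (5J+5))`, and
`error ≤ exp (4 n N) * J * exp (-W') * ((n+1) 4^N (4 N exp (3N))^n)^J ≤ exp (X - W')`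
(`log` of the bracket is `≤ 9 n N`). Also `det M = (qmat f Q).charpoly.map (ev θ)` evaluated at `u`
(`Matrix.charpoly_map`, `Matrix.eval_charpoly`). -/
theorem charpoly_small {m n J N X : ℕ} {θ : Fin m → ℝ} (hθ : ∀ i, |θ i| ≤ 4)
    (f : Fin J → Polynomial (MvPolynomial (Fin m) ℤ)) (Q : (Fin J → Fin (n + 1)) → ℤ)
    (η : Fin J → ℝ) (W' : ℝ) (hJ : 1 ≤ J) (hN : 20 * J + 20 ≤ N) (hn : N ≤ n)
    (hX : X = n * N ^ (J + 2)) (hη : ∀ l, |η l| ≤ 4) (hdeg : ∀ l, (f l).natDegree ≤ N)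
    (hdeg1 : ∀ l, 1 ≤ (f l).natDegree)
    (hcx : ∀ l i, Cx ((f l).coeff i) N N) (hQ : Ql Q ≤ Real.exp (4 * n * N))
    (hW' : 0 ≤ W') (hsm : ∀ l, |(f l).eval₂ (ev θ) (η l)| ≤ Real.exp (-W'))
    (hu : |(∏ l, ev θ (f l).leadingCoeff ^ n) * Qv Q η| ≤ 1) :
    |((qmat f Q).charpoly.map (ev θ)).eval ((∏ l, ev θ (f l).leadingCoeff ^ n) * Qv Q η)|
      ≤ Real.exp (3 * X - W') := by
  obtain ⟨u, hud⟩ : ∃ u : ℝ, u = (∏ l, ev θ (f l).leadingCoeff ^ n) * Qv Q η := ⟨_, rfl⟩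
  rw [← hud] at hu ⊢
  have hN1 : 1 ≤ N := by omega
  have hcb : ∀ l i, |ev θ ((f l).coeff i)| ≤ Real.exp (3 * N) := fun l i =>
    abs_ev_le_exp hθ _ N (hcx l i)
  have hb1 : 1 ≤ Real.exp (3 * (N : ℝ)) := Real.one_le_exp (by positivity)
  have hε1 : Real.exp (-W') ≤ 1 := Real.exp_le_one_iff.2 (by linarith)
  have hQ0 : 0 ≤ Ql Q := Finset.sum_nonneg fun _ _ => abs_nonneg _
  have hent : ∀ i j, |ev θ (qmat f Q i j)| ≤
      Real.exp (4 * n * N) * (((N : ℝ) * Real.exp (3 * N)) ^ n) ^ J := fun i j =>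
    ((g7_len θ).qmat_le f Q hN1 hb1 hdeg hcb i j).trans
      (mul_le_mul_of_nonneg_right hQ (by positivity))
  obtain ⟨B, hB⟩ : ∃ B : ℝ, B = Real.exp (4 * n * N) * (((N : ℝ) * Real.exp (3 * N)) ^ n) ^ J :=
    ⟨_, rfl⟩
  have hB0 : 0 ≤ B := by rw [hB]; positivity
  rw [← hB] at hent
  obtain ⟨err, herr⟩ : ∃ e : ℝ, e = Ql Q * (J * Real.exp (-W') *
      ((((n + 1 : ℕ) : ℝ)) * 4 ^ N * (4 * N * Real.exp (3 * N)) ^ n) ^ J) := ⟨_, rfl⟩
  have hvec : ∀ j, |Matrix.vecMul (wvec (fun l => (f l).natDegree) η)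
      (Matrix.scalar _ u - (qmat f Q).map (ev θ)) j| ≤ err := by
    intro j
    have h1 := qmat_vec (ev θ) f Q η (Real.exp (3 * N)) (Real.exp (-W')) hN1 hb1
      (Real.exp_pos _).le hε1 hη hdeg hcb hsm j
    rw [← hud, ← herr] at h1
    have h2 : Matrix.vecMul (wvec (fun l => (f l).natDegree) η)
        (Matrix.scalar _ u - (qmat f Q).map (ev θ)) j =
        -(Matrix.vecMul (wvec (fun l => (f l).natDegree) η) ((qmat f Q).map (ev θ)) j -
          u * wvec (fun l => (f l).natDegree) η j) := by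
      rw [Matrix.vecMul_sub, Pi.sub_apply]
      have h3 : Matrix.vecMul (wvec (fun l => (f l).natDegree) η) (Matrix.scalar _ u) j =
          u * wvec (fun l => (f l).natDegree) η j := by
        rw [Matrix.scalar_apply, Matrix.vecMul_diagonal, mul_comm]
      rw [h3]
      ring
    rw [h2, abs_neg]
    exact h1
  have hM : ∀ i j, |(Matrix.scalar ((l : Fin J) → Fin (f l).natDegree) u -
      (qmat f Q).map (ev θ)) i j| ≤ 1 + B := by
    intro i j
    rw [Matrix.sub_apply, Matrix.map_apply, Matrix.scalar_apply]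
    refine (abs_sub _ _).trans (add_le_add ?_ (hent i j))
    by_cases hij : i = j
    · rw [hij, Matrix.diagonal_apply_eq]
      exact hu
    · rw [Matrix.diagonal_apply_ne _ hij, abs_zero]
      exact zero_le_one
  have hw : wvec (fun l => (f l).natDegree) η (fun l => ⟨0, hdeg1 l⟩) = 1 := by
    unfold wvec
    simp
  have hdet := det_of_approx _ (by linarith : (1 : ℝ) ≤ 1 + B) hM _ _ hw hvec
  have heval : ((qmat f Q).charpoly.map (ev θ)).eval u =
      (Matrix.scalar _ u - (qmat f Q).map (ev θ)).det := by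
    rw [← Matrix.charpoly_map, Matrix.eval_charpoly]
  rw [heval]
  have hcard := card_idx_le f hdeg
  have hsize := size_est (n := n) (K := 3) hJ hN hn le_rfl hcard
  simp only [Nat.cast_ofNat] at hsize
  rw [← hB] at hsize
  have herr0 : 0 ≤ err := by rw [herr]; positivity
  refine hdet.trans ?_
  have hcR : (Fintype.card ((l : Fin J) → Fin (f l).natDegree) : ℝ) ≤ (N : ℝ) ^ J := by
    exact_mod_cast hcard
  refine (mul_le_mul (mul_le_mul_of_nonneg_right hcR herr0) hsize (by positivity)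
    (by positivity)).trans ?_
  rw [herr]
  exact g7_num hJ hN hn hX hQ0 hQ

end GLR
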