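import Pool.Agent.Helper49.GL.G7

namespace GLR

open Polynomial

/-- GI-G8. THE GAP LEMMA. Put `u = (∏ λ_l ^ n) Q(η)`. `|∏ λ_l ^ n| ≤ exp (3 n J N) ≤ exp X`
(`abs_ev_le_exp`), so `|u| ≤ exp (X - 7 W) ≤ 1`. Apply `low_coeff` to the coefficients
`c_i = ev θ (charpoly.coeff i)`, `d = natDegree = card of the index set ≤ N^J` (monic, so
`c_d = 1`), `C = exp (3 X)` (`cx_charpoly`, `abs_ev_le_exp`), `κ = exp (-W)` (`Meas`; a coefficient
with `c_i ≠ 0` is a nonzero polynomial): `d C |u| ≤ N^J exp (4 X - 7 W) ≤ exp (-W) / 2`. With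
`charpoly_small`: `|u|^e ≤ 2 exp (3 X + W - W') ≤ exp (-(W' - 5 W))`. As `W' > 5 W`, `e ≥ 1`, and
`|u| ≤ exp (-(W' - 5 W) / e) ≤ exp (-(W' - 5 W) / N^J) ≤ exp (-(G1 + n J W))`; finally
`|Q(η)| = |u| / |∏ λ_l ^ n| ≤ exp (n J W) |u|`. Facts: `N ≤ X`, `lead_ok`. -/
theorem gap {m n J N X : ℕ} {θ : Fin m → ℝ} (hθ : ∀ i, |θ i| ≤ 4)
    (f : Fin J → Polynomial (MvPolynomial (Fin m) ℤ)) (Q : (Fin J → Fin (n + 1)) → ℤ)
    (η : Fin J → ℝ) (W W' G1 : ℝ) (hJ : 1 ≤ J) (hN : 20 * J + 20 ≤ N) (hn : N ≤ n)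
    (hX : X = n * N ^ (J + 2)) (hXW : (X : ℝ) ≤ W) (hM : Meas θ X W)
    (hη : ∀ l, |η l| ≤ 4) (hf : ∀ l, f l ≠ 0) (hdeg : ∀ l, (f l).natDegree ≤ N)
    (hcx : ∀ l i, Cx ((f l).coeff i) N N) (hQ : Ql Q ≤ Real.exp (4 * n * N))
    (hsm : ∀ l, |(f l).eval₂ (ev θ) (η l)| ≤ Real.exp (-W')) (hG1 : 0 ≤ G1)
    (hW' : (N : ℝ) ^ J * (G1 + n * J * W) + 5 * W + 1 ≤ W')
    (hsmall : |Qv Q η| ≤ Real.exp (-(7 * W))) :
    |Qv Q η| ≤ Real.exp (-G1) := by
  classical
  have hNpos : 0 < N := by omega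
  have hn0 : 0 < n := by omega
  have hX0 : (0 : ℝ) ≤ X := Nat.cast_nonneg _
  have hW0 : 0 ≤ W := hX0.trans hXW
  -- sizes
  have hNJX : N ^ J ≤ X := by
    rw [hX]
    calc N ^ J ≤ N ^ (J + 2) := Nat.pow_le_pow_right hNpos (by omega)
      _ = 1 * N ^ (J + 2) := (one_mul _).symm
      _ ≤ n * N ^ (J + 2) := Nat.mul_le_mul_right _ hn0
  have hNX : N ≤ X := by
    refine le_trans ?_ hNJX
    calc N = N ^ 1 := (pow_one N).symm
      _ ≤ N ^ J := Nat.pow_le_pow_right hNpos hJ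
  have h3 : 3 * n * J * N ≤ X := by
    rw [hX]
    have e1 : N * N ≤ N ^ (J + 2) := by
      calc N * N = N ^ 2 := (sq N).symm
        _ ≤ N ^ (J + 2) := Nat.pow_le_pow_right hNpos (by omega)
    calc 3 * n * J * N = n * (3 * J * N) := by ring
      _ ≤ n * (N * N) := Nat.mul_le_mul_left _ (Nat.mul_le_mul_right _ (by omega))
      _ ≤ n * N ^ (J + 2) := Nat.mul_le_mul_left _ e1
  have hNJ0 : (0 : ℝ) ≤ (N : ℝ) ^ J := by positivity
  have hB0 : 0 ≤ G1 + n * J * W := by positivity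
  have hWW' : W < W' := by
    have := mul_nonneg hNJ0 hB0
    linarith
  have hW'0 : 0 ≤ W' := by linarith
  -- leading coefficients
  set lam : Fin J → ℝ := fun l => ev θ (f l).leadingCoeff with hlam
  have hlead : ∀ l, 1 ≤ (f l).natDegree ∧ Real.exp (-W) ≤ |lam l| := fun l =>
    lead_ok hM hNX (f l) (hf l) (hcx l) (η l) (hsm l) hWW'
  have hlamle : ∀ l, |lam l| ≤ Real.exp (3 * N) := fun l =>
    abs_ev_le_exp hθ _ N (hcx l _)
  set A : ℝ := ∏ l, lam l ^ n with hA
  have hAabs : |A| = ∏ l, |lam l| ^ n := by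
    rw [hA, Finset.abs_prod]
    exact Finset.prod_congr rfl fun l _ => abs_pow _ _
  have hAle : |A| ≤ Real.exp X := by
    rw [hAabs]
    calc ∏ l, |lam l| ^ n ≤ ∏ _l : Fin J, Real.exp (3 * N) ^ n :=
          Finset.prod_le_prod (fun l _ => by positivity) fun l _ =>
            pow_le_pow_left₀ (abs_nonneg _) (hlamle l) n
      _ = Real.exp (3 * n * J * N) := by
          rw [Finset.prod_const, Finset.card_univ, Fintype.card_fin, ← Real.exp_nat_mul,
            ← Real.exp_nat_mul]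
          congr 1
          ring
      _ ≤ Real.exp X := by
          refine Real.exp_le_exp.2 ?_
          exact_mod_cast h3
  have hAge : Real.exp (-(n * J * W)) ≤ |A| := by
    rw [hAabs]
    calc Real.exp (-(n * J * W)) = ∏ _l : Fin J, Real.exp (-W) ^ n := by
          rw [Finset.prod_const, Finset.card_univ, Fintype.card_fin, ← Real.exp_nat_mul,
            ← Real.exp_nat_mul]
          congr 1
          ring
      _ ≤ ∏ l, |lam l| ^ n :=
          Finset.prod_le_prod (fun l _ => by positivity) fun l _ =>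
            pow_le_pow_left₀ (Real.exp_pos _).le (hlead l).2 n
  set u : ℝ := A * Qv Q η with hu
  have hu7 : |u| ≤ Real.exp (X - 7 * W) := by
    rw [hu, abs_mul, sub_eq_add_neg, Real.exp_add]
    exact mul_le_mul hAle hsmall (abs_nonneg _) (Real.exp_pos _).le
  have hu1 : |u| ≤ 1 := by
    refine hu7.trans ?_
    rw [← Real.exp_zero]
    exact Real.exp_le_exp.2 (by linarith)
  -- the characteristic polynomial
  set χ := (qmat f Q).charpoly with hχ
  have hmonic : χ.Monic := Matrix.charpoly_monic _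
  have hnat : χ.natDegree = Fintype.card ((l : Fin J) → Fin (f l).natDegree) := by
    exact Matrix.charpoly_natDegree_eq_dim _
  set D := χ.natDegree with hD
  have hDle : D ≤ N ^ J := by
    rw [hnat]
    exact card_idx_le f hdeg
  have hsmallχ := charpoly_small hθ f Q η W' hJ hN hn hX hη hdeg (fun l => (hlead l).1) hcx hQ
    hW'0 hsm hu1
  have heval : (χ.map (ev θ)).eval u = ∑ i ∈ Finset.range (D + 1), ev θ (χ.coeff i) * u ^ i := by
    rw [Polynomial.eval_map, Polynomial.eval₂_eq_sum_range]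
  have hs : (D : ℝ) * Real.exp (3 * X) * |u| ≤ Real.exp (-W) / 2 := by
    have e1 : (D : ℝ) ≤ X := by exact_mod_cast hDle.trans hNJX
    have e2 : 2 * (X : ℝ) ≤ Real.exp (2 * X) := by
      have := Real.add_one_le_exp (2 * (X : ℝ))
      linarith
    have e3 : (D : ℝ) * Real.exp (3 * X) * |u| ≤ X * Real.exp (3 * X) * Real.exp (X - 7 * W) := by
      refine mul_le_mul ?_ hu7 (abs_nonneg _) (by positivity)
      exact mul_le_mul_of_nonneg_right e1 (Real.exp_pos _).le
    have e4 : 2 * (X * Real.exp (3 * X) * Real.exp (X - 7 * W)) ≤ Real.exp (-W) := by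
      calc 2 * (X * Real.exp (3 * X) * Real.exp (X - 7 * W))
          = (2 * X) * (Real.exp (3 * X) * Real.exp (X - 7 * W)) := by ring
        _ ≤ Real.exp (2 * X) * (Real.exp (3 * X) * Real.exp (X - 7 * W)) :=
            mul_le_mul_of_nonneg_right e2 (by positivity)
        _ = Real.exp (2 * X + (3 * X + (X - 7 * W))) := by rw [Real.exp_add, Real.exp_add]
        _ ≤ Real.exp (-W) := Real.exp_le_exp.2 (by linarith)
    linarith
  obtain ⟨e, heD, he⟩ := low_coeff D (fun i => ev θ (χ.coeff i)) (Real.exp (3 * X))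
    (Real.exp (-W)) u hu1
    (fun i _ => abs_ev_le_exp hθ _ X (cx_charpoly f Q hJ hN hn hX hdeg hcx hQ i))
    (Real.exp_pos _)
    (fun i _ hi => hM _ (fun h0 => hi (by
      show ev θ (χ.coeff i) = 0
      rw [h0, map_zero])) (cx_charpoly f Q hJ hN hn hX hdeg hcx hQ i))
    (by
      show ev θ (χ.coeff D) ≠ 0
      have h1 : χ.coeff D = 1 := hmonic
      rw [h1, map_one]
      exact one_ne_zero)
    hs
  rw [← heval] at he
  have hue : |u| ^ e ≤ Real.exp (-((N : ℝ) ^ J * (G1 + n * J * W))) := by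
    have h1 : |u| ^ e * (Real.exp (-W) / 2) ≤ Real.exp (3 * X - W') := he.trans hsmallχ
    have h2 : |u| ^ e ≤ 2 * Real.exp (3 * X - W') * Real.exp W := by
      have h4 : |u| ^ e = (|u| ^ e * (Real.exp (-W) / 2)) * (2 * Real.exp W) := by
        have h5 : Real.exp (-W) * Real.exp W = 1 := by
          rw [← Real.exp_add, neg_add_cancel, Real.exp_zero]
        calc |u| ^ e = |u| ^ e * (Real.exp (-W) * Real.exp W) := by rw [h5, mul_one]
          _ = (|u| ^ e * (Real.exp (-W) / 2)) * (2 * Real.exp W) := by ring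
      rw [h4]
      calc (|u| ^ e * (Real.exp (-W) / 2)) * (2 * Real.exp W)
          ≤ Real.exp (3 * X - W') * (2 * Real.exp W) :=
            mul_le_mul_of_nonneg_right h1 (by positivity)
        _ = 2 * Real.exp (3 * X - W') * Real.exp W := by ring
    have h6 : (2 : ℝ) ≤ Real.exp 1 := by
      have := Real.add_one_le_exp (1 : ℝ)
      linarith
    calc |u| ^ e ≤ 2 * Real.exp (3 * X - W') * Real.exp W := h2
      _ ≤ Real.exp 1 * Real.exp (3 * X - W') * Real.exp W := by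
          refine mul_le_mul_of_nonneg_right ?_ (Real.exp_pos _).le
          exact mul_le_mul_of_nonneg_right h6 (Real.exp_pos _).le
      _ = Real.exp (1 + (3 * X - W') + W) := by rw [Real.exp_add, Real.exp_add]
      _ ≤ _ := Real.exp_le_exp.2 (by linarith)
  have huB : |u| ≤ Real.exp (-(G1 + n * J * W)) := by
    have hpos : N ^ J ≠ 0 := (pow_pos hNpos J).ne'
    have h1 : |u| ^ (N ^ J) ≤ Real.exp (-(G1 + n * J * W)) ^ (N ^ J) := by
      calc |u| ^ (N ^ J) ≤ |u| ^ e := pow_le_pow_of_le_one (abs_nonneg _) hu1 (heD.trans hDle)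
        _ ≤ Real.exp (-((N : ℝ) ^ J * (G1 + n * J * W))) := hue
        _ = Real.exp (-(G1 + n * J * W)) ^ (N ^ J) := by
            rw [← Real.exp_nat_mul]
            congr 1
            push_cast
            ring
    exact (pow_le_pow_iff_left₀ (abs_nonneg _) (Real.exp_pos _).le hpos).1 h1
  -- conclusion
  have hfin : |Qv Q η| * Real.exp (-(n * J * W)) ≤ Real.exp (-(G1 + n * J * W)) := by
    calc |Qv Q η| * Real.exp (-(n * J * W)) ≤ |Qv Q η| * |A| :=
          mul_le_mul_of_nonneg_left hAge (abs_nonneg _)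
      _ = |u| := by rw [hu, abs_mul, mul_comm]
      _ ≤ _ := huB
  have h7 : Real.exp (-(G1 + n * J * W)) = Real.exp (-G1) * Real.exp (-(n * J * W)) := by
    rw [← Real.exp_add]
    congr 1
    ring
  rw [h7] at hfin
  exact le_of_mul_le_mul_right hfin (Real.exp_pos _)

end GLR
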