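import Pool.Agent.Helper49.GL.B1
import Pool.Agent.Helper49.GL.F2

namespace GLR

private lemma P1_exp_eight : Real.exp 8 ≤ 2 ^ 12 := by
  have h : Real.exp 1 < 2.7182818286 := Real.exp_one_lt_d9
  have h8 : Real.exp 8 = Real.exp 1 ^ 8 := by
    rw [← Real.exp_nat_mul]
    norm_num
  rw [h8]
  calc Real.exp 1 ^ 8 ≤ (2.7182818286 : ℝ) ^ 8 := pow_le_pow_left₀ (Real.exp_pos 1).le h.le 8
    _ ≤ 2 ^ 12 := by norm_num

private lemma P1_card (n J : ℕ) : Fintype.card (Ix n J) = Nc n J := by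
  rw [Fintype.card_prod, Fintype.card_fun, Fintype.card_fin, Fintype.card_fin,
    Nc, pow_succ, mul_comm]

private lemma P1_Nc_le (n J : ℕ) : Nc n J ≤ 2 ^ (n * (J + 1)) := by
  rw [Nc, pow_mul]
  exact Nat.pow_le_pow_left (Nat.lt_two_pow_self (n := n)) _

/-- GI-P1. THE AUXILIARY FUNCTION. For `T = 16 W` points `a/q`, `a ∈ A₁`, with all
`a/q + c_l ∈ [0, 1]`, there is a nonzero integer array with coefficients `≤ 2^n` and values
`≤ exp (-8 W)`. Apply `box` with `I = Ix n J` (cardinality `Nc n J`), `H = 2^n - 1`,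
`ℓ = 2^(16 W)`, `V = 2^(n J)` (`abs_mon_le`): the bound is
`2 Nc 2^(n J) 2^n / 2^(16 W) ≤ 2^(1 + 2 n (J+1)) / 2^(16 W) ≤ 2^(-12 W) ≤ exp (-8 W)`
(`Nc ≤ 2^(n (J+1))`, `exp 8 ≤ 2^12`). -/
theorem aux_fun {n J q W : ℕ} (c : Fin J → ℝ) (A₁ : Finset ℕ) (hA₁ : A₁.card = 16 * W)
    (hq : 1 ≤ q) (hA : ∀ a ∈ A₁, a < q ∧ ∀ l, 0 ≤ (a : ℝ) / q + c l ∧ (a : ℝ) / q + c l ≤ 1)
    (hbox : (2 ^ (16 * W)) ^ (16 * W) < (2 ^ n) ^ (Nc n J)) (hW : 1 + 2 * n * (J + 1) ≤ 4 * W) :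
    ∃ p : Ix n J → ℤ, p ≠ 0 ∧ (∀ x, |p x| ≤ ((2 ^ n : ℕ) : ℤ)) ∧
      ∀ a ∈ A₁, |∑ x, (p x : ℝ) * mon c ((a : ℝ) / q) x| ≤ Real.exp (-(8 * W)) := by
  classical
  have hq0 : (0 : ℝ) < q := by exact_mod_cast hq
  let e : Fin (16 * W) ≃ A₁ := (A₁.equivFinOfCardEq hA₁).symm
  let v : Fin (16 * W) → Ix n J → ℝ := fun t x => mon c ((((e t : ℕ)) : ℝ) / q) x
  have hV : ∀ t i, |v t i| ≤ (2 : ℝ) ^ (n * J) := by
    intro t i
    obtain ⟨h1, h2⟩ := hA (e t) (e t).2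
    have ha : (((e t : ℕ)) : ℝ) ≤ q := by exact_mod_cast h1.le
    refine abs_mon_le c _ (by positivity) ?_ (fun l => (h2 l).1) (fun l => (h2 l).2) i
    rw [div_le_one hq0]
    exact ha
  have h2n : 1 ≤ 2 ^ n := Nat.one_le_two_pow
  have hH : 2 ^ n - 1 + 1 = 2 ^ n := Nat.sub_add_cancel h2n
  obtain ⟨p, hp0, hpH, hpv⟩ := box v ((2 : ℝ) ^ (n * J)) hV (2 ^ n - 1) (2 ^ (16 * W))
    Nat.one_le_two_pow (by rw [hH, P1_card]; exact hbox)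
  refine ⟨p, hp0, ?_, ?_⟩
  · intro x
    refine (hpH x).trans ?_
    exact_mod_cast Nat.sub_le _ _
  · intro a ha
    have h1 := hpv (e.symm ⟨a, ha⟩)
    have h2 : v (e.symm ⟨a, ha⟩) = fun x => mon c ((a : ℝ) / q) x := by
      funext x
      simp only [v, Equiv.apply_symm_apply]
    rw [h2] at h1
    refine h1.trans ?_
    rw [P1_card]
    have hNc : (Nc n J : ℝ) ≤ 2 ^ (n * (J + 1)) := by exact_mod_cast P1_Nc_le n J
    have hHr : (((2 ^ n - 1 : ℕ)) : ℝ) ≤ 2 ^ n := by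
      have : 2 ^ n - 1 ≤ 2 ^ n := Nat.sub_le _ _
      exact_mod_cast this
    have hnum : 2 * (Nc n J : ℝ) * 2 ^ (n * J) * (((2 ^ n - 1 : ℕ)) : ℝ) ≤ 2 ^ (4 * W) := by
      calc 2 * (Nc n J : ℝ) * 2 ^ (n * J) * (((2 ^ n - 1 : ℕ)) : ℝ)
          ≤ 2 * 2 ^ (n * (J + 1)) * 2 ^ (n * J) * 2 ^ n := by
            gcongr
        _ = 2 ^ (1 + 2 * n * (J + 1)) := by
            rw [← pow_succ', ← pow_add, ← pow_add]
            congr 1
            ring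
        _ ≤ 2 ^ (4 * W) := pow_le_pow_right₀ (by norm_num) hW
    have hl : (((2 ^ (16 * W) : ℕ)) : ℝ) = 2 ^ (4 * W) * 2 ^ (12 * W) := by
      push_cast
      rw [← pow_add]
      congr 1
      ring
    have hE : Real.exp (8 * W) ≤ 2 ^ (12 * W) := by
      have h3 : Real.exp (8 * W) = Real.exp 8 ^ W := by
        rw [← Real.exp_nat_mul]
        congr 1
        ring
      rw [h3, pow_mul]
      exact pow_le_pow_left₀ (Real.exp_pos 8).le P1_exp_eight W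
    rw [hl]
    calc 2 * (Nc n J : ℝ) * 2 ^ (n * J) * (((2 ^ n - 1 : ℕ)) : ℝ) / (2 ^ (4 * W) * 2 ^ (12 * W))
        ≤ 2 ^ (4 * W) / (2 ^ (4 * W) * 2 ^ (12 * W)) := by
          gcongr
      _ = (2 ^ (12 * W))⁻¹ := by
          field_simp
      _ ≤ (Real.exp (8 * W))⁻¹ := by
          gcongr
      _ = Real.exp (-(8 * W)) := by
          rw [Real.exp_neg]

end GLR
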