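import Pool.Agent.Helper49.GL.A3

namespace GLR

open MvPolynomial

private lemma ev_sum' {m : ℕ} (θ : Fin m → ℝ) (P : MvPolynomial (Fin m) ℤ) :
    ev θ P = ∑ s ∈ P.support, ((P.coeff s : ℤ) : ℝ) * ∏ i, θ i ^ s i := by
  unfold ev
  rw [coe_eval₂Hom, eval₂_eq']
  simp

private lemma ev_monomial' {m : ℕ} (θ : Fin m → ℝ) (u : Fin m →₀ ℕ) (c : ℤ) :
    ev θ (monomial u c) = (c : ℝ) * ∏ i, θ i ^ u i := by
  unfold ev
  rw [coe_eval₂Hom, eval₂_monomial, Finsupp.prod_fintype _ _ (fun i => pow_zero _)]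
  simp

/-- GI-P9. Inversion of some variables. `P' = ∑_s c_s ∏_{i ∈ S} q^(s i) a_i^(N - s i) Y_i^(N - s i)
∏_{i ∉ S} Y_i^(s i)`. The new exponents `s'` (`s' i = N - s i` for `i ∈ S`) determine `s`, since
`s i ≤ N` on the support, so `P' ≠ 0` and the length of `P'` is at most
`∑ |c_s| q^(M N) ≤ (N+1)^M Z q^(M N)`. -/
theorem invert {M q N : ℕ} (S : Finset (Fin M)) (a : Fin M → ℕ) (hq : 1 ≤ q)
    (ha : ∀ i ∈ S, 1 ≤ a i ∧ a i ≤ q) (θ : Fin M → ℝ) (hθ : ∀ i ∈ S, θ i ≠ 0)
    (P : MvPolynomial (Fin M) ℤ) (hP : P ≠ 0) (hdeg : P.totalDegree ≤ N) (Z : ℝ)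
    (hc : ∀ s, |((P.coeff s : ℤ) : ℝ)| ≤ Z) :
    ∃ P' : MvPolynomial (Fin M) ℤ, P' ≠ 0 ∧ P'.totalDegree ≤ M * N ∧
      wl 1 P' ≤ ((N + 1 : ℕ) : ℝ) ^ M * Z * (q : ℝ) ^ (M * N) ∧
      ev θ P' = (∏ i ∈ S, ((a i : ℝ) * θ i) ^ N) *
        ev (fun i => if i ∈ S then (q : ℝ) / ((a i : ℝ) * θ i) else θ i) P := by
  classical
  have hsN : ∀ s ∈ P.support, ∀ i, s i ≤ N := by
    intro s hs i
    have h1 := MvPolynomial.le_totalDegree hs
    rw [Finsupp.sum_fintype _ _ (fun _ => rfl)] at h1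
    have h2 : s i ≤ ∑ j, s j := Finset.single_le_sum (fun _ _ => Nat.zero_le _) (Finset.mem_univ i)
    omega
  set φ : (Fin M →₀ ℕ) → (Fin M →₀ ℕ) := fun s =>
    Finsupp.equivFunOnFinite.symm (fun i => if i ∈ S then N - s i else s i) with hφ
  have hφi : ∀ s i, φ s i = if i ∈ S then N - s i else s i := fun s i => rfl
  set w : (Fin M →₀ ℕ) → ℕ := fun s =>
    ∏ i, (if i ∈ S then q ^ (s i) * a i ^ (N - s i) else 1) with hw
  set P' : MvPolynomial (Fin M) ℤ :=
    ∑ s ∈ P.support, monomial (φ s) (P.coeff s * (w s : ℤ)) with hP'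
  have hinj : ∀ s ∈ P.support, ∀ s' ∈ P.support, φ s = φ s' → s = s' := by
    intro s hs s' hs' h
    ext i
    have h1 := DFunLike.congr_fun h i
    rw [hφi, hφi] at h1
    have h2 := hsN s hs i
    have h3 := hsN s' hs' i
    split_ifs at h1 <;> omega
  have hco : ∀ s ∈ P.support, P'.coeff (φ s) = P.coeff s * (w s : ℤ) := by
    intro s hs
    rw [hP', coeff_sum, Finset.sum_eq_single s]
    · rw [coeff_monomial, if_pos rfl]
    · intro s' hs' hne
      rw [coeff_monomial, if_neg]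
      exact fun h => hne (hinj s' hs' s hs h)
    · intro h
      exact absurd hs h
  have hsupp : P'.support ⊆ P.support.image φ := by
    intro u hu
    rw [mem_support_iff] at hu
    by_contra hne
    apply hu
    rw [hP', coeff_sum]
    refine Finset.sum_eq_zero fun s hs => ?_
    rw [coeff_monomial, if_neg]
    intro h
    exact hne (Finset.mem_image.mpr ⟨s, hs, h⟩)
  have hwpos : ∀ s, 0 < w s := by
    intro s
    refine Finset.prod_pos fun i _ => ?_
    split_ifs with h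
    · exact Nat.mul_pos (Nat.pow_pos hq) (Nat.pow_pos (ha i h).1)
    · exact one_pos
  have hwle : ∀ s ∈ P.support, w s ≤ q ^ (M * N) := by
    intro s hs
    have h1 : w s ≤ ∏ _i : Fin M, q ^ N := by
      refine Finset.prod_le_prod' fun i _ => ?_
      split_ifs with h
      · calc q ^ (s i) * a i ^ (N - s i) ≤ q ^ (s i) * q ^ (N - s i) :=
              Nat.mul_le_mul_left _ (Nat.pow_le_pow_left (ha i h).2 _)
          _ = q ^ N := by
              rw [← pow_add, Nat.add_sub_cancel' (hsN s hs i)]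
      · exact Nat.one_le_pow _ _ hq
    refine h1.trans (le_of_eq ?_)
    rw [Finset.prod_const, Finset.card_univ, Fintype.card_fin, ← pow_mul, mul_comm]
  have hcard : P.support.card ≤ (N + 1) ^ M := by
    have h1 : P.support.card ≤ (Fintype.piFinset fun _ : Fin M => Finset.range (N + 1)).card := by
      refine Finset.card_le_card_of_injOn (fun s => (s : Fin M → ℕ)) ?_ ?_
      · intro s hs
        rw [Finset.mem_coe, Fintype.mem_piFinset]
        intro i
        exact Finset.mem_range.mpr (Nat.lt_succ_of_le (hsN s hs i))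
      · intro s _ s' _ h
        exact DFunLike.coe_injective h
    refine h1.trans (le_of_eq ?_)
    rw [Fintype.card_piFinset, Finset.prod_const, Finset.card_range, Finset.card_univ,
      Fintype.card_fin]
  have hZ : 0 ≤ Z := (abs_nonneg _).trans (hc 0)
  refine ⟨P', ?_, ?_, ?_, ?_⟩
  · obtain ⟨s, hs⟩ := support_nonempty.mpr hP
    intro h0
    have h1 := hco s hs
    rw [h0, coeff_zero] at h1
    have h2 : P.coeff s ≠ 0 := mem_support_iff.mp hs
    have h3 : ((w s : ℕ) : ℤ) ≠ 0 := by exact_mod_cast (hwpos s).ne'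
    exact mul_ne_zero h2 h3 h1.symm
  · rw [totalDegree]
    refine Finset.sup_le fun u hu => ?_
    obtain ⟨s, hs, rfl⟩ := Finset.mem_image.mp (hsupp hu)
    rw [Finsupp.sum_fintype _ _ (fun _ => rfl)]
    calc ∑ i, φ s i ≤ ∑ _i : Fin M, N := by
          refine Finset.sum_le_sum fun i _ => ?_
          rw [hφi]
          have := hsN s hs i
          split_ifs <;> omega
      _ = M * N := by simp
  · have h1 : wl 1 P' ≤ ∑ s ∈ P.support, |((P.coeff s * (w s : ℤ) : ℤ) : ℝ)| := by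
      unfold wl
      simp only [one_pow, mul_one]
      calc ∑ u ∈ P'.support, |((P'.coeff u : ℤ) : ℝ)|
          ≤ ∑ u ∈ P.support.image φ, |((P'.coeff u : ℤ) : ℝ)| :=
            Finset.sum_le_sum_of_subset_of_nonneg hsupp fun _ _ _ => abs_nonneg _
        _ = ∑ s ∈ P.support, |((P'.coeff (φ s) : ℤ) : ℝ)| :=
            Finset.sum_image fun s hs s' hs' h => hinj s hs s' hs' h
        _ = ∑ s ∈ P.support, |((P.coeff s * (w s : ℤ) : ℤ) : ℝ)| :=
            Finset.sum_congr rfl fun s hs => by rw [hco s hs]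
    refine h1.trans ?_
    calc ∑ s ∈ P.support, |((P.coeff s * (w s : ℤ) : ℤ) : ℝ)|
        ≤ ∑ _s ∈ P.support, Z * (q : ℝ) ^ (M * N) := by
          refine Finset.sum_le_sum fun s hs => ?_
          rw [Int.cast_mul, abs_mul]
          refine mul_le_mul (hc s) ?_ (abs_nonneg _) hZ
          rw [Int.cast_natCast, Nat.abs_cast]
          exact_mod_cast hwle s hs
      _ = (P.support.card : ℝ) * (Z * (q : ℝ) ^ (M * N)) := by
          rw [Finset.sum_const, nsmul_eq_mul]
      _ ≤ ((N + 1 : ℕ) : ℝ) ^ M * (Z * (q : ℝ) ^ (M * N)) := by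
          refine mul_le_mul_of_nonneg_right ?_ (by positivity)
          exact_mod_cast hcard
      _ = ((N + 1 : ℕ) : ℝ) ^ M * Z * (q : ℝ) ^ (M * N) := by ring
  · rw [hP', map_sum, ev_sum', Finset.mul_sum]
    refine Finset.sum_congr rfl fun s hs => ?_
    rw [ev_monomial']
    have h1 : (((P.coeff s * (w s : ℤ) : ℤ)) : ℝ) = ((P.coeff s : ℤ) : ℝ) *
        ∏ i, (if i ∈ S then (q : ℝ) ^ (s i) * (a i : ℝ) ^ (N - s i) else 1) := by
      rw [Int.cast_mul, Int.cast_natCast]
      congr 1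
      rw [hw]
      push_cast
      rfl
    have h2 : ∏ i ∈ S, ((a i : ℝ) * θ i) ^ N =
        ∏ i, (if i ∈ S then ((a i : ℝ) * θ i) ^ N else 1) := by
      rw [Finset.prod_ite_mem, Finset.univ_inter]
    rw [h1, h2, mul_assoc, mul_left_comm (∏ i, (if i ∈ S then ((a i : ℝ) * θ i) ^ N else 1)),
      ← Finset.prod_mul_distrib, ← Finset.prod_mul_distrib]
    congr 1
    refine Finset.prod_congr rfl fun i _ => ?_
    rw [hφi]
    by_cases h : i ∈ S
    · simp only [if_pos h]
      have h3 : (a i : ℝ) * θ i ≠ 0 := by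
        refine mul_ne_zero ?_ (hθ i h)
        have := (ha i h).1
        exact_mod_cast (by omega : a i ≠ 0)
      have h4 : ((a i : ℝ) * θ i) ^ N = ((a i : ℝ) * θ i) ^ (N - s i) * ((a i : ℝ) * θ i) ^ s i := by
        rw [← pow_add, Nat.sub_add_cancel (hsN s hs i)]
      have h5 : ((a i : ℝ) * θ i) ^ s i ≠ 0 := pow_ne_zero _ h3
      rw [h4, div_pow]
      field_simp
      try ring
    · simp only [if_neg h, one_mul]

end GLR
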