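import Pool.Agent.Helper49.GL.P10

namespace GLR

open MvPolynomial

open Classical in
/-- GI-P11. THE THEOREM for a fixed vector `ϑ` with polynomial measure. Take `κ, N0` from `stat_all`;
`N' = N0 + ⌈(m + k + 1) (N + 1) (log q + 3)⌉`, so `q ≤ exp N'` and
`N' ≤ C' (N + log q)^2`. If `a ∉ badSet` then `good_imp` gives
`|P| ≥ exp (-(N'^κ + N')) ≥ exp (-C (N + log q)^(2κ+2))`; the number of bad tuples is
`≤ N'^κ q^(k - 1/κ)`. -/
theorem final_gen {m : ℕ} (ϑ : Fin m → ℝ) (hϑ : ∀ i, |ϑ i| ≤ 4) (h : PolyMeas ϑ) (k : ℕ) :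
    ∃ C κ σ : ℝ, 0 < C ∧ 0 < κ ∧ 0 < σ ∧ ∀ q N : ℕ, 2 ≤ q → 1 ≤ N →
      (((Fintype.piFinset fun _ : Fin k => Finset.Ico 1 q).filter (fun a =>
        ∃ P : MvPolynomial (Fin (m + k)) ℤ, P ≠ 0 ∧ P.totalDegree ≤ N ∧
          (∀ s, |((P.coeff s : ℤ) : ℝ)| ≤ Real.exp N) ∧
          |ev (gvec q ϑ k a) P| < Real.exp (-(C * (N + Real.log q) ^ κ)))).card : ℝ)
      ≤ C * (N + Real.log q) ^ κ * (q : ℝ) ^ ((k : ℝ) - σ) := by
  obtain ⟨κ, N0, hκ, hst⟩ := stat_all hϑ h k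
  set D : ℝ := (N0 : ℝ) + 1 + 6 * ((m + k + 1 : ℕ) : ℝ) with hD
  have hDpos : 1 ≤ D := by
    have h1 : (0 : ℝ) ≤ N0 := Nat.cast_nonneg _
    have h2 : (0 : ℝ) ≤ ((m + k + 1 : ℕ) : ℝ) := Nat.cast_nonneg _
    rw [hD]; linarith
  refine ⟨2 * D ^ κ, ((2 * κ : ℕ) : ℝ), 1 / (κ : ℝ), by positivity, ?_, by positivity, ?_⟩
  · have : 0 < 2 * κ := by omega
    exact_mod_cast this
  intro q N hq hN
  have hq1 : (1 : ℝ) ≤ q := by exact_mod_cast (by omega : 1 ≤ q)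
  have hL : 0 ≤ Real.log q := Real.log_nonneg hq1
  have hN1 : (1 : ℝ) ≤ N := by exact_mod_cast hN
  set L := Real.log q with hLdef
  set X : ℝ := (N : ℝ) + L with hX
  have hX1 : 1 ≤ X := by rw [hX]; linarith
  set y : ℝ := ((m + k + 1 : ℕ) : ℝ) * (N + 1) * (L + 3) with hy
  have hM1 : (1 : ℝ) ≤ ((m + k + 1 : ℕ) : ℝ) := by
    exact_mod_cast (by omega : 1 ≤ m + k + 1)
  have hy0 : 0 ≤ y := by rw [hy]; positivity
  have hyL : L + 3 ≤ y := by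
    rw [hy]
    have h1 : (1 : ℝ) ≤ ((m + k + 1 : ℕ) : ℝ) * (N + 1) := by nlinarith
    nlinarith
  set N' : ℕ := N0 + ⌈y⌉₊ with hN'
  have hyN' : y ≤ N' := by
    have h1 := Nat.le_ceil y
    rw [hN']; push_cast
    have h2 : (0 : ℝ) ≤ N0 := Nat.cast_nonneg _
    linarith
  have hqN' : (q : ℝ) ≤ Real.exp N' := by
    have h1 : Real.log q ≤ N' := by rw [← hLdef]; linarith
    have h2 : (0 : ℝ) < q := by linarith
    calc (q : ℝ) = Real.exp (Real.log q) := (Real.exp_log h2).symm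
      _ ≤ Real.exp N' := Real.exp_le_exp.mpr h1
  have hN'1 : (1 : ℝ) ≤ N' := by linarith
  have hN'D : (N' : ℝ) ≤ D * X ^ 2 := by
    have h1 : (⌈y⌉₊ : ℝ) < y + 1 := Nat.ceil_lt_add_one hy0
    have h2 : (N' : ℝ) ≤ N0 + 1 + y := by
      rw [hN']; push_cast; linarith
    have h3 : y ≤ 6 * ((m + k + 1 : ℕ) : ℝ) * X ^ 2 := by
      have h4 : (N : ℝ) + 1 ≤ 2 * X := by rw [hX]; linarith
      have h5 : L + 3 ≤ 3 * X := by rw [hX]; linarith
      have h6 : ((N : ℝ) + 1) * (L + 3) ≤ (2 * X) * (3 * X) :=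
        mul_le_mul h4 h5 (by linarith) (by linarith)
      rw [hy]
      calc ((m + k + 1 : ℕ) : ℝ) * (N + 1) * (L + 3)
          = ((m + k + 1 : ℕ) : ℝ) * ((N + 1) * (L + 3)) := by ring
        _ ≤ ((m + k + 1 : ℕ) : ℝ) * ((2 * X) * (3 * X)) :=
            mul_le_mul_of_nonneg_left h6 (by linarith)
        _ = 6 * ((m + k + 1 : ℕ) : ℝ) * X ^ 2 := by ring
    have h7 : (N0 : ℝ) + 1 ≤ ((N0 : ℝ) + 1) * X ^ 2 := by
      have h8 : (1 : ℝ) ≤ X ^ 2 := by nlinarith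
      have h9 : (0 : ℝ) ≤ N0 := Nat.cast_nonneg _
      nlinarith
    rw [hD]
    calc (N' : ℝ) ≤ N0 + 1 + y := h2
      _ ≤ ((N0 : ℝ) + 1) * X ^ 2 + 6 * ((m + k + 1 : ℕ) : ℝ) * X ^ 2 := by linarith
      _ = _ := by ring
  have hpow : (N' : ℝ) ^ κ ≤ D ^ κ * X ^ (2 * κ) := by
    calc (N' : ℝ) ^ κ ≤ (D * X ^ 2) ^ κ := pow_le_pow_left₀ (by linarith) hN'D κ
      _ = D ^ κ * X ^ (2 * κ) := by rw [mul_pow, ← pow_mul]
  have hrp : X ^ (((2 * κ : ℕ) : ℝ)) = X ^ (2 * κ) := Real.rpow_natCast X (2 * κ)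
  rw [hrp]
  have hsum : (N' : ℝ) ^ κ + N' ≤ 2 * D ^ κ * X ^ (2 * κ) := by
    have h1 : (N' : ℝ) ≤ (N' : ℝ) ^ κ := le_self_pow₀ hN'1 (by omega)
    calc (N' : ℝ) ^ κ + N' ≤ 2 * (N' : ℝ) ^ κ := by linarith
      _ ≤ 2 * (D ^ κ * X ^ (2 * κ)) := by linarith
      _ = _ := by ring
  have hsub : ((Fintype.piFinset fun _ : Fin k => Finset.Ico 1 q).filter (fun a =>
        ∃ P : MvPolynomial (Fin (m + k)) ℤ, P ≠ 0 ∧ P.totalDegree ≤ N ∧
          (∀ s, |((P.coeff s : ℤ) : ℝ)| ≤ Real.exp N) ∧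
          |ev (gvec q ϑ k a) P| < Real.exp (-(2 * D ^ κ * X ^ (2 * κ))))) ⊆
      badSet ϑ q N' k κ := by
    intro a ha
    rw [Finset.mem_filter] at ha
    obtain ⟨hmem, P, hP, hdeg, hc, hlt⟩ := ha
    rw [badSet, Finset.mem_filter]
    refine ⟨hmem, fun hgood => ?_⟩
    have ha' : ∀ i, 1 ≤ a i ∧ a i < q := fun i => by
      have := (Fintype.mem_piFinset.mp hmem) i
      rwa [Finset.mem_Ico] at this
    have h1 := good_imp hq hN hyN' a ha' hgood P hP hdeg hc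
    have h2 : Real.exp (-(2 * D ^ κ * X ^ (2 * κ))) ≤ Real.exp (-((N' : ℝ) ^ κ + N')) :=
      Real.exp_le_exp.mpr (neg_le_neg hsum)
    linarith
  have hcard : (((Fintype.piFinset fun _ : Fin k => Finset.Ico 1 q).filter (fun a =>
        ∃ P : MvPolynomial (Fin (m + k)) ℤ, P ≠ 0 ∧ P.totalDegree ≤ N ∧
          (∀ s, |((P.coeff s : ℤ) : ℝ)| ≤ Real.exp N) ∧
          |ev (gvec q ϑ k a) P| < Real.exp (-(2 * D ^ κ * X ^ (2 * κ))))).card : ℝ) ≤
      ((badSet ϑ q N' k κ).card : ℝ) := by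
    exact_mod_cast Finset.card_le_card hsub
  have h3 := hst q N' (by omega) hq hqN'
  have hqp : 0 ≤ (q : ℝ) ^ ((k : ℝ) - 1 / (κ : ℝ)) := Real.rpow_nonneg (by linarith) _
  calc _ ≤ ((badSet ϑ q N' k κ).card : ℝ) := hcard
    _ ≤ (N' : ℝ) ^ κ * (q : ℝ) ^ ((k : ℝ) - 1 / (κ : ℝ)) := h3
    _ ≤ (2 * D ^ κ * X ^ (2 * κ)) * (q : ℝ) ^ ((k : ℝ) - 1 / (κ : ℝ)) := by
        refine mul_le_mul_of_nonneg_right ?_ hqp
        have h4 : (0 : ℝ) ≤ N' := by linarith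
        linarith

/-- GI-P11. No fixed numbers: a nonzero polynomial in no variables is a nonzero integer. -/
theorem polyMeas_empty (ϑ : Fin 0 → ℝ) : PolyMeas ϑ := by
  refine ⟨0, 0, fun X _ P hP _ => ?_⟩
  obtain ⟨c, rfl⟩ : ∃ c : ℤ, P = C c := ⟨_, MvPolynomial.eq_C_of_isEmpty P⟩
  have hc : c ≠ 0 := by
    rintro rfl
    exact hP (map_zero _)
  have h1 : ev ϑ (C c : MvPolynomial (Fin 0) ℤ) = (c : ℝ) := by
    simp [ev]
  rw [h1]
  have h2 : (1 : ℝ) ≤ |(c : ℝ)| := by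
    have h3 : 1 ≤ |c| := Int.one_le_abs hc
    exact_mod_cast h3
  refine le_trans ?_ h2
  rw [Real.exp_le_one_iff]
  simp

private theorem gvec_lt {m : ℕ} (q : ℕ) (ϑ : Fin m → ℝ) : ∀ (k : ℕ) (a : Fin k → ℕ)
    (j : ℕ) (hj : j < k) (hj' : j < m + k),
    gvec q ϑ k a ⟨j, hj'⟩ = Real.Gamma ((a ⟨j, hj⟩ : ℝ) / q)
  | 0, _, j, hj, _ => absurd hj (Nat.not_lt_zero j)
  | (k + 1), a, 0, _, _ => rfl
  | (k + 1), a, (j + 1), hj, hj' => by
    have h := gvec_lt q ϑ k (Fin.tail a) j (by omega) (by omega)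
    exact h

private theorem gvec_ge {m : ℕ} (q : ℕ) (ϑ : Fin m → ℝ) : ∀ (k : ℕ) (a : Fin k → ℕ)
    (j : ℕ) (hj : j < m) (hj' : k + j < m + k),
    gvec q ϑ k a ⟨k + j, hj'⟩ = ϑ ⟨j, hj⟩
  | 0, _, j, hj, hj' => by
    have : (⟨0 + j, hj'⟩ : Fin (m + 0)) = (⟨j, hj⟩ : Fin m) := Fin.ext (by simp)
    show ϑ ⟨0 + j, hj'⟩ = ϑ ⟨j, hj⟩
    congr 1
  | (k + 1), a, j, hj, hj' => by
    have h := gvec_ge q ϑ k (Fin.tail a) j hj (by omega)
    have h2 : (⟨k + 1 + j, hj'⟩ : Fin (m + (k + 1))) =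
        Fin.succ (⟨k + j, by omega⟩ : Fin (m + k)) := Fin.ext (by simp; omega)
    rw [h2]
    exact h

private theorem transfer {ι : Type} {M N : ℕ} {f : ι → Fin M} (hf : Function.Injective f)
    {P : MvPolynomial ι ℤ} (hP : P ≠ 0) (hdeg : P.totalDegree ≤ N)
    (hc : ∀ s, |((P.coeff s : ℤ) : ℝ)| ≤ Real.exp N) :
    rename f P ≠ 0 ∧ (rename f P).totalDegree ≤ N ∧
      ∀ s, |(((rename f P).coeff s : ℤ) : ℝ)| ≤ Real.exp N := by
  refine ⟨fun h0 => hP (rename_injective f hf (by rw [h0, map_zero])),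
    (totalDegree_rename_le f P).trans hdeg, fun s => ?_⟩
  by_cases hs : ∃ u, Finsupp.mapDomain f u = s
  · obtain ⟨u, rfl⟩ := hs
    rw [coeff_rename_mapDomain f hf]
    exact hc u
  · push Not at hs
    rw [coeff_rename_eq_zero f P s fun u hu => absurd hu (hs u)]
    simp only [Int.cast_zero, abs_zero]
    exact (Real.exp_pos _).le

open Classical in
/-- GI-P11. The case `m = 0` in terms of `MvPolynomial (Fin k) ℤ`. `gvec q ϑ k a` for `m = 0` is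
`fun i => Γ(a i / q)` up to `Fin.cast (zero_add k)`; use `MvPolynomial.rename`/`renameEquiv`. -/
theorem final_gamma (k : ℕ) :
    ∃ C κ σ : ℝ, 0 < C ∧ 0 < κ ∧ 0 < σ ∧ ∀ q N : ℕ, 2 ≤ q → 1 ≤ N →
      (((Fintype.piFinset fun _ : Fin k => Finset.Ico 1 q).filter (fun a =>
        ∃ P : MvPolynomial (Fin k) ℤ, P ≠ 0 ∧ P.totalDegree ≤ N ∧
          (∀ s, |((P.coeff s : ℤ) : ℝ)| ≤ Real.exp N) ∧
          |aeval (fun i => Real.Gamma ((a i : ℝ) / q)) P|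
            < Real.exp (-(C * (N + Real.log q) ^ κ)))).card : ℝ)
      ≤ C * (N + Real.log q) ^ κ * (q : ℝ) ^ ((k : ℝ) - σ) := by
  obtain ⟨C, κ, σ, hC, hκ, hσ, H⟩ := final_gen (m := 0) (fun i => i.elim0)
    (fun i => i.elim0) (polyMeas_empty _) k
  refine ⟨C, κ, σ, hC, hκ, hσ, fun q N hq hN => le_trans ?_ (H q N hq hN)⟩
  rw [Nat.cast_le]
  refine Finset.card_le_card fun a ha => ?_
  rw [Finset.mem_filter] at ha ⊢
  obtain ⟨hmem, P, hP, hdeg, hc, hlt⟩ := ha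
  set f : Fin k → Fin (0 + k) := fun i => ⟨i, by omega⟩ with hfdef
  have hf : Function.Injective f := fun i j hij => by
    have := congrArg Fin.val hij
    exact Fin.ext this
  obtain ⟨h1, h2, h3⟩ := transfer hf hP hdeg hc
  refine ⟨hmem, rename f P, h1, h2, h3, ?_⟩
  have h4 : ev (gvec q (fun i : Fin 0 => (i.elim0 : ℝ)) k a) (rename f P) =
      aeval (fun i => Real.Gamma ((a i : ℝ) / q)) P := by
    rw [ev, eval₂Hom_rename]
    have h5 : (gvec q (fun i : Fin 0 => (i.elim0 : ℝ)) k a) ∘ f =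
        fun i => Real.Gamma ((a i : ℝ) / q) := by
      funext i
      exact gvec_lt q _ k a i i.2 _
    rw [h5]
    rfl
  rw [h4]
  exact hlt

open Classical in
/-- GI-P11. The case `m = 1`, `ϑ = π`, in terms of `MvPolynomial (Option (Fin k)) ℤ` (the variable
`none` is evaluated at `π`), under the hypothesis that `π` has a polynomial measure. -/
theorem final_pi (hpi : PolyMeas (fun _ : Fin 1 => Real.pi)) (k : ℕ) :
    ∃ C κ σ : ℝ, 0 < C ∧ 0 < κ ∧ 0 < σ ∧ ∀ q N : ℕ, 2 ≤ q → 1 ≤ N →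
      (((Fintype.piFinset fun _ : Fin k => Finset.Ico 1 q).filter (fun a =>
        ∃ P : MvPolynomial (Option (Fin k)) ℤ, P ≠ 0 ∧ P.totalDegree ≤ N ∧
          (∀ s, |((P.coeff s : ℤ) : ℝ)| ≤ Real.exp N) ∧
          |aeval (fun o => Option.elim o Real.pi (fun i => Real.Gamma ((a i : ℝ) / q))) P|
            < Real.exp (-(C * (N + Real.log q) ^ κ)))).card : ℝ)
      ≤ C * (N + Real.log q) ^ κ * (q : ℝ) ^ ((k : ℝ) - σ) := by
  have hb : ∀ i : Fin 1, |(fun _ : Fin 1 => Real.pi) i| ≤ 4 := fun _ => by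
    show |Real.pi| ≤ 4
    rw [abs_of_pos Real.pi_pos]
    exact Real.pi_le_four
  obtain ⟨C, κ, σ, hC, hκ, hσ, H⟩ := final_gen (m := 1) _ hb hpi k
  refine ⟨C, κ, σ, hC, hκ, hσ, fun q N hq hN => le_trans ?_ (H q N hq hN)⟩
  rw [Nat.cast_le]
  refine Finset.card_le_card fun a ha => ?_
  rw [Finset.mem_filter] at ha ⊢
  obtain ⟨hmem, P, hP, hdeg, hc, hlt⟩ := ha
  set f : Option (Fin k) → Fin (1 + k) := fun o => Option.elim o ⟨k + 0, by omega⟩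
    (fun i => ⟨i, by omega⟩) with hfdef
  have hf : Function.Injective f := by
    intro i j hij
    have h0 := congrArg Fin.val hij
    rcases i with _ | i <;> rcases j with _ | j
    · rfl
    · simp only [hfdef, Option.elim] at h0
      have := j.2
      omega
    · simp only [hfdef, Option.elim] at h0
      have := i.2
      omega
    · simp only [hfdef, Option.elim] at h0
      rw [Fin.ext h0]
  obtain ⟨h1, h2, h3⟩ := transfer hf hP hdeg hc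
  refine ⟨hmem, rename f P, h1, h2, h3, ?_⟩
  have h4 : ev (gvec q (fun _ : Fin 1 => Real.pi) k a) (rename f P) =
      aeval (fun o => Option.elim o Real.pi (fun i => Real.Gamma ((a i : ℝ) / q))) P := by
    rw [ev, eval₂Hom_rename]
    have h5 : (gvec q (fun _ : Fin 1 => Real.pi) k a) ∘ f =
        fun o => Option.elim o Real.pi (fun i => Real.Gamma ((a i : ℝ) / q)) := by
      funext o
      rcases o with _ | i
      · exact gvec_ge q (fun _ : Fin 1 => Real.pi) k a 0 (by omega) _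
      · exact gvec_lt q _ k a i i.2 _
    rw [h5]
    rfl
  rw [h4]
  exact hlt

end GLR
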