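import Pool.Agent.Helper49.GL.A9
import Pool.Agent.Helper49.GL.F2
import Pool.Agent.Helper49.GL.G8

namespace GLR

private lemma p2_Nc (n J : ℕ) : (Nc n J : ℝ) ≤ Real.exp (n * ((J : ℝ) + 1)) := by
  have h1 : ((n : ℝ) + 1) ≤ Real.exp n := Real.add_one_le_exp _
  unfold Nc
  push_cast
  calc ((n : ℝ) + 1) ^ (J + 1) ≤ Real.exp n ^ (J + 1) := by gcongr
    _ = Real.exp (n * ((J : ℝ) + 1)) := by
        rw [← Real.exp_nat_mul]
        congr 1
        push_cast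
        ring

private lemma p2_two (n : ℕ) : ((2 : ℝ) ^ n) ≤ Real.exp n := by
  have h1 : (2 : ℝ) ≤ Real.exp 1 := by
    have := Real.add_one_le_exp (1 : ℝ)
    linarith
  calc ((2 : ℝ) ^ n) ≤ Real.exp 1 ^ n := by gcongr
    _ = Real.exp n := by rw [← Real.exp_nat_mul, mul_one]

/-- GI-P2. THE GAP AT A POINT. Let `a + b_l = β_l` be bad numbers for all `l`. If the value of the
auxiliary function at `a/q` is `≤ exp (-8 W)`, it is `≤ exp (-G1)`. Apply `gap` to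
`f l = finSuccEquiv ℤ m (P l)` (GI-A9 `fse`), `η l = gr (β l / q)`, `Q = Qarr p a q`:
`Qv = q^n * value` (`Qv_Qarr`, `β l / q = a / q + c l`), `q^n ≤ exp (n N) ≤ exp W`,
`Ql ≤ Nc 2^n q^n ≤ exp (4 n N)` (`Ql_Qarr`, `sum_abs_le`, `Nc ≤ exp (n (J+1))`),
and `|value| ≤ |Qv|` as `q^n ≥ 1`. `P l` comes from `¬ Meas`. -/
theorem gap_point {m n J N X q W : ℕ} {θ : Fin m → ℝ} {W' G1 : ℝ} (hθ : ∀ i, |θ i| ≤ 4)
    (hJ : 1 ≤ J) (hN : 20 * J + 20 ≤ N) (hn : N ≤ n) (hX : X = n * N ^ (J + 2)) (hXW : X ≤ W)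
    (hM : Meas θ X W) (hq : 2 ≤ q) (hqN : (q : ℝ) ≤ Real.exp N) (hG1 : 0 ≤ G1)
    (hW' : (N : ℝ) ^ J * (G1 + n * J * W) + 5 * W + 1 ≤ W')
    (p : Ix n J → ℤ) (hp : ∀ x, |p x| ≤ ((2 ^ n : ℕ) : ℤ)) (b : Fin J → ℤ) (a : ℕ) (ha : a < q)
    (β : Fin J → ℕ) (hβ : ∀ l, (a : ℤ) + b l = β l) (hβ1 : ∀ l, 1 ≤ β l ∧ β l < q)
    (hbad : ∀ l, ¬ Meas (Fin.cons (gr ((β l : ℝ) / q)) θ : Fin (m + 1) → ℝ) N W')
    (hsm : |∑ x, (p x : ℝ) * mon (fun l => (b l : ℝ) / q) ((a : ℝ) / q) x|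
      ≤ Real.exp (-(8 * W))) :
    |∑ x, (p x : ℝ) * mon (fun l => (b l : ℝ) / q) ((a : ℝ) / q) x| ≤ Real.exp (-G1) := by
  classical
  have hex : ∀ l, ∃ P : MvPolynomial (Fin (m + 1)) ℤ, P ≠ 0 ∧ Cx P N N ∧
      |ev (Fin.cons (gr ((β l : ℝ) / q)) θ : Fin (m + 1) → ℝ) P| < Real.exp (-W') := by
    intro l
    have h := hbad l
    unfold Meas at h
    push Not at h
    exact h
  choose P hP0 hPc hPs using hex
  have hfse := fun l => fse (P l) N (hP0 l) (hPc l)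
  have hq1 : (1 : ℝ) ≤ q := by exact_mod_cast (by omega : 1 ≤ q)
  have hq0 : (0 : ℝ) < q := by linarith
  set f : Fin J → Polynomial (MvPolynomial (Fin m) ℤ) := fun l =>
    MvPolynomial.finSuccEquiv ℤ m (P l) with hf
  set η : Fin J → ℝ := fun l => gr ((β l : ℝ) / q) with hη
  have hηeq : (fun l => gr ((a : ℝ) / q + (b l : ℝ) / q)) = η := by
    funext l
    have h1 : (a : ℝ) + (b l : ℝ) = (β l : ℝ) := by exact_mod_cast hβ l
    simp only [hη]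
    rw [← add_div, h1]
  set val : ℝ := ∑ x, (p x : ℝ) * mon (fun l => (b l : ℝ) / q) ((a : ℝ) / q) x with hvaldef
  have hval : Qv (Qarr p a q) η = (q : ℝ) ^ n * val := by
    rw [← hηeq]
    exact Qv_Qarr p a q (by omega) (fun l => (b l : ℝ) / q)
  have hη4 : ∀ l, |η l| ≤ 4 := by
    intro l
    have h1 : (0 : ℝ) ≤ (β l : ℝ) / q := by positivity
    have h2 : (β l : ℝ) / q ≤ 1 := by
      rw [div_le_one hq0]
      exact_mod_cast (hβ1 l).2.le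
    obtain ⟨h3, h4⟩ := gr_bounds h1 h2
    rw [abs_le]
    constructor <;> linarith
  have hqn1 : (1 : ℝ) ≤ (q : ℝ) ^ n := one_le_pow₀ hq1
  have hqn : (q : ℝ) ^ n ≤ Real.exp (n * (N : ℝ)) := by
    calc (q : ℝ) ^ n ≤ Real.exp N ^ n := by gcongr
      _ = Real.exp (n * (N : ℝ)) := by rw [← Real.exp_nat_mul]
  have hnN : (n : ℝ) * N ≤ W := by
    have h1 : n * N ≤ X := by
      rw [hX]
      refine Nat.mul_le_mul_left _ ?_
      calc N = N ^ 1 := (pow_one N).symm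
        _ ≤ N ^ (J + 2) := Nat.pow_le_pow_right (by omega) (by omega)
    exact_mod_cast h1.trans hXW
  have hQ : Ql (Qarr p a q) ≤ Real.exp (4 * n * N) := by
    have h1 := Ql_Qarr p a q ha.le _ (sum_abs_le p (2 ^ n) hp)
    have h2 : (Nc n J : ℝ) * ((2 ^ n : ℕ) : ℝ) * (q : ℝ) ^ n ≤
        Real.exp (n * ((J : ℝ) + 1)) * Real.exp n * Real.exp (n * (N : ℝ)) := by
      have h3 := p2_Nc n J
      have h4 := p2_two n
      push_cast
      gcongr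
    refine h1.trans (h2.trans ?_)
    rw [← Real.exp_add, ← Real.exp_add]
    refine Real.exp_le_exp.mpr ?_
    have h5 : (20 : ℝ) * J + 20 ≤ N := by exact_mod_cast hN
    have h6 : (0 : ℝ) ≤ n := Nat.cast_nonneg _
    have h7 : (0 : ℝ) ≤ (J : ℝ) := Nat.cast_nonneg _
    nlinarith [mul_nonneg h6 (by linarith : (0 : ℝ) ≤ 3 * N - (J + 2))]
  have hsm2 : ∀ l, |(f l).eval₂ (ev θ) (η l)| ≤ Real.exp (-W') := by
    intro l
    have h1 := (hfse l).2.2.2 θ (η l)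
    simp only [hf]
    rw [h1]
    exact (hPs l).le
  have hsmall : |Qv (Qarr p a q) η| ≤ Real.exp (-(7 * (W : ℝ))) := by
    rw [hval, abs_mul, abs_of_nonneg (by positivity : (0 : ℝ) ≤ (q : ℝ) ^ n)]
    calc (q : ℝ) ^ n * |val| ≤ Real.exp (n * (N : ℝ)) * Real.exp (-(8 * W)) := by gcongr
      _ = Real.exp (n * (N : ℝ) + -(8 * W)) := (Real.exp_add _ _).symm
      _ ≤ Real.exp (-(7 * (W : ℝ))) := Real.exp_le_exp.mpr (by linarith)
  have hfin := gap hθ f (Qarr p a q) η (W : ℝ) W' G1 hJ hN hn hX (by exact_mod_cast hXW) hM hη4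
    (fun l => (hfse l).1) (fun l => (hfse l).2.1) (fun l => (hfse l).2.2.1) hQ hsm2 hG1 hW' hsmall
  refine le_trans ?_ hfin
  rw [hval, abs_mul, abs_of_nonneg (by positivity : (0 : ℝ) ≤ (q : ℝ) ^ n)]
  exact le_mul_of_one_le_left (abs_nonneg _) hqn1

end GLR
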