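import Pool.Agent.Helper49.GL.S1

namespace GLR

/-- GI-S2. Lagrange interpolation at real points of `[0,1]` separated by `1/q`: there is an entire
`L` with `L (x i) = f (x i)` and `‖L z‖ ≤ T ε (q (‖z‖ + 1))^T` for all `z`.
`L z = ∑ i, f (x i) ∏_{j ≠ i} (z - x j) / (x i - x j)`, and each of the `T - 1` factors is at most
`(‖z‖ + 1) q` in absolute value, with `q (‖z‖ + 1) ≥ 1`. -/
theorem lagrange_small (f : ℂ → ℂ) {T : ℕ} (x : Fin T → ℝ) (hx0 : ∀ i, 0 ≤ x i)
    (hx1 : ∀ i, x i ≤ 1) (q : ℝ) (hq : 1 ≤ q) (hsep : ∀ i j, i ≠ j → 1 / q ≤ |x i - x j|)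
    (ε : ℝ) (hε : ∀ i, ‖f (x i)‖ ≤ ε) :
    ∃ L : ℂ → ℂ, Differentiable ℂ L ∧ (∀ i, L (x i) = f (x i)) ∧
      ∀ z, ‖L z‖ ≤ T * ε * (q * (‖z‖ + 1)) ^ T := by
  have hq0 : 0 < q := by linarith
  have hne : ∀ i j, i ≠ j → ((x i : ℂ) - (x j : ℂ)) ≠ 0 := by
    intro i j hij h0
    have h1 := hsep i j hij
    have h2 : x i - x j = 0 := by exact_mod_cast h0
    rw [h2, abs_zero] at h1
    have h3 : 0 < 1 / q := by positivity
    linarith
  refine ⟨fun z => ∑ i, f (x i) * ∏ j ∈ Finset.univ.erase i,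
    ((z - (x j : ℂ)) / ((x i : ℂ) - (x j : ℂ))), ?_, ?_, ?_⟩
  · intro z
    fun_prop
  · intro i
    have h1 : ∀ k ∈ (Finset.univ : Finset (Fin T)), k ≠ i → f (x k) * ∏ j ∈ Finset.univ.erase k,
        (((x i : ℂ) - (x j : ℂ)) / ((x k : ℂ) - (x j : ℂ))) = 0 := by
      intro k _ hk
      rw [Finset.prod_eq_zero (Finset.mem_erase.mpr ⟨fun e => hk e.symm, Finset.mem_univ i⟩),
        mul_zero]
      rw [sub_self, zero_div]
    have h2 : (∏ j ∈ Finset.univ.erase i,
        (((x i : ℂ) - (x j : ℂ)) / ((x i : ℂ) - (x j : ℂ)))) = 1 := by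
      refine Finset.prod_eq_one fun j hj => ?_
      exact div_self (hne i j (Finset.ne_of_mem_erase hj).symm)
    change (∑ k, f (x k) * ∏ j ∈ Finset.univ.erase k,
        (((x i : ℂ) - (x j : ℂ)) / ((x k : ℂ) - (x j : ℂ)))) = f (x i)
    rw [Finset.sum_eq_single i h1 (fun h => absurd (Finset.mem_univ i) h), h2, mul_one]
  · intro z
    have hB : 1 ≤ q * (‖z‖ + 1) := by
      have := norm_nonneg z
      nlinarith
    have hB0 : 0 ≤ q * (‖z‖ + 1) := by linarith
    have hterm : ∀ i ∈ (Finset.univ : Finset (Fin T)), ‖f (x i) * ∏ j ∈ Finset.univ.erase i,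
        ((z - (x j : ℂ)) / ((x i : ℂ) - (x j : ℂ)))‖ ≤ ε * (q * (‖z‖ + 1)) ^ T := by
      intro i _
      rw [norm_mul]
      have hp : ‖∏ j ∈ Finset.univ.erase i, ((z - (x j : ℂ)) / ((x i : ℂ) - (x j : ℂ)))‖ ≤
          (q * (‖z‖ + 1)) ^ T := by
        rw [norm_prod]
        calc ∏ j ∈ Finset.univ.erase i, ‖(z - (x j : ℂ)) / ((x i : ℂ) - (x j : ℂ))‖
            ≤ ∏ _j ∈ Finset.univ.erase i, (q * (‖z‖ + 1)) := by
              refine Finset.prod_le_prod (fun j _ => norm_nonneg _) fun j hj => ?_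
              have hij : i ≠ j := (Finset.ne_of_mem_erase hj).symm
              have h1 : ‖z - (x j : ℂ)‖ ≤ ‖z‖ + 1 := by
                refine (norm_sub_le _ _).trans ?_
                have h2 : ‖(x j : ℂ)‖ ≤ 1 := by
                  rw [Complex.norm_real, Real.norm_eq_abs, abs_of_nonneg (hx0 j)]
                  exact hx1 j
                linarith
              have h3 : ‖(x i : ℂ) - (x j : ℂ)‖ = |x i - x j| := by
                rw [← Complex.ofReal_sub, Complex.norm_real, Real.norm_eq_abs]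
              have h4 := hsep i j hij
              have h5 : 0 < 1 / q := by positivity
              rw [norm_div, h3, div_le_iff₀ (lt_of_lt_of_le h5 h4)]
              calc ‖z - (x j : ℂ)‖ ≤ ‖z‖ + 1 := h1
                _ = q * (‖z‖ + 1) * (1 / q) := by field_simp
                _ ≤ q * (‖z‖ + 1) * |x i - x j| := mul_le_mul_of_nonneg_left h4 hB0
          _ = (q * (‖z‖ + 1)) ^ (Finset.univ.erase i).card := by rw [Finset.prod_const]
          _ ≤ (q * (‖z‖ + 1)) ^ T := by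
              refine pow_le_pow_right₀ hB ?_
              refine (Finset.card_le_card (Finset.erase_subset _ _)).trans ?_
              rw [Finset.card_univ, Fintype.card_fin]
      exact mul_le_mul (hε i) hp (norm_nonneg _) ((norm_nonneg _).trans (hε i))
    calc ‖∑ i, f (x i) * ∏ j ∈ Finset.univ.erase i,
          ((z - (x j : ℂ)) / ((x i : ℂ) - (x j : ℂ)))‖
        ≤ ∑ _i : Fin T, ε * (q * (‖z‖ + 1)) ^ T := norm_sum_le_of_le _ hterm
      _ = T * ε * (q * (‖z‖ + 1)) ^ T := by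
          rw [Finset.sum_const, Finset.card_univ, Fintype.card_fin, nsmul_eq_mul]
          ring

/-- GI-S2. Schwarz lemma with small values: apply `schwarz_zero` to `f - L`, which is bounded by
`M + T ε (q (R + 1))^T` on `‖z‖ ≤ R`. -/
theorem schwarz_small (f : ℂ → ℂ) (hf : Differentiable ℂ f) {T : ℕ} (x : Fin T → ℝ)
    (hx0 : ∀ i, 0 ≤ x i) (hx1 : ∀ i, x i ≤ 1) (q : ℝ) (hq : 1 ≤ q)
    (hsep : ∀ i j, i ≠ j → 1 / q ≤ |x i - x j|) (ε : ℝ) (hε0 : 0 ≤ ε) (hε : ∀ i, ‖f (x i)‖ ≤ ε)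
    (r R M : ℝ) (hr : 0 ≤ r) (hrR : r ≤ R) (hR : 1 < R) (hM : ∀ z, ‖z‖ ≤ R → ‖f z‖ ≤ M)
    (z : ℂ) (hz : ‖z‖ ≤ r) :
    ‖f z‖ ≤ ((r + 1) / (R - 1)) ^ T * (M + T * ε * (q * (R + 1)) ^ T)
      + T * ε * (q * (r + 1)) ^ T := by
  classical
  have hq0 : 0 < q := by linarith
  obtain ⟨L, hL, hLx, hLb⟩ := lagrange_small f x hx0 hx1 q hq hsep ε hε
  have hinj : Function.Injective (fun i => (x i : ℂ)) := by
    intro i j hij
    by_contra hne
    have h1 := hsep i j hne
    have h2 : x i = x j := Complex.ofReal_injective hij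
    rw [h2, sub_self, abs_zero] at h1
    have h3 : 0 < 1 / q := by positivity
    linarith
  have hcard : (Finset.univ.image (fun i => (x i : ℂ))).card = T := by
    rw [Finset.card_image_of_injective _ hinj, Finset.card_univ, Fintype.card_fin]
  have hLR : ∀ (s : ℝ) (w : ℂ), ‖w‖ ≤ s → ‖L w‖ ≤ T * ε * (q * (s + 1)) ^ T := by
    intro s w hw
    refine (hLb w).trans ?_
    have h0 := norm_nonneg w
    refine mul_le_mul_of_nonneg_left ?_ (by positivity)
    refine pow_le_pow_left₀ (by positivity) ?_ T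
    exact mul_le_mul_of_nonneg_left (by linarith) hq0.le
  have key := schwarz_zero (fun w => f w - L w) (hf.sub hL)
    (Finset.univ.image (fun i => (x i : ℂ))) ?_ ?_ r R (M + T * ε * (q * (R + 1)) ^ T) hr hrR hR
    ?_ z hz
  · rw [hcard] at key
    calc ‖f z‖ = ‖(f z - L z) + L z‖ := by rw [sub_add_cancel]
      _ ≤ ‖f z - L z‖ + ‖L z‖ := norm_add_le _ _
      _ ≤ _ := add_le_add key (hLR r z hz)
  · intro w hw
    obtain ⟨i, _, rfl⟩ := Finset.mem_image.mp hw
    change f (x i) - L (x i) = 0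
    rw [hLx i, sub_self]
  · intro w hw
    obtain ⟨i, _, rfl⟩ := Finset.mem_image.mp hw
    rw [Complex.norm_real, Real.norm_eq_abs, abs_of_nonneg (hx0 i)]
    exact hx1 i
  · intro w hw
    exact (norm_sub_le _ _).trans (add_le_add (hM w hw) (hLR R w hw))

end GLR
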