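import Pool.Agent.Helper49.GL.F2
import Pool.Agent.Helper49.GL.S2

namespace GLR

/-- GI-P3. Schwarz lemma for the auxiliary function. `A₁` is a set of `T` integers in `[0, q)` where
the value is `≤ ε`; enumerate it by `Fin T` (`Finset.equivFin` or `orderIsoOfFin`), the points
`a/q` are separated by `1/q`. Then for `‖z‖ ≤ r`, with `R = 8 r` (`r ≥ 1`):
`(r + 1)/(8 r - 1) ≤ 2/7`; apply `schwarz_small` with the bound `norm_F_le` on `‖z‖ ≤ 8 r`.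
(`F_ofReal` turns the real sums into values of `F`.) -/
theorem extrap {n J q T : ℕ} (p : Ix n J → ℤ) (S : ℝ) (hS : ∑ x, |(p x : ℝ)| ≤ S)
    (c : Fin J → ℝ) (hc : ∀ l, |c l| ≤ 1) (A₁ : Finset ℕ) (hT : A₁.card = T) (hq : 1 ≤ q)
    (hA : ∀ a ∈ A₁, a < q) (ε : ℝ) (hε0 : 0 ≤ ε)
    (hsm : ∀ a ∈ A₁, |∑ x, (p x : ℝ) * mon c ((a : ℝ) / q) x| ≤ ε) (r : ℝ) (hr : 1 ≤ r)
    (z : ℂ) (hz : ‖z‖ ≤ r) :
    ‖F p c z‖ ≤ (2 / 7 : ℝ) ^ T *
        (S * (8 * r) ^ n * Real.exp (4 * (8 * r + 2) ^ 2) ^ (n * J)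
          + T * ε * ((q : ℝ) * (8 * r + 1)) ^ T)
      + T * ε * ((q : ℝ) * (r + 1)) ^ T := by
  have hS0 : 0 ≤ S := le_trans (Finset.sum_nonneg fun _ _ => abs_nonneg _) hS
  have hq' : (1 : ℝ) ≤ q := by exact_mod_cast hq
  have hq0 : (0 : ℝ) < q := by linarith
  obtain ⟨en⟩ : Nonempty (A₁ ≃ Fin T) := ⟨A₁.equivFinOfCardEq hT⟩
  have hmem : ∀ i, ((en.symm i : A₁) : ℕ) ∈ A₁ := fun i => (en.symm i).2
  have h0 : ∀ i : Fin T, 0 ≤ (((en.symm i : A₁) : ℕ) : ℝ) / q := fun i => by positivity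
  have h1 : ∀ i : Fin T, (((en.symm i : A₁) : ℕ) : ℝ) / q ≤ 1 := fun i =>
    (div_le_one hq0).2 (by exact_mod_cast (hA _ (hmem i)).le)
  have hsep : ∀ i j : Fin T, i ≠ j →
      1 / (q : ℝ) ≤ |(((en.symm i : A₁) : ℕ) : ℝ) / q - (((en.symm j : A₁) : ℕ) : ℝ) / q| := by
    intro i j hij
    have hne : ((en.symm i : A₁) : ℕ) ≠ ((en.symm j : A₁) : ℕ) := fun h =>
      hij (en.symm.injective (Subtype.ext h))
    rw [← sub_div, abs_div, abs_of_pos hq0]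
    apply div_le_div_of_nonneg_right _ hq0.le
    have h2 : (1 : ℤ) ≤ |(((en.symm i : A₁) : ℕ) : ℤ) - (((en.symm j : A₁) : ℕ) : ℤ)| :=
      Int.one_le_abs (sub_ne_zero.2 (by exact_mod_cast hne))
    exact_mod_cast h2
  have hε : ∀ i : Fin T, ‖F p c (((((en.symm i : A₁) : ℕ) : ℝ) / q : ℝ) : ℂ)‖ ≤ ε := by
    intro i
    rw [F_ofReal, Complex.norm_real]
    exact hsm _ (hmem i)
  have key := schwarz_small (F p c) (differentiable_F p c)
    (fun i : Fin T => (((en.symm i : A₁) : ℕ) : ℝ) / q) h0 h1 q hq' hsep ε hε0 hε r (8 * r)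
    (S * (8 * r) ^ n * Real.exp (4 * (8 * r + 2) ^ 2) ^ (n * J)) (by linarith) (by linarith)
    (by linarith) (fun z hz => norm_F_le p c hc (8 * r) S (by linarith) hS z hz) z hz
  refine key.trans ?_
  have h27 : (r + 1) / (8 * r - 1) ≤ 2 / 7 := by
    rw [div_le_div_iff₀ (by linarith) (by norm_num)]
    linarith
  have hnn : 0 ≤ (r + 1) / (8 * r - 1) := div_nonneg (by linarith) (by linarith)
  have h8 : 0 ≤ (q : ℝ) * (8 * r + 1) := by positivity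
  have h9 : 0 ≤ S * (8 * r) ^ n * Real.exp (4 * (8 * r + 2) ^ 2) ^ (n * J)
      + T * ε * ((q : ℝ) * (8 * r + 1)) ^ T := by positivity
  have h10 := mul_le_mul_of_nonneg_right (pow_le_pow_left₀ hnn h27 T) h9
  linarith

end GLR
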