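import Pool.Agent.Helper49.GL.Z0

namespace GLR

open Polynomial

private theorem Nc_pos (n J : ℕ) : 1 ≤ Nc n J := Nat.one_le_pow _ _ (Nat.succ_pos n)

/-- The number of linear factors of an entry. -/
private theorem count_le {n J : ℕ} (i : ℕ) (α : Fin J → ℕ) (s : ℕ) (hi : i ≤ n)
    (hα : ∀ l, α l ≤ n) (hs : s < Nc n J) : i + ∑ l, s * α l ≤ dZ n J := by
  have h1 : ∑ l : Fin J, s * α l ≤ ∑ _l : Fin J, Nc n J * n :=
    Finset.sum_le_sum fun l _ => Nat.mul_le_mul hs.le (hα l)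
  have h2 : ∑ _l : Fin J, Nc n J * n = n * J * Nc n J := by
    simp only [Finset.sum_const, Finset.card_univ, Fintype.card_fin, smul_eq_mul]
    ring
  unfold dZ
  omega

/-- GI-Z5. Degree of an entry in a row `s < Nc` with exponents `≤ n`. -/
theorem natDegree_cas_le {n J : ℕ} (c : Fin J → ℚ) (i : ℕ) (α : Fin J → ℕ) (s : ℕ) (hi : i ≤ n)
    (hα : ∀ l, α l ≤ n) (hs : s < Nc n J) : (cas c i α s).natDegree ≤ dZ n J := by
  have h1 : ((X - C (s : ℚ)) ^ i : ℚ[X]).natDegree ≤ i := by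
    have h : (X - C (s : ℚ) : ℚ[X]).natDegree ≤ 1 := natDegree_X_sub_C_le _
    calc ((X - C (s : ℚ)) ^ i : ℚ[X]).natDegree ≤ i * (X - C (s : ℚ) : ℚ[X]).natDegree :=
          natDegree_pow_le
      _ ≤ i * 1 := Nat.mul_le_mul_left _ h
      _ = i := mul_one _
  have h2 : ∀ l : Fin J, (∏ s' ∈ Finset.range s, (X + C (c l - (s' : ℚ))) : ℚ[X]).natDegree
      ≤ s := by
    intro l
    refine (natDegree_prod_le _ _).trans ?_
    calc ∑ s' ∈ Finset.range s, (X + C (c l - (s' : ℚ)) : ℚ[X]).natDegree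
        ≤ ∑ _s' ∈ Finset.range s, 1 :=
          Finset.sum_le_sum fun s' _ => (natDegree_X_add_C _).le
      _ = s := by simp
  have h3 : (∏ l, (∏ s' ∈ Finset.range s, (X + C (c l - (s' : ℚ)))) ^ α l : ℚ[X]).natDegree
      ≤ ∑ l, s * α l := by
    refine (natDegree_prod_le _ _).trans (Finset.sum_le_sum fun l _ => ?_)
    calc ((∏ s' ∈ Finset.range s, (X + C (c l - (s' : ℚ)))) ^ α l : ℚ[X]).natDegree
        ≤ α l * (∏ s' ∈ Finset.range s, (X + C (c l - (s' : ℚ))) : ℚ[X]).natDegree :=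
          natDegree_pow_le
      _ ≤ α l * s := Nat.mul_le_mul_left _ (h2 l)
      _ = s * α l := mul_comm _ _
  calc (cas c i α s).natDegree
      ≤ ((X - C (s : ℚ)) ^ i : ℚ[X]).natDegree +
        (∏ l, (∏ s' ∈ Finset.range s, (X + C (c l - (s' : ℚ)))) ^ α l : ℚ[X]).natDegree :=
        natDegree_mul_le
    _ ≤ i + ∑ l, s * α l := Nat.add_le_add h1 h3
    _ ≤ dZ n J := count_le i α s hi hα hs

/-- GI-Z5. Degree of a determinant whose entries have degree `≤ d` (Leibniz). -/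
theorem natDegree_det_le {r d : ℕ} (M : Matrix (Fin r) (Fin r) ℚ[X])
    (hM : ∀ i j, (M i j).natDegree ≤ d) : M.det.natDegree ≤ r * d := by
  rw [Matrix.det_apply]
  refine natDegree_sum_le_of_forall_le _ _ fun σ _ => ?_
  refine (natDegree_smul_le _ _).trans ?_
  refine (natDegree_prod_le _ _).trans ?_
  calc ∑ i : Fin r, (M (σ i) i).natDegree ≤ ∑ _i : Fin r, d :=
        Finset.sum_le_sum fun i _ => hM _ _
    _ = r * d := by simp

/-- GI-Z5. A nonzero polynomial of degree `≤ d` is nonzero at one of the points `j / (d + 2)`,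
`1 ≤ j ≤ d + 1`. -/
theorem exists_eval_ne {d : ℕ} (D : ℚ[X]) (hD : D ≠ 0) (hd : D.natDegree ≤ d) :
    ∃ j : ℕ, 1 ≤ j ∧ j ≤ d + 1 ∧ D.eval ((j : ℚ) / ((d + 2 : ℕ) : ℚ)) ≠ 0 := by
  by_contra hcon
  push Not at hcon
  apply hD
  have hne : ((d + 2 : ℕ) : ℚ) ≠ 0 := by positivity
  refine Polynomial.eq_zero_of_natDegree_lt_card_of_eval_eq_zero D
    (f := fun j : Fin (d + 1) => (((j : ℕ) + 1 : ℕ) : ℚ) / ((d + 2 : ℕ) : ℚ)) ?_ ?_ ?_
  · intro a b hab
    have h1 : (((a : ℕ) + 1 : ℕ) : ℚ) = (((b : ℕ) + 1 : ℕ) : ℚ) := by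
      have := congrArg (fun t : ℚ => t * ((d + 2 : ℕ) : ℚ)) hab
      simpa only [div_mul_cancel₀ _ hne] using this
    have h2 : (a : ℕ) + 1 = (b : ℕ) + 1 := by exact_mod_cast h1
    exact Fin.ext (by omega)
  · intro j
    exact hcon _ (by omega) (by have := j.2; omega)
  · rw [Fintype.card_fin]
    omega

/-- `M ^ e * x` is an integer. -/
private def IsI (M : ℚ) (x : ℚ) (e : ℕ) : Prop := ∃ k : ℤ, M ^ e * x = k

private theorem IsI.mul {M x y : ℚ} {e f : ℕ} (hx : IsI M x e) (hy : IsI M y f) :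
    IsI M (x * y) (e + f) := by
  obtain ⟨a, ha⟩ := hx
  obtain ⟨b, hb⟩ := hy
  refine ⟨a * b, ?_⟩
  push_cast
  rw [← ha, ← hb, pow_add]
  ring

private theorem IsI.one {M : ℚ} : IsI M 1 0 := ⟨1, by simp⟩

private theorem IsI.pow {M x : ℚ} {e : ℕ} (hx : IsI M x e) (n : ℕ) : IsI M (x ^ n) (e * n) := by
  induction n with
  | zero => simpa using IsI.one
  | succ n ih =>
    rw [pow_succ, Nat.mul_succ]
    exact ih.mul hx

private theorem IsI.prod {ι : Type} {M : ℚ} (s : Finset ι) (x : ι → ℚ) (e : ι → ℕ)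
    (h : ∀ i ∈ s, IsI M (x i) (e i)) : IsI M (∏ i ∈ s, x i) (∑ i ∈ s, e i) := by
  classical
  induction s using Finset.induction_on with
  | empty => simpa using IsI.one
  | insert a s ha ih =>
    rw [Finset.prod_insert ha, Finset.sum_insert ha]
    exact (h a (Finset.mem_insert_self _ _)).mul
      (ih fun i hi => h i (Finset.mem_insert_of_mem hi))

private theorem IsI.mono {m q : ℕ} {x : ℚ} {e f : ℕ} (hx : IsI ((m : ℚ) * q) x e) (hef : e ≤ f) :
    IsI ((m : ℚ) * q) x f := by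
  obtain ⟨k, hk⟩ := hx
  refine ⟨((m : ℤ) * q) ^ (f - e) * k, ?_⟩
  have : f = (f - e) + e := by omega
  rw [this, pow_add, mul_assoc, hk]
  push_cast
  congr 2
  omega

/-- GI-Z5. Denominators: at `w = j/m` and for `c_l = b_l / q` the entry times `(m q)^dZ` is an
integer (each linear factor times `m q` is an integer). -/
theorem cas_integral {n J : ℕ} (b : Fin J → ℤ) (q m : ℕ) (hq : 1 ≤ q) (hm : 1 ≤ m) (i : ℕ)
    (α : Fin J → ℕ) (s : ℕ) (hi : i ≤ n) (hα : ∀ l, α l ≤ n) (hs : s < Nc n J) (j : ℕ) :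
    ∃ k : ℤ, ((m : ℚ) * q) ^ dZ n J *
      (cas (fun l => (b l : ℚ) / q) i α s).eval ((j : ℚ) / m) = k := by
  have hq0 : (q : ℚ) ≠ 0 := by
    have : 0 < q := hq
    positivity
  have hm0 : (m : ℚ) ≠ 0 := by
    have : 0 < m := hm
    positivity
  have h1 : IsI ((m : ℚ) * q) ((j : ℚ) / m - (s : ℚ)) 1 := by
    refine ⟨(j : ℤ) * q - m * q * s, ?_⟩
    push_cast
    field_simp
  have h2 : ∀ l : Fin J, ∀ s' : ℕ,
      IsI ((m : ℚ) * q) ((j : ℚ) / m + ((b l : ℚ) / q - (s' : ℚ))) 1 := by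
    intro l s'
    refine ⟨(j : ℤ) * q + b l * m - m * q * s', ?_⟩
    push_cast
    field_simp
    ring
  have h3 : IsI ((m : ℚ) * q)
      ((cas (fun l => (b l : ℚ) / q) i α s).eval ((j : ℚ) / m)) (i + ∑ l, s * α l) := by
    unfold cas
    rw [eval_mul, eval_pow, eval_sub, eval_X, eval_C, eval_prod]
    have e1 : IsI ((m : ℚ) * q) (((j : ℚ) / m - (s : ℚ)) ^ i) i := by
      simpa using h1.pow i
    refine e1.mul (IsI.prod _ _ _ fun l _ => ?_)
    rw [eval_pow, eval_prod]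
    refine IsI.pow ?_ _
    have e2 : IsI ((m : ℚ) * q) (∏ s' ∈ Finset.range s,
        (X + C ((b l : ℚ) / q - (s' : ℚ))).eval ((j : ℚ) / m)) (∑ _s' ∈ Finset.range s, 1) := by
      refine IsI.prod _ _ _ fun s' _ => ?_
      rw [eval_add, eval_X, eval_C]
      exact h2 l s'
    simpa using e2
  exact h3.mono (count_le i α s hi hα hs)

/-- GI-Z5. Size of the entries at a point of `[0, 1]` with `|c_l| ≤ 1`: `|w - s| ≤ Nc`,
`|w + c_l - s'| ≤ 2 + s' ≤ Nc + 1`. -/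
theorem abs_cas_le {n J : ℕ} (c : Fin J → ℚ) (hc : ∀ l, |c l| ≤ 1) (i : ℕ) (α : Fin J → ℕ)
    (s : ℕ) (hi : i ≤ n) (hα : ∀ l, α l ≤ n) (hs : s < Nc n J) (w : ℚ) (hw0 : 0 ≤ w) (hw1 : w ≤ 1) :
    |(cas c i α s).eval w| ≤ ((Nc n J : ℚ) + 1) ^ dZ n J := by
  have hN : (1 : ℚ) ≤ (Nc n J : ℚ) := by exact_mod_cast Nc_pos n J
  have hsN : (s : ℚ) + 1 ≤ (Nc n J : ℚ) := by exact_mod_cast hs
  have hs0 : (0 : ℚ) ≤ (s : ℚ) := Nat.cast_nonneg s
  have h1 : |w - (s : ℚ)| ≤ (Nc n J : ℚ) + 1 := by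
    rw [abs_le]
    constructor <;> linarith
  have h2 : ∀ l : Fin J, ∀ s' ∈ Finset.range s,
      |w + (c l - (s' : ℚ))| ≤ (Nc n J : ℚ) + 1 := by
    intro l s' hs'
    have hs'' : (s' : ℚ) + 1 ≤ (s : ℚ) := by exact_mod_cast Finset.mem_range.1 hs'
    have hs0' : (0 : ℚ) ≤ (s' : ℚ) := Nat.cast_nonneg s'
    have hcl := abs_le.1 (hc l)
    rw [abs_le]
    constructor <;> linarith [hcl.1, hcl.2]
  generalize hB : (Nc n J : ℚ) + 1 = B at h1 h2 ⊢
  have hB1 : (1 : ℚ) ≤ B := by linarith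
  have hB0 : (0 : ℚ) ≤ B := by linarith
  have e1 : |(w - (s : ℚ)) ^ i| ≤ B ^ i := by
    rw [abs_pow]
    exact pow_le_pow_left₀ (abs_nonneg _) h1 _
  have e2 : ∀ l : Fin J, |∏ s' ∈ Finset.range s, (w + (c l - (s' : ℚ)))| ≤ B ^ s := by
    intro l
    rw [Finset.abs_prod]
    calc ∏ s' ∈ Finset.range s, |w + (c l - (s' : ℚ))|
        ≤ ∏ _s' ∈ Finset.range s, B :=
          Finset.prod_le_prod (fun s' _ => abs_nonneg _) fun s' hs' => h2 l s' hs'
      _ = B ^ s := by simp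
  have e3 : |∏ l, (∏ s' ∈ Finset.range s, (w + (c l - (s' : ℚ)))) ^ α l| ≤
      B ^ (∑ l, s * α l) := by
    rw [Finset.abs_prod, ← Finset.prod_pow_eq_pow_sum]
    refine Finset.prod_le_prod (fun l _ => abs_nonneg _) fun l _ => ?_
    rw [abs_pow, pow_mul]
    exact pow_le_pow_left₀ (abs_nonneg _) (e2 l) _
  have e4 : (cas c i α s).eval w = (w - (s : ℚ)) ^ i *
      ∏ l, (∏ s' ∈ Finset.range s, (w + (c l - (s' : ℚ)))) ^ α l := by
    unfold cas
    simp only [eval_mul, eval_pow, eval_sub, eval_X, eval_C, eval_prod, eval_add]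
  rw [e4, abs_mul]
  calc |(w - (s : ℚ)) ^ i| * |∏ l, (∏ s' ∈ Finset.range s, (w + (c l - (s' : ℚ)))) ^ α l|
      ≤ B ^ i * B ^ (∑ l, s * α l) :=
        mul_le_mul e1 e3 (abs_nonneg _) (pow_nonneg hB0 _)
    _ = B ^ (i + ∑ l, s * α l) := (pow_add _ _ _).symm
    _ ≤ B ^ dZ n J := pow_le_pow_right₀ hB1 (count_le i α s hi hα hs)

end GLR
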