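import Pool.Agent.Helper49.GL.Z4
import Pool.Agent.Helper49.GL.Z5

namespace GLR

open Polynomial

/-- GI-Z6. The evaluation point. Let `D` be the determinant of GI-Z4 for the columns `e`. By
`natDegree_det_le` its degree is `≤ Nc * dZ`, so it is nonzero at `w = j / mZ` for some
`1 ≤ j ≤ mZ - 1` (`exists_eval_ne`). The matrix of the integers `(m q)^dZ * entry`
(`cas_integral`) has the nonzero integer determinant `(m q)^(Nc dZ) D(w)`, so
`|D(w)| ≥ (m q)^(-Nc dZ)`. (`Polynomial.eval` of a determinant is the determinant of the evaluations: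
`Polynomial.eval_det`/`RingHom.map_det` with `evalRingHom`.) -/
theorem exists_w {n J : ℕ} (b : Fin J → ℤ) (q : ℕ) (hq : 1 ≤ q)
    (hb : ∀ l l', l ≠ l' → ¬ ((q : ℤ) ∣ b l - b l'))
    (e : Fin (Nc n J) → ℕ × (Fin J → ℕ)) (he : Function.Injective e)
    (he1 : ∀ j, (e j).1 ≤ n) (he2 : ∀ j l, (e j).2 l ≤ n) :
    ∃ j : ℕ, 1 ≤ j ∧ j < mZ n J ∧
      (((mZ n J : ℚ) * q) ^ (Nc n J * dZ n J))⁻¹ ≤
        |(Matrix.of fun s k : Fin (Nc n J) =>
          (cas (fun l => (b l : ℚ) / q) (e k).1 (e k).2 (s : ℕ)).eval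
            ((j : ℚ) / (mZ n J : ℚ))).det| := by
  set c : Fin J → ℚ := fun l => (b l : ℚ) / q with hcdef
  have hq0 : (q : ℚ) ≠ 0 := by
    have : (0 : ℚ) < q := by exact_mod_cast hq
    exact this.ne'
  have hc : ∀ l l', l ≠ l' → ∀ k : ℤ, c l - c l' ≠ k := by
    intro l l' hl k hk
    apply hb l l' hl
    refine ⟨k, ?_⟩
    have h1 : ((b l - b l' : ℤ) : ℚ) = ((q : ℤ) * k : ℤ) := by
      push_cast
      rw [← hk, hcdef]
      field_simp
    exact_mod_cast h1
  have hD := cas_det_ne_zero c hc (Nc n J) e he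
  set M : Matrix (Fin (Nc n J)) (Fin (Nc n J)) ℚ[X] :=
    Matrix.of fun s j : Fin (Nc n J) => cas c (e j).1 (e j).2 (s : ℕ) with hM
  have hdeg : M.det.natDegree ≤ Nc n J * dZ n J := by
    apply natDegree_det_le
    intro i j
    exact natDegree_cas_le c (e j).1 (e j).2 (i : ℕ) (he1 j) (he2 j) i.isLt
  obtain ⟨j, hj1, hj2, hj3⟩ := exists_eval_ne M.det hD hdeg
  refine ⟨j, hj1, by unfold mZ; omega, ?_⟩
  have hm : mZ n J = Nc n J * dZ n J + 2 := rfl
  rw [← hm] at hj3
  set w : ℚ := (j : ℚ) / (mZ n J : ℚ) with hw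
  set A : Matrix (Fin (Nc n J)) (Fin (Nc n J)) ℚ :=
    Matrix.of fun s k : Fin (Nc n J) => (cas c (e k).1 (e k).2 (s : ℕ)).eval w with hA
  have hdet : M.det.eval w = A.det := by
    have h1 := RingHom.map_det (Polynomial.evalRingHom w) M
    have h2 : (Polynomial.evalRingHom w).mapMatrix M = A := by
      ext s k
      simp [hM, hA]
    rw [h2] at h1
    simpa using h1
  have hA0 : A.det ≠ 0 := by rw [← hdet]; exact hj3
  have hmpos : 1 ≤ mZ n J := by unfold mZ; omega
  have hint : ∀ s k : Fin (Nc n J), ∃ z : ℤ, ((mZ n J : ℚ) * q) ^ dZ n J * A s k = z := by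
    intro s k
    have := cas_integral (n := n) b q (mZ n J) hq hmpos (e k).1 (e k).2 (s : ℕ) (he1 k) (he2 k)
      s.isLt j
    simpa [hA, hw, hcdef] using this
  choose Z hZ using hint
  set N : ℚ := ((mZ n J : ℚ) * q) ^ dZ n J with hN
  have hNpos : 0 < N := by
    rw [hN]
    have h1 : (0 : ℚ) < mZ n J := by exact_mod_cast hmpos
    have h2 : (0 : ℚ) < q := by exact_mod_cast hq
    positivity
  have hmat : N • A = (Matrix.of Z).map (Int.castRingHom ℚ) := by
    ext s k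
    simp only [Matrix.smul_apply, smul_eq_mul, Matrix.map_apply, Matrix.of_apply,
      Int.coe_castRingHom]
    exact hZ s k
  have hdet2 : N ^ Nc n J * A.det = (((Matrix.of Z).det : ℤ) : ℚ) := by
    have h1 := Matrix.det_smul A N
    rw [hmat, Fintype.card_fin] at h1
    rw [← h1]
    have h2 := RingHom.map_det (Int.castRingHom ℚ) (Matrix.of Z)
    rw [RingHom.mapMatrix_apply] at h2
    rw [← h2]
    rfl
  have hZ0 : (Matrix.of Z).det ≠ 0 := by
    intro h
    rw [h, Int.cast_zero] at hdet2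
    rcases mul_eq_zero.mp hdet2 with h1 | h1
    · exact (pow_pos hNpos _).ne' h1
    · exact hA0 h1
  have hge : (1 : ℚ) ≤ |(((Matrix.of Z).det : ℤ) : ℚ)| := by
    have : (1 : ℤ) ≤ |(Matrix.of Z).det| := Int.one_le_abs hZ0
    exact_mod_cast this
  rw [← hdet2, abs_mul, abs_of_pos (pow_pos hNpos _)] at hge
  have hpow : ((mZ n J : ℚ) * q) ^ (Nc n J * dZ n J) = N ^ Nc n J := by
    rw [hN, ← pow_mul, mul_comm (dZ n J)]
  rw [hpow, inv_le_iff_one_le_mul₀ (pow_pos hNpos _), mul_comm]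
  exact hge

end GLR
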