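import Pool.Agent.Helper49.GL.Z0
import Pool.Agent.Helper49.GL.F1

namespace GLR

open Polynomial

/-- GI-Z7. The values of `F` at the points `w - s` in terms of the Casorati entries:
`g (w - s + c_l) = g (w + c_l) ∏_{s' < s} (w + c_l - s')` (`g_sub_nat`, `g_ofReal`, `F_ofReal`). -/
theorem F_sub_nat {n J : ℕ} (p : Ix n J → ℤ) (c : Fin J → ℚ) (w : ℚ) (s : ℕ) :
    F p (fun l => (c l : ℝ)) (((w : ℝ) - s : ℝ) : ℂ) =
      ((∑ x : Ix n J, (p x : ℝ) * (∏ l, gr ((w : ℝ) + c l) ^ (x.2 l : ℕ)) *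
        (((cas c (x.1 : ℕ) (fun l => (x.2 l : ℕ)) s).eval w : ℚ) : ℝ) : ℝ) : ℂ) := by
  rw [F_ofReal]
  congr 1
  refine Finset.sum_congr rfl fun x _ => ?_
  have hgr : ∀ l, gr (((w : ℝ) - s) + c l) =
      gr ((w : ℝ) + c l) * ∏ s' ∈ Finset.range s, (((w : ℝ) + c l) - s') := by
    intro l
    have h1 := g_sub_nat (((w : ℝ) + c l : ℝ) : ℂ) s
    have h2 : (((w : ℝ) + c l : ℝ) : ℂ) - (s : ℂ) = ((((w : ℝ) - s) + c l : ℝ) : ℂ) := by
      push_cast
      ring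
    rw [h2, g_ofReal, g_ofReal] at h1
    have h3 : (∏ s' ∈ Finset.range s, ((((w : ℝ) + c l : ℝ) : ℂ) - (s' : ℂ))) =
        ((∏ s' ∈ Finset.range s, (((w : ℝ) + c l) - s') : ℝ) : ℂ) := by
      push_cast
      rfl
    rw [h3] at h1
    exact_mod_cast h1
  unfold mon cas
  simp only [hgr, eval_mul, eval_pow, eval_sub, eval_X, eval_C, eval_prod, eval_add]
  push_cast
  simp only [mul_pow, Finset.prod_mul_distrib]
  have h4 : ∀ l, (∏ s' ∈ Finset.range s, (((w : ℝ) + c l) - s')) =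
      ∏ s' ∈ Finset.range s, ((w : ℝ) + ((c l : ℝ) - s')) := fun l =>
    Finset.prod_congr rfl fun s' _ => by ring
  simp only [h4]
  ring

end GLR
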