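import Pool.Agent.Helper49.GL.A8
import Pool.Agent.Helper49.GL.Z6
import Pool.Agent.Helper49.GL.Z7

namespace GLR

open Polynomial

private theorem z8_Nc (n J : ℕ) : 1 ≤ Nc n J := Nat.one_le_pow _ _ (Nat.succ_pos n)

private theorem z8_mZ (n J : ℕ) : 2 ≤ mZ n J := by unfold mZ; omega

/-- GI-Z8. Explicit constants: the product of all losses is at most `exp (EZ n J q)`. With
`N = Nc n J`, `d = dZ n J`, `m = mZ n J`:
`(2 m q)^(n J) * (m q)^(N d) * (N * N! * (N+1)^(d N)) ≤ (2 m q (N+1))^(n J + N d + (N + 1) + d N)`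
and the exponent is `≤ 4 (N+1) (d+1)` because `n J ≤ d` (`Nc ≥ 1`). -/
theorem loss_le (n J q : ℕ) (hq : 1 ≤ q) :
    (2 * (mZ n J : ℝ) * q) ^ (n * J) * ((mZ n J : ℝ) * q) ^ (Nc n J * dZ n J) *
      ((Nc n J : ℝ) * ((Nc n J).factorial * (((Nc n J : ℝ) + 1) ^ dZ n J) ^ Nc n J))
      ≤ Real.exp (EZ n J q) := by
  have hN1 := z8_Nc n J
  have hm2 := z8_mZ n J
  have hnJ : n * J ≤ dZ n J := by
    unfold dZ
    calc n * J = n * J * 1 := (mul_one _).symm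
      _ ≤ n * J * Nc n J := Nat.mul_le_mul_left _ hN1
      _ ≤ n + n * J * Nc n J := Nat.le_add_left _ _
  set N := Nc n J with hN
  set d := dZ n J with hd
  set m := mZ n J with hm
  set B : ℝ := 2 * m * q * ((N : ℝ) + 1) with hB
  have hNr : (1 : ℝ) ≤ N := by exact_mod_cast hN1
  have hmr : (2 : ℝ) ≤ m := by exact_mod_cast hm2
  have hqr : (1 : ℝ) ≤ q := by exact_mod_cast hq
  have hmq : (1 : ℝ) ≤ (m : ℝ) * q := by nlinarith
  have h2mq : (1 : ℝ) ≤ 2 * (m : ℝ) * q := by nlinarith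
  have hB1 : 1 ≤ B := by rw [hB]; nlinarith
  have e1 : 2 * (m : ℝ) * q ≤ B := by rw [hB]; nlinarith
  have e2 : (m : ℝ) * q ≤ B := by nlinarith
  have e3 : (N : ℝ) + 1 ≤ B := by rw [hB]; nlinarith
  have e4 : (N : ℝ) ≤ B := by linarith
  have f1 : (2 * (m : ℝ) * q) ^ (n * J) ≤ B ^ (n * J) := by gcongr
  have f2 : ((m : ℝ) * q) ^ (N * d) ≤ B ^ (N * d) := by gcongr
  have f3 : ((N.factorial : ℕ) : ℝ) ≤ B ^ N := by
    calc ((N.factorial : ℕ) : ℝ) ≤ ((N ^ N : ℕ) : ℝ) := by exact_mod_cast Nat.factorial_le_pow N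
      _ = (N : ℝ) ^ N := by push_cast; ring
      _ ≤ B ^ N := by gcongr
  have f4 : (((N : ℝ) + 1) ^ d) ^ N ≤ B ^ (d * N) := by
    rw [← pow_mul]
    gcongr
  have f5 : (N : ℝ) * ((N.factorial : ℝ) * (((N : ℝ) + 1) ^ d) ^ N) ≤ B * (B ^ N * B ^ (d * N)) := by
    gcongr
  have hB0 : 0 < B := by linarith
  have hexp : Real.exp (EZ n J q) = B ^ (4 * (N + 1) * (d + 1)) := by
    have h1 : EZ n J q = ((4 * (N + 1) * (d + 1) : ℕ) : ℝ) * Real.log B := by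
      unfold EZ
      rw [hB]
      push_cast
      rfl
    rw [h1, mul_comm, Real.exp_mul, Real.exp_log hB0, Real.rpow_natCast]
  rw [hexp]
  calc (2 * (m : ℝ) * q) ^ (n * J) * ((m : ℝ) * q) ^ (N * d) *
      ((N : ℝ) * (N.factorial * (((N : ℝ) + 1) ^ d) ^ N))
      ≤ B ^ (n * J) * B ^ (N * d) * (B * (B ^ N * B ^ (d * N))) := by
        gcongr
    _ = B ^ (n * J + N * d + (1 + (N + d * N))) := by
        rw [pow_add, pow_add, pow_add, pow_add, pow_one]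
    _ ≤ B ^ (4 * (N + 1) * (d + 1)) := by
        apply pow_le_pow_right₀ hB1
        nlinarith [Nat.zero_le (N * d)]

/-- GI-Z8. THE ZERO ESTIMATE. Suppose `‖F‖ < ε := exp (- EZ)` on the disc. Choose an equivalence
`Fin (Nc n J) ≃ Ix n J` (cardinalities), the columns `e`, the point `w` from GI-Z6; the real
matrix `M s k = (cas ..).eval w` has entries `≤ (Nc+1)^dZ` and `|det M| ≥ (m q)^(-Nc dZ)`. The
vector `x k = p_k ∏ gr (w + c_l)^(α l)` satisfies `M x = (F (w - s))_s` (GI-Z7), all of absolute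
value `≤ ε` since `|w - s| ≤ Nc`. Some `p_k ≠ 0` and then `|x k| ≥ (1 / (2 m q))^(n J)`:
`w + c_l > -1` is a rational number with denominator `m q`, so `w + c_l + 1 ≥ 1 / (m q)`, and
`gr_lower` with `d = 1 / (m q)`. `cramer_est` and `loss_le` give a contradiction (take care to get
strict inequality, e.g. use the hypothesis `<`). -/
theorem zero_estimate {n J : ℕ} (p : Ix n J → ℤ) (hp : p ≠ 0) (b : Fin J → ℤ) (q : ℕ) (hq : 1 ≤ q)
    (hbq : ∀ l, |b l| < q) (hb : ∀ l l', l ≠ l' → ¬ ((q : ℤ) ∣ b l - b l')) :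
    ∃ z : ℂ, ‖z‖ ≤ (Nc n J : ℝ) ∧
      Real.exp (- EZ n J q) ≤ ‖F p (fun l => ((b l : ℝ) / q)) z‖ := by
  by_contra hcon
  push Not at hcon
  have hN1 := z8_Nc n J
  have hm2 := z8_mZ n J
  have hqr : (1 : ℝ) ≤ q := by exact_mod_cast hq
  have hmr : (2 : ℝ) ≤ (mZ n J : ℝ) := by exact_mod_cast hm2
  have hNr : (1 : ℝ) ≤ (Nc n J : ℝ) := by exact_mod_cast hN1
  have hcard : Fintype.card (Ix n J) = Nc n J := by
    simp only [Ix, Fintype.card_prod, Fintype.card_fin, Fintype.card_pi, Finset.prod_const,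
      Finset.card_univ, Nc]
    rw [pow_succ, mul_comm]
  set σ : Fin (Nc n J) ≃ Ix n J :=
    (finCongr hcard.symm).trans (Fintype.equivFin (Ix n J)).symm with hσ
  set e : Fin (Nc n J) → ℕ × (Fin J → ℕ) :=
    fun k => (((σ k).1 : ℕ), fun l => ((σ k).2 l : ℕ)) with he
  have hinj : Function.Injective e := by
    intro k k' h
    apply σ.injective
    simp only [he, Prod.mk.injEq] at h
    obtain ⟨h1, h2⟩ := h
    refine Prod.ext (Fin.ext h1) ?_
    funext l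
    exact Fin.ext (congrFun h2 l)
  obtain ⟨j, hj1, hj2, hdet⟩ := exists_w b q hq hb e hinj
    (fun k => Nat.lt_succ_iff.mp (σ k).1.isLt) (fun k l => Nat.lt_succ_iff.mp ((σ k).2 l).isLt)
  set c : Fin J → ℚ := fun l => (b l : ℚ) / q with hc
  set w : ℚ := (j : ℚ) / (mZ n J : ℚ) with hw
  have hmq0 : (0 : ℚ) < mZ n J := by exact_mod_cast (by omega : 0 < mZ n J)
  have hqq0 : (0 : ℚ) < q := by exact_mod_cast hq
  have hw0 : 0 ≤ w := by rw [hw]; positivity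
  have hw1 : w ≤ 1 := by
    rw [hw, div_le_one hmq0]
    exact_mod_cast hj2.le
  have hcabs : ∀ l, |c l| ≤ 1 := by
    intro l
    rw [hc]
    simp only
    rw [abs_div, abs_of_pos hqq0, div_le_one hqq0]
    have := (hbq l).le
    exact_mod_cast this
  set A : Matrix (Fin (Nc n J)) (Fin (Nc n J)) ℚ :=
    Matrix.of fun s k : Fin (Nc n J) => (cas c (e k).1 (e k).2 (s : ℕ)).eval w with hA
  set M : Matrix (Fin (Nc n J)) (Fin (Nc n J)) ℝ := A.map (Rat.castHom ℝ) with hM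
  have hMdet : M.det = ((A.det : ℚ) : ℝ) := by
    have h1 := RingHom.map_det (Rat.castHom ℝ) A
    rw [RingHom.mapMatrix_apply] at h1
    rw [hM, ← h1]
    rfl
  have hbig : (1 : ℝ) ≤ ((Nc n J : ℝ) + 1) ^ dZ n J := one_le_pow₀ (by linarith)
  have hMle : ∀ s k, |M s k| ≤ ((Nc n J : ℝ) + 1) ^ dZ n J := by
    intro s k
    have h1 := abs_cas_le (n := n) c hcabs (e k).1 (e k).2 (s : ℕ)
      (Nat.lt_succ_iff.mp (σ k).1.isLt) (fun l => Nat.lt_succ_iff.mp ((σ k).2 l).isLt) s.isLt w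
      hw0 hw1
    have h2 : M s k = (((cas c (e k).1 (e k).2 (s : ℕ)).eval w : ℚ) : ℝ) := rfl
    rw [h2]
    exact_mod_cast h1
  set x : Fin (Nc n J) → ℝ := fun k =>
    (p (σ k) : ℝ) * ∏ l, gr ((w : ℝ) + c l) ^ ((σ k).2 l : ℕ) with hx
  have hMx : ∀ s : Fin (Nc n J), ((Matrix.mulVec M x s : ℝ) : ℂ) =
      F p (fun l => ((b l : ℝ) / q)) (((w : ℝ) - (s : ℕ) : ℝ) : ℂ) := by
    intro s
    have h1 := F_sub_nat p c w (s : ℕ)
    have h2 : (fun l => ((c l : ℚ) : ℝ)) = fun l => ((b l : ℝ) / q) := by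
      funext l
      rw [hc]
      push_cast
      rfl
    rw [h2] at h1
    rw [h1]
    congr 1
    rw [Matrix.mulVec, dotProduct, ← Equiv.sum_comp σ]
    refine Finset.sum_congr rfl fun k _ => ?_
    have h3 : M s k = (((cas c (e k).1 (e k).2 (s : ℕ)).eval w : ℚ) : ℝ) := rfl
    rw [h3, hx]
    simp only [he]
    ring
  have hw0' : (0 : ℝ) ≤ (w : ℝ) := by exact_mod_cast hw0
  have hw1' : (w : ℝ) ≤ 1 := by exact_mod_cast hw1
  have hsmall : ∀ s : Fin (Nc n J), |Matrix.mulVec M x s| < Real.exp (- EZ n J q) := by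
    intro s
    have h1 : ‖((((w : ℝ) - (s : ℕ) : ℝ)) : ℂ)‖ ≤ (Nc n J : ℝ) := by
      rw [Complex.norm_real, Real.norm_eq_abs, abs_le]
      have h2 : ((s : ℕ) : ℝ) ≤ (Nc n J : ℝ) := by exact_mod_cast s.isLt.le
      have h3 : (0 : ℝ) ≤ ((s : ℕ) : ℝ) := Nat.cast_nonneg _
      constructor <;> linarith
    have h2 := hcon _ h1
    rw [← hMx s, Complex.norm_real, Real.norm_eq_abs] at h2
    exact h2
  have hne : ∃ y, p y ≠ 0 := by
    by_contra h
    push Not at h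
    exact hp (funext h)
  obtain ⟨y, hy⟩ := hne
  set μ0 : ℝ := 1 / ((mZ n J : ℝ) * q) with hμ0
  have hmqr : (0 : ℝ) < (mZ n J : ℝ) * q := by positivity
  have hμ0pos : 0 < μ0 := by rw [hμ0]; positivity
  have hμ0le : μ0 ≤ 1 := by
    rw [hμ0, div_le_one hmqr]
    nlinarith
  have hwμ : μ0 ≤ (w : ℝ) := by
    rw [hμ0, hw]
    push_cast
    rw [div_le_div_iff₀ hmqr (by linarith)]
    have hj1' : (1 : ℝ) ≤ j := by exact_mod_cast hj1
    have : (mZ n J : ℝ) ≤ (mZ n J : ℝ) * q := by nlinarith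
    nlinarith
  have hgr : ∀ l, μ0 / 2 ≤ gr ((w : ℝ) + c l) := by
    intro l
    have h1 : |((c l : ℚ) : ℝ)| ≤ 1 := by exact_mod_cast hcabs l
    obtain ⟨h2, h3⟩ := abs_le.mp h1
    have h4 : (w : ℝ) < 1 := by
      have : w < 1 := by
        rw [hw, div_lt_one hmq0]
        exact_mod_cast hj2
      exact_mod_cast this
    apply gr_lower <;> linarith
  have hk0 : (((2 * (mZ n J : ℝ) * q) ^ (n * J))⁻¹ : ℝ) ≤ |x (σ.symm y)| := by
    have h0 : x (σ.symm y) = (p y : ℝ) * ∏ l, gr ((w : ℝ) + c l) ^ (y.2 l : ℕ) := by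
      rw [hx]
      simp only [Equiv.apply_symm_apply]
    have h1 : (1 : ℝ) ≤ |(p y : ℝ)| := by
      have : (1 : ℤ) ≤ |p y| := Int.one_le_abs hy
      exact_mod_cast this
    have h2 : (μ0 / 2) ^ (n * J) ≤ ∏ l, gr ((w : ℝ) + c l) ^ (y.2 l : ℕ) := by
      calc (μ0 / 2) ^ (n * J) = ∏ _l : Fin J, (μ0 / 2) ^ n := by
            rw [Finset.prod_const, Finset.card_univ, Fintype.card_fin, ← pow_mul]
        _ ≤ ∏ l, gr ((w : ℝ) + c l) ^ (y.2 l : ℕ) := by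
            refine Finset.prod_le_prod (fun l _ => by positivity) fun l _ => ?_
            calc (μ0 / 2) ^ n ≤ (μ0 / 2) ^ (y.2 l : ℕ) :=
                  pow_le_pow_of_le_one (by positivity) (by linarith)
                    (Nat.lt_succ_iff.mp (y.2 l).isLt)
              _ ≤ gr ((w : ℝ) + c l) ^ (y.2 l : ℕ) :=
                  pow_le_pow_left₀ (by positivity) (hgr l) _
    have h3 : (((2 * (mZ n J : ℝ) * q) ^ (n * J))⁻¹ : ℝ) = (μ0 / 2) ^ (n * J) := by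
      rw [← inv_pow]
      congr 1
      rw [hμ0]
      field_simp
    have h4 : 0 < (μ0 / 2) ^ (n * J) := by positivity
    rw [h0, abs_mul, abs_of_pos (lt_of_lt_of_le h4 h2), h3]
    calc (μ0 / 2) ^ (n * J) ≤ ∏ l, gr ((w : ℝ) + c l) ^ (y.2 l : ℕ) := h2
      _ = 1 * ∏ l, gr ((w : ℝ) + c l) ^ (y.2 l : ℕ) := (one_mul _).symm
      _ ≤ |(p y : ℝ)| * ∏ l, gr ((w : ℝ) + c l) ^ (y.2 l : ℕ) :=
          mul_le_mul_of_nonneg_right h1 (h4.le.trans h2)
  have : Nonempty (Fin (Nc n J)) := ⟨⟨0, hN1⟩⟩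
  obtain ⟨s₀, hs₀⟩ := Finite.exists_max (fun s => |Matrix.mulVec M x s|)
  have hcr := cramer_est M hbig hMle x (σ.symm y) hk0 hs₀
  rw [Fintype.card_fin] at hcr
  set ε : ℝ := |Matrix.mulVec M x s₀| with hε
  have hεlt : ε < Real.exp (- EZ n J q) := hsmall s₀
  have hε0 : 0 ≤ ε := abs_nonneg _
  have hdet' : ((((mZ n J : ℝ) * q) ^ (Nc n J * dZ n J))⁻¹ : ℝ) ≤ |M.det| := by
    rw [hMdet, ← Rat.cast_abs]
    have h0 : (((((mZ n J : ℚ) * q) ^ (Nc n J * dZ n J))⁻¹ : ℚ) : ℝ) ≤ ((|A.det| : ℚ) : ℝ) :=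
      Rat.cast_le.mpr hdet
    refine le_trans (le_of_eq ?_) h0
    push_cast
    rfl
  have hloss := loss_le n J q hq
  set P1 : ℝ := (2 * (mZ n J : ℝ) * q) ^ (n * J) with hP1
  set P2 : ℝ := ((mZ n J : ℝ) * q) ^ (Nc n J * dZ n J) with hP2
  set P3 : ℝ := ((Nc n J).factorial * (((Nc n J : ℝ) + 1) ^ dZ n J) ^ Nc n J : ℝ) with hP3
  have hP1pos : 0 < P1 := by rw [hP1]; positivity
  have hP2pos : 0 < P2 := by rw [hP2]; positivity
  have hP3pos : 0 < P3 := by rw [hP3]; positivity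
  have h1 : P1⁻¹ * P2⁻¹ ≤ (Nc n J : ℝ) * ε * P3 :=
    (mul_le_mul_of_nonneg_left hdet' (by positivity)).trans hcr
  have h2 : 1 ≤ P1 * P2 * ((Nc n J : ℝ) * P3) * ε := by
    calc (1 : ℝ) = P1 * P2 * (P1⁻¹ * P2⁻¹) := by field_simp
      _ ≤ P1 * P2 * ((Nc n J : ℝ) * ε * P3) := by gcongr
      _ = P1 * P2 * ((Nc n J : ℝ) * P3) * ε := by ring
  have h3 : P1 * P2 * ((Nc n J : ℝ) * P3) * ε ≤ Real.exp (EZ n J q) * ε :=
    mul_le_mul_of_nonneg_right hloss hε0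
  have h4 : Real.exp (EZ n J q) * ε < Real.exp (EZ n J q) * Real.exp (- EZ n J q) :=
    mul_lt_mul_of_pos_left hεlt (Real.exp_pos _)
  rw [← Real.exp_add, add_neg_cancel, Real.exp_zero] at h4
  linarith

end GLR
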