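import Pool.Agent.Helper49.GL.C1
import Pool.Agent.Helper49.GL.P1
import Pool.Agent.Helper49.GL.P2
import Pool.Agent.Helper49.GL.P3
import Pool.Agent.Helper49.GL.Z8

namespace GLR

/-- GI-P4. THE CORE. Suppose `T2 (2q)^J ≤ q * descFactorial`. Take `b, A` from `shifts` and
`c l = b l / q`, `|c l| < 1`. Choose `A₁ ⊆ A` with `16 W` elements, `p` from `aux_fun`
(for `a ∈ A`, `a/q + c l = β/q ∈ [0,1]`). By `gap_point` the values on `A₁` are `≤ exp (-G1)`; by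
`extrap` (`r = 1`) and `hS1` the values at all `a ∈ A` are `≤ exp (-8 W)`, hence `≤ exp (-G1)` by
`gap_point` again. Choose `A₂ ⊆ A` with `T2` elements, `extrap` with `r = Nc n J` and `hS2` give
`‖F z‖ < exp (-EZ)` for `‖z‖ ≤ Nc`, contradicting `zero_estimate`. (`S = Nc * 2^n`,
`sum_abs_le`.) -/
theorem core {m n J N X q W T2 : ℕ} {θ : Fin m → ℝ} {W' G1 : ℝ} (hθ : ∀ i, |θ i| ≤ 4)
    (hJ : 1 ≤ J) (hN : 20 * J + 20 ≤ N) (hn : N ≤ n) (hX : X = n * N ^ (J + 2)) (hXW : X ≤ W)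
    (hM : Meas θ X W) (hq : 2 ≤ q) (hqN : (q : ℝ) ≤ Real.exp N) (hG1 : 0 ≤ G1)
    (hW' : (N : ℝ) ^ J * (G1 + n * J * W) + 5 * W + 1 ≤ W')
    (hbox : (2 ^ (16 * W)) ^ (16 * W) < (2 ^ n) ^ (Nc n J)) (hW : 1 + 2 * n * (J + 1) ≤ 4 * W)
    (hT2 : 16 * W ≤ T2)
    (hS1 : (2 / 7 : ℝ) ^ (16 * W) *
        (((Nc n J : ℝ) * (2 ^ n : ℕ)) * (8 * 1) ^ n * Real.exp (4 * (8 * 1 + 2) ^ 2) ^ (n * J)
          + (16 * W : ℕ) * Real.exp (-G1) * ((q : ℝ) * (8 * 1 + 1)) ^ (16 * W))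
      + (16 * W : ℕ) * Real.exp (-G1) * ((q : ℝ) * (1 + 1)) ^ (16 * W) ≤ Real.exp (-(8 * W)))
    (hS2 : (2 / 7 : ℝ) ^ T2 *
        (((Nc n J : ℝ) * (2 ^ n : ℕ)) * (8 * (Nc n J : ℝ)) ^ n
            * Real.exp (4 * (8 * (Nc n J : ℝ) + 2) ^ 2) ^ (n * J)
          + T2 * Real.exp (-G1) * ((q : ℝ) * (8 * (Nc n J : ℝ) + 1)) ^ T2)
      + T2 * Real.exp (-G1) * ((q : ℝ) * ((Nc n J : ℝ) + 1)) ^ T2 < Real.exp (- EZ n J q))
    (Bad : Finset ℕ) (hBad : ∀ x ∈ Bad, 1 ≤ x ∧ x < q ∧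
      ¬ Meas (Fin.cons (gr ((x : ℝ) / q)) θ : Fin (m + 1) → ℝ) N W') :
    q * Bad.card.descFactorial J < T2 * (2 * q) ^ J := by
  by_contra hcon
  push Not at hcon
  have hW1 : 1 ≤ W := by
    rcases Nat.eq_zero_or_pos W with h | h
    · subst h
      omega
    · exact h
  have hT2' : 1 ≤ T2 := by omega
  have hq0 : (0 : ℝ) < q := by exact_mod_cast (by omega : 0 < q)
  have hNc1 : 1 ≤ Nc n J := Nat.one_le_pow _ _ (Nat.succ_pos n)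
  have hNc1' : (1 : ℝ) ≤ (Nc n J : ℝ) := by exact_mod_cast hNc1
  obtain ⟨b, A, hb1, hb2, hA1, hA2⟩ := shifts q J T2 (by omega) hT2' Bad
    (fun x hx => (hBad x hx).2.1) hcon
  obtain ⟨A₂, hA₂s, hA₂c⟩ := Finset.exists_subset_card_eq hA1
  obtain ⟨A₁, hA₁s, hA₁c⟩ := Finset.exists_subset_card_eq (hT2.trans hA1)
  set c : Fin J → ℝ := fun l => (b l : ℝ) / q with hc
  have hcabs : ∀ l, |c l| ≤ 1 := by
    intro l
    rw [hc]
    simp only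
    rw [abs_div, abs_of_pos hq0, div_le_one hq0]
    have := (hb1 l).le
    exact_mod_cast this
  have hunit : ∀ a ∈ A, a < q ∧ ∀ l, 0 ≤ (a : ℝ) / q + c l ∧ (a : ℝ) / q + c l ≤ 1 := by
    intro a ha
    obtain ⟨h1, h2⟩ := hA2 a ha
    refine ⟨h1, fun l => ?_⟩
    obtain ⟨β, hβ, hβe⟩ := h2 l
    have h3 : (a : ℝ) + (b l : ℝ) = (β : ℝ) := by exact_mod_cast hβe
    have h4 : (a : ℝ) / q + c l = (β : ℝ) / q := by
      rw [hc]
      simp only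
      rw [← add_div, h3]
    rw [h4]
    refine ⟨by positivity, ?_⟩
    rw [div_le_one hq0]
    exact_mod_cast (hBad β hβ).2.1.le
  obtain ⟨p, hp0, hp, hval⟩ := aux_fun (n := n) (W := W) c A₁ hA₁c (by omega)
    (fun a ha => hunit a (hA₁s ha)) hbox hW
  have hgap : ∀ a ∈ A, |∑ x, (p x : ℝ) * mon c ((a : ℝ) / q) x| ≤ Real.exp (-(8 * W)) →
      |∑ x, (p x : ℝ) * mon c ((a : ℝ) / q) x| ≤ Real.exp (-G1) := by
    intro a ha hsm
    obtain ⟨h1, h2⟩ := hA2 a ha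
    choose β hβ hβe using h2
    exact gap_point hθ hJ hN hn hX hXW hM hq hqN hG1 hW' p hp b a h1 β hβe
      (fun l => ⟨(hBad _ (hβ l)).1, (hBad _ (hβ l)).2.1⟩) (fun l => (hBad _ (hβ l)).2.2) hsm
  have hS := sum_abs_le p (2 ^ n) hp
  have hG1' : (0 : ℝ) ≤ Real.exp (-G1) := (Real.exp_pos _).le
  have hall : ∀ a ∈ A, |∑ x, (p x : ℝ) * mon c ((a : ℝ) / q) x| ≤ Real.exp (-G1) := by
    intro a ha
    refine hgap a ha ?_
    have hz : ‖(((a : ℝ) / q : ℝ) : ℂ)‖ ≤ 1 := by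
      rw [Complex.norm_real, Real.norm_eq_abs, abs_of_nonneg (by positivity), div_le_one hq0]
      exact_mod_cast (hunit a ha).1.le
    have h1 := extrap p _ hS c hcabs A₁ hA₁c (by omega) (fun a ha => (hunit a (hA₁s ha)).1)
      (Real.exp (-G1)) hG1' (fun a ha => hgap a (hA₁s ha) (hval a ha)) 1 le_rfl _ hz
    rw [F_ofReal, Complex.norm_real, Real.norm_eq_abs] at h1
    exact h1.trans hS1
  obtain ⟨z, hz1, hz2⟩ := zero_estimate p hp0 b q (by omega) hb1 hb2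
  have h2 := extrap p _ hS c hcabs A₂ hA₂c (by omega) (fun a ha => (hunit a (hA₂s ha)).1)
    (Real.exp (-G1)) hG1' (fun a ha => hall a (hA₂s ha)) (Nc n J : ℝ) hNc1' z hz1
  exact lt_irrefl _ (hz2.trans_lt (h2.trans_lt hS2))

end GLR
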