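import Pool.Agent.Helper49.GL.Z0

namespace GLR

/-- Functions bounded by a power for large arguments. -/
def PB (f : ℕ → ℝ) : Prop := ∃ c N0 : ℕ, ∀ N, N0 ≤ N → f N ≤ (N : ℝ) ^ c

theorem PB.mono {f g : ℕ → ℝ} (hg : PB g) (N1 : ℕ) (h : ∀ N, N1 ≤ N → f N ≤ g N) : PB f := by
  obtain ⟨c, N0, h1⟩ := hg
  exact ⟨c, max N0 N1, fun N hN =>
    (h N ((le_max_right _ _).trans hN)).trans (h1 N ((le_max_left _ _).trans hN))⟩

theorem PB.const (a : ℝ) : PB (fun _ => a) := by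
  refine ⟨1, ⌈a⌉₊, fun N hN => ?_⟩
  have h1 : a ≤ (⌈a⌉₊ : ℝ) := Nat.le_ceil a
  have h2 : ((⌈a⌉₊ : ℕ) : ℝ) ≤ (N : ℝ) := by exact_mod_cast hN
  simpa using h1.trans h2

theorem PB.pow_self (k : ℕ) : PB (fun N => (N : ℝ) ^ k) :=
  ⟨k, 0, fun _ _ => le_rfl⟩

theorem PB.add {f g : ℕ → ℝ} (hf : PB f) (hg : PB g) : PB (fun N => f N + g N) := by
  obtain ⟨c, N0, h1⟩ := hf
  obtain ⟨d, N1, h2⟩ := hg
  refine ⟨max c d + 1, max 2 (max N0 N1), fun N hN => ?_⟩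
  have hN2 : 2 ≤ N := (le_max_left _ _).trans hN
  have hN0 : N0 ≤ N := ((le_max_left _ _).trans (le_max_right _ _)).trans hN
  have hN1 : N1 ≤ N := ((le_max_right _ _).trans (le_max_right _ _)).trans hN
  have h2' : (2 : ℝ) ≤ N := by exact_mod_cast hN2
  have h1' : (1 : ℝ) ≤ N := by linarith
  have e1 : f N ≤ (N : ℝ) ^ max c d :=
    (h1 N hN0).trans (pow_le_pow_right₀ h1' (le_max_left _ _))
  have e2 : g N ≤ (N : ℝ) ^ max c d :=
    (h2 N hN1).trans (pow_le_pow_right₀ h1' (le_max_right _ _))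
  have e3 : 2 * (N : ℝ) ^ max c d ≤ (N : ℝ) ^ (max c d + 1) := by
    rw [pow_succ, mul_comm]
    exact mul_le_mul_of_nonneg_left h2' (by positivity)
  show f N + g N ≤ _
  linarith

theorem PB.mul {f g : ℕ → ℝ} (hf : PB f) (hg : PB g) (h0 : ∀ N, 0 ≤ f N) (h0' : ∀ N, 0 ≤ g N) :
    PB (fun N => f N * g N) := by
  obtain ⟨c, N0, h1⟩ := hf
  obtain ⟨d, N1, h2⟩ := hg
  refine ⟨c + d, max N0 N1, fun N hN => ?_⟩
  rw [pow_add]
  exact mul_le_mul (h1 N ((le_max_left _ _).trans hN)) (h2 N ((le_max_right _ _).trans hN))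
    (h0' N) (by positivity)

theorem PB.pow {f : ℕ → ℝ} (hf : PB f) (h0 : ∀ N, 0 ≤ f N) (k : ℕ) :
    PB (fun N => f N ^ k) := by
  obtain ⟨c, N0, h1⟩ := hf
  refine ⟨c * k, N0, fun N hN => ?_⟩
  rw [pow_mul]
  exact pow_le_pow_left₀ (h0 N) (h1 N hN) k

/-- GI-P5. The quantities of the zero estimate are polynomially bounded when `n = N^a`. -/
theorem PB.Nc (a J : ℕ) : PB (fun N => (Nc (N ^ a) J : ℝ)) := by
  have h : PB (fun N : ℕ => ((N : ℝ) ^ a + 1) ^ (J + 1)) :=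
    PB.pow (PB.add (PB.pow_self a) (PB.const 1)) (fun N => by positivity) (J + 1)
  refine h.mono 0 fun N _ => ?_
  show ((GLR.Nc (N ^ a) J : ℕ) : ℝ) ≤ _
  unfold GLR.Nc
  push_cast
  exact le_rfl

theorem PB.dZ (a J : ℕ) : PB (fun N => (dZ (N ^ a) J : ℝ)) := by
  have h : PB (fun N : ℕ => (N : ℝ) ^ a + ((N : ℝ) ^ a * (J : ℝ)) *
      (GLR.Nc (N ^ a) J : ℝ)) := by
    refine PB.add (PB.pow_self a) (PB.mul (PB.mul (PB.pow_self a) (PB.const J) ?_ ?_)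
      (PB.Nc a J) ?_ ?_)
    · intro N; positivity
    · intro N; positivity
    · intro N; positivity
    · intro N; positivity
  refine h.mono 0 fun N _ => ?_
  show ((GLR.dZ (N ^ a) J : ℕ) : ℝ) ≤ _
  unfold GLR.dZ
  push_cast
  exact le_rfl

theorem PB.mZ (a J : ℕ) : PB (fun N => (mZ (N ^ a) J : ℝ)) := by
  have h : PB (fun N : ℕ => (GLR.Nc (N ^ a) J : ℝ) * (GLR.dZ (N ^ a) J : ℝ) + 2) := by
    refine PB.add (PB.mul (PB.Nc a J) (PB.dZ a J) ?_ ?_) (PB.const 2)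
    · intro N; positivity
    · intro N; positivity
  refine h.mono 0 fun N _ => ?_
  show ((GLR.mZ (N ^ a) J : ℕ) : ℝ) ≤ _
  unfold GLR.mZ
  push_cast
  exact le_rfl

/-- GI-P5. `EZ ≤ 4 (Nc+1)(dZ+1) (2 mZ (Nc+1) + N)` if `q ≤ exp N` (`log x ≤ x`), which is
polynomially bounded. -/
theorem EZ_le {n J q N : ℕ} (hq : 1 ≤ q) (hqN : (q : ℝ) ≤ Real.exp N) :
    EZ n J q ≤ 4 * ((Nc n J : ℝ) + 1) * ((dZ n J : ℝ) + 1) *
      (2 * mZ n J * ((Nc n J : ℝ) + 1) + N) := by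
  have hm : (0 : ℝ) < mZ n J := by
    have : 0 < mZ n J := by unfold mZ; omega
    exact_mod_cast this
  have hq0 : (0 : ℝ) < q := by exact_mod_cast hq
  have hx : (0 : ℝ) < 2 * mZ n J * ((Nc n J : ℝ) + 1) := by positivity
  have e : (2 * mZ n J * q * ((Nc n J : ℝ) + 1) : ℝ) = (2 * mZ n J * ((Nc n J : ℝ) + 1)) * q := by
    ring
  have h1 : Real.log (2 * mZ n J * ((Nc n J : ℝ) + 1)) ≤ 2 * mZ n J * ((Nc n J : ℝ) + 1) :=
    (Real.log_le_sub_one_of_pos hx).trans (by linarith)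
  have h2 : Real.log q ≤ N := (Real.log_le_iff_le_exp hq0).mpr hqN
  unfold EZ
  rw [e, Real.log_mul hx.ne' hq0.ne']
  exact mul_le_mul_of_nonneg_left (add_le_add h1 h2) (by positivity)

theorem PB.EZ (a J : ℕ) : PB (fun N => 4 * ((GLR.Nc (N ^ a) J : ℝ) + 1) * ((GLR.dZ (N ^ a) J : ℝ) + 1) *
      (2 * GLR.mZ (N ^ a) J * ((GLR.Nc (N ^ a) J : ℝ) + 1) + N)) := by
  have hN : PB (fun N : ℕ => ((N : ℕ) : ℝ)) := by simpa using PB.pow_self 1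
  have h1 : PB (fun N : ℕ => (GLR.Nc (N ^ a) J : ℝ) + 1) := PB.add (PB.Nc a J) (PB.const 1)
  have h2 : PB (fun N : ℕ => (GLR.dZ (N ^ a) J : ℝ) + 1) := PB.add (PB.dZ a J) (PB.const 1)
  have h3 : PB (fun N : ℕ => 4 * ((GLR.Nc (N ^ a) J : ℝ) + 1)) :=
    PB.mul (PB.const 4) h1 (fun N => by positivity) (fun N => by positivity)
  have h4 : PB (fun N : ℕ => 4 * ((GLR.Nc (N ^ a) J : ℝ) + 1) * ((GLR.dZ (N ^ a) J : ℝ) + 1)) :=
    PB.mul h3 h2 (fun N => by positivity) (fun N => by positivity)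
  have h5 : PB (fun N : ℕ => 2 * (GLR.mZ (N ^ a) J : ℝ)) :=
    PB.mul (PB.const 2) (PB.mZ a J) (fun N => by positivity) (fun N => by positivity)
  have h6 : PB (fun N : ℕ => 2 * (GLR.mZ (N ^ a) J : ℝ) * ((GLR.Nc (N ^ a) J : ℝ) + 1)) :=
    PB.mul h5 h1 (fun N => by positivity) (fun N => by positivity)
  have h7 : PB (fun N : ℕ => 2 * (GLR.mZ (N ^ a) J : ℝ) * ((GLR.Nc (N ^ a) J : ℝ) + 1) + N) :=
    PB.add h6 hN
  exact PB.mul h4 h7 (fun N => by positivity) (fun N => by positivity)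

end GLR
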