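import Pool.Agent.Helper49.GL.P5

namespace GLR

/-- GI-P6. The box inequality: with `J = 2 κ`, `n = N^(2 κ (κ+1) + 1)`, `W = (n N^(J+2))^κ`:
`256 W^2 = 256 n^(2 κ) N^(4 κ (κ+1)) < n^(2 κ) n^2 ≤ n (n+1)^(2 κ + 1)` for `N ≥ 17`. -/
theorem box_ineq (κ N n W : ℕ) (hκ : 1 ≤ κ) (hN : 17 ≤ N) (hn : n = N ^ (2 * κ * (κ + 1) + 1))
    (hW : W = (n * N ^ (2 * κ + 2)) ^ κ) :
    (2 ^ (16 * W)) ^ (16 * W) < (2 ^ n) ^ (Nc n (2 * κ)) := by
  rw [← pow_mul, ← pow_mul]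
  apply Nat.pow_lt_pow_right (by norm_num)
  unfold Nc
  have hN0 : 0 < N := by omega
  have hn0 : 0 < n := by rw [hn]; positivity
  have h1 : W * W = n ^ (2 * κ) * N ^ (4 * κ * (κ + 1)) := by
    rw [hW, ← pow_two, ← pow_mul, mul_pow, ← pow_mul]
    congr 1
    · congr 1; ring
    · congr 1; ring
  have h2 : n ^ 2 = N ^ (4 * κ * (κ + 1)) * N ^ 2 := by
    rw [hn, ← pow_mul, ← pow_add]
    congr 1
    ring
  have h3 : 256 < N ^ 2 := by nlinarith
  have h4 : 16 * W * (16 * W) = n ^ (2 * κ) * (N ^ (4 * κ * (κ + 1)) * 256) := by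
    calc 16 * W * (16 * W) = 256 * (W * W) := by ring
      _ = _ := by rw [h1]; ring
  rw [h4]
  have h5 : N ^ (4 * κ * (κ + 1)) * 256 < n ^ 2 := by
    rw [h2]
    exact Nat.mul_lt_mul_of_pos_left h3 (by positivity)
  calc n ^ (2 * κ) * (N ^ (4 * κ * (κ + 1)) * 256) < n ^ (2 * κ) * n ^ 2 :=
        Nat.mul_lt_mul_of_pos_left h5 (by positivity)
    _ = n * n ^ (2 * κ + 1) := by ring
    _ ≤ n * (n + 1) ^ (2 * κ + 1) :=
        Nat.mul_le_mul_left _ (Nat.pow_le_pow_left (by omega) _)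

private lemma two_seven_pow (t : ℕ) : (2 / 7 : ℝ) ^ t ≤ Real.exp (-(t : ℝ)) := by
  have h1 : (2 / 7 : ℝ) ≤ Real.exp (-1) := by
    rw [Real.exp_neg]
    have h := Real.exp_one_lt_d9
    rw [show (2 / 7 : ℝ) = (7 / 2 : ℝ)⁻¹ by norm_num]
    exact inv_anti₀ (Real.exp_pos 1) (by linarith)
  calc (2 / 7 : ℝ) ^ t ≤ (Real.exp (-1)) ^ t := pow_le_pow_left₀ (by norm_num) h1 t
    _ = Real.exp (-(t : ℝ)) := by rw [← Real.exp_nat_mul]; congr 1; ring

private lemma le_exp_self (x : ℝ) : x ≤ Real.exp x := by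
  have := Real.add_one_le_exp x
  linarith

private lemma eight_le_exp : (8 : ℝ) ≤ Real.exp 3 := by
  have h : Real.exp 3 = Real.exp 1 ^ 3 := by rw [← Real.exp_nat_mul]; norm_num
  have h1 := Real.exp_one_gt_d9
  rw [h]
  have h2 : (2.7 : ℝ) ≤ Real.exp 1 := by linarith
  calc (8 : ℝ) ≤ 2.7 ^ 3 := by norm_num
    _ ≤ Real.exp 1 ^ 3 := pow_le_pow_left₀ (by norm_num) h2 3

private lemma nine_le_exp : (9 : ℝ) ≤ Real.exp 3 := by
  have h : Real.exp 3 = Real.exp 1 ^ 3 := by rw [← Real.exp_nat_mul]; norm_num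
  have h1 := Real.exp_one_gt_d9
  rw [h]
  have h2 : (2.7 : ℝ) ≤ Real.exp 1 := by linarith
  calc (9 : ℝ) ≤ 2.7 ^ 3 := by norm_num
    _ ≤ Real.exp 1 ^ 3 := pow_le_pow_left₀ (by norm_num) h2 3

private lemma two_le_exp : (2 : ℝ) ≤ Real.exp 1 := by
  have h1 := Real.exp_one_gt_d9
  linarith

private lemma pow_le_exp {x y : ℝ} (h0 : 0 ≤ x) (h : x ≤ Real.exp y) (t : ℕ) :
    x ^ t ≤ Real.exp (t * y) := by
  rw [Real.exp_nat_mul]
  exact pow_le_pow_left₀ h0 h t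

private lemma two_pow_cast (n : ℕ) : (((2 ^ n : ℕ)) : ℝ) ≤ Real.exp n := by
  push_cast
  have := pow_le_exp (by norm_num) two_le_exp n
  simpa using this

/-- GI-P6. The first Schwarz inequality: `2/7 ≤ exp (-1)`; `log` of the sup bound is
`≤ (J+1) n + n + 3 n + 400 n J ≤ W`; so the three terms are `≤ exp (-15 W)`,
`exp (-16 W + 16 W + 16 W (N + 3) - G1)`, `exp (16 W + 16 W (N + 1) - G1)` (use `16 W ≤ exp (16 W)`,
`9 ≤ exp 3`, `q ≤ exp N`). -/
theorem S1_ineq (J n N W q : ℕ) (G1 : ℝ) (hJ : 1 ≤ J) (hq : 1 ≤ q) (hqN : (q : ℝ) ≤ Real.exp N)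
    (hW : 500 * (J + 1) * n ≤ W) (hn : 1 ≤ n) (hG : 16 * (W : ℝ) * (N + 5) + 10 * W ≤ G1) :
    (2 / 7 : ℝ) ^ (16 * W) *
        (((Nc n J : ℝ) * (2 ^ n : ℕ)) * (8 * 1) ^ n * Real.exp (4 * (8 * 1 + 2) ^ 2) ^ (n * J)
          + (16 * W : ℕ) * Real.exp (-G1) * ((q : ℝ) * (8 * 1 + 1)) ^ (16 * W))
      + (16 * W : ℕ) * Real.exp (-G1) * ((q : ℝ) * (1 + 1)) ^ (16 * W) ≤ Real.exp (-(8 * W)) := by
  have hW1 : (1 : ℝ) ≤ W := by
    have : 1 ≤ W := by
      have : 1 ≤ 500 * (J + 1) * n := by nlinarith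
      omega
    exact_mod_cast this
  have hWr : 500 * ((J : ℝ) + 1) * n ≤ W := by exact_mod_cast hW
  have hnr : (1 : ℝ) ≤ n := by exact_mod_cast hn
  have hJr : (1 : ℝ) ≤ J := by exact_mod_cast hJ
  have hNc : (Nc n J : ℝ) ≤ Real.exp ((J + 1) * n) := by
    unfold Nc
    push_cast
    have h := pow_le_exp (x := (n : ℝ) + 1) (y := n) (by positivity) (Real.add_one_le_exp _) (J + 1)
    refine h.trans (le_of_eq ?_)
    push_cast
    ring_nf
  have h2n := two_pow_cast n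
  have h8 : ((8 : ℝ) * 1) ^ n ≤ Real.exp (n * 3) := pow_le_exp (by norm_num) (by
    have := eight_le_exp; linarith) n
  have hE : Real.exp (4 * (8 * 1 + 2) ^ 2) ^ (n * J) = Real.exp (n * J * 400) := by
    rw [← Real.exp_nat_mul]
    congr 1
    push_cast
    ring
  have hT : ((16 * W : ℕ) : ℝ) = 16 * W := by push_cast; ring
  have hTe : ((16 * W : ℕ) : ℝ) ≤ Real.exp (16 * W) := by
    rw [hT]; exact le_exp_self _
  have hq9 : ((q : ℝ) * (8 * 1 + 1)) ^ (16 * W) ≤ Real.exp (16 * W * (N + 3)) := by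
    have h := pow_le_exp (x := (q : ℝ) * (8 * 1 + 1)) (y := N + 3) (by positivity) (by
      rw [Real.exp_add]
      have := nine_le_exp
      exact mul_le_mul hqN (by linarith) (by norm_num) (Real.exp_pos _).le) (16 * W)
    rw [hT] at h
    exact h
  have hq2 : ((q : ℝ) * (1 + 1)) ^ (16 * W) ≤ Real.exp (16 * W * (N + 1)) := by
    have h := pow_le_exp (x := (q : ℝ) * (1 + 1)) (y := N + 1) (by positivity) (by
      rw [Real.exp_add]
      have := two_le_exp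
      exact mul_le_mul hqN (by linarith) (by norm_num) (Real.exp_pos _).le) (16 * W)
    rw [hT] at h
    exact h
  have h27 : (2 / 7 : ℝ) ^ (16 * W) ≤ Real.exp (-(16 * W)) := by
    have h := two_seven_pow (16 * W)
    rw [hT] at h
    exact h
  have hA : (2 / 7 : ℝ) ^ (16 * W) *
      (((Nc n J : ℝ) * (2 ^ n : ℕ)) * (8 * 1) ^ n * Real.exp (4 * (8 * 1 + 2) ^ 2) ^ (n * J))
      ≤ Real.exp (-(15 * W)) := by
    rw [hE]
    calc (2 / 7 : ℝ) ^ (16 * W) *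
          (((Nc n J : ℝ) * (2 ^ n : ℕ)) * (8 * 1) ^ n * Real.exp (n * J * 400))
        ≤ Real.exp (-(16 * W)) * ((Real.exp ((J + 1) * n) * Real.exp n) * Real.exp (n * 3) *
          Real.exp (n * J * 400)) := by gcongr
      _ = Real.exp (-(16 * W) + (((J + 1) * n + n) + n * 3 + n * J * 400)) := by
          rw [← Real.exp_add, ← Real.exp_add, ← Real.exp_add, ← Real.exp_add]
      _ ≤ Real.exp (-(15 * W)) := by
          apply Real.exp_le_exp.mpr
          nlinarith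
  have hB : (2 / 7 : ℝ) ^ (16 * W) *
      ((16 * W : ℕ) * Real.exp (-G1) * ((q : ℝ) * (8 * 1 + 1)) ^ (16 * W)) ≤ Real.exp (-(15 * W)) := by
    calc (2 / 7 : ℝ) ^ (16 * W) *
          ((16 * W : ℕ) * Real.exp (-G1) * ((q : ℝ) * (8 * 1 + 1)) ^ (16 * W))
        ≤ Real.exp (-(16 * W)) * (Real.exp (16 * W) * Real.exp (-G1) *
          Real.exp (16 * W * (N + 3))) := by gcongr
      _ = Real.exp (-(16 * W) + (16 * W + -G1 + 16 * W * (N + 3))) := by
          rw [← Real.exp_add, ← Real.exp_add, ← Real.exp_add]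
      _ ≤ Real.exp (-(15 * W)) := by
          apply Real.exp_le_exp.mpr
          nlinarith
  have hC : (16 * W : ℕ) * Real.exp (-G1) * ((q : ℝ) * (1 + 1)) ^ (16 * W)
      ≤ Real.exp (-(15 * W)) := by
    calc (16 * W : ℕ) * Real.exp (-G1) * ((q : ℝ) * (1 + 1)) ^ (16 * W)
        ≤ Real.exp (16 * W) * Real.exp (-G1) * Real.exp (16 * W * (N + 1)) := by gcongr
      _ = Real.exp (16 * W + -G1 + 16 * W * (N + 1)) := by
          rw [← Real.exp_add, ← Real.exp_add]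
      _ ≤ Real.exp (-(15 * W)) := by
          apply Real.exp_le_exp.mpr
          nlinarith
  have h3 : 3 * Real.exp (-(15 * W)) ≤ Real.exp (-(8 * (W : ℝ))) := by
    have e : Real.exp (-(8 * (W : ℝ))) = Real.exp (7 * W) * Real.exp (-(15 * W)) := by
      rw [← Real.exp_add]; congr 1; ring
    rw [e]
    apply mul_le_mul_of_nonneg_right _ (Real.exp_pos _).le
    have := Real.add_one_le_exp (7 * (W : ℝ))
    linarith
  rw [mul_add]
  refine (add_le_add (add_le_add hA hB) hC).trans ?_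
  refine le_trans (le_of_eq ?_) h3
  ring

/-- GI-P6. The second Schwarz inequality: with `T2 ≥ L + E + 2`,
`L = Nc + n + 8 n Nc + 4 (8 Nc + 2)^2 n J ≥ log (sup bound)`, and
`G1 ≥ T2 (N + 8 Nc + 4) + E + 2`: the three terms are `≤ exp (-E - 2)`, and `3 exp (-2) < 1`. -/
theorem S2_ineq (J n N q T2 : ℕ) (E G1 : ℝ) (hq : 1 ≤ q) (hqN : (q : ℝ) ≤ Real.exp N)
    (hE : EZ n J q ≤ E)
    (hT : (Nc n J : ℝ) + n + 8 * n * Nc n J + 4 * (8 * (Nc n J : ℝ) + 2) ^ 2 * (n * J) + E + 2 ≤ T2)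
    (hG : (T2 : ℝ) * (N + 8 * Nc n J + 4) + E + 2 ≤ G1) :
    (2 / 7 : ℝ) ^ T2 *
        (((Nc n J : ℝ) * (2 ^ n : ℕ)) * (8 * (Nc n J : ℝ)) ^ n
            * Real.exp (4 * (8 * (Nc n J : ℝ) + 2) ^ 2) ^ (n * J)
          + T2 * Real.exp (-G1) * ((q : ℝ) * (8 * (Nc n J : ℝ) + 1)) ^ T2)
      + T2 * Real.exp (-G1) * ((q : ℝ) * ((Nc n J : ℝ) + 1)) ^ T2 < Real.exp (- EZ n J q) := by
  set c : ℝ := (Nc n J : ℝ) with hc
  have hc0 : 0 ≤ c := by positivity
  have h2n := two_pow_cast n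
  have hcE : c ≤ Real.exp c := le_exp_self c
  have h8 : (8 * c) ^ n ≤ Real.exp (n * (8 * c)) := pow_le_exp (by positivity) (le_exp_self _) n
  have hE2 : Real.exp (4 * (8 * c + 2) ^ 2) ^ (n * J) = Real.exp (n * J * (4 * (8 * c + 2) ^ 2)) := by
    rw [← Real.exp_nat_mul]
    congr 1
    push_cast
    ring
  have hTe : (T2 : ℝ) ≤ Real.exp T2 := le_exp_self _
  have hT0 : (0 : ℝ) ≤ T2 := by positivity
  have hq8 : ((q : ℝ) * (8 * c + 1)) ^ T2 ≤ Real.exp (T2 * (N + 8 * c)) :=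
    pow_le_exp (by positivity) (by
      rw [Real.exp_add]
      exact mul_le_mul hqN (Real.add_one_le_exp _) (by positivity) (Real.exp_pos _).le) T2
  have hq1 : ((q : ℝ) * (c + 1)) ^ T2 ≤ Real.exp (T2 * (N + c)) :=
    pow_le_exp (by positivity) (by
      rw [Real.exp_add]
      exact mul_le_mul hqN (Real.add_one_le_exp _) (by positivity) (Real.exp_pos _).le) T2
  have h27 := two_seven_pow T2
  have hN0 : (0 : ℝ) ≤ N := by positivity
  have hA : (2 / 7 : ℝ) ^ T2 * ((c * (2 ^ n : ℕ)) * (8 * c) ^ n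
      * Real.exp (4 * (8 * c + 2) ^ 2) ^ (n * J)) ≤ Real.exp (-E - 2) := by
    rw [hE2]
    calc (2 / 7 : ℝ) ^ T2 * ((c * (2 ^ n : ℕ)) * (8 * c) ^ n
          * Real.exp (n * J * (4 * (8 * c + 2) ^ 2)))
        ≤ Real.exp (-(T2 : ℝ)) * ((Real.exp c * Real.exp n) * Real.exp (n * (8 * c)) *
          Real.exp (n * J * (4 * (8 * c + 2) ^ 2))) := by gcongr
      _ = Real.exp (-(T2 : ℝ) + ((c + n) + n * (8 * c) + n * J * (4 * (8 * c + 2) ^ 2))) := by
          rw [← Real.exp_add, ← Real.exp_add, ← Real.exp_add, ← Real.exp_add]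
      _ ≤ Real.exp (-E - 2) := by
          apply Real.exp_le_exp.mpr
          linarith
  have hTN : 0 ≤ (T2 : ℝ) * N := by positivity
  have hTc : 0 ≤ (T2 : ℝ) * c := by positivity
  have hB : (2 / 7 : ℝ) ^ T2 *
      (T2 * Real.exp (-G1) * ((q : ℝ) * (8 * c + 1)) ^ T2) ≤ Real.exp (-E - 2) := by
    calc (2 / 7 : ℝ) ^ T2 *
          (T2 * Real.exp (-G1) * ((q : ℝ) * (8 * c + 1)) ^ T2)
        ≤ Real.exp (-(T2 : ℝ)) * (Real.exp T2 * Real.exp (-G1) *
          Real.exp (T2 * (N + 8 * c))) := by gcongr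
      _ = Real.exp (-(T2 : ℝ) + (T2 + -G1 + T2 * (N + 8 * c))) := by
          rw [← Real.exp_add, ← Real.exp_add, ← Real.exp_add]
      _ ≤ Real.exp (-E - 2) := by
          apply Real.exp_le_exp.mpr
          nlinarith
  have hC : T2 * Real.exp (-G1) * ((q : ℝ) * (c + 1)) ^ T2 ≤ Real.exp (-E - 2) := by
    calc T2 * Real.exp (-G1) * ((q : ℝ) * (c + 1)) ^ T2
        ≤ Real.exp T2 * Real.exp (-G1) * Real.exp (T2 * (N + c)) := by gcongr
      _ = Real.exp (T2 + -G1 + T2 * (N + c)) := by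
          rw [← Real.exp_add, ← Real.exp_add]
      _ ≤ Real.exp (-E - 2) := by
          apply Real.exp_le_exp.mpr
          nlinarith
  have h3 : 3 * Real.exp (-E - 2) < Real.exp (-E) := by
    have e : Real.exp (-E) = Real.exp 2 * Real.exp (-E - 2) := by
      rw [← Real.exp_add]; congr 1; ring
    rw [e]
    apply mul_lt_mul_of_pos_right _ (Real.exp_pos _)
    have e2 : Real.exp 2 = Real.exp 1 ^ 2 := by rw [← Real.exp_nat_mul]; norm_num
    have h1 := two_le_exp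
    rw [e2]
    nlinarith
  have h4 : Real.exp (-E) ≤ Real.exp (- EZ n J q) := Real.exp_le_exp.mpr (by linarith)
  rw [mul_add]
  refine lt_of_le_of_lt (add_le_add (add_le_add hA hB) hC) (lt_of_lt_of_le ?_ h4)
  refine lt_of_le_of_lt (le_of_eq ?_) h3
  ring

end GLR
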