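import Pool.Agent.Helper49.GL.P4
import Pool.Agent.Helper49.GL.P6

namespace GLR

private lemma p7_pow (a : ℕ) : PB (fun N => ((N ^ a : ℕ) : ℝ)) := by
  refine (PB.pow_self a).mono 0 fun N _ => ?_
  push_cast
  exact le_rfl

private lemma p7_W (e κ : ℕ) : PB (fun N => (((N ^ e) ^ κ : ℕ) : ℝ)) := by
  refine (PB.pow_self (e * κ)).mono 0 fun N _ => ?_
  push_cast
  rw [pow_mul]

/-- the exponent bound of the zero estimate -/
private noncomputable def p7E (a J N : ℕ) : ℝ :=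
  4 * ((Nc (N ^ a) J : ℝ) + 1) * ((dZ (N ^ a) J : ℝ) + 1) *
      (2 * mZ (N ^ a) J * ((Nc (N ^ a) J : ℝ) + 1) + N)

private lemma p7E_nonneg (a J N : ℕ) : 0 ≤ p7E a J N := by
  unfold p7E
  positivity

private lemma p7E_PB (a J : ℕ) : PB (fun N => p7E a J N) := PB.EZ a J

private noncomputable def p7L (a J N : ℕ) : ℝ :=
  (Nc (N ^ a) J : ℝ) + ((N ^ a : ℕ) : ℝ) + 8 * ((N ^ a : ℕ) : ℝ) * Nc (N ^ a) J +
    4 * (8 * (Nc (N ^ a) J : ℝ) + 2) ^ 2 * (((N ^ a : ℕ) : ℝ) * J) + p7E a J N + 2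

private lemma p7L_PB (a J : ℕ) : PB (fun N => p7L a J N) := by
  have h1 : PB (fun N => 8 * ((N ^ a : ℕ) : ℝ)) :=
    PB.mul (PB.const 8) (p7_pow a) (fun N => by positivity) (fun N => by positivity)
  have h2 : PB (fun N => 8 * ((N ^ a : ℕ) : ℝ) * (Nc (N ^ a) J : ℝ)) :=
    PB.mul h1 (PB.Nc a J) (fun N => by positivity) (fun N => by positivity)
  have h3 : PB (fun N => 8 * (Nc (N ^ a) J : ℝ)) :=
    PB.mul (PB.const 8) (PB.Nc a J) (fun N => by positivity) (fun N => by positivity)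
  have h4 : PB (fun N => 8 * (Nc (N ^ a) J : ℝ) + 2) := PB.add h3 (PB.const 2)
  have h5 : PB (fun N => (8 * (Nc (N ^ a) J : ℝ) + 2) ^ 2) :=
    PB.pow h4 (fun N => by positivity) 2
  have h6 : PB (fun N => 4 * (8 * (Nc (N ^ a) J : ℝ) + 2) ^ 2) :=
    PB.mul (PB.const 4) h5 (fun N => by positivity) (fun N => by positivity)
  have h7 : PB (fun N => ((N ^ a : ℕ) : ℝ) * (J : ℝ)) :=
    PB.mul (p7_pow a) (PB.const J) (fun N => by positivity) (fun N => by positivity)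
  have h8 : PB (fun N => 4 * (8 * (Nc (N ^ a) J : ℝ) + 2) ^ 2 * (((N ^ a : ℕ) : ℝ) * J)) :=
    PB.mul h6 h7 (fun N => by positivity) (fun N => by positivity)
  exact PB.add (PB.add (PB.add (PB.add (PB.add (PB.Nc a J) (p7_pow a)) h2) h8) (p7E_PB a J))
    (PB.const 2)

private noncomputable def p7G (a J e κ c N : ℕ) : ℝ :=
  ((N ^ c : ℕ) : ℝ) * (N + 8 * Nc (N ^ a) J + 4) + p7E a J N + 2 +
    16 * (((N ^ e) ^ κ : ℕ) : ℝ) * (N + 5) + 10 * (((N ^ e) ^ κ : ℕ) : ℝ)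

private lemma p7G_nonneg (a J e κ c N : ℕ) : 0 ≤ p7G a J e κ c N := by
  have := p7E_nonneg a J N
  unfold p7G
  positivity

private lemma p7G_PB (a J e κ c : ℕ) : PB (fun N => p7G a J e κ c N) := by
  have hN : PB (fun N : ℕ => ((N : ℕ) : ℝ)) := by simpa using PB.pow_self 1
  have h1 : PB (fun N => 8 * (Nc (N ^ a) J : ℝ)) :=
    PB.mul (PB.const 8) (PB.Nc a J) (fun N => by positivity) (fun N => by positivity)
  have h2 : PB (fun N : ℕ => (N : ℝ) + 8 * (Nc (N ^ a) J : ℝ) + 4) :=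
    PB.add (PB.add hN h1) (PB.const 4)
  have h3 : PB (fun N : ℕ => ((N ^ c : ℕ) : ℝ) * ((N : ℝ) + 8 * (Nc (N ^ a) J : ℝ) + 4)) :=
    PB.mul (p7_pow c) h2 (fun N => by positivity) (fun N => by positivity)
  have h4 : PB (fun N : ℕ => 16 * (((N ^ e) ^ κ : ℕ) : ℝ)) :=
    PB.mul (PB.const 16) (p7_W e κ) (fun N => by positivity) (fun N => by positivity)
  have h5 : PB (fun N : ℕ => 16 * (((N ^ e) ^ κ : ℕ) : ℝ) * ((N : ℝ) + 5)) :=
    PB.mul h4 (PB.add hN (PB.const 5)) (fun N => by positivity) (fun N => by positivity)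
  have h6 : PB (fun N : ℕ => 10 * (((N ^ e) ^ κ : ℕ) : ℝ)) :=
    PB.mul (PB.const 10) (p7_W e κ) (fun N => by positivity) (fun N => by positivity)
  exact PB.add (PB.add (PB.add (PB.add h3 (p7E_PB a J)) (PB.const 2)) h5) h6

private lemma p7V_PB (a J e κ c : ℕ) : PB (fun N : ℕ => (N : ℝ) ^ J *
    (p7G a J e κ c N + ((N ^ a : ℕ) : ℝ) * J * (((N ^ e) ^ κ : ℕ) : ℝ)) +
      5 * (((N ^ e) ^ κ : ℕ) : ℝ) + 1) := by
  have h1 : PB (fun N : ℕ => ((N ^ a : ℕ) : ℝ) * (J : ℝ)) :=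
    PB.mul (p7_pow a) (PB.const J) (fun N => by positivity) (fun N => by positivity)
  have h2 : PB (fun N : ℕ => ((N ^ a : ℕ) : ℝ) * (J : ℝ) * (((N ^ e) ^ κ : ℕ) : ℝ)) :=
    PB.mul h1 (p7_W e κ) (fun N => by positivity) (fun N => by positivity)
  have h3 := PB.add (p7G_PB a J e κ c) h2
  have h4 := PB.mul (PB.pow_self J) h3 (fun N => by positivity)
    (fun N => by have := p7G_nonneg a J e κ c N; positivity)
  have h5 : PB (fun N : ℕ => 5 * (((N ^ e) ^ κ : ℕ) : ℝ)) :=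
    PB.mul (PB.const 5) (p7_W e κ) (fun N => by positivity) (fun N => by positivity)
  exact PB.add (PB.add h4 h5) (PB.const 1)

/-- GI-P7. PROPOSITION B: parameters `J = 2 κ`, `n = N^(2κ(κ+1)+1)`, `X = n N^(J+2) = N^e`,
`W = X^κ`, `T2 = N^t'` (large power, from `PB` bounds of `E` and `L` of `S2_ineq` and of `16 W`),
`G1 = T2 (N + 8 Nc + 4) + E + 2 + 16 W (N + 5) + 10 W`, `W' = N^κ'`. `core` and `card_of_not` give
`card ≤ 4 J T2 q^(1 - 1/J) ≤ N^t q^(1-1/J)`. -/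
theorem propB (κ : ℕ) (hκ : 1 ≤ κ) : ∃ e κ' t N0 : ℕ, 1 ≤ e ∧ 1 ≤ κ' ∧
    ∀ N, N0 ≤ N → ∀ q : ℕ, 2 ≤ q → (q : ℝ) ≤ Real.exp N →
    ∀ (m : ℕ) (θ : Fin m → ℝ), (∀ i, |θ i| ≤ 4) → Meas θ (N ^ e) (((N ^ e) ^ κ : ℕ) : ℝ) →
    ∀ Bad : Finset ℕ, (∀ x ∈ Bad, 1 ≤ x ∧ x < q ∧
      ¬ Meas (Fin.cons (gr ((x : ℝ) / q)) θ : Fin (m + 1) → ℝ) N ((N : ℝ) ^ κ')) →
    (Bad.card : ℝ) ≤ (N : ℝ) ^ t * (q : ℝ) ^ (1 - 1 / ((2 * κ : ℕ) : ℝ)) := by
  set J := 2 * κ with hJdef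
  set a := 2 * κ * (κ + 1) + 1 with hadef
  set e := a + (J + 2) with hedef
  -- the exponent of `T2`
  obtain ⟨c, N1, hc⟩ := PB.add (p7L_PB a J) (PB.mul (PB.const 16) (p7_W e κ)
    (fun N => by positivity) (fun N => by positivity))
  obtain ⟨c', N2, hc'⟩ := p7V_PB a J e κ c
  refine ⟨e, c' + 1, c + 1, N1 + N2 + 500 * (J + 1) + 20 * J + 20 + 4 * J + 17, by omega, by omega,
    ?_⟩
  intro N hN q hq hqN m θ hθ hM Bad hBad
  have hN0 : 1 ≤ N := by omega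
  have hNr : (1 : ℝ) ≤ N := by exact_mod_cast hN0
  have hcN := hc N (by omega)
  have hcN' := hc' N (by omega)
  set n := N ^ a with hndef
  set W := (N ^ e) ^ κ with hWdef
  have hJ1 : 1 ≤ J := by omega
  have hn1 : 1 ≤ n := Nat.one_le_pow _ _ hN0
  have hX : N ^ e = n * N ^ (J + 2) := by rw [hedef, pow_add]
  have hXW : N ^ e ≤ W := Nat.le_self_pow (by omega) _
  have hNn : N ≤ n := Nat.le_self_pow (by omega) _
  have h500 : 500 * (J + 1) * n ≤ W := by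
    calc 500 * (J + 1) * n ≤ N * n := Nat.mul_le_mul_right _ (by omega)
      _ ≤ N ^ (J + 2) * n := Nat.mul_le_mul_right _ (Nat.le_self_pow (by omega) _)
      _ = N ^ e := by rw [hX, mul_comm]
      _ ≤ W := hXW
  have hW0 : (0 : ℝ) ≤ (W : ℝ) := Nat.cast_nonneg _
  have hL0 : 0 ≤ p7L a J N := by
    have := p7E_nonneg a J N
    unfold p7L
    positivity
  have hTL : p7L a J N ≤ ((N ^ c : ℕ) : ℝ) := by
    push_cast
    have : (0 : ℝ) ≤ 16 * (W : ℝ) := by positivity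
    linarith
  have hTW : 16 * W ≤ N ^ c := by
    have : (16 : ℝ) * (W : ℝ) ≤ (N : ℝ) ^ c := by linarith
    exact_mod_cast this
  have hE := EZ_le (n := n) (J := J) (q := q) (N := N) (by omega) hqN
  have hE' : EZ n J q ≤ p7E a J N := hE
  have hE0 := p7E_nonneg a J N
  have hG0 := p7G_nonneg a J e κ c N
  have hG1 : 16 * (W : ℝ) * (N + 5) + 10 * W ≤ p7G a J e κ c N := by
    have h1 : (0 : ℝ) ≤ ((N ^ c : ℕ) : ℝ) * (N + 8 * Nc (N ^ a) J + 4) := by positivity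
    unfold p7G
    linarith
  have hG2 : ((N ^ c : ℕ) : ℝ) * (N + 8 * Nc n J + 4) + p7E a J N + 2 ≤ p7G a J e κ c N := by
    have h1 : (0 : ℝ) ≤ 16 * (W : ℝ) * (N + 5) := by positivity
    have h2 : (0 : ℝ) ≤ 10 * (W : ℝ) := by positivity
    unfold p7G
    linarith
  have hV : (N : ℝ) ^ J * (p7G a J e κ c N + n * J * W) + 5 * W + 1 ≤ (N : ℝ) ^ (c' + 1) := by
    refine le_trans ?_ (pow_le_pow_right₀ hNr (Nat.le_succ c'))
    exact hcN'
  have hcore := core (T2 := N ^ c) hθ hJ1 (by omega) hNn hX hXW hM hq hqN hG0 hV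
    (box_ineq κ N n W hκ (by omega) rfl (by rw [hWdef, hX]))
    (by nlinarith) hTW
    (S1_ineq J n N W q _ hJ1 (by omega) hqN h500 hn1 hG1)
    (S2_ineq J n N q (N ^ c) (p7E a J N) _ (by omega) hqN hE' hTL hG2) Bad hBad
  have hfin := card_of_not q J (N ^ c) Bad.card (by omega) (Nat.one_le_pow _ _ hN0) hJ1 hcore
  refine hfin.trans ?_
  have h4J : (4 : ℝ) * J ≤ N := by
    have : 4 * J ≤ N := by omega
    exact_mod_cast this
  have h5 : (4 : ℝ) * J * ((N ^ c : ℕ) : ℝ) ≤ (N : ℝ) ^ (c + 1) := by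
    push_cast
    rw [pow_succ, mul_comm ((N : ℝ) ^ c)]
    exact mul_le_mul_of_nonneg_right h4J (by positivity)
  exact mul_le_mul_of_nonneg_right h5 (by positivity)

end GLR
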