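import Pool.Agent.Helper49.GL.Def

namespace GLR

/-- Exponential polynomial `∑ p_{ij} z^i e^(j z)`. -/
noncomputable def Fe {n : ℕ} (p : Fin (n + 1) × Fin (n + 1) → ℤ) (z : ℂ) : ℂ :=
  ∑ x, (p x : ℂ) * z ^ (x.1 : ℕ) * Complex.exp (((x.2 : ℕ) : ℂ) * z)

/-- The coefficient of `z^m` in `e^(-j z)` times the `s`-th derivative of `z^i e^(j z)`. -/
def dc (i j s m : ℕ) : ℕ :=
  if m ≤ i then s.choose (i - m) * i.descFactorial (i - m) * j ^ (s - (i - m)) else 0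

/-- The coefficient of `z^m` in the `s`-th derivative of `Fe p` at the points `2 π i k`. -/
def rc {n : ℕ} (p : Fin (n + 1) × Fin (n + 1) → ℤ) (s m : ℕ) : ℤ :=
  ∑ x, p x * (dc x.1 x.2 s m : ℤ)

/-- The point `2 π i k`. -/
noncomputable def pt (k : ℕ) : ℂ := ((2 * Real.pi * k : ℝ) : ℂ) * Complex.I

/-- Real part of `i^m`. -/
def reI (m : ℕ) : ℤ := if m % 4 = 0 then 1 else if m % 4 = 2 then -1 else 0

/-- Imaginary part of `i^m`. -/
def imI (m : ℕ) : ℤ := if m % 4 = 1 then 1 else if m % 4 = 3 then -1 else 0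

/-- Integer arrays with values the real and imaginary part of the derivative at `2 π i k`. -/
def reA {n : ℕ} (n' : ℕ) (p : Fin (n + 1) × Fin (n + 1) → ℤ) (s k : ℕ) :
    (Fin 1 → Fin (n' + 1)) → ℤ :=
  fun α => rc p s (α 0) * (2 * k) ^ (α 0 : ℕ) * reI (α 0)

def imA {n : ℕ} (n' : ℕ) (p : Fin (n + 1) × Fin (n + 1) → ℤ) (s k : ℕ) :
    (Fin 1 → Fin (n' + 1)) → ℤ :=
  fun α => rc p s (α 0) * (2 * k) ^ (α 0 : ℕ) * imI (α 0)

/-- Small derivatives at the points `2 π i k`, `k < K`, of orders `s < S`. -/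
def HH {n : ℕ} (p : Fin (n + 1) × Fin (n + 1) → ℤ) (K S : ℕ) (G : ℝ) : Prop :=
  ∀ k < K, ∀ s < S, ‖iteratedDeriv s (Fe p) (pt k)‖ ≤ Real.exp (-G)

end GLR
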