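import Pool.Agent.Helper49.GL.Q0

namespace GLR

/-- GI-Q1. Leibniz: the derivatives of `z^i e^(j z)` (induction on `s` or `iteratedDeriv_mul`). -/
theorem iteratedDeriv_mono (i j s : ℕ) (z : ℂ) :
    iteratedDeriv s (fun z : ℂ => z ^ i * Complex.exp ((j : ℂ) * z)) z =
      (∑ m ∈ Finset.range (i + 1), (dc i j s m : ℂ) * z ^ m) * Complex.exp ((j : ℂ) * z) := by
  have h1 : ContDiffAt ℂ s (fun z : ℂ => z ^ i) z := by fun_prop
  have h2 : ContDiffAt ℂ s (fun z : ℂ => Complex.exp ((j : ℂ) * z)) z := by fun_prop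
  rw [iteratedDeriv_fun_mul h1 h2]
  simp only [iteratedDeriv_pow, iteratedDeriv_cexp_const_mul]
  have e1 : ∑ m ∈ Finset.range (i + 1), (dc i j s m : ℂ) * z ^ m =
      ∑ r ∈ Finset.range (i + 1),
        (s.choose r : ℂ) * (i.descFactorial r : ℂ) * (j : ℂ) ^ (s - r) * z ^ (i - r) := by
    rw [← Finset.sum_range_reflect]
    refine Finset.sum_congr rfl fun r hr => ?_
    have hr' : r ≤ i := by
      have := Finset.mem_range.1 hr
      omega
    have e2 : i + 1 - 1 - r = i - r := by omega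
    have e3 : i - (i - r) = r := by omega
    rw [e2, dc, if_pos (Nat.sub_le i r), e3]
    push_cast
    ring
  have e4 : ∑ r ∈ Finset.range (s + 1),
        (s.choose r : ℂ) * (i.descFactorial r : ℂ) * (j : ℂ) ^ (s - r) * z ^ (i - r) =
      ∑ r ∈ Finset.range (s + i + 1),
        (s.choose r : ℂ) * (i.descFactorial r : ℂ) * (j : ℂ) ^ (s - r) * z ^ (i - r) := by
    refine Finset.sum_subset (Finset.range_subset_range.2 (by omega)) fun r _ hr => ?_
    have hr' : s < r := by
      rw [Finset.mem_range] at hr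
      omega
    rw [Nat.choose_eq_zero_of_lt hr']
    simp
  have e5 : ∑ r ∈ Finset.range (i + 1),
        (s.choose r : ℂ) * (i.descFactorial r : ℂ) * (j : ℂ) ^ (s - r) * z ^ (i - r) =
      ∑ r ∈ Finset.range (s + i + 1),
        (s.choose r : ℂ) * (i.descFactorial r : ℂ) * (j : ℂ) ^ (s - r) * z ^ (i - r) := by
    refine Finset.sum_subset (Finset.range_subset_range.2 (by omega)) fun r _ hr => ?_
    have hr' : i < r := by
      rw [Finset.mem_range] at hr
      omega
    rw [Nat.descFactorial_eq_zero_iff_lt.2 hr']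
    simp
  rw [e1, e5, ← e4, Finset.sum_mul]
  refine Finset.sum_congr rfl fun r _ => ?_
  ring

theorem differentiable_Fe {n : ℕ} (p : Fin (n + 1) × Fin (n + 1) → ℤ) :
    Differentiable ℂ (Fe p) := by
  unfold Fe
  fun_prop

/-- GI-Q1. Derivatives of `Fe p` at any point as a sum over the monomials. -/
theorem iteratedDeriv_Fe {n : ℕ} (p : Fin (n + 1) × Fin (n + 1) → ℤ) (s : ℕ) (z : ℂ) :
    iteratedDeriv s (Fe p) z = ∑ x, (p x : ℂ) *
      ((∑ m ∈ Finset.range (n + 1), (dc x.1 x.2 s m : ℂ) * z ^ m) *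
        Complex.exp (((x.2 : ℕ) : ℂ) * z)) := by
  have e1 : Fe p = fun z => ∑ x ∈ (Finset.univ : Finset (Fin (n + 1) × Fin (n + 1))),
      (p x : ℂ) * (z ^ (x.1 : ℕ) * Complex.exp (((x.2 : ℕ) : ℂ) * z)) := by
    funext z
    unfold Fe
    exact Finset.sum_congr rfl fun x _ => by ring
  rw [e1, iteratedDeriv_fun_sum (fun x _ => by fun_prop)]
  refine Finset.sum_congr rfl fun x _ => ?_
  rw [iteratedDeriv_const_mul_field, iteratedDeriv_mono]
  congr 2
  refine Finset.sum_subset (Finset.range_subset_range.2 ?_) fun m _ hm => ?_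
  · have := x.1.isLt
    omega
  · have hm' : ¬ m ≤ (x.1 : ℕ) := by
      rw [Finset.mem_range] at hm
      omega
    rw [dc, if_neg hm']
    simp

/-- GI-Q1. At `2 π i k` the exponentials are `1` (`Complex.exp_nat_mul_two_pi_mul_I` or
`Complex.exp_eq_one_iff`). -/
theorem iteratedDeriv_Fe_pt {n : ℕ} (p : Fin (n + 1) × Fin (n + 1) → ℤ) (s k : ℕ) :
    iteratedDeriv s (Fe p) (pt k) =
      ∑ m ∈ Finset.range (n + 1), (rc p s m : ℂ) * (pt k) ^ m := by
  rw [iteratedDeriv_Fe]
  have e1 : ∀ j : ℕ, Complex.exp ((j : ℂ) * pt k) = 1 := by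
    intro j
    have e2 : (j : ℂ) * pt k = ((j * k : ℕ) : ℂ) * (2 * Real.pi * Complex.I) := by
      unfold pt
      push_cast
      ring
    rw [e2, Complex.exp_nat_mul_two_pi_mul_I]
  have e3 : ∀ m, (rc p s m : ℂ) = ∑ x, (p x : ℂ) * (dc x.1 x.2 s m : ℂ) := by
    intro m
    unfold rc
    push_cast
    rfl
  simp only [e1, mul_one, e3, Finset.mul_sum, Finset.sum_mul]
  rw [Finset.sum_comm]
  refine Finset.sum_congr rfl fun m _ => Finset.sum_congr rfl fun x _ => ?_
  ring

end GLR
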