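import Pool.Agent.Helper49.GL.A9
import Pool.Agent.Helper49.GL.G8
import Pool.Agent.Helper49.GL.Q2

namespace GLR

/-- GI-Q3. `Meas` for no variables: a nonzero polynomial is a nonzero integer constant. -/
theorem meas_empty (θ : Fin 0 → ℝ) (X : ℕ) (W : ℝ) (hW : 0 ≤ W) : Meas θ X W := by
  intro P hP _
  have h1 : P = MvPolynomial.C (P.coeff 0) := by
    have h := MvPolynomial.eq_C_of_isEmpty P
    exact h
  have h2 : P.coeff 0 ≠ 0 := by
    intro h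
    apply hP
    rw [h1, h, map_zero]
  have h3 : ev θ P = ((P.coeff 0 : ℤ) : ℝ) := by
    conv_lhs => rw [h1]
    simp [ev]
  rw [h3]
  have h4 : (1 : ℝ) ≤ |((P.coeff 0 : ℤ) : ℝ)| := by
    rw [← Int.cast_abs]
    have h5 : (1 : ℤ) ≤ |P.coeff 0| := Int.one_le_abs h2
    exact_mod_cast h5
  refine le_trans ?_ h4
  rw [← Real.exp_zero]
  exact Real.exp_le_exp.2 (by linarith)

/-- GI-Q3. The gap lemma for `π`: `gap` with `m = 0`, `J = 1`, `X = n' N^3`, `W = X`,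
`f = finSuccEquiv ℤ 0 P` for the polynomial `P` given by `¬ Meas` (`fse`). -/
theorem gap_pi {n' N : ℕ} {W' G1 : ℝ} (hN : 40 ≤ N) (hn : N ≤ n') (hG1 : 0 ≤ G1)
    (hW' : (N : ℝ) * (G1 + n' * (n' * N ^ 3)) + 5 * (n' * N ^ 3) + 1 ≤ W')
    (hbad : ¬ Meas (fun _ : Fin 1 => Real.pi) N W') (Q : (Fin 1 → Fin (n' + 1)) → ℤ)
    (hQ : Ql Q ≤ Real.exp (4 * n' * N))
    (hs : |Qv Q (fun _ => Real.pi)| ≤ Real.exp (-(7 * (n' * N ^ 3)))) :
    |Qv Q (fun _ => Real.pi)| ≤ Real.exp (-G1) := by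
  unfold Meas at hbad
  push Not at hbad
  obtain ⟨P, hP, hcx, hsm⟩ := hbad
  obtain ⟨f0, fdeg, fcx, fev⟩ := fse P N hP hcx
  have hX : (((n' * N ^ 3 : ℕ)) : ℝ) = (n' : ℝ) * (N : ℝ) ^ 3 := by push_cast; ring
  have hX0 : (0 : ℝ) ≤ (n' : ℝ) * (N : ℝ) ^ 3 := by positivity
  have hpi : |Real.pi| ≤ 4 := by
    rw [abs_of_pos Real.pi_pos]
    exact Real.pi_le_four
  refine gap (m := 0) (n := n') (J := 1) (N := N) (X := n' * N ^ 3)
    (θ := (Fin.elim0 : Fin 0 → ℝ)) (fun i => i.elim0)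
    (fun _ => MvPolynomial.finSuccEquiv ℤ 0 P) Q (fun _ => Real.pi)
    ((n' : ℝ) * (N : ℝ) ^ 3) W' G1 le_rfl (by omega) hn rfl (le_of_eq hX)
    (meas_empty _ _ _ hX0) (fun _ => hpi) (fun _ => f0) (fun _ => fdeg)
    (fun _ i => fcx i) hQ ?_ hG1 ?_ hs
  · intro _
    rw [fev]
    have e : (Fin.cons Real.pi (Fin.elim0 : Fin 0 → ℝ) : Fin 1 → ℝ) = fun _ => Real.pi := by
      funext i
      refine Fin.cases rfl (fun j => j.elim0) i
    rw [e]
    exact hsm.le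
  · have e : (N : ℝ) ^ 1 * (G1 + n' * ((1 : ℕ) : ℝ) * ((n' : ℝ) * (N : ℝ) ^ 3)) +
        5 * ((n' : ℝ) * (N : ℝ) ^ 3) + 1 =
        (N : ℝ) * (G1 + n' * (n' * N ^ 3)) + 5 * (n' * N ^ 3) + 1 := by
      push_cast
      ring
    rw [e]
    exact hW'

private lemma Q3_size {n N S K s : ℕ} (hN : 40 ≤ N) (hn : N ≤ n)
    (hlog : 200 * ((n : ℝ) + 1) * (K + 1) * (S + 1) ≤ Real.exp N) (hs : s < S) :
    ((n : ℝ) + 1) ^ 2 * 2 ^ n * (2 * n : ℝ) ^ s * (2 * K : ℝ) ^ n ≤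
      Real.exp (4 * (n + S : ℕ) * N) := by
  have hE : (0 : ℝ) < Real.exp N := Real.exp_pos _
  have hn0 : (0 : ℝ) ≤ n := Nat.cast_nonneg _
  have hK0 : (0 : ℝ) ≤ K := Nat.cast_nonneg _
  have hS0 : (0 : ℝ) ≤ S := Nat.cast_nonneg _
  have hnK : (0 : ℝ) ≤ (n : ℝ) * K := mul_nonneg hn0 hK0
  have hA : (n : ℝ) + 1 ≤ (n + 1) * (K + 1) * (S + 1) := by
    have h1 : (1 : ℝ) ≤ (K + 1) * (S + 1) := by nlinarith
    have h2 : (n + 1 : ℝ) * 1 ≤ (n + 1) * ((K + 1) * (S + 1)) :=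
      mul_le_mul_of_nonneg_left h1 (by linarith)
    linarith
  have hB : (K : ℝ) + 1 ≤ (n + 1) * (K + 1) * (S + 1) := by
    have h1 : (1 : ℝ) ≤ (n + 1) * (S + 1) := by nlinarith
    have h2 : (K + 1 : ℝ) * 1 ≤ (K + 1) * ((n + 1) * (S + 1)) :=
      mul_le_mul_of_nonneg_left h1 (by linarith)
    linarith
  have e1 : (n : ℝ) + 1 ≤ Real.exp N := by linarith
  have e2 : 2 * (n : ℝ) ≤ Real.exp N := by linarith
  have e3 : 2 * (K : ℝ) ≤ Real.exp N := by linarith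
  have e4 : (2 : ℝ) ≤ Real.exp N := by linarith
  have f1 : ((n : ℝ) + 1) ^ 2 ≤ Real.exp (2 * N) := by
    calc ((n : ℝ) + 1) ^ 2 ≤ Real.exp N ^ 2 := pow_le_pow_left₀ (by linarith) e1 _
      _ = Real.exp (2 * N) := by rw [← Real.exp_nat_mul]; push_cast; ring_nf
  have f2 : (2 : ℝ) ^ n ≤ Real.exp (n * N) := by
    calc (2 : ℝ) ^ n ≤ Real.exp N ^ n := pow_le_pow_left₀ (by norm_num) e4 _
      _ = Real.exp (n * N) := by rw [← Real.exp_nat_mul]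
  have f3 : (2 * n : ℝ) ^ s ≤ Real.exp (S * N) := by
    calc (2 * n : ℝ) ^ s ≤ Real.exp N ^ s := pow_le_pow_left₀ (by linarith) e2 _
      _ = Real.exp (s * N) := by rw [← Real.exp_nat_mul]
      _ ≤ Real.exp (S * N) := by
        apply Real.exp_le_exp.2
        have : (s : ℝ) ≤ S := by exact_mod_cast hs.le
        exact mul_le_mul_of_nonneg_right this (Nat.cast_nonneg _)
  have f4 : (2 * K : ℝ) ^ n ≤ Real.exp (n * N) := by
    calc (2 * K : ℝ) ^ n ≤ Real.exp N ^ n := pow_le_pow_left₀ (by linarith) e3 _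
      _ = Real.exp (n * N) := by rw [← Real.exp_nat_mul]
  calc ((n : ℝ) + 1) ^ 2 * 2 ^ n * (2 * n : ℝ) ^ s * (2 * K : ℝ) ^ n
      ≤ Real.exp (2 * N) * Real.exp (n * N) * Real.exp (S * N) * Real.exp (n * N) := by
        gcongr
    _ = Real.exp (2 * N + n * N + S * N + n * N) := by
        rw [Real.exp_add, Real.exp_add, Real.exp_add]
    _ ≤ _ := by
        apply Real.exp_le_exp.2
        push_cast
        have h1 : (1 : ℝ) ≤ n := by
          have : 1 ≤ n := by omega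
          exact_mod_cast this
        have h2 : (0 : ℝ) ≤ N := Nat.cast_nonneg _
        have h3 : (2 + n + S + n : ℝ) ≤ 4 * (n + S) := by linarith
        have h4 := mul_le_mul_of_nonneg_right h3 h2
        linarith

/-- GI-Q3. The gap for derivatives: apply `gap_pi` to `reA` and `imA` with `n' = n + S`;
`‖w‖ ≤ |re| + |im| ≤ 2 exp (-G1) ≤ exp (-(G1 - 1))`. The bound `Ql ≤ exp (4 n' N)` from `Ql_reA` and
`hlog` (all of `n + 1`, `2 n`, `2 K` are `≤ exp N`). -/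
theorem gap_deriv {n N S K : ℕ} {W' G1 : ℝ} (hN : 40 ≤ N) (hn : N ≤ n) (hK : 1 ≤ K)
    (hG1 : 1 ≤ G1)
    (hlog : 200 * ((n : ℝ) + 1) * (K + 1) * (S + 1) ≤ Real.exp N)
    (hW' : (N : ℝ) * (G1 + (n + S : ℕ) * ((n + S : ℕ) * N ^ 3)) + 5 * ((n + S : ℕ) * N ^ 3) + 1 ≤ W')
    (hbad : ¬ Meas (fun _ : Fin 1 => Real.pi) N W') (p : Fin (n + 1) × Fin (n + 1) → ℤ)
    (hp : ∀ x, |p x| ≤ ((2 ^ n : ℕ) : ℤ)) (k s : ℕ) (hk : k < K) (hs : s < S)
    (hsm : ‖iteratedDeriv s (Fe p) (pt k)‖ ≤ Real.exp (-(7 * ((n + S : ℕ) * N ^ 3)))) :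
    ‖iteratedDeriv s (Fe p) (pt k)‖ ≤ Real.exp (-(G1 - 1)) := by
  have hnn : n ≤ n + S := Nat.le_add_right _ _
  have hn1 : 1 ≤ n := by omega
  have hsize := Q3_size (K := K) hN hn hlog hs
  have hre : |(iteratedDeriv s (Fe p) (pt k)).re| ≤ Real.exp (-G1) := by
    rw [← Qv_reA hnn p s k]
    refine gap_pi (n' := n + S) hN (by omega) (by linarith) hW' hbad _
      ((Ql_reA hnn hn1 p hp s k K hK hk.le).trans hsize) ?_
    rw [Qv_reA hnn p s k]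
    exact (Complex.abs_re_le_norm _).trans hsm
  have him : |(iteratedDeriv s (Fe p) (pt k)).im| ≤ Real.exp (-G1) := by
    rw [← Qv_imA hnn p s k]
    refine gap_pi (n' := n + S) hN (by omega) (by linarith) hW' hbad _
      ((Ql_imA hnn hn1 p hp s k K hK hk.le).trans hsize) ?_
    rw [Qv_imA hnn p s k]
    exact (Complex.abs_im_le_norm _).trans hsm
  have h1 := Complex.norm_le_abs_re_add_abs_im (iteratedDeriv s (Fe p) (pt k))
  have h2 : (2 : ℝ) ≤ Real.exp 1 := by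
    have := Real.add_one_le_exp (1 : ℝ)
    linarith
  have h3 : Real.exp (-(G1 - 1)) = Real.exp 1 * Real.exp (-G1) := by
    rw [← Real.exp_add]
    congr 1
    ring
  have h4 : 0 < Real.exp (-G1) := Real.exp_pos _
  rw [h3]
  nlinarith

end GLR
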