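import Pool.Agent.Helper49.GL.Q0

namespace GLR

/-- GI-Q4. Cauchy estimate (`Complex.norm_iteratedDeriv_le_of_forall_mem_sphere_norm_le`). -/
theorem cauchy_est (f : ℂ → ℂ) (hf : Differentiable ℂ f) (x : ℂ) (M : ℝ)
    (hM : ∀ z, ‖z - x‖ ≤ 1 → ‖f z‖ ≤ M) (s : ℕ) :
    ‖iteratedDeriv s f x‖ ≤ (s.factorial : ℝ) * M := by
  have h := Complex.norm_iteratedDeriv_le_of_forall_mem_sphere_norm_le (n := s) (c := x) (R := 1)
    (C := M) (f := f) one_pos hf.diffContOnCl (fun z hz => hM z (by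
      rw [mem_sphere_iff_norm] at hz
      exact hz.le))
  rwa [one_pow, div_one] at h

/-- GI-Q4. Taylor: an entire function with small derivatives of orders `< S` at `x` is small near
`x`. Taylor series `f (x + u) = ∑ (iteratedDeriv s f x / s!) u^s` (`Complex.hasSum_taylorSeries...`
for entire functions, e.g. `Complex.taylorSeries_eq_of_entire'`); the terms `s < S` contribute at
most `ε ∑ (1/2)^s ≤ 2 ε`, the tail at most `∑_{s ≥ S} M ‖u‖^s ≤ 2 M ‖u‖^S` by `cauchy_est`. -/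
theorem near_small (f : ℂ → ℂ) (hf : Differentiable ℂ f) (x : ℂ) (S : ℕ) (ε M : ℝ) (hε : 0 ≤ ε)
    (hsm : ∀ s < S, ‖iteratedDeriv s f x‖ ≤ ε) (hM : ∀ z, ‖z - x‖ ≤ 1 → ‖f z‖ ≤ M) (u : ℂ)
    (hu : ‖u‖ ≤ 1 / 2) : ‖f (x + u)‖ ≤ 3 * ε + 2 * M * ‖u‖ ^ S := by
  have hM0 : 0 ≤ M := (norm_nonneg _).trans (hM x (by simp))
  have hu0 : 0 ≤ ‖u‖ := norm_nonneg u
  have h1 := Complex.hasSum_taylorSeries_of_entire hf x (x + u)
  have h2 : HasSum (fun s : ℕ => ε * (1 / 2 : ℝ) ^ s) (ε * 2) := by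
    have := (hasSum_geometric_two).mul_left ε
    exact this
  have h3 : HasSum (fun s : ℕ => if S ≤ s then M * ‖u‖ ^ s else 0)
      (M * ‖u‖ ^ S * (1 - ‖u‖)⁻¹) := by
    have h4 : HasSum (fun s : ℕ => M * ‖u‖ ^ S * ‖u‖ ^ s) (M * ‖u‖ ^ S * (1 - ‖u‖)⁻¹) :=
      (hasSum_geometric_of_lt_one hu0 (by linarith)).mul_left _
    have h5 := (hasSum_nat_add_iff (f := fun s : ℕ => if S ≤ s then M * ‖u‖ ^ s else 0) S
      (g := M * ‖u‖ ^ S * (1 - ‖u‖)⁻¹)).1 (by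
        refine h4.congr_fun ?_
        intro s
        rw [if_pos (Nat.le_add_left S s), pow_add]
        ring)
    rw [Finset.sum_eq_zero, add_zero] at h5
    · exact h5
    · intro i hi
      rw [Finset.mem_range] at hi
      exact if_neg (by omega)
  have h6 : ‖f (x + u)‖ ≤ ε * 2 + M * ‖u‖ ^ S * (1 - ‖u‖)⁻¹ := by
    rw [← h1.tsum_eq]
    apply tsum_of_norm_bounded (h2.add h3)
    intro s
    rw [norm_smul, norm_smul, norm_inv, norm_pow, add_sub_cancel_left, Complex.norm_natCast]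
    have hfac : (1 : ℝ) ≤ (s.factorial : ℝ) := by exact_mod_cast Nat.factorial_pos s
    have hfac0 : (0 : ℝ) < (s.factorial : ℝ) := by linarith
    by_cases hs : S ≤ s
    · rw [if_pos hs]
      have h7 := cauchy_est f hf x M hM s
      have h8 : ((s.factorial : ℝ))⁻¹ * (‖u‖ ^ s * ‖iteratedDeriv s f x‖) ≤ M * ‖u‖ ^ s := by
        rw [inv_mul_le_iff₀ hfac0]
        calc ‖u‖ ^ s * ‖iteratedDeriv s f x‖ ≤ ‖u‖ ^ s * ((s.factorial : ℝ) * M) :=
              mul_le_mul_of_nonneg_left h7 (by positivity)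
          _ = (s.factorial : ℝ) * (M * ‖u‖ ^ s) := by ring
      have h9 : 0 ≤ ε * (1 / 2 : ℝ) ^ s := by positivity
      linarith
    · rw [if_neg hs, add_zero]
      have h7 := hsm s (by omega)
      rw [inv_mul_le_iff₀ hfac0]
      have h10 : ‖u‖ ^ s ≤ (1 / 2 : ℝ) ^ s := pow_le_pow_left₀ hu0 hu s
      calc ‖u‖ ^ s * ‖iteratedDeriv s f x‖ ≤ (1 / 2 : ℝ) ^ s * ε :=
            mul_le_mul h10 h7 (norm_nonneg _) (by positivity)
        _ = 1 * (ε * (1 / 2 : ℝ) ^ s) := by ring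
        _ ≤ (s.factorial : ℝ) * (ε * (1 / 2 : ℝ) ^ s) :=
            mul_le_mul_of_nonneg_right hfac (by positivity)
  have h11 : (1 - ‖u‖)⁻¹ ≤ 2 := by
    rw [inv_le_comm₀ (by linarith) (by norm_num)]
    linarith
  have h12 : M * ‖u‖ ^ S * (1 - ‖u‖)⁻¹ ≤ M * ‖u‖ ^ S * 2 :=
    mul_le_mul_of_nonneg_left h11 (by positivity)
  linarith

end GLR
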