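import Pool.Agent.Helper49.GL.P8

namespace GLR

/-- The vector `(η_1, ..., η_k, ϑ)` with `η_i = 1 / Γ(1 + a_i/q_i)`, arbitrary denominators. -/
noncomputable def vecq {m : ℕ} (ϑ : Fin m → ℝ) :
    (k : ℕ) → (Fin k → ℕ) → (Fin k → ℕ) → (Fin (m + k) → ℝ)
  | 0, _, _ => ϑ
  | (k + 1), q, a => Fin.cons (gr ((a 0 : ℝ) / (q 0 : ℝ))) (vecq ϑ k (Fin.tail q) (Fin.tail a))

open Classical in
/-- The bad tuples at complexity `N`, denominators `q`. -/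
noncomputable def badSetq {m : ℕ} (ϑ : Fin m → ℝ) {k : ℕ} (q : Fin k → ℕ) (N κ : ℕ) :
    Finset (Fin k → ℕ) :=
  (Fintype.piFinset fun i : Fin k => Finset.Ico 1 (q i)).filter
    (fun a => ¬ Meas (vecq ϑ k q a) N ((N : ℝ) ^ κ))

def Statq {m : ℕ} (ϑ : Fin m → ℝ) (k κ N0 : ℕ) : Prop :=
  ∀ (q : Fin k → ℕ) (Q0 N : ℕ), N0 ≤ N → 1 ≤ Q0 → (∀ i, 2 ≤ q i) → (∀ i, Q0 ≤ q i) →
    (∀ i, (q i : ℝ) ≤ Real.exp N) →
    ((badSetq ϑ q N κ).card : ℝ) ≤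
      (N : ℝ) ^ κ * ((∏ i, (q i : ℝ)) * (Q0 : ℝ) ^ (-(1 / (κ : ℝ))))

theorem abs_vecq_le {m : ℕ} {ϑ : Fin m → ℝ} (hϑ : ∀ i, |ϑ i| ≤ 4) (k : ℕ) (q a : Fin k → ℕ)
    (ha : ∀ i, a i ≤ q i) : ∀ i, |vecq ϑ k q a i| ≤ 4 := by
  induction k with
  | zero => intro i; exact hϑ i
  | succ k ih =>
    have ih' := ih (Fin.tail q) (Fin.tail a) (fun i => ha i.succ)
    intro i
    change |(Fin.cons (gr ((a 0 : ℝ) / (q 0 : ℝ))) (vecq ϑ k (Fin.tail q) (Fin.tail a)) :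
      Fin (m + k + 1) → ℝ) i| ≤ 4
    refine Fin.cases ?_ (fun j => ?_) i
    · rw [Fin.cons_zero]
      have h0 : (0 : ℝ) ≤ (a 0 : ℝ) / (q 0 : ℝ) := by positivity
      have h1 : (a 0 : ℝ) / (q 0 : ℝ) ≤ 1 := by
        apply div_le_one_of_le₀
        · exact_mod_cast ha 0
        · positivity
      obtain ⟨g1, g2⟩ := gr_bounds h0 h1
      rw [abs_le]
      constructor <;> linarith
    · rw [Fin.cons_succ]
      exact ih' j

theorem statq_zero {m : ℕ} {ϑ : Fin m → ℝ} (h : PolyMeas ϑ) :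
    ∃ κ N0 : ℕ, 1 ≤ κ ∧ Statq ϑ 0 κ N0 := by
  obtain ⟨κ, X0, hX⟩ := h
  refine ⟨κ + 1, X0 + 1, by omega, ?_⟩
  intro q Q0 N hN hQ0 hq hqQ hqN
  have hN1 : (1 : ℝ) ≤ N := by exact_mod_cast (by omega : 1 ≤ N)
  have hm : Meas ϑ N ((N : ℝ) ^ (κ + 1)) :=
    (hX N (by omega)).mono le_rfl (pow_le_pow_right₀ hN1 (by omega))
  have he : badSetq ϑ q N (κ + 1) = ∅ := by
    classical
    unfold badSetq
    rw [Finset.filter_eq_empty_iff]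
    intro a _ hbad
    exact hbad hm
  rw [he, Finset.card_empty]
  have h2 : (0 : ℝ) ≤ (N : ℝ) ^ (κ + 1) * ((∏ i, (q i : ℝ)) *
      (Q0 : ℝ) ^ (-(1 / ((κ + 1 : ℕ) : ℝ)))) := by positivity
  simpa using h2

private theorem card_badq_succ {m : ℕ} {ϑ : Fin m → ℝ} (N N' k κ κ' : ℕ) (q : Fin (k + 1) → ℕ)
    (B : ℝ) (hB : 0 ≤ B)
    (hq : ∀ i, 1 ≤ q i)
    (h : ∀ b : Fin k → ℕ, b ∈ Fintype.piFinset (fun i : Fin k => Finset.Ico 1 (q i.succ)) →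
      b ∉ badSetq ϑ (Fin.tail q) N' κ → ∀ Bad : Finset ℕ, (∀ x ∈ Bad, 1 ≤ x ∧ x < q 0 ∧
        ¬ Meas (Fin.cons (gr ((x : ℝ) / (q 0 : ℝ))) (vecq ϑ k (Fin.tail q) b) :
          Fin (m + k + 1) → ℝ) N ((N : ℝ) ^ κ')) → (Bad.card : ℝ) ≤ B) :
    ((badSetq ϑ q N κ').card : ℝ) ≤
      (q 0 : ℝ) * ((badSetq ϑ (Fin.tail q) N' κ).card : ℝ) +
        (∏ i : Fin k, (q i.succ : ℝ)) * B := by
  classical
  set P : Finset (Fin k → ℕ) := Fintype.piFinset (fun i : Fin k => Finset.Ico 1 (q i.succ)) with hP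
  set Bd : (Fin k → ℕ) → Finset ℕ := fun b => (Finset.Ico 1 (q 0)).filter (fun x : ℕ =>
    ¬ Meas (Fin.cons (gr ((x : ℝ) / (q 0 : ℝ))) (vecq ϑ k (Fin.tail q) b) :
      Fin (m + k + 1) → ℝ) N ((N : ℝ) ^ κ'))
    with hBd
  have hsub : badSetq ϑ q N κ' ⊆
      ((Finset.Ico 1 (q 0) ×ˢ badSetq ϑ (Fin.tail q) N' κ).image
        (fun z : ℕ × (Fin k → ℕ) => (Fin.cons z.1 z.2 : Fin (k + 1) → ℕ))) ∪
      ((P \ badSetq ϑ (Fin.tail q) N' κ).biUnion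
        (fun b => (Bd b).image (fun x => (Fin.cons x b : Fin (k + 1) → ℕ)))) := by
    intro a ha
    unfold badSetq at ha
    rw [Finset.mem_filter, Fintype.mem_piFinset] at ha
    obtain ⟨ha1, ha2⟩ := ha
    have htP : Fin.tail a ∈ P := by
      rw [hP, Fintype.mem_piFinset]
      exact fun i => ha1 i.succ
    rw [Finset.mem_union]
    by_cases hb : Fin.tail a ∈ badSetq ϑ (Fin.tail q) N' κ
    · left
      rw [Finset.mem_image]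
      exact ⟨(a 0, Fin.tail a), Finset.mem_product.mpr ⟨ha1 0, hb⟩, Fin.cons_self_tail a⟩
    · right
      rw [Finset.mem_biUnion]
      refine ⟨Fin.tail a, Finset.mem_sdiff.mpr ⟨htP, hb⟩, ?_⟩
      rw [Finset.mem_image]
      refine ⟨a 0, ?_, Fin.cons_self_tail a⟩
      rw [hBd, Finset.mem_filter]
      exact ⟨ha1 0, ha2⟩
  have h1 := Finset.card_le_card hsub
  have h2 := h1.trans (Finset.card_union_le _ _)
  have h3 : ((Finset.Ico 1 (q 0) ×ˢ badSetq ϑ (Fin.tail q) N' κ).image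
      (fun z : ℕ × (Fin k → ℕ) => (Fin.cons z.1 z.2 : Fin (k + 1) → ℕ))).card ≤
      q 0 * (badSetq ϑ (Fin.tail q) N' κ).card := by
    refine Finset.card_image_le.trans ?_
    rw [Finset.card_product, Nat.card_Ico]
    exact Nat.mul_le_mul_right _ (by omega)
  have h4 : (((P \ badSetq ϑ (Fin.tail q) N' κ).biUnion
      (fun b => (Bd b).image (fun x => (Fin.cons x b : Fin (k + 1) → ℕ)))).card : ℝ) ≤
      (∏ i : Fin k, (q i.succ : ℝ)) * B := by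
    have h5 : (((P \ badSetq ϑ (Fin.tail q) N' κ).biUnion
      (fun b => (Bd b).image (fun x => (Fin.cons x b : Fin (k + 1) → ℕ)))).card : ℝ) ≤
      ∑ b ∈ P \ badSetq ϑ (Fin.tail q) N' κ, ((Bd b).card : ℝ) := by
      refine (Nat.cast_le.mpr Finset.card_biUnion_le).trans ?_
      push_cast
      apply Finset.sum_le_sum
      intro b _
      exact_mod_cast Finset.card_image_le
    have h6 : ∑ b ∈ P \ badSetq ϑ (Fin.tail q) N' κ, ((Bd b).card : ℝ) ≤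
        ∑ _b ∈ P \ badSetq ϑ (Fin.tail q) N' κ, B := by
      apply Finset.sum_le_sum
      intro b hb
      rw [Finset.mem_sdiff] at hb
      apply h b hb.1 hb.2
      intro x hx
      rw [hBd, Finset.mem_filter, Finset.mem_Ico] at hx
      exact ⟨hx.1.1, hx.1.2, hx.2⟩
    rw [Finset.sum_const, nsmul_eq_mul] at h6
    refine h5.trans (h6.trans ?_)
    apply mul_le_mul_of_nonneg_right _ hB
    have h7 : (P \ badSetq ϑ (Fin.tail q) N' κ).card ≤ ∏ i : Fin k, q i.succ := by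
      refine (Finset.card_le_card Finset.sdiff_subset).trans ?_
      rw [hP, Fintype.card_piFinset]
      simp only [Nat.card_Ico]
      exact Finset.prod_le_prod' (fun i _ => by omega)
    exact_mod_cast h7
  have h8 : ((badSetq ϑ q N κ').card : ℝ) ≤
      (((Finset.Ico 1 (q 0) ×ˢ badSetq ϑ (Fin.tail q) N' κ).image
        (fun z : ℕ × (Fin k → ℕ) => (Fin.cons z.1 z.2 : Fin (k + 1) → ℕ))).card : ℝ) +
      (((P \ badSetq ϑ (Fin.tail q) N' κ).biUnion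
        (fun b => (Bd b).image (fun x => (Fin.cons x b : Fin (k + 1) → ℕ)))).card : ℝ) := by
    exact_mod_cast h2
  have h9 : (((Finset.Ico 1 (q 0) ×ˢ badSetq ϑ (Fin.tail q) N' κ).image
        (fun z : ℕ × (Fin k → ℕ) => (Fin.cons z.1 z.2 : Fin (k + 1) → ℕ))).card : ℝ) ≤
      (q 0 : ℝ) * ((badSetq ϑ (Fin.tail q) N' κ).card : ℝ) := by
    exact_mod_cast h3
  linarith

/-- Induction step for arbitrary denominators. -/
theorem statq_succ {m : ℕ} {ϑ : Fin m → ℝ} (hϑ : ∀ i, |ϑ i| ≤ 4) {k κ N0 : ℕ} (hκ : 1 ≤ κ)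
    (h : Statq ϑ k κ N0) : ∃ κ' N0' : ℕ, 1 ≤ κ' ∧ Statq ϑ (k + 1) κ' N0' := by
  obtain ⟨e, κ₁, t, N₁, he, hκ₁, hP⟩ := propB κ hκ
  refine ⟨2 * κ + e * κ + t + 1 + κ₁, N0 + N₁ + 2, by omega, ?_⟩
  set κ' := 2 * κ + e * κ + t + 1 + κ₁ with hκ'
  intro q Q0 N hN hQ0 hq hqQ hqN
  have hN2 : (2 : ℝ) ≤ N := by exact_mod_cast (by omega : 2 ≤ N)
  have hN1 : (1 : ℝ) ≤ N := by linarith
  have hq1 : (1 : ℝ) ≤ (q 0 : ℝ) := by
    have := hq 0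
    exact_mod_cast (by omega : 1 ≤ q 0)
  have hq0 : (0 : ℝ) < (q 0 : ℝ) := by linarith
  have hQ1 : (1 : ℝ) ≤ (Q0 : ℝ) := by exact_mod_cast hQ0
  have hQpos : (0 : ℝ) < (Q0 : ℝ) := by linarith
  have hQq : (Q0 : ℝ) ≤ (q 0 : ℝ) := by exact_mod_cast hqQ 0
  have hNe : N ≤ N ^ e := by
    calc N = N ^ 1 := (pow_one N).symm
      _ ≤ N ^ e := Nat.pow_le_pow_right (by omega) he
  have hA := h (Fin.tail q) Q0 (N ^ e) (by omega) hQ0 (fun i => hq i.succ) (fun i => hqQ i.succ)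
    (fun i => (hqN i.succ).trans (Real.exp_le_exp.mpr (by exact_mod_cast hNe)))
  set B : ℝ := (N : ℝ) ^ t * (q 0 : ℝ) ^ (1 - 1 / ((2 * κ : ℕ) : ℝ)) with hBdef
  have hB0 : 0 ≤ B := by positivity
  have hmain := card_badq_succ (ϑ := ϑ) N (N ^ e) k κ κ' q B hB0
    (fun i => by have := hq i; omega) (by
    intro b hb hbad Bad hBad
    apply hP N (by omega) (q 0) (hq 0) (hqN 0) (m + k) (vecq ϑ k (Fin.tail q) b)
    · apply abs_vecq_le hϑ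
      intro i
      have := Fintype.mem_piFinset.mp hb i
      rw [Finset.mem_Ico] at this
      exact this.2.le
    · classical
      unfold badSetq at hbad
      rw [Finset.mem_filter] at hbad
      by_contra hc
      apply hbad
      refine ⟨hb, ?_⟩
      intro hm
      apply hc
      push_cast at hm ⊢
      exact hm
    · intro x hx
      obtain ⟨h1, h2, h3⟩ := hBad x hx
      refine ⟨h1, h2, fun hm => h3 ?_⟩
      exact hm.mono le_rfl (pow_le_pow_right₀ hN1 (by omega)))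
  have hκr : (1 : ℝ) ≤ κ := by exact_mod_cast hκ
  have hκ2 : (2 * (κ : ℝ)) ≤ κ' := by
    have : 2 * κ ≤ κ' := by omega
    exact_mod_cast this
  have hinv1 : 1 / (κ' : ℝ) ≤ 1 / (κ : ℝ) := by
    apply one_div_le_one_div_of_le <;> linarith
  have hinv2 : 1 / (κ' : ℝ) ≤ 1 / (2 * (κ : ℝ)) := by
    apply one_div_le_one_div_of_le <;> linarith
  set PP : ℝ := ∏ i : Fin k, (q i.succ : ℝ) with hPP
  have hPP0 : 0 ≤ PP := by rw [hPP]; positivity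
  have hprod : ∏ i, (q i : ℝ) = (q 0 : ℝ) * PP := by rw [Fin.prod_univ_succ]
  have e1 : (Q0 : ℝ) ^ (-(1 / (κ : ℝ))) ≤ (Q0 : ℝ) ^ (-(1 / (κ' : ℝ))) :=
    Real.rpow_le_rpow_of_exponent_le hQ1 (by linarith)
  have e2 : (q 0 : ℝ) ^ (1 - 1 / ((2 * κ : ℕ) : ℝ)) ≤
      (q 0 : ℝ) * (Q0 : ℝ) ^ (-(1 / (κ' : ℝ))) := by
    have g1 : (q 0 : ℝ) ^ (1 - 1 / ((2 * κ : ℕ) : ℝ)) =
        (q 0 : ℝ) * (q 0 : ℝ) ^ (-(1 / (2 * (κ : ℝ)))) := by
      nth_rewrite 2 [← Real.rpow_one (q 0 : ℝ)]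
      rw [← Real.rpow_add hq0]
      congr 1; push_cast; ring
    rw [g1]
    apply mul_le_mul_of_nonneg_left _ hq0.le
    have g2 : (q 0 : ℝ) ^ (-(1 / (2 * (κ : ℝ)))) ≤ (q 0 : ℝ) ^ (-(1 / (κ' : ℝ))) :=
      Real.rpow_le_rpow_of_exponent_le hq1 (by linarith)
    have g3 : (q 0 : ℝ) ^ (-(1 / (κ' : ℝ))) ≤ (Q0 : ℝ) ^ (-(1 / (κ' : ℝ))) := by
      apply Real.rpow_le_rpow_of_nonpos hQpos hQq
      have : (0 : ℝ) ≤ 1 / (κ' : ℝ) := by positivity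
      linarith
    exact g2.trans g3
  set Q : ℝ := (∏ i, (q i : ℝ)) * (Q0 : ℝ) ^ (-(1 / (κ' : ℝ))) with hQ
  have hQ0' : 0 ≤ Q := by rw [hQ]; positivity
  have f1 : (q 0 : ℝ) * ((badSetq ϑ (Fin.tail q) (N ^ e) κ).card : ℝ) ≤ (N : ℝ) ^ (e * κ) * Q := by
    calc (q 0 : ℝ) * ((badSetq ϑ (Fin.tail q) (N ^ e) κ).card : ℝ)
        ≤ (q 0 : ℝ) * ((((N ^ e : ℕ) : ℝ)) ^ κ * (PP * (Q0 : ℝ) ^ (-(1 / (κ : ℝ))))) := by
          apply mul_le_mul_of_nonneg_left hA hq0.le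
      _ = (N : ℝ) ^ (e * κ) * (((q 0 : ℝ) * PP) * (Q0 : ℝ) ^ (-(1 / (κ : ℝ)))) := by
          push_cast
          rw [← pow_mul]
          ring
      _ ≤ (N : ℝ) ^ (e * κ) * Q := by
          apply mul_le_mul_of_nonneg_left _ (by positivity)
          rw [hQ, hprod]
          exact mul_le_mul_of_nonneg_left e1 (by positivity)
  have f2 : PP * B ≤ (N : ℝ) ^ t * Q := by
    calc PP * B = (N : ℝ) ^ t * (PP * (q 0 : ℝ) ^ (1 - 1 / ((2 * κ : ℕ) : ℝ))) := by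
          rw [hBdef]; ring
      _ ≤ (N : ℝ) ^ t * Q := by
          apply mul_le_mul_of_nonneg_left _ (by positivity)
          rw [hQ, hprod]
          calc PP * (q 0 : ℝ) ^ (1 - 1 / ((2 * κ : ℕ) : ℝ))
              ≤ PP * ((q 0 : ℝ) * (Q0 : ℝ) ^ (-(1 / (κ' : ℝ)))) :=
                mul_le_mul_of_nonneg_left e2 hPP0
            _ = (q 0 : ℝ) * PP * (Q0 : ℝ) ^ (-(1 / (κ' : ℝ))) := by ring
  have f3 : (N : ℝ) ^ (e * κ) + (N : ℝ) ^ t ≤ (N : ℝ) ^ κ' := by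
    have g1 : (N : ℝ) ^ (e * κ) ≤ (N : ℝ) ^ (κ' - 1) := pow_le_pow_right₀ hN1 (by omega)
    have g2 : (N : ℝ) ^ t ≤ (N : ℝ) ^ (κ' - 1) := pow_le_pow_right₀ hN1 (by omega)
    have g3 : (N : ℝ) ^ κ' = (N : ℝ) ^ (κ' - 1) * N := by
      rw [← pow_succ]
      congr 1
      omega
    have g4 : (0 : ℝ) ≤ (N : ℝ) ^ (κ' - 1) := by positivity
    rw [g3]
    nlinarith
  calc ((badSetq ϑ q N κ').card : ℝ)
      ≤ (q 0 : ℝ) * ((badSetq ϑ (Fin.tail q) (N ^ e) κ).card : ℝ) + PP * B := hmain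
    _ ≤ (N : ℝ) ^ (e * κ) * Q + (N : ℝ) ^ t * Q := add_le_add f1 f2
    _ = ((N : ℝ) ^ (e * κ) + (N : ℝ) ^ t) * Q := by ring
    _ ≤ (N : ℝ) ^ κ' * Q := mul_le_mul_of_nonneg_right f3 hQ0'

theorem statq_all {m : ℕ} {ϑ : Fin m → ℝ} (hϑ : ∀ i, |ϑ i| ≤ 4) (h : PolyMeas ϑ) (k : ℕ) :
    ∃ κ N0 : ℕ, 1 ≤ κ ∧ Statq ϑ k κ N0 := by
  induction k with
  | zero => exact statq_zero h
  | succ k ih =>
    obtain ⟨κ, N0, h1, h2⟩ := ih
    exact statq_succ hϑ h1 h2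

end GLR
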