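import Pool.Agent.Helper49.GL.R1
import Pool.Agent.Helper49.GL.R2

namespace GLR

open MvPolynomial

/-- The vector `(Γ(a_1 / q_1), ..., Γ(a_k / q_k), ϑ)`. -/
noncomputable def gvecq {m : ℕ} (ϑ : Fin m → ℝ) :
    (k : ℕ) → (Fin k → ℕ) → (Fin k → ℕ) → (Fin (m + k) → ℝ)
  | 0, _, _ => ϑ
  | (k + 1), q, a =>
    Fin.cons (Real.Gamma ((a 0 : ℝ) / (q 0 : ℝ))) (gvecq ϑ k (Fin.tail q) (Fin.tail a))

/-- Extension of a vector by `1`. -/
def aextq {m : ℕ} : (k : ℕ) → (Fin k → ℕ) → (Fin (m + k) → ℕ)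
  | 0, _ => fun _ => 1
  | (k + 1), a => Fin.cons (a 0) (aextq k (Fin.tail a))

theorem gvecq_eq {m : ℕ} (ϑ : Fin m → ℝ) (k : ℕ) (q a : Fin k → ℕ)
    (hq : ∀ i, 1 ≤ q i) (ha : ∀ i, 1 ≤ a i) (i : Fin (m + k)) :
    gvecq ϑ k q a i = if (i : ℕ) < k then
      (aextq (m := m) k q i : ℝ) / ((aextq k a i : ℝ) * vecq ϑ k q a i)
      else vecq ϑ k q a i := by
  induction k with
  | zero => rw [if_neg (Nat.not_lt_zero _)]; rfl
  | succ k ih =>
    have key : ∀ j : Fin (m + k + 1), gvecq ϑ (k + 1) q a j =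
        if (j : ℕ) < k + 1 then (aextq (m := m) (k + 1) q j : ℝ) /
          ((aextq (m := m) (k + 1) a j : ℝ) * vecq ϑ (k + 1) q a j)
        else vecq ϑ (k + 1) q a j := by
      intro j
      induction j using Fin.cases with
      | zero =>
        have h0 : ((0 : Fin (m + k + 1)) : ℕ) < k + 1 := Nat.succ_pos k
        rw [if_pos h0]
        change Real.Gamma ((a 0 : ℝ) / (q 0 : ℝ)) =
          (q 0 : ℝ) / ((a 0 : ℝ) * gr ((a 0 : ℝ) / (q 0 : ℝ)))
        have h1 : (0 : ℝ) < (a 0 : ℝ) := by exact_mod_cast ha 0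
        have h2 : (0 : ℝ) < (q 0 : ℝ) := by exact_mod_cast hq 0
        have h3 : (a 0 : ℝ) / (q 0 : ℝ) ≠ 0 := (div_pos h1 h2).ne'
        have h4 : Real.Gamma ((a 0 : ℝ) / (q 0 : ℝ)) ≠ 0 :=
          (Real.Gamma_pos_of_pos (div_pos h1 h2)).ne'
        unfold gr
        rw [add_comm (1 : ℝ), Real.Gamma_add_one h3]
        field_simp
      | succ j =>
        have h1 := ih (Fin.tail q) (Fin.tail a) (fun i => hq i.succ) (fun i => ha i.succ) j
        change gvecq ϑ k (Fin.tail q) (Fin.tail a) j = if (j : ℕ) + 1 < k + 1 then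
          (aextq (m := m) k (Fin.tail q) j : ℝ) / ((aextq (m := m) k (Fin.tail a) j : ℝ) *
            vecq ϑ k (Fin.tail q) (Fin.tail a) j)
          else vecq ϑ k (Fin.tail q) (Fin.tail a) j
        rw [h1]
        simp only [Nat.add_lt_add_iff_right]
    exact key i

theorem aextq_spec {m : ℕ} (k : ℕ) (q a : Fin k → ℕ) (Qm : ℕ)
    (ha : ∀ i, 1 ≤ a i ∧ a i < q i) (hQ : ∀ i, q i ≤ Qm)
    (i : Fin (m + k)) (hi : (i : ℕ) < k) :
    1 ≤ aextq (m := m) k a i ∧ aextq (m := m) k a i < aextq (m := m) k q i ∧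
      aextq (m := m) k q i ≤ Qm := by
  induction k with
  | zero => exact absurd hi (Nat.not_lt_zero _)
  | succ k ih =>
    have key : ∀ j : Fin (m + k + 1), (j : ℕ) < k + 1 →
        1 ≤ aextq (m := m) (k + 1) a j ∧
          aextq (m := m) (k + 1) a j < aextq (m := m) (k + 1) q j ∧
          aextq (m := m) (k + 1) q j ≤ Qm := by
      intro j hj
      induction j using Fin.cases with
      | zero => exact ⟨(ha 0).1, (ha 0).2, hQ 0⟩
      | succ j =>
        exact ih (Fin.tail q) (Fin.tail a) (fun i => ha i.succ) (fun i => hQ i.succ) j (by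
          have : (j : ℕ) + 1 < k + 1 := hj
          omega)
    exact key i hi

theorem vecq_bounds {m : ℕ} (ϑ : Fin m → ℝ) (k : ℕ) (q a : Fin k → ℕ)
    (ha : ∀ i, a i ≤ q i) (i : Fin (m + k)) (hi : (i : ℕ) < k) :
    1 ≤ vecq ϑ k q a i ∧ vecq ϑ k q a i ≤ 2 := by
  induction k with
  | zero => exact absurd hi (Nat.not_lt_zero _)
  | succ k ih =>
    have key : ∀ j : Fin (m + k + 1), (j : ℕ) < k + 1 →
        1 ≤ vecq ϑ (k + 1) q a j ∧ vecq ϑ (k + 1) q a j ≤ 2 := by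
      intro j hj
      induction j using Fin.cases with
      | zero =>
        have h1 : (0 : ℝ) ≤ (a 0 : ℝ) / (q 0 : ℝ) := by positivity
        have h2 : (a 0 : ℝ) / (q 0 : ℝ) ≤ 1 :=
          div_le_one_of_le₀ (by exact_mod_cast ha 0) (Nat.cast_nonneg _)
        exact gr_bounds h1 h2
      | succ j =>
        exact ih (Fin.tail q) (Fin.tail a) (fun i => ha i.succ) j (by
          have : (j : ℕ) + 1 < k + 1 := hj
          omega)
    exact key i hi

theorem good_impq {m : ℕ} {ϑ : Fin m → ℝ} {Qm N N' k κ : ℕ} (hQm : 1 ≤ Qm)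
    (hN : 1 ≤ N)
    (hN' : ((m + k + 1 : ℕ) : ℝ) * (N + 1) * (Real.log Qm + 3) ≤ N') (q a : Fin k → ℕ)
    (hq : ∀ i, q i ≤ Qm)
    (ha : ∀ i, 1 ≤ a i ∧ a i < q i) (hgood : Meas (vecq ϑ k q a) N' ((N' : ℝ) ^ κ))
    (P : MvPolynomial (Fin (m + k)) ℤ) (hP : P ≠ 0) (hdeg : P.totalDegree ≤ N)
    (hc : ∀ s, |((P.coeff s : ℤ) : ℝ)| ≤ Real.exp N) :
    Real.exp (-((N' : ℝ) ^ κ + N')) ≤ |ev (gvecq ϑ k q a) P| := by
  classical
  set S : Finset (Fin (m + k)) := Finset.univ.filter (fun i => (i : ℕ) < k) with hS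
  have hmem : ∀ i : Fin (m + k), i ∈ S ↔ (i : ℕ) < k := by intro i; simp [hS]
  have hq0 : (0 : ℝ) < (Qm : ℝ) := by exact_mod_cast (by omega : 0 < Qm)
  have hvb : ∀ i ∈ S, 1 ≤ vecq ϑ k q a i ∧ vecq ϑ k q a i ≤ 2 := fun i hi =>
    vecq_bounds ϑ k q a (fun j => (ha j).2.le) i ((hmem i).1 hi)
  have hab := fun (i : Fin (m + k)) (hi : i ∈ S) =>
    aextq_spec k q a Qm ha hq i ((hmem i).1 hi)
  obtain ⟨P', hP', hdeg', hwl, hev⟩ := invertq S (aextq (m := m) k q) (aextq (m := m) k a) hQm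
    (fun i hi => (hab i hi).2.2)
    (fun i hi => ⟨(hab i hi).1, (hab i hi).2.1.le⟩) (vecq ϑ k q a)
    (fun i hi => by have := (hvb i hi).1; linarith) P hP hdeg (Real.exp N) hc
  have hfun : (fun i => if i ∈ S then (aextq (m := m) k q i : ℝ) /
      ((aextq (m := m) k a i : ℝ) * vecq ϑ k q a i)
      else vecq ϑ k q a i) = gvecq ϑ k q a := by
    funext i
    rw [gvecq_eq ϑ k q a (fun j => by have := ha j; omega) (fun j => (ha j).1) i]
    by_cases h : (i : ℕ) < k
    · rw [if_pos h, if_pos ((hmem i).2 h)]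
    · rw [if_neg h, if_neg (fun hh => h ((hmem i).1 hh))]
  rw [hfun] at hev
  set L := Real.log Qm with hL
  have hL0 : 0 ≤ L := Real.log_nonneg (by exact_mod_cast hQm)
  have hqL : (Qm : ℝ) = Real.exp L := (Real.exp_log hq0).symm
  have hM0 : (0 : ℝ) ≤ ((m + k : ℕ) : ℝ) := Nat.cast_nonneg _
  have hN0 : (1 : ℝ) ≤ (N : ℝ) := by exact_mod_cast hN
  have hbig : (((m + k : ℕ) : ℝ) + 1) * (N + 1) * (L + 3) ≤ N' := by
    have e : ((m + k + 1 : ℕ) : ℝ) = ((m + k : ℕ) : ℝ) + 1 := by push_cast; ring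
    rw [e] at hN'
    exact hN'
  set M := ((m + k : ℕ) : ℝ) with hM
  have hMN : 0 ≤ M * N := by positivity
  have hMNL : 0 ≤ M * N * L := by positivity
  have hexp : (M + 1) * (N + 1) * (L + 3) = M * N * L + 3 * (M * N) + (M + N + 1) * L +
      3 * (M + N + 1) := by ring
  have hrest : 0 ≤ (M + N + 1) * L := by positivity
  have hN1 : (N : ℝ) + 1 ≤ Real.exp N := Real.add_one_le_exp _
  have hcx : Cx P' N' N' := by
    refine (cx_iff P' N' N').2 ⟨?_, ?_⟩
    · refine hdeg'.trans ?_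
      have : (((m + k) * N : ℕ) : ℝ) ≤ (N' : ℝ) := by
        rw [Nat.cast_mul, ← hM]
        nlinarith
      exact_mod_cast this
    · refine hwl.trans ?_
      have h1 : (((N + 1 : ℕ) : ℝ)) ^ (m + k) ≤ Real.exp (M * N) := by
        rw [Nat.cast_add, Nat.cast_one]
        calc ((N : ℝ) + 1) ^ (m + k) ≤ (Real.exp N) ^ (m + k) :=
              pow_le_pow_left₀ (by positivity) hN1 _
          _ = Real.exp (M * N) := by rw [← Real.exp_nat_mul]
      have h2 : (Qm : ℝ) ^ ((m + k) * N) = Real.exp (M * N * L) := by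
        rw [hqL, ← Real.exp_nat_mul, Nat.cast_mul]
      rw [h2]
      calc (((N + 1 : ℕ) : ℝ)) ^ (m + k) * Real.exp N * Real.exp (M * N * L)
          ≤ Real.exp (M * N) * Real.exp N * Real.exp (M * N * L) := by gcongr
        _ = Real.exp (M * N + N + M * N * L) := by rw [← Real.exp_add, ← Real.exp_add]
        _ ≤ Real.exp N' := by
          apply Real.exp_le_exp.2
          nlinarith
  have hg := hgood P' hP' hcx
  rw [hev, abs_mul] at hg
  have hprod : |∏ i ∈ S, ((aextq (m := m) k a i : ℝ) * vecq ϑ k q a i) ^ N| ≤ Real.exp N' := by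
    rw [Finset.abs_prod]
    have h1 : ∀ i ∈ S, |((aextq (m := m) k a i : ℝ) * vecq ϑ k q a i) ^ N| ≤
        Real.exp (N * (L + 1)) := by
      intro i hi
      have hA := hab i hi
      have hV := hvb i hi
      have hA0 : (0 : ℝ) ≤ (aextq (m := m) k a i : ℝ) := Nat.cast_nonneg _
      have hA1 : (aextq (m := m) k a i : ℝ) ≤ Qm := by
        exact_mod_cast hA.2.1.le.trans hA.2.2
      have hV0 : 0 ≤ vecq ϑ k q a i := by linarith
      rw [abs_pow, abs_of_nonneg (mul_nonneg hA0 hV0)]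
      have h2 : (aextq (m := m) k a i : ℝ) * vecq ϑ k q a i ≤ Real.exp (L + 1) := by
        rw [Real.exp_add, ← hqL]
        have h3 : (2 : ℝ) ≤ Real.exp 1 := by
          have := Real.add_one_le_exp (1 : ℝ)
          linarith
        exact mul_le_mul hA1 (hV.2.trans h3) hV0 hq0.le
      calc ((aextq (m := m) k a i : ℝ) * vecq ϑ k q a i) ^ N ≤ (Real.exp (L + 1)) ^ N :=
            pow_le_pow_left₀ (mul_nonneg hA0 hV0) h2 _
        _ = Real.exp (N * (L + 1)) := by rw [← Real.exp_nat_mul]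
    calc ∏ i ∈ S, |((aextq (m := m) k a i : ℝ) * vecq ϑ k q a i) ^ N|
        ≤ ∏ _i ∈ S, Real.exp (N * (L + 1)) :=
          Finset.prod_le_prod (fun i _ => abs_nonneg _) h1
      _ = Real.exp (S.card * (N * (L + 1))) := by
          rw [Finset.prod_const, ← Real.exp_nat_mul]
      _ ≤ Real.exp N' := by
          apply Real.exp_le_exp.2
          have hc1 : (S.card : ℝ) ≤ M := by
            have h5 : S.card ≤ m + k := by
              have := Finset.card_le_univ S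
              simpa using this
            rw [hM]
            exact_mod_cast h5
          have h6 : (S.card : ℝ) * (N * (L + 1)) ≤ M * (N * (L + 1)) :=
            mul_le_mul_of_nonneg_right hc1 (by positivity)
          nlinarith
  have hE0 : 0 ≤ |ev (gvecq ϑ k q a) P| := abs_nonneg _
  have h7 : Real.exp (-(N' : ℝ) ^ κ) ≤ Real.exp N' * |ev (gvecq ϑ k q a) P| :=
    hg.trans (mul_le_mul_of_nonneg_right hprod hE0)
  have h8 : Real.exp (-((N' : ℝ) ^ κ + N')) = Real.exp (-(N' : ℝ) ^ κ) * Real.exp (-(N' : ℝ)) := by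
    rw [← Real.exp_add]; congr 1; ring
  rw [h8]
  calc Real.exp (-(N' : ℝ) ^ κ) * Real.exp (-(N' : ℝ))
      ≤ Real.exp N' * |ev (gvecq ϑ k q a) P| * Real.exp (-(N' : ℝ)) :=
        mul_le_mul_of_nonneg_right h7 (Real.exp_pos _).le
    _ = |ev (gvecq ϑ k q a) P| * (Real.exp N' * Real.exp (-(N' : ℝ))) := by ring
    _ = |ev (gvecq ϑ k q a) P| := by rw [← Real.exp_add, add_neg_cancel, Real.exp_zero, mul_one]

end GLR
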