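import Pool.Agent.Helper49.GL.R3

namespace GLR

open MvPolynomial

open Classical in
/-- The theorem for a fixed vector `ϑ` with polynomial measure and arbitrary denominators. -/
theorem final_genq {m : ℕ} (ϑ : Fin m → ℝ) (hϑ : ∀ i, |ϑ i| ≤ 4) (h : PolyMeas ϑ) (k : ℕ) :
    ∃ C κ σ : ℝ, 0 < C ∧ 0 < κ ∧ 0 < σ ∧ ∀ (q : Fin k → ℕ) (Q0 Qm N : ℕ), 1 ≤ N → 1 ≤ Q0 →
      1 ≤ Qm → (∀ i, 2 ≤ q i) → (∀ i, Q0 ≤ q i) → (∀ i, q i ≤ Qm) →
      (((Fintype.piFinset fun i : Fin k => Finset.Ico 1 (q i)).filter (fun a =>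
        ∃ P : MvPolynomial (Fin (m + k)) ℤ, P ≠ 0 ∧ P.totalDegree ≤ N ∧
          (∀ s, |((P.coeff s : ℤ) : ℝ)| ≤ Real.exp N) ∧
          |ev (gvecq ϑ k q a) P| < Real.exp (-(C * (N + Real.log Qm) ^ κ)))).card : ℝ)
      ≤ C * (N + Real.log Qm) ^ κ * ((∏ i, (q i : ℝ)) * (Q0 : ℝ) ^ (-σ)) := by
  obtain ⟨κ, N0, hκ, hst⟩ := statq_all hϑ h k
  set D : ℝ := (N0 : ℝ) + 1 + 6 * ((m + k + 1 : ℕ) : ℝ) with hD
  have hDpos : 1 ≤ D := by
    have h1 : (0 : ℝ) ≤ N0 := Nat.cast_nonneg _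
    have h2 : (0 : ℝ) ≤ ((m + k + 1 : ℕ) : ℝ) := Nat.cast_nonneg _
    rw [hD]; linarith
  refine ⟨2 * D ^ κ, ((2 * κ : ℕ) : ℝ), 1 / (κ : ℝ), by positivity, ?_, by positivity, ?_⟩
  · have : 0 < 2 * κ := by omega
    exact_mod_cast this
  intro q Q0 Qm N hN hQ0 hQm hq hqQ hqm
  have hq1 : (1 : ℝ) ≤ Qm := by exact_mod_cast hQm
  have hL : 0 ≤ Real.log Qm := Real.log_nonneg hq1
  have hN1 : (1 : ℝ) ≤ N := by exact_mod_cast hN
  set L := Real.log Qm with hLdef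
  set X : ℝ := (N : ℝ) + L with hX
  have hX1 : 1 ≤ X := by rw [hX]; linarith
  set y : ℝ := ((m + k + 1 : ℕ) : ℝ) * (N + 1) * (L + 3) with hy
  have hM1 : (1 : ℝ) ≤ ((m + k + 1 : ℕ) : ℝ) := by
    exact_mod_cast (by omega : 1 ≤ m + k + 1)
  have hy0 : 0 ≤ y := by rw [hy]; positivity
  have hyL : L + 3 ≤ y := by
    rw [hy]
    have h1 : (1 : ℝ) ≤ ((m + k + 1 : ℕ) : ℝ) * (N + 1) := by nlinarith
    nlinarith
  set N' : ℕ := N0 + ⌈y⌉₊ with hN'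
  have hyN' : y ≤ N' := by
    have h1 := Nat.le_ceil y
    rw [hN']; push_cast
    have h2 : (0 : ℝ) ≤ N0 := Nat.cast_nonneg _
    linarith
  have hqN' : (Qm : ℝ) ≤ Real.exp N' := by
    have h1 : Real.log Qm ≤ N' := by rw [← hLdef]; linarith
    have h2 : (0 : ℝ) < Qm := by linarith
    calc (Qm : ℝ) = Real.exp (Real.log Qm) := (Real.exp_log h2).symm
      _ ≤ Real.exp N' := Real.exp_le_exp.mpr h1
  have hN'1 : (1 : ℝ) ≤ N' := by linarith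
  have hN'D : (N' : ℝ) ≤ D * X ^ 2 := by
    have h1 : (⌈y⌉₊ : ℝ) < y + 1 := Nat.ceil_lt_add_one hy0
    have h2 : (N' : ℝ) ≤ N0 + 1 + y := by
      rw [hN']; push_cast; linarith
    have h3 : y ≤ 6 * ((m + k + 1 : ℕ) : ℝ) * X ^ 2 := by
      have h4 : (N : ℝ) + 1 ≤ 2 * X := by rw [hX]; linarith
      have h5 : L + 3 ≤ 3 * X := by rw [hX]; linarith
      have h6 : ((N : ℝ) + 1) * (L + 3) ≤ (2 * X) * (3 * X) :=
        mul_le_mul h4 h5 (by linarith) (by linarith)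
      rw [hy]
      calc ((m + k + 1 : ℕ) : ℝ) * (N + 1) * (L + 3)
          = ((m + k + 1 : ℕ) : ℝ) * ((N + 1) * (L + 3)) := by ring
        _ ≤ ((m + k + 1 : ℕ) : ℝ) * ((2 * X) * (3 * X)) :=
            mul_le_mul_of_nonneg_left h6 (by linarith)
        _ = 6 * ((m + k + 1 : ℕ) : ℝ) * X ^ 2 := by ring
    have h7 : (N0 : ℝ) + 1 ≤ ((N0 : ℝ) + 1) * X ^ 2 := by
      have h8 : (1 : ℝ) ≤ X ^ 2 := by nlinarith
      have h9 : (0 : ℝ) ≤ N0 := Nat.cast_nonneg _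
      nlinarith
    rw [hD]
    calc (N' : ℝ) ≤ N0 + 1 + y := h2
      _ ≤ ((N0 : ℝ) + 1) * X ^ 2 + 6 * ((m + k + 1 : ℕ) : ℝ) * X ^ 2 := by linarith
      _ = _ := by ring
  have hpow : (N' : ℝ) ^ κ ≤ D ^ κ * X ^ (2 * κ) := by
    calc (N' : ℝ) ^ κ ≤ (D * X ^ 2) ^ κ := pow_le_pow_left₀ (by linarith) hN'D κ
      _ = D ^ κ * X ^ (2 * κ) := by rw [mul_pow, ← pow_mul]
  have hrp : X ^ (((2 * κ : ℕ) : ℝ)) = X ^ (2 * κ) := Real.rpow_natCast X (2 * κ)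
  rw [hrp]
  have hsum : (N' : ℝ) ^ κ + N' ≤ 2 * D ^ κ * X ^ (2 * κ) := by
    have h1 : (N' : ℝ) ≤ (N' : ℝ) ^ κ := le_self_pow₀ hN'1 (by omega)
    calc (N' : ℝ) ^ κ + N' ≤ 2 * (N' : ℝ) ^ κ := by linarith
      _ ≤ 2 * (D ^ κ * X ^ (2 * κ)) := by linarith
      _ = _ := by ring
  have hsub : ((Fintype.piFinset fun i : Fin k => Finset.Ico 1 (q i)).filter (fun a =>
        ∃ P : MvPolynomial (Fin (m + k)) ℤ, P ≠ 0 ∧ P.totalDegree ≤ N ∧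
          (∀ s, |((P.coeff s : ℤ) : ℝ)| ≤ Real.exp N) ∧
          |ev (gvecq ϑ k q a) P| < Real.exp (-(2 * D ^ κ * X ^ (2 * κ))))) ⊆
      badSetq ϑ q N' κ := by
    intro a ha
    rw [Finset.mem_filter] at ha
    obtain ⟨hmem, P, hP, hdeg, hc, hlt⟩ := ha
    rw [badSetq, Finset.mem_filter]
    refine ⟨hmem, fun hgood => ?_⟩
    have ha' : ∀ i, 1 ≤ a i ∧ a i < q i := fun i => by
      have := (Fintype.mem_piFinset.mp hmem) i
      rwa [Finset.mem_Ico] at this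
    have h1 := good_impq hQm hN hyN' q a hqm ha' hgood P hP hdeg hc
    have h2 : Real.exp (-(2 * D ^ κ * X ^ (2 * κ))) ≤ Real.exp (-((N' : ℝ) ^ κ + N')) :=
      Real.exp_le_exp.mpr (neg_le_neg hsum)
    linarith
  have hcard : (((Fintype.piFinset fun i : Fin k => Finset.Ico 1 (q i)).filter (fun a =>
        ∃ P : MvPolynomial (Fin (m + k)) ℤ, P ≠ 0 ∧ P.totalDegree ≤ N ∧
          (∀ s, |((P.coeff s : ℤ) : ℝ)| ≤ Real.exp N) ∧
          |ev (gvecq ϑ k q a) P| < Real.exp (-(2 * D ^ κ * X ^ (2 * κ))))).card : ℝ) ≤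
      ((badSetq ϑ q N' κ).card : ℝ) := by
    exact_mod_cast Finset.card_le_card hsub
  have h3 := hst q Q0 N' (by omega) hQ0 hq hqQ
    (fun i => le_trans (by exact_mod_cast hqm i) hqN')
  have hqp : 0 ≤ (∏ i, (q i : ℝ)) * (Q0 : ℝ) ^ (-(1 / (κ : ℝ))) := by positivity
  calc _ ≤ ((badSetq ϑ q N' κ).card : ℝ) := hcard
    _ ≤ (N' : ℝ) ^ κ * ((∏ i, (q i : ℝ)) * (Q0 : ℝ) ^ (-(1 / (κ : ℝ)))) := h3
    _ ≤ (2 * D ^ κ * X ^ (2 * κ)) * ((∏ i, (q i : ℝ)) * (Q0 : ℝ) ^ (-(1 / (κ : ℝ)))) := by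
        refine mul_le_mul_of_nonneg_right ?_ hqp
        have h4 : (0 : ℝ) ≤ N' := by linarith
        linarith

private theorem gvecq_lt {m : ℕ} (ϑ : Fin m → ℝ) : ∀ (k : ℕ) (q a : Fin k → ℕ)
    (j : ℕ) (hj : j < k) (hj' : j < m + k),
    gvecq ϑ k q a ⟨j, hj'⟩ = Real.Gamma ((a ⟨j, hj⟩ : ℝ) / (q ⟨j, hj⟩ : ℝ))
  | 0, _, _, j, hj, _ => absurd hj (Nat.not_lt_zero j)
  | (k + 1), q, a, 0, _, _ => rfl
  | (k + 1), q, a, (j + 1), hj, hj' => by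
    have h := gvecq_lt ϑ k (Fin.tail q) (Fin.tail a) j (by omega) (by omega)
    exact h

private theorem gvecq_ge {m : ℕ} (ϑ : Fin m → ℝ) : ∀ (k : ℕ) (q a : Fin k → ℕ)
    (j : ℕ) (hj : j < m) (hj' : k + j < m + k),
    gvecq ϑ k q a ⟨k + j, hj'⟩ = ϑ ⟨j, hj⟩
  | 0, _, _, j, hj, hj' => by
    have : (⟨0 + j, hj'⟩ : Fin (m + 0)) = (⟨j, hj⟩ : Fin m) := Fin.ext (by simp)
    show ϑ ⟨0 + j, hj'⟩ = ϑ ⟨j, hj⟩
    congr 1
  | (k + 1), q, a, j, hj, hj' => by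
    have h := gvecq_ge ϑ k (Fin.tail q) (Fin.tail a) j hj (by omega)
    have h2 : (⟨k + 1 + j, hj'⟩ : Fin (m + (k + 1))) =
        Fin.succ (⟨k + j, by omega⟩ : Fin (m + k)) := Fin.ext (by simp; omega)
    rw [h2]
    exact h

private theorem transferq {ι : Type} {M N : ℕ} {f : ι → Fin M} (hf : Function.Injective f)
    {P : MvPolynomial ι ℤ} (hP : P ≠ 0) (hdeg : P.totalDegree ≤ N)
    (hc : ∀ s, |((P.coeff s : ℤ) : ℝ)| ≤ Real.exp N) :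
    rename f P ≠ 0 ∧ (rename f P).totalDegree ≤ N ∧
      ∀ s, |(((rename f P).coeff s : ℤ) : ℝ)| ≤ Real.exp N := by
  refine ⟨fun h0 => hP (rename_injective f hf (by rw [h0, map_zero])),
    (totalDegree_rename_le f P).trans hdeg, fun s => ?_⟩
  by_cases hs : ∃ u, Finsupp.mapDomain f u = s
  · obtain ⟨u, rfl⟩ := hs
    rw [coeff_rename_mapDomain f hf]
    exact hc u
  · push Not at hs
    rw [coeff_rename_eq_zero f P s fun u hu => absurd hu (hs u)]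
    simp only [Int.cast_zero, abs_zero]
    exact (Real.exp_pos _).le

/-- The vector `(π, Γ(a_1/q_1), ..., Γ(a_k/q_k))`. -/
noncomputable def gval {k : ℕ} (q a : Fin k → ℕ) : Option (Fin k) → ℝ :=
  fun o => Option.elim o Real.pi (fun i => Real.Gamma ((a i : ℝ) / (q i : ℝ)))

open Classical in
/-- The case `ϑ = π`. -/
theorem final_piq (hpi : PolyMeas (fun _ : Fin 1 => Real.pi)) (k : ℕ) :
    ∃ C κ σ : ℝ, 0 < C ∧ 0 < κ ∧ 0 < σ ∧ ∀ (q : Fin k → ℕ) (Q0 Qm N : ℕ), 1 ≤ N → 1 ≤ Q0 →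
      1 ≤ Qm → (∀ i, 2 ≤ q i) → (∀ i, Q0 ≤ q i) → (∀ i, q i ≤ Qm) →
      (((Fintype.piFinset fun i : Fin k => Finset.Ico 1 (q i)).filter (fun a =>
        ∃ P : MvPolynomial (Option (Fin k)) ℤ, P ≠ 0 ∧ P.totalDegree ≤ N ∧
          (∀ s, |((P.coeff s : ℤ) : ℝ)| ≤ Real.exp N) ∧
          |aeval (gval q a) P| < Real.exp (-(C * (N + Real.log Qm) ^ κ)))).card : ℝ)
      ≤ C * (N + Real.log Qm) ^ κ * ((∏ i, (q i : ℝ)) * (Q0 : ℝ) ^ (-σ)) := by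
  have hb : ∀ i : Fin 1, |(fun _ : Fin 1 => Real.pi) i| ≤ 4 := fun _ => by
    show |Real.pi| ≤ 4
    rw [abs_of_pos Real.pi_pos]
    exact Real.pi_le_four
  obtain ⟨C, κ, σ, hC, hκ, hσ, H⟩ := final_genq (m := 1) _ hb hpi k
  refine ⟨C, κ, σ, hC, hκ, hσ, fun q Q0 Qm N hN h1 h2 h3 h4 h5 =>
    le_trans ?_ (H q Q0 Qm N hN h1 h2 h3 h4 h5)⟩
  rw [Nat.cast_le]
  refine Finset.card_le_card fun a ha => ?_
  rw [Finset.mem_filter] at ha ⊢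
  obtain ⟨hmem, P, hP, hdeg, hc, hlt⟩ := ha
  set f : Option (Fin k) → Fin (1 + k) := fun o => Option.elim o ⟨k + 0, by omega⟩
    (fun i => ⟨i, by omega⟩) with hfdef
  have hf : Function.Injective f := by
    intro i j hij
    have h0 := congrArg Fin.val hij
    rcases i with _ | i <;> rcases j with _ | j
    · rfl
    · simp only [hfdef, Option.elim] at h0
      have := j.2
      omega
    · simp only [hfdef, Option.elim] at h0
      have := i.2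
      omega
    · simp only [hfdef, Option.elim] at h0
      rw [Fin.ext h0]
  obtain ⟨g1, g2, g3⟩ := transferq hf hP hdeg hc
  refine ⟨hmem, rename f P, g1, g2, g3, ?_⟩
  have h4 : ev (gvecq (fun _ : Fin 1 => Real.pi) k q a) (rename f P) =
      aeval (gval q a) P := by
    rw [ev, eval₂Hom_rename]
    have h5 : (gvecq (fun _ : Fin 1 => Real.pi) k q a) ∘ f = gval q a := by
      funext o
      rcases o with _ | i
      · exact gvecq_ge (fun _ : Fin 1 => Real.pi) k q a 0 (by omega) _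
      · exact gvecq_lt _ k q a i i.2 _
    rw [h5]
    rfl
  rw [h4]
  exact hlt

end GLR
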