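import Pool.Agent.Helper49.GL.Def

namespace GLR

/-- GI-S1. An entire function vanishing on a finite set is divisible by the product: induction on
the set with `dslope` (`f z = f z - f x = (z - x) * dslope f x z`, and `dslope f x` is entire,
`Complex.differentiableOn_dslope` / `DifferentiableOn` on `univ`); at the other points of the set
the quotient vanishes again. -/
theorem entire_factor (f : ℂ → ℂ) (hf : Differentiable ℂ f) (S : Finset ℂ)
    (hS : ∀ x ∈ S, f x = 0) :
    ∃ h : ℂ → ℂ, Differentiable ℂ h ∧ ∀ z, f z = (∏ x ∈ S, (z - x)) * h z := by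
  classical
  induction S using Finset.induction_on generalizing f with
  | empty => exact ⟨f, hf, fun z => by simp⟩
  | insert a S ha ih =>
    have hda : Differentiable ℂ (dslope f a) := by
      rw [← differentiableOn_univ]
      exact (Complex.differentiableOn_dslope Filter.univ_mem).2 hf.differentiableOn
    have hfa : f a = 0 := hS a (Finset.mem_insert_self a S)
    have hfz : ∀ z, f z = (z - a) * dslope f a z := by
      intro z
      have h1 := sub_smul_dslope f a z
      rw [hfa, sub_zero, smul_eq_mul] at h1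
      exact h1.symm
    obtain ⟨h, hh, hz⟩ := ih (dslope f a) hda (fun x hx => by
      have hxa : x ≠ a := fun e => ha (e ▸ hx)
      have h1 := hfz x
      rw [hS x (Finset.mem_insert_of_mem hx)] at h1
      exact (mul_eq_zero.1 h1.symm).resolve_left (sub_ne_zero.2 hxa))
    exact ⟨h, hh, fun z => by rw [Finset.prod_insert ha, hfz z, hz z, mul_assoc]⟩

/-- GI-S1. Schwarz lemma: `h` of `entire_factor` is bounded by `M / (R - 1)^T` on `‖z‖ = R`, hence on
`‖z‖ ≤ R` by the maximum modulus principle (`Complex.norm_le_of_forall_mem_frontier_norm_le` on the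
ball of radius `R`). -/
theorem schwarz_zero (f : ℂ → ℂ) (hf : Differentiable ℂ f) (S : Finset ℂ)
    (hS : ∀ x ∈ S, f x = 0) (hS1 : ∀ x ∈ S, ‖x‖ ≤ 1) (r R M : ℝ) (hr : 0 ≤ r) (hrR : r ≤ R)
    (hR : 1 < R) (hM : ∀ z, ‖z‖ ≤ R → ‖f z‖ ≤ M) (z : ℂ) (hz : ‖z‖ ≤ r) :
    ‖f z‖ ≤ ((r + 1) / (R - 1)) ^ S.card * M := by
  obtain ⟨h, hh, hfh⟩ := entire_factor f hf S hS
  have hR0 : 0 < R - 1 := by linarith
  have hM0 : 0 ≤ M := le_trans (norm_nonneg _) (hM 0 (by rw [norm_zero]; linarith))
  have hpow : 0 < (R - 1) ^ S.card := pow_pos hR0 _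
  -- the bound on the circle
  have hcirc : ∀ w ∈ frontier (Metric.ball (0 : ℂ) R), ‖h w‖ ≤ M / (R - 1) ^ S.card := by
    intro w hw
    rw [frontier_ball (0 : ℂ) (by linarith), mem_sphere_zero_iff_norm] at hw
    have h1 : (R - 1) ^ S.card ≤ ‖∏ x ∈ S, (w - x)‖ := by
      rw [norm_prod]
      calc (R - 1) ^ S.card = ∏ _x ∈ S, (R - 1) := by rw [Finset.prod_const]
        _ ≤ ∏ x ∈ S, ‖w - x‖ := Finset.prod_le_prod (fun _ _ => hR0.le) (fun x hx => by
            have h2 := norm_sub_norm_le w x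
            have h3 := hS1 x hx
            linarith)
    have h2 : ‖∏ x ∈ S, (w - x)‖ * ‖h w‖ ≤ M := by
      rw [← norm_mul, ← hfh w]
      exact hM w hw.le
    rw [le_div_iff₀ hpow]
    calc ‖h w‖ * (R - 1) ^ S.card ≤ ‖h w‖ * ‖∏ x ∈ S, (w - x)‖ :=
          mul_le_mul_of_nonneg_left h1 (norm_nonneg _)
      _ = ‖∏ x ∈ S, (w - x)‖ * ‖h w‖ := mul_comm _ _
      _ ≤ M := h2
  have hball : ‖h z‖ ≤ M / (R - 1) ^ S.card := by
    refine Complex.norm_le_of_forall_mem_frontier_norm_le Metric.isBounded_ball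
      hh.diffContOnCl hcirc ?_
    rw [closure_ball (0 : ℂ) (by linarith), mem_closedBall_zero_iff]
    linarith
  have hprod : ‖∏ x ∈ S, (z - x)‖ ≤ (r + 1) ^ S.card := by
    rw [norm_prod]
    calc ∏ x ∈ S, ‖z - x‖ ≤ ∏ _x ∈ S, (r + 1) :=
          Finset.prod_le_prod (fun _ _ => norm_nonneg _) (fun x hx => by
            have h2 := norm_sub_le z x
            have h3 := hS1 x hx
            linarith)
      _ = (r + 1) ^ S.card := by rw [Finset.prod_const]
  rw [hfh z, norm_mul, div_pow]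
  calc ‖∏ x ∈ S, (z - x)‖ * ‖h z‖ ≤ (r + 1) ^ S.card * (M / (R - 1) ^ S.card) :=
        mul_le_mul hprod hball (norm_nonneg _) (by positivity)
    _ = (r + 1) ^ S.card / (R - 1) ^ S.card * M := by ring

end GLR
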