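import Mathlib

namespace GLR

/-- GI-T1. For a finite set `S` of integers `≥ 2`: `∏ (1 - 1/p) ≥ 1/(|S| + 1)`. Induction on the
cardinality, removing the largest element `m ≥ |S| + 1`. -/
theorem prod_one_sub_ge (S : Finset ℕ) (hS : ∀ p ∈ S, 2 ≤ p) :
    1 / ((S.card : ℝ) + 1) ≤ ∏ p ∈ S, (1 - 1 / (p : ℝ)) := by
  induction S using Finset.induction_on_max with
  | empty => simp
  | insert a s hlt ih =>
    have ha : a ∉ s := fun h => lt_irrefl a (hlt a h)
    have ih' := ih (fun p hp => hS p (Finset.mem_insert_of_mem hp))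
    have ha2 : 2 ≤ a := hS a (Finset.mem_insert_self a s)
    have hc : s.card ≤ a - 2 := by
      have h1 : s ⊆ Finset.Ico 2 a := fun x hx =>
        Finset.mem_Ico.2 ⟨hS x (Finset.mem_insert_of_mem hx), hlt x hx⟩
      have h2 := Finset.card_le_card h1
      rwa [Nat.card_Ico] at h2
    have hca : ((s.card : ℝ) + 2) ≤ a := by
      have : s.card + 2 ≤ a := by omega
      exact_mod_cast this
    have hc0 : (0 : ℝ) ≤ s.card := Nat.cast_nonneg _
    have ha0 : (0 : ℝ) < a := by linarith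
    rw [Finset.prod_insert ha, Finset.card_insert_of_notMem ha]
    push_cast
    have h3 : ((s.card : ℝ) + 1) / (s.card + 2) ≤ 1 - 1 / (a : ℝ) := by
      have h4 : 1 / (a : ℝ) ≤ 1 / ((s.card : ℝ) + 2) :=
        one_div_le_one_div_of_le (by linarith) hca
      have h5 : ((s.card : ℝ) + 1) / (s.card + 2) = 1 - 1 / ((s.card : ℝ) + 2) := by
        field_simp
        ring
      rw [h5]
      linarith
    calc 1 / ((s.card : ℝ) + 1 + 1) = ((s.card : ℝ) + 1) / (s.card + 2) * (1 / (s.card + 1)) := by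
          field_simp
          ring
      _ ≤ (1 - 1 / (a : ℝ)) * ∏ p ∈ s, (1 - 1 / (p : ℝ)) := by
          apply mul_le_mul h3 ih' (by positivity)
          exact le_trans (by positivity) h3

/-- GI-T1. `φ(q) = q ∏ (1 - 1/p)` over the primes dividing `q` (`Nat.totient_eq_mul_prod_factors`),
and the number `r` of these primes satisfies `2^r ≤ q`. -/
theorem totient_ge (q : ℕ) (hq : 1 ≤ q) :
    (q : ℝ) ≤ (q.totient : ℝ) * (1 + Real.logb 2 q) := by
  have hq0 : (0 : ℝ) < q := by exact_mod_cast hq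
  have h1 := Nat.totient_eq_mul_prod_factors q
  have h2 : (q.totient : ℝ) = q * ∏ p ∈ q.primeFactors, (1 - 1 / (p : ℝ)) := by
    have h3 : ((q.totient : ℚ) : ℝ) = ((q * ∏ p ∈ q.primeFactors, (1 - (p : ℚ)⁻¹) : ℚ) : ℝ) := by
      rw [h1]
    push_cast at h3
    simpa [one_div] using h3
  have h4 := prod_one_sub_ge q.primeFactors (fun p hp => (Nat.prime_of_mem_primeFactors hp).two_le)
  set r := q.primeFactors.card with hr
  have h5 : (2 : ℝ) ^ r ≤ q := by
    have h6 : 2 ^ r ≤ ∏ p ∈ q.primeFactors, p :=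
      Finset.pow_card_le_prod _ _ _ (fun p hp => (Nat.prime_of_mem_primeFactors hp).two_le)
    have h7 : ∏ p ∈ q.primeFactors, p ≤ q := Nat.le_of_dvd hq (Nat.prod_primeFactors_dvd q)
    exact_mod_cast h6.trans h7
  have h8 : (r : ℝ) ≤ Real.logb 2 q := by
    rw [Real.le_logb_iff_rpow_le (by norm_num) hq0, Real.rpow_natCast]
    exact h5
  have h9 : (q : ℝ) * (1 / ((r : ℝ) + 1)) ≤ q.totient := by
    rw [h2]
    exact mul_le_mul_of_nonneg_left h4 hq0.le
  have h10 : (0 : ℝ) < (r : ℝ) + 1 := by positivity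
  have h11 : (q : ℝ) ≤ q.totient * ((r : ℝ) + 1) := by
    rw [mul_one_div, div_le_iff₀ h10] at h9
    exact h9
  calc (q : ℝ) ≤ q.totient * ((r : ℝ) + 1) := h11
    _ ≤ (q.totient : ℝ) * (1 + Real.logb 2 q) :=
        mul_le_mul_of_nonneg_left (by linarith) (Nat.cast_nonneg _)

end GLR
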