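import Pool.Agent.Helper49.GL.T1
import Pool.Agent.Helper49.GL.P11
import Pool.Agent.Helper49.GL.Q10

namespace GLR

open MvPolynomial

/-- The vector `(π, Γ(a_1/q), ..., Γ(a_k/q))`. -/
noncomputable def gpi {k : ℕ} (q : ℕ) (a : Fin k → ℕ) : Option (Fin k) → ℝ :=
  fun o => Option.elim o Real.pi (fun i => Real.Gamma ((a i : ℝ) / q))

open Classical in
/-- GI-T2. THE ASYMPTOTIC FORM, from the counting bound. Let `C, κ, σ` be the constants; take `c > 0`
with `c ≤ σ/8`, `c κ ≤ σ/8`, `c ≤ 1` and `N = ⌈q^c⌉`. For large `q`: `N + log q ≤ 3 q^c`,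
`C (N + log q)^κ ≤ C 3^κ q^(c κ) ≤ q^(σ/4)`. A tuple of reduced residues with an exact relation of
degree `≤ q^c ≤ N` and coefficients `≤ exp (q^c) ≤ exp N` is among the counted ones (for `q ≥ 2`,
`1 ≤ a < q` and `gcd (a, q) = 1`; the value `0` is less than the positive bound), so there are at
most `q^(σ/4) q^(k - σ) = q^(k - 3σ/4)` of them, and `q^k ≤ φ(q)^k (1 + log_2 q)^k`
(`totient_ge`), `(1 + log_2 q)^k ≤ q^(σ/4)` for large `q`. -/
theorem asymptotic (k : ℕ)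
    (h : ∃ C κ σ : ℝ, 0 < C ∧ 0 < κ ∧ 0 < σ ∧ ∀ q N : ℕ, 2 ≤ q → 1 ≤ N →
      (((Fintype.piFinset fun _ : Fin k => Finset.Ico 1 q).filter (fun a =>
        ∃ P : MvPolynomial (Option (Fin k)) ℤ, P ≠ 0 ∧ P.totalDegree ≤ N ∧
          (∀ s, |((P.coeff s : ℤ) : ℝ)| ≤ Real.exp N) ∧
          |aeval (gpi q a) P| < Real.exp (-(C * (N + Real.log q) ^ κ)))).card : ℝ)
      ≤ C * (N + Real.log q) ^ κ * (q : ℝ) ^ ((k : ℝ) - σ)) :
    ∃ c : ℝ, 0 < c ∧ ∃ q₀ : ℕ, ∀ q : ℕ, q₀ ≤ q →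
      (((Fintype.piFinset fun _ : Fin k =>
          (Finset.range q).filter (fun x => Nat.Coprime x q)).filter (fun a =>
        ∃ P : MvPolynomial (Option (Fin k)) ℤ, P ≠ 0 ∧ (P.totalDegree : ℝ) ≤ (q : ℝ) ^ c ∧
          (∀ s, |((P.coeff s : ℤ) : ℝ)| ≤ Real.exp ((q : ℝ) ^ c)) ∧
          aeval (gpi q a) P = 0)).card : ℝ)
      ≤ (q.totient : ℝ) ^ k * (q : ℝ) ^ (-c) := by
  obtain ⟨C, κ, σ, hC, hκ, hσ, H⟩ := h
  set c : ℝ := min 1 (min (σ / 8) (σ / (8 * κ))) with hc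
  have hc0 : 0 < c := by
    rw [hc]
    refine lt_min one_pos (lt_min (by positivity) (by positivity))
  have hc1 : c ≤ σ / 8 := (min_le_right _ _).trans (min_le_left _ _)
  have hc2 : c * κ ≤ σ / 8 := by
    have h1 : c ≤ σ / (8 * κ) := (min_le_right _ _).trans (min_le_right _ _)
    calc c * κ ≤ σ / (8 * κ) * κ := mul_le_mul_of_nonneg_right h1 hκ.le
      _ = σ / 8 := by field_simp
  -- the three asymptotic inequalities
  have e1 : ∀ᶠ x : ℝ in Filter.atTop, Real.log x ≤ x ^ c := by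
    have h1 := (isLittleO_log_rpow_atTop hc0).bound (show (0 : ℝ) < 1 from one_pos)
    filter_upwards [h1, Filter.eventually_ge_atTop (1 : ℝ)] with x hx hx1
    rw [one_mul, Real.norm_of_nonneg (Real.log_nonneg hx1),
      Real.norm_of_nonneg (Real.rpow_nonneg (by linarith) _)] at hx
    exact hx
  have e2 : ∀ᶠ x : ℝ in Filter.atTop, C * 3 ^ κ ≤ x ^ (σ / 8) :=
    (tendsto_rpow_atTop (show 0 < σ / 8 by positivity)).eventually_ge_atTop _
  set ε : ℝ := σ / (4 * ((k : ℝ) + 1)) with hε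
  have hε0 : 0 < ε := by positivity
  have e3 : ∀ᶠ x : ℝ in Filter.atTop, 1 + Real.logb 2 x ≤ x ^ ε := by
    have hl2 : 0 < Real.log 2 := Real.log_pos (by norm_num)
    have h1 := (isLittleO_log_rpow_atTop hε0).bound
      (show (0 : ℝ) < Real.log 2 / 2 by positivity)
    have h2 := (tendsto_rpow_atTop hε0).eventually_ge_atTop 2
    filter_upwards [h1, h2, Filter.eventually_ge_atTop (1 : ℝ)] with x hx hx2 hx1
    rw [Real.norm_of_nonneg (Real.log_nonneg hx1),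
      Real.norm_of_nonneg (Real.rpow_nonneg (by linarith) _)] at hx
    have h3 : Real.logb 2 x ≤ x ^ ε / 2 := by
      rw [Real.logb, div_le_iff₀ hl2]
      calc Real.log x ≤ Real.log 2 / 2 * x ^ ε := hx
        _ = x ^ ε / 2 * Real.log 2 := by ring
    linarith
  have e4 := (tendsto_natCast_atTop_atTop (R := ℝ)).eventually ((e1.and e2).and e3)
  obtain ⟨q₁, hq₁⟩ := Filter.eventually_atTop.mp e4
  refine ⟨c, hc0, max q₁ 2, fun q hq => ?_⟩
  obtain ⟨⟨a1, a2⟩, a3⟩ := hq₁ q ((le_max_left _ _).trans hq)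
  have hq2 : 2 ≤ q := (le_max_right _ _).trans hq
  have hq1 : (1 : ℝ) ≤ q := by exact_mod_cast (by omega : 1 ≤ q)
  have hq0 : (0 : ℝ) < q := by linarith
  have hqc1 : 1 ≤ (q : ℝ) ^ c := Real.one_le_rpow hq1 hc0.le
  set N : ℕ := ⌈(q : ℝ) ^ c⌉₊ with hN
  have hN1 : (q : ℝ) ^ c ≤ N := Nat.le_ceil _
  have hN2 : (N : ℝ) < (q : ℝ) ^ c + 1 := Nat.ceil_lt_add_one (by positivity)
  have hN3 : 1 ≤ N := by
    have h1 : (1 : ℝ) ≤ N := hqc1.trans hN1
    exact_mod_cast h1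
  have hlog : 0 ≤ Real.log q := Real.log_nonneg hq1
  have hNl : (N : ℝ) + Real.log q ≤ 3 * (q : ℝ) ^ c := by linarith
  have hNl0 : 0 ≤ (N : ℝ) + Real.log q := by positivity
  have hmain := H q N hq2 hN3
  have hB : C * ((N : ℝ) + Real.log q) ^ κ ≤ (q : ℝ) ^ (σ / 4) := by
    calc C * ((N : ℝ) + Real.log q) ^ κ ≤ C * (3 * (q : ℝ) ^ c) ^ κ :=
          mul_le_mul_of_nonneg_left (Real.rpow_le_rpow hNl0 hNl hκ.le) hC.le
      _ = C * 3 ^ κ * (q : ℝ) ^ (c * κ) := by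
          rw [Real.mul_rpow (by norm_num) (by positivity), ← Real.rpow_mul hq0.le, mul_assoc]
      _ ≤ (q : ℝ) ^ (σ / 8) * (q : ℝ) ^ (σ / 8) := by
          refine mul_le_mul a2 (Real.rpow_le_rpow_of_exponent_le hq1 hc2) (by positivity)
            (by positivity)
      _ = (q : ℝ) ^ (σ / 4) := by
          rw [← Real.rpow_add hq0]
          congr 1
          ring
  have hphi : (q : ℝ) ^ k ≤ (q.totient : ℝ) ^ k * (q : ℝ) ^ (σ / 4) := by
    have h1 := totient_ge q (by omega)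
    have h2 : (0 : ℝ) ≤ q.totient := Nat.cast_nonneg _
    have h3 : (q : ℝ) ≤ (q.totient : ℝ) * (q : ℝ) ^ ε :=
      h1.trans (mul_le_mul_of_nonneg_left a3 h2)
    calc (q : ℝ) ^ k ≤ ((q.totient : ℝ) * (q : ℝ) ^ ε) ^ k := pow_le_pow_left₀ hq0.le h3 k
      _ = (q.totient : ℝ) ^ k * (q : ℝ) ^ (ε * k) := by
          rw [mul_pow, Real.rpow_mul_natCast hq0.le]
      _ ≤ (q.totient : ℝ) ^ k * (q : ℝ) ^ (σ / 4) := by
          refine mul_le_mul_of_nonneg_left (Real.rpow_le_rpow_of_exponent_le hq1 ?_)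
            (pow_nonneg h2 _)
          rw [hε, div_mul_eq_mul_div, div_le_div_iff₀ (by positivity) (by norm_num)]
          have hk0 : (0 : ℝ) ≤ k := Nat.cast_nonneg _
          nlinarith
  have hsub : ((Fintype.piFinset fun _ : Fin k =>
          (Finset.range q).filter (fun x => Nat.Coprime x q)).filter (fun a =>
        ∃ P : MvPolynomial (Option (Fin k)) ℤ, P ≠ 0 ∧ (P.totalDegree : ℝ) ≤ (q : ℝ) ^ c ∧
          (∀ s, |((P.coeff s : ℤ) : ℝ)| ≤ Real.exp ((q : ℝ) ^ c)) ∧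
          aeval (gpi q a) P = 0)) ⊆
      ((Fintype.piFinset fun _ : Fin k => Finset.Ico 1 q).filter (fun a =>
        ∃ P : MvPolynomial (Option (Fin k)) ℤ, P ≠ 0 ∧ P.totalDegree ≤ N ∧
          (∀ s, |((P.coeff s : ℤ) : ℝ)| ≤ Real.exp N) ∧
          |aeval (gpi q a) P| < Real.exp (-(C * (N + Real.log q) ^ κ)))) := by
    intro a ha
    rw [Finset.mem_filter] at ha ⊢
    obtain ⟨hmem, P, hP, hdeg, hco, hz⟩ := ha
    refine ⟨?_, P, hP, ?_, fun s => (hco s).trans (Real.exp_le_exp.mpr hN1), ?_⟩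
    · rw [Fintype.mem_piFinset] at hmem ⊢
      intro i
      have h1 := hmem i
      rw [Finset.mem_filter, Finset.mem_range] at h1
      rw [Finset.mem_Ico]
      refine ⟨?_, h1.1⟩
      rcases Nat.eq_zero_or_pos (a i) with h2 | h2
      · have h3 := h1.2
        rw [h2, Nat.coprime_zero_left] at h3
        omega
      · exact h2
    · have h1 : (P.totalDegree : ℝ) ≤ N := hdeg.trans hN1
      exact_mod_cast h1
    · rw [hz, abs_zero]
      exact Real.exp_pos _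
  have hcard := Nat.cast_le (α := ℝ).mpr (Finset.card_le_card hsub)
  have hqk : (0 : ℝ) ≤ (q : ℝ) ^ ((k : ℝ) - σ) := Real.rpow_nonneg hq0.le _
  have hphik : (0 : ℝ) ≤ (q.totient : ℝ) ^ k := by positivity
  calc _ ≤ _ := hcard
    _ ≤ C * (N + Real.log q) ^ κ * (q : ℝ) ^ ((k : ℝ) - σ) := hmain
    _ ≤ (q : ℝ) ^ (σ / 4) * (q : ℝ) ^ ((k : ℝ) - σ) := mul_le_mul_of_nonneg_right hB hqk
    _ = (q : ℝ) ^ k * (q : ℝ) ^ (-(3 * σ / 4)) := by
        rw [← Real.rpow_add hq0, ← Real.rpow_natCast (q : ℝ) k, ← Real.rpow_add hq0]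
        congr 1
        ring
    _ ≤ ((q.totient : ℝ) ^ k * (q : ℝ) ^ (σ / 4)) * (q : ℝ) ^ (-(3 * σ / 4)) :=
        mul_le_mul_of_nonneg_right hphi (by positivity)
    _ = (q.totient : ℝ) ^ k * (q : ℝ) ^ (-(σ / 2)) := by
        rw [mul_assoc, ← Real.rpow_add hq0]
        congr 2
        ring
    _ ≤ (q.totient : ℝ) ^ k * (q : ℝ) ^ (-c) := by
        refine mul_le_mul_of_nonneg_left (Real.rpow_le_rpow_of_exponent_le hq1 ?_) hphik
        linarith

end GLR
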