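import Pool.Agent.Helper49.GL.Def

namespace GLR

open Polynomial

/-- Entry of the Casorati matrix: row `s`, column with exponents `(i, α)`:
`(w - s)^i ∏_l (∏_{s' < s} (w + c_l - s'))^(α l)` as a polynomial in `w`. -/
noncomputable def cas {J : ℕ} (c : Fin J → ℚ) (i : ℕ) (α : Fin J → ℕ) (s : ℕ) : ℚ[X] :=
  (X - C (s : ℚ)) ^ i * ∏ l, (∏ s' ∈ Finset.range s, (X + C (c l - (s' : ℚ)))) ^ α l

/-- The multiplier of the column with exponents `α`. -/
noncomputable def hcol {J : ℕ} (c : Fin J → ℚ) (α : Fin J → ℕ) : ℚ[X] :=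
  ∏ l, (X + C (c l)) ^ α l

/-- Bound for the degrees of the entries in the rows `s < Nc`. -/
def dZ (n J : ℕ) : ℕ := n + n * J * Nc n J

/-- Denominator of the evaluation point. -/
def mZ (n J : ℕ) : ℕ := Nc n J * dZ n J + 2

/-- The exponent in the zero estimate. -/
noncomputable def EZ (n J q : ℕ) : ℝ :=
  4 * ((Nc n J : ℝ) + 1) * ((dZ n J : ℝ) + 1) * Real.log (2 * mZ n J * q * ((Nc n J : ℝ) + 1))

end GLR
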