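import Pool.Agent.Helper49.GL.Def

namespace GLR

/-- GI-Z1. A singular matrix over a domain whose upper left `r × r` minor is nonzero has a kernel
vector with nonzero last coordinate (`Matrix.exists_mulVec_eq_zero_iff`; if the last coordinate
vanished, the first `r` coordinates would be in the kernel of the minor). -/
theorem ker_last {R : Type} [CommRing R] [IsDomain R] {r : ℕ}
    (M : Matrix (Fin (r + 1)) (Fin (r + 1)) R) (h0 : M.det = 0)
    (h1 : (Matrix.of fun s j : Fin r => M s.castSucc j.castSucc).det ≠ 0) :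
    ∃ v : Fin (r + 1) → R, Matrix.mulVec M v = 0 ∧ v (Fin.last r) ≠ 0 := by
  obtain ⟨v, hv0, hv⟩ := Matrix.exists_mulVec_eq_zero_iff.mpr h0
  refine ⟨v, hv, fun hl => h1 ?_⟩
  apply Matrix.exists_mulVec_eq_zero_iff.mp
  refine ⟨fun j => v j.castSucc, ?_, ?_⟩
  · intro hw
    apply hv0
    funext j
    refine Fin.lastCases ?_ (fun i => ?_) j
    · exact hl
    · exact congrFun hw i
  · funext s
    have h2 := congrFun hv s.castSucc
    simp only [Matrix.mulVec, dotProduct, Pi.zero_apply] at h2 ⊢
    rw [Fin.sum_univ_castSucc, hl, mul_zero, add_zero] at h2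
    simpa only [Matrix.of_apply] using h2

/-- GI-Z1. CASORATI. Put `u j = h j v j τ(v last) - h last v last τ(v j)`. Then `u last = 0` and for
`s < r`: `∑ j, τ(M s j) u j = τ(v last) ∑ j, M (s+1) j v j - h last v last τ(∑ j, M s j v j) = 0`.
The matrix `τ(M s j)`, `s, j < r` has determinant `τ(det) ≠ 0` (`RingHom.map_det`), so `u = 0`. -/
theorem casorati_prop {R : Type} [CommRing R] [IsDomain R] (τ : R →+* R)
    (hτ : Function.Injective τ) {r : ℕ} (h : Fin (r + 1) → R) (M : ℕ → Fin (r + 1) → R)
    (hM : ∀ s j, M (s + 1) j = h j * τ (M s j))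
    (hD : (Matrix.of fun s j : Fin r => M s j.castSucc).det ≠ 0) (v : Fin (r + 1) → R)
    (hv : ∀ s ≤ r, ∑ j, M s j * v j = 0) (j : Fin (r + 1)) :
    h j * v j * τ (v (Fin.last r)) = h (Fin.last r) * v (Fin.last r) * τ (v j) := by
  set u : Fin (r + 1) → R := fun j =>
    h j * v j * τ (v (Fin.last r)) - h (Fin.last r) * v (Fin.last r) * τ (v j) with hu
  have hul : u (Fin.last r) = 0 := by simp [hu]
  have hsum : ∀ s < r, ∑ j, τ (M s j) * u j = 0 := by
    intro s hs
    have e1 : ∑ j, τ (M s j) * u j = τ (v (Fin.last r)) * ∑ j, M (s + 1) j * v j -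
        h (Fin.last r) * v (Fin.last r) * τ (∑ j, M s j * v j) := by
      rw [map_sum, Finset.mul_sum, Finset.mul_sum, ← Finset.sum_sub_distrib]
      refine Finset.sum_congr rfl fun j _ => ?_
      rw [hM, map_mul]
      simp only [hu]
      ring
    rw [e1, hv (s + 1) hs, hv s hs.le, map_zero, mul_zero, mul_zero, sub_zero]
  have hw : (fun j : Fin r => u j.castSucc) = 0 := by
    by_contra hne
    have h2 : (Matrix.of fun s j : Fin r => τ (M s j.castSucc)).det = 0 := by
      apply Matrix.exists_mulVec_eq_zero_iff.mp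
      refine ⟨_, hne, ?_⟩
      funext s
      have h3 := hsum s s.2
      rw [Fin.sum_univ_castSucc, hul, mul_zero, add_zero] at h3
      simpa only [Matrix.mulVec, dotProduct, Pi.zero_apply, Matrix.of_apply] using h3
    have h4 : (Matrix.of fun s j : Fin r => τ (M s j.castSucc)) =
        τ.mapMatrix (Matrix.of fun s j : Fin r => M s j.castSucc) := by
      ext s j; rfl
    rw [h4, ← RingHom.map_det] at h2
    exact hD ((map_eq_zero_iff τ hτ).mp h2)
  have hall : u j = 0 := by
    refine Fin.lastCases hul (fun i => ?_) j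
    exact congrFun hw i
  exact sub_eq_zero.mp hall

end GLR
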