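import Pool.Agent.Helper49.GL.Z0

namespace GLR

open Polynomial

open Classical in
/-- The number of roots in `x₀ + ℤ`. -/
private noncomputable def orb (x₀ : ℚ) (A : ℚ[X]) : ℕ :=
  A.roots.countP fun r => ∃ k : ℤ, r - x₀ = k

private lemma orb_mul (x₀ : ℚ) {A B : ℚ[X]} (hA : A ≠ 0) (hB : B ≠ 0) :
    orb x₀ (A * B) = orb x₀ A + orb x₀ B := by
  classical
  rw [orb, orb, orb, roots_mul (mul_ne_zero hA hB), Multiset.countP_add]

private lemma orb_pow (x₀ : ℚ) (A : ℚ[X]) (n : ℕ) : orb x₀ (A ^ n) = n * orb x₀ A := by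
  classical
  rw [orb, orb, roots_pow, Multiset.countP_nsmul]

private lemma orb_one (x₀ : ℚ) : orb x₀ 1 = 0 := by
  classical
  rw [orb, roots_one]
  simp

private lemma orb_prod (x₀ : ℚ) {ι : Type} (s : Finset ι) (f : ι → ℚ[X])
    (hf : ∀ i ∈ s, f i ≠ 0) : orb x₀ (∏ i ∈ s, f i) = ∑ i ∈ s, orb x₀ (f i) := by
  classical
  induction s using Finset.induction_on with
  | empty => simp [orb_one]
  | insert a s ha ih =>
    rw [Finset.prod_insert ha, Finset.sum_insert ha, orb_mul x₀ (hf a (Finset.mem_insert_self a s))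
      (Finset.prod_ne_zero_iff.2 fun i hi => hf i (Finset.mem_insert_of_mem hi)),
      ih fun i hi => hf i (Finset.mem_insert_of_mem hi)]

private lemma X_sub_one : (X - C 1 : ℚ[X]) = C 1 * X + C (-1) := by
  rw [C_1, one_mul, C_neg, C_1, sub_eq_add_neg]

private lemma orb_comp (x₀ : ℚ) (A : ℚ[X]) : orb x₀ (A.comp (X - C 1)) = orb x₀ A := by
  classical
  have h := map_roots_comp_C_mul_X_add_C A 1 (-1) isUnit_one
  rw [X_sub_one, orb, orb, ← h, Multiset.countP_map, Multiset.countP_eq_card_filter]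
  congr 1
  refine Multiset.filter_congr fun x _ => ?_
  constructor
  · rintro ⟨k, hk⟩
    refine ⟨k - 1, ?_⟩
    push_cast
    rw [← hk]
    ring
  · rintro ⟨k, hk⟩
    refine ⟨k + 1, ?_⟩
    push_cast
    rw [← hk]
    ring

private lemma comp_ne_zero' {A : ℚ[X]} (hA : A ≠ 0) : A.comp (X - C 1) ≠ 0 := by
  have h : (X - C 1 : ℚ[X]) = X + C (-1) := by rw [C_neg, sub_eq_add_neg]
  rw [h]
  exact fun h0 => hA (comp_X_add_C_eq_zero_iff.1 h0)

private lemma orb_X_add_C (x₀ c : ℚ) (h : ∀ k : ℤ, - c - x₀ ≠ k) : orb x₀ (X + C c) = 0 := by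
  classical
  rw [orb, roots_X_add_C, Multiset.countP_eq_zero]
  intro r hr
  rw [Multiset.mem_singleton] at hr
  subst hr
  rintro ⟨k, hk⟩
  exact h k hk

private lemma orb_X_add_C_self (c : ℚ) : orb (-c) (X + C c) = 1 := by
  classical
  rw [orb, roots_X_add_C, ← Multiset.cons_zero, Multiset.countP_cons_of_pos, Multiset.countP_zero]
  exact ⟨0, by simp⟩

private lemma orb_hcol {J : ℕ} (c : Fin J → ℚ) (hc : ∀ l l', l ≠ l' → ∀ k : ℤ, c l - c l' ≠ k)
    (α : Fin J → ℕ) (l : Fin J) : orb (-c l) (hcol c α) = α l := by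
  rw [hcol, orb_prod _ _ _ fun i _ => pow_ne_zero _ (X_add_C_ne_zero _),
    Finset.sum_eq_single l]
  · rw [orb_pow, orb_X_add_C_self, mul_one]
  · intro l' _ hl'
    rw [orb_pow, orb_X_add_C, mul_zero]
    intro k hk
    refine hc l l' (Ne.symm hl') k ?_
    rw [← hk]
    ring
  · intro h
    exact absurd (Finset.mem_univ l) h

private lemma hcol_ne_zero {J : ℕ} (c : Fin J → ℚ) (α : Fin J → ℕ) : hcol c α ≠ 0 :=
  Finset.prod_ne_zero_iff.2 fun _ _ => pow_ne_zero _ (X_add_C_ne_zero _)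

/-- GI-Z2. Count the roots in one `ℤ`-orbit. For `A ≠ 0` let `orb x₀ A` be the number of roots
(with multiplicity, `A.roots.filter`/`countP`) in `x₀ + ℤ`. It is additive on products
(`roots_mul`, `roots_pow`, `roots_prod`), invariant under `A ↦ A.comp (X - C 1)` (the roots are
translated by `1`), and for `X + C c` it is `1` if `-c ∈ x₀ + ℤ`, else `0`. With `x₀ = - c l` the
identity gives `α l + orb A + orb B = α' l + orb B + orb A` because the other `c l'` are not
congruent to `c l` modulo `ℤ`. -/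
theorem exps_eq {J : ℕ} (c : Fin J → ℚ) (hc : ∀ l l', l ≠ l' → ∀ k : ℤ, c l - c l' ≠ k)
    (α α' : Fin J → ℕ) (A B : ℚ[X]) (hA : A ≠ 0) (hB : B ≠ 0)
    (h : hcol c α * A * B.comp (X - C 1) = hcol c α' * B * A.comp (X - C 1)) : α = α' := by
  funext l
  have h1 := congrArg (orb (-c l)) h
  rw [orb_mul _ (mul_ne_zero (hcol_ne_zero c α) hA) (comp_ne_zero' hB),
    orb_mul _ (hcol_ne_zero c α) hA, orb_mul _ (mul_ne_zero (hcol_ne_zero c α') hB)
    (comp_ne_zero' hA), orb_mul _ (hcol_ne_zero c α') hB, orb_comp, orb_comp,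
    orb_hcol c hc, orb_hcol c hc] at h1
  omega

end GLR
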