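import Pool.Agent.Helper49.GL.Z0

namespace GLR

open Polynomial

/-- GI-Z3. A periodic rational function is constant. Choose a rational `x₀` smaller than all roots of
`B`, so `B (x₀ - t) ≠ 0` for all `t : ℕ`, put `κ = A(x₀)/B(x₀)`; by induction
`A (x₀ - t) = κ B (x₀ - t)`, so `A - κ B` has infinitely many zeros. -/
theorem proportional (A B : ℚ[X]) (hB : B ≠ 0)
    (h : A * B.comp (X - C 1) = B * A.comp (X - C 1)) : ∃ κ : ℚ, A = C κ * B := by
  obtain ⟨b, hb⟩ := (B.roots.toFinset.finite_toSet).bddBelow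
  have hne : ∀ t : ℕ, B.eval (b - 1 - (t : ℚ)) ≠ 0 := by
    intro t h0
    have h1 : b - 1 - (t : ℚ) ∈ (B.roots.toFinset : Set ℚ) := by
      rw [Finset.mem_coe, Multiset.mem_toFinset, Polynomial.mem_roots hB]
      exact h0
    have h2 := hb h1
    have h3 : (0 : ℚ) ≤ (t : ℚ) := Nat.cast_nonneg t
    linarith
  refine ⟨A.eval (b - 1) / B.eval (b - 1), ?_⟩
  set κ : ℚ := A.eval (b - 1) / B.eval (b - 1) with hκ
  have hne0 : B.eval (b - 1) ≠ 0 := by
    have := hne 0
    rwa [Nat.cast_zero, sub_zero] at this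
  have key : ∀ t : ℕ, A.eval (b - 1 - (t : ℚ)) = κ * B.eval (b - 1 - (t : ℚ)) := by
    intro t
    induction t with
    | zero => rw [Nat.cast_zero, sub_zero, hκ, div_mul_cancel₀ _ hne0]
    | succ t ih =>
      have h1 := congrArg (Polynomial.eval (b - 1 - (t : ℚ))) h
      simp only [Polynomial.eval_mul, Polynomial.eval_comp, Polynomial.eval_sub,
        Polynomial.eval_X, Polynomial.eval_C] at h1
      have h2 : b - 1 - ((t + 1 : ℕ) : ℚ) = b - 1 - (t : ℚ) - 1 := by
        push_cast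
        ring
      rw [h2]
      rw [ih] at h1
      have h3 : B.eval (b - 1 - (t : ℚ)) * A.eval (b - 1 - (t : ℚ) - 1) =
          B.eval (b - 1 - (t : ℚ)) * (κ * B.eval (b - 1 - (t : ℚ) - 1)) := by
        rw [← h1]
        ring
      exact mul_left_cancel₀ (hne t) h3
  refine Polynomial.eq_of_infinite_eval_eq _ _ ?_
  refine Set.Infinite.mono (s := Set.range fun t : ℕ => b - 1 - (t : ℚ)) ?_ ?_
  · rintro _ ⟨t, rfl⟩
    simp only [Set.mem_ofPred_eq, Polynomial.eval_mul, Polynomial.eval_C]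
    exact key t
  · refine Set.infinite_range_of_injective ?_
    intro s t hst
    have hst' : b - 1 - (s : ℚ) = b - 1 - (t : ℚ) := hst
    have : (s : ℚ) = (t : ℚ) := by linarith
    exact_mod_cast this

/-- GI-Z3. Recurrence of the Casorati entries (`Finset.prod_range_succ'`, `Polynomial.prod_comp`). -/
theorem cas_succ {J : ℕ} (c : Fin J → ℚ) (i : ℕ) (α : Fin J → ℕ) (s : ℕ) :
    cas c i α (s + 1) = hcol c α * (cas c i α s).comp (X - C 1) := by
  unfold cas hcol
  rw [Polynomial.mul_comp, Polynomial.pow_comp, Polynomial.prod_comp]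
  have h1 : ((X - C ((s + 1 : ℕ) : ℚ)) : ℚ[X]) = (X - C (s : ℚ)).comp (X - C 1) := by
    rw [Polynomial.sub_comp, Polynomial.X_comp, Polynomial.C_comp]
    push_cast
    rw [map_add]
    ring
  have h2 : ∀ l : Fin J, ((∏ s' ∈ Finset.range (s + 1), (X + C (c l - (s' : ℚ)))) ^ α l : ℚ[X]) =
      (X + C (c l)) ^ α l *
        ((∏ s' ∈ Finset.range s, (X + C (c l - (s' : ℚ)))) ^ α l : ℚ[X]).comp (X - C 1) := by
    intro l
    rw [Polynomial.pow_comp, Polynomial.prod_comp, ← mul_pow, Finset.prod_range_succ', mul_comm]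
    congr 1
    congr 1
    · rw [Nat.cast_zero, sub_zero]
    · refine Finset.prod_congr rfl fun s' _ => ?_
      rw [Polynomial.add_comp, Polynomial.X_comp, Polynomial.C_comp]
      push_cast
      rw [show c l - ((s' : ℚ) + 1) = c l - (s' : ℚ) - 1 by ring, map_sub]
      ring
  rw [h1, Finset.prod_congr rfl fun l _ => h2 l, Finset.prod_mul_distrib]
  ring

theorem cas_zero {J : ℕ} (c : Fin J → ℚ) (i : ℕ) (α : Fin J → ℕ) : cas c i α 0 = X ^ i := by
  simp [cas]

end GLR
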