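import Pool.Agent.Helper49.GL.Z1
import Pool.Agent.Helper49.GL.Z2
import Pool.Agent.Helper49.GL.Z3

namespace GLR

open Polynomial

private theorem z4_inj : Function.Injective (Polynomial.compRingHom (X - C 1 : ℚ[X])) := by
  intro A B h
  have h1 : A.comp (X - C 1) = B.comp (X - C 1) := h
  have key : ∀ A : ℚ[X], (A.comp (X - C 1)).comp (X + C 1) = A := by
    intro A
    rw [Polynomial.comp_assoc]
    simp
  rw [← key A, ← key B, h1]

private theorem z4_hcol {J : ℕ} (c : Fin J → ℚ) (α : Fin J → ℕ) : hcol c α ≠ 0 := by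
  unfold hcol
  exact Finset.prod_ne_zero_iff.mpr fun l _ => pow_ne_zero _ (Polynomial.X_add_C_ne_zero _)

/-- GI-Z4. The Casorati determinant of distinct columns is not zero. Induction on `r` (apply the
induction hypothesis to `e ∘ Fin.castSucc`). If the determinant for `r + 1` is `0`, take `v` from
`ker_last`; `casorati_prop` with `τ = Polynomial.compRingHom (X - C 1)` (injective), `cas_succ`:
`h j v j τ(v last) = h last v last τ(v j)` for all `j`. If `v j ≠ 0` then `exps_eq` gives
`(e j).2 = (e last).2`, cancel `hcol`, and `proportional` gives `v j = κ j * v last`; put `κ j = 0`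
if `v j = 0`. Row `0` (`cas_zero`): `∑ j, X ^ (e j).1 * v j = 0`, so `∑ j, κ j X ^ (e j).1 = 0`. The
coefficient of `X ^ (e last).1` is the sum of the `κ j` with `(e j).1 = (e last).1`; a nonzero
`κ j` forces `(e j).2 = (e last).2`, so `j = last` by injectivity, and `κ last = 1`. -/
theorem cas_det_ne_zero {J : ℕ} (c : Fin J → ℚ) (hc : ∀ l l', l ≠ l' → ∀ k : ℤ, c l - c l' ≠ k)
    (r : ℕ) (e : Fin r → ℕ × (Fin J → ℕ)) (he : Function.Injective e) :
    (Matrix.of fun s j : Fin r => cas c (e j).1 (e j).2 (s : ℕ)).det ≠ 0 := by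
  induction r with
  | zero =>
    rw [Matrix.det_fin_zero]
    exact one_ne_zero
  | succ r ih =>
    intro h0
    have hI := ih (fun j => e j.castSucc) (fun a b hab => Fin.castSucc_injective r (he hab))
    obtain ⟨v, hv, hvl⟩ := ker_last
      (Matrix.of fun s j : Fin (r + 1) => cas c (e j).1 (e j).2 (s : ℕ)) h0 hI
    have hrow : ∀ s : ℕ, s ≤ r → ∑ j, cas c (e j).1 (e j).2 s * v j = 0 := by
      intro s hs
      have h1 := congrFun hv ⟨s, Nat.lt_succ_of_le hs⟩
      exact h1
    have hcas := casorati_prop (Polynomial.compRingHom (X - C 1 : ℚ[X])) z4_inj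
      (fun j : Fin (r + 1) => hcol c (e j).2) (fun s j => cas c (e j).1 (e j).2 s)
      (fun s j => cas_succ c _ _ s) hI v hrow
    have hex : ∀ j, ∃ κ : ℚ, v j = C κ * v (Fin.last r) ∧ (κ ≠ 0 → (e j).2 = (e (Fin.last r)).2) := by
      intro j
      by_cases hj : v j = 0
      · exact ⟨0, by rw [hj, C_0, zero_mul], fun h => absurd rfl h⟩
      · have h2 : hcol c (e j).2 * v j * (v (Fin.last r)).comp (X - C 1) =
            hcol c (e (Fin.last r)).2 * v (Fin.last r) * (v j).comp (X - C 1) := hcas j
        have h3 := exps_eq c hc (e j).2 (e (Fin.last r)).2 (v j) (v (Fin.last r)) hj hvl h2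
        rw [h3, mul_assoc, mul_assoc] at h2
        have h4 := mul_left_cancel₀ (z4_hcol c _) h2
        obtain ⟨κ, hκ⟩ := proportional (v j) (v (Fin.last r)) hvl h4
        exact ⟨κ, hκ, fun _ => h3⟩
    choose κ hκ hκ' using hex
    have hlast : κ (Fin.last r) = 1 := by
      have h5 := hκ (Fin.last r)
      have h6 : (1 : ℚ[X]) * v (Fin.last r) = C (κ (Fin.last r)) * v (Fin.last r) := by
        rw [one_mul]
        exact h5
      have h7 := mul_right_cancel₀ hvl h6
      rw [← C_1] at h7
      exact (C_injective h7).symm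
    have h8 : (∑ j, X ^ (e j).1 * C (κ j)) * v (Fin.last r) = 0 := by
      rw [Finset.sum_mul]
      rw [← hrow 0 (Nat.zero_le r)]
      refine Finset.sum_congr rfl fun j _ => ?_
      rw [cas_zero, mul_assoc, ← hκ j]
    have h9 := (mul_eq_zero.mp h8).resolve_right hvl
    have h10 := congrArg (fun p : ℚ[X] => p.coeff (e (Fin.last r)).1) h9
    simp only [Polynomial.finsetSum_coeff, Polynomial.coeff_zero, Polynomial.coeff_mul_C,
      Polynomial.coeff_X_pow] at h10
    rw [Finset.sum_eq_single (Fin.last r)] at h10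
    · rw [if_pos rfl, one_mul, hlast] at h10
      exact one_ne_zero h10
    · intro j _ hj
      by_cases h11 : (e (Fin.last r)).1 = (e j).1
      · by_cases h12 : κ j = 0
        · rw [h12, mul_zero]
        · exact absurd (he (Prod.ext h11.symm (hκ' j h12))) hj
      · rw [if_neg h11, zero_mul]
    · intro h
      exact absurd (Finset.mem_univ _) h

end GLR
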